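import Pool.Agent.Lib.MP_b4a71d_al.TIdeal

section

/-!
# MP_b4a71d_al: the certificate of the type 2222 in degree 8
-/

set_option autoImplicit false

namespace Pool.Agent.Lib.MP_b4a71d_al.Eng

open Tr

/-- The type 2222. -/
def cx2222 : Cx := ⟨7, 6, [(2, 4, true), (4, 7, true)], (2, 4, true), [([4, 5, 6], [1, 2, 3], true)]⟩

def tl2222 : Tb :=
  (.n (.n (.n (.n (.n (.n (.n .e ⟨2107182, 55, [-6, -12, 36, 0], .low 0 3 [0, 0, 2, 3, 4, 5, 6]⟩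
      .e) ⟨2107630, 49, [0, -12, 12, 0], .lam 2 1 [0, 0, 3, 4, 0, 5, 6]⟩ (.n .e ⟨2107742, 52,
      [6, 0, -12, 0], .lam 2 1 [0, 0, 3, 4, 5, 0, 6]⟩ .e)) ⟨2107763, 47, [0, 0, 12, 0], .lam 2
      1 [0, 0, 3, 4, 5, 6, 0]⟩ (.n (.n .e ⟨2114798, 85, [6, 12, -36, -12], .lam 2 1 [0, 0, 4,
      3, 0, 5, 6]⟩ .e) ⟨2114910, 96, [-12, -18, 36, 12], .lam 2 1 [0, 0, 4, 3, 5, 0, 6]⟩ .e))
      ⟨2114931, 99, [6, 18, -36, -12], .lam 2 1 [0, 0, 4, 3, 5, 6, 0]⟩ (.n (.n (.n .e ⟨2116254,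
      194, [-28, -20, 56, 14], .sym 3 [4, 5, 2, 0, 0, 6, 3]⟩ .e) ⟨2116275, 205, [20, 24, -80,
      -18], .sym 2 [0, 0, 4, 5, 2, 6, 3]⟩ (.n .e ⟨2116499, 198, [12, 6, -48, -6], .lam 2 1 [0,
      0, 4, 5, 6, 0, 3]⟩ .e)) ⟨2164526, 51, [2, 4, -12, 0], .low 0 3 [0, 2, 0, 3, 4, 5, 6]⟩ (.n
      (.n .e ⟨2164974, 43, [0, 4, -4, 0], .lam 2 1 [0, 3, 0, 4, 0, 5, 6]⟩ .e) ⟨2165086, 45,
      [-2, 0, 4, 0], .lam 2 1 [0, 3, 0, 4, 5, 0, 6]⟩ .e))) ⟨2165107, 38, [0, 0, -4, 0], .lam 2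
      1 [0, 3, 0, 4, 5, 6, 0]⟩ (.n (.n (.n (.n .e ⟨2175278, 54, [-2, -4, 12, 0], .lam 2 1 [0,
      3, 0, 0, 4, 5, 6]⟩ .e) ⟨2177070, 39, [0, -4, 4, 0], .lam 4 1 [0, 2, 3, 5, 0, 6, 0]⟩ (.n
      .e ⟨2177350, 40, [2, 0, -4, 0], .lam 4 1 [0, 2, 3, 5, 6, 0, 0]⟩ .e)) ⟨2177392, 37, [0, 0,
      4, 0], .bas 2⟩ (.n (.n .e ⟨2179310, 84, [-2, -4, 12, 4], .lam 2 1 [0, 3, 4, 0, 0, 5, 6]⟩
      .e) ⟨2179422, 95, [4, 6, -12, -4], .lam 2 1 [0, 3, 4, 0, 5, 0, 6]⟩ .e)) ⟨2179443, 98,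
      [-2, -6, 12, 4], .lam 2 1 [0, 3, 4, 0, 5, 6, 0]⟩ (.n (.n (.n .e ⟨2180654, 69, [2, 4, -12,
      -4], .sym 3 [0, 2, 4, 3, 0, 5, 6]⟩ .e) ⟨2180934, 77, [-4, -6, 12, 4], .sym 3 [0, 2, 4, 3,
      5, 0, 6]⟩ .e) ⟨2180976, 80, [2, 6, -12, -4], .sym 3 [0, 2, 4, 3, 5, 6, 0]⟩ (.n (.n .e
      ⟨2181662, 195, [0, 4, -8, -2], .lam 4 1 [0, 2, 5, 6, 0, 3, 0]⟩ .e) ⟨2181683, 164, [2, 0,
      -16, -2], .lam 4 1 [0, 2, 5, 6, 0, 0, 3]⟩ .e)))) ⟨2181830, 166, [-10, -8, 32, 6], .low 0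
      3 [0, 2, 3, 4, 5, 0, 6]⟩ (.n (.n (.n (.n (.n .e ⟨2181872, 174, [15, 18, -76, -16], .sym 3
      [0, 2, 4, 5, 3, 6, 0]⟩ .e) ⟨2182019, 134, [-4, -2, 16, 2], .lam 4 1 [0, 2, 0, 5, 6, 0,
      3]⟩ (.n .e ⟨2182040, 158, [0, -2, 8, 2], .lam 4 1 [0, 2, 0, 5, 6, 3, 0]⟩ .e)) ⟨2229486,
      93, [-2, -4, 12, 4], .lam 2 1 [0, 4, 0, 3, 0, 5, 6]⟩ (.n (.n .e ⟨2229598, 105, [4, 6,
      -12, -4], .lam 2 1 [0, 4, 0, 3, 5, 0, 6]⟩ .e) ⟨2229619, 109, [-2, -6, 12, 4], .lam 2 1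
      [0, 4, 0, 3, 5, 6, 0]⟩ .e)) ⟨2230942, 184, [-10, -8, 8, 10], .sym 3 [4, 2, 0, 5, 0, 6,
      3]⟩ (.n (.n (.n .e ⟨2230963, 200, [2, -4, -8, 2], .lam 2 1 [0, 4, 0, 5, 0, 6, 3]⟩ .e)
      ⟨2231187, 169, [-4, 2, 8, -2], .lam 2 1 [0, 4, 0, 5, 6, 0, 3]⟩ .e) ⟨2236654, 71, [-2, 4,
      4, 4], .lam 4 1 [0, 0, 2, 0, 3, 5, 6]⟩ (.n (.n .e ⟨2236766, 87, [0, 6, -4, -4], .lam 2 1
      [0, 4, 3, 0, 5, 0, 6]⟩ .e) ⟨2236787, 90, [-2, -6, 4, 4], .lam 2 1 [0, 4, 3, 0, 5, 6, 0]⟩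
      .e))) ⟨2237998, 65, [6, 12, -36, -4], .lam 4 1 [0, 0, 2, 3, 0, 5, 6]⟩ (.n (.n (.n (.n .e
      ⟨2238278, 72, [-8, -14, 36, 4], .lam 4 1 [0, 5, 2, 3, 0, 0, 6]⟩ .e) ⟨2238320, 73, [6, 14,
      -36, -4], .lam 4 1 [0, 5, 2, 3, 0, 6, 0]⟩ (.n .e ⟨2239006, 188, [0, -4, 16, 6], .lam 4 1
      [0, 5, 2, 6, 0, 3, 0]⟩ .e)) ⟨2239027, 152, [2, 4, -16, -6], .lam 4 1 [0, 5, 2, 6, 0, 0,
      3]⟩ (.n (.n .e ⟨2239174, 153, [-10, -20, 48, 10], .low 0 2 [0, 2, 3, 4, 5, 0, 6]⟩ .e)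
      ⟨2239216, 189, [6, 20, -48, -10], .low 0 2 [0, 2, 3, 4, 5, 6, 0]⟩ .e)) ⟨2239363, 129,
      [-4, -6, 16, 6], .lam 4 1 [0, 0, 2, 5, 6, 0, 3]⟩ (.n (.n (.n .e ⟨2239384, 148, [0, 6,
      -16, -6], .lam 4 1 [0, 0, 2, 5, 6, 3, 0]⟩ .e) ⟨2248862, 197, [-14, -8, 12, 4], .sym 3 [0,
      2, 4, 5, 0, 6, 3]⟩ .e) ⟨2248883, 209, [21, 60, -148, -56], .sym 3 [0, 4, 5, 0, 2, 6, 3]⟩
      (.n (.n .e ⟨2249107, 201, [16, 14, -64, -10], .lam 4 1 [0, 5, 0, 0, 6, 2, 3]⟩ .e)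
      ⟨2249758, 181, [7, 4, -20, -8], .lam 4 1 [0, 0, 5, 2, 0, 3, 6]⟩ .e))))) ⟨2249779, 204,
      [17, 24, -92, -20], .lam 4 1 [0, 5, 0, 2, 0, 6, 3]⟩ (.n (.n (.n (.n (.n (.n .e ⟨2249926,
      144, [-11, -8, 20, 8], .lam 4 1 [0, 0, 5, 2, 3, 0, 6]⟩ .e) ⟨2249968, 173, [-17, -20, 92,
      20], .lam 4 1 [0, 5, 0, 2, 3, 6, 0]⟩ (.n .e ⟨2250115, 185, [-15, -16, 44, 8], .low 0 2
      [0, 2, 4, 3, 5, 0, 6]⟩ .e)) ⟨2250136, 207, [-13, -12, 68, 20], .low 0 2 [0, 2, 4, 3, 5,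
      6, 0]⟩ (.n (.n .e ⟨2251795, 202, [-8, 2, 32, 2], .lam 4 1 [0, 5, 0, 6, 0, 2, 3]⟩ .e)
      ⟨2251907, 199, [-12, -22, 64, 14], .sym 2 [0, 4, 5, 6, 2, 0, 3]⟩ .e)) ⟨2251928, 206,
      [-15, -8, 52, 16], .sym 3 [2, 4, 5, 6, 0, 3, 0]⟩ (.n (.n (.n .e ⟨2623278, 53, [4, 8, -24,
      0], .low 0 3 [2, 0, 0, 3, 4, 5, 6]⟩ .e) ⟨2623726, 48, [0, 8, -8, 0], .sym 2 [0, 0, 2, 4,
      3, 5, 6]⟩ (.n .e ⟨2623838, 50, [-4, 0, 8, 0], .sym 2 [0, 0, 2, 4, 5, 3, 6]⟩ .e))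
      ⟨2623859, 42, [0, 0, -8, 0], .sym 2 [0, 0, 2, 4, 5, 6, 3]⟩ (.n (.n .e ⟨2634030, 56, [-4,
      -8, 24, 0], .lam 2 1 [3, 0, 0, 0, 4, 5, 6]⟩ .e) ⟨2635822, 44, [0, -8, 8, 0], .sym 2 [0,
      2, 3, 4, 0, 5, 6]⟩ .e))) ⟨2636102, 46, [4, 0, -8, 0], .sym 2 [0, 2, 3, 4, 5, 0, 6]⟩ (.n
      (.n (.n (.n .e ⟨2636144, 41, [0, 0, 8, 0], .sym 2 [0, 2, 3, 4, 5, 6, 0]⟩ .e) ⟨2638062,
      86, [-4, -8, 24, 8], .lam 2 1 [3, 0, 4, 0, 0, 5, 6]⟩ (.n .e ⟨2638174, 97, [8, 12, -24,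
      -8], .lam 2 1 [3, 0, 4, 0, 5, 0, 6]⟩ .e)) ⟨2638195, 100, [-4, -12, 24, 8], .lam 2 1 [3,
      0, 4, 0, 5, 6, 0]⟩ (.n (.n .e ⟨2639406, 70, [4, 8, -24, -8], .sym 3 [2, 0, 4, 3, 0, 5,
      6]⟩ .e) ⟨2639686, 78, [-8, -12, 24, 8], .sym 3 [2, 0, 4, 3, 5, 0, 6]⟩ .e)) ⟨2639728, 81,
      [4, 12, -24, -8], .sym 3 [2, 0, 4, 3, 5, 6, 0]⟩ (.n (.n (.n .e ⟨2640414, 192, [29, 34,
      -100, -30], .low 0 2 [2, 0, 4, 5, 0, 3, 6]⟩ .e) ⟨2640435, 196, [4, 0, -32, -4], .sym 2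
      [0, 2, 4, 5, 0, 6, 3]⟩ .e) ⟨2640582, 163, [-9, -18, 36, 14], .low 0 2 [2, 0, 4, 5, 3, 0,
      6]⟩ (.n (.n .e ⟨2640624, 175, [30, 36, -152, -32], .sym 3 [2, 0, 4, 5, 3, 6, 0]⟩ .e)
      ⟨2640771, 165, [-8, -4, 32, 4], .sym 2 [0, 2, 4, 5, 6, 0, 3]⟩ .e)))) ⟨2640792, 176, [26,
      24, -120, -24], .sym 3 [2, 0, 4, 5, 6, 3, 0]⟩ (.n (.n (.n (.n (.n .e ⟨2720046, 0, [0, 0,
      0, 0], .sym 3 [0, 2, 3, 0, 4, 5, 6]⟩ .e) ⟨2721838, 1, [0, 0, 0, 0], .sym 3 [0, 2, 3, 4,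
      0, 5, 6]⟩ (.n .e ⟨2722118, 2, [0, 0, 0, 0], .sym 3 [0, 2, 3, 4, 5, 0, 6]⟩ .e)) ⟨2722160,
      3, [0, 0, 0, 0], .sym 3 [0, 2, 3, 4, 5, 6, 0]⟩ (.n (.n .e ⟨2736174, 4, [0, 0, 0, 0], .sym
      3 [2, 3, 4, 0, 0, 5, 6]⟩ .e) ⟨2736454, 5, [0, 0, 0, 0], .sym 3 [2, 3, 4, 0, 5, 0, 6]⟩
      .e)) ⟨2736496, 6, [0, 0, 0, 0], .sym 3 [2, 3, 4, 0, 5, 6, 0]⟩ (.n (.n (.n .e ⟨2738694, 7,
      [0, 0, 0, 0], .sym 3 [2, 3, 4, 5, 0, 0, 6]⟩ .e) ⟨2738736, 8, [0, 0, 0, 0], .sym 3 [2, 3,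
      4, 5, 0, 6, 0]⟩ .e) ⟨2739072, 9, [0, 0, 0, 0], .sym 3 [2, 3, 4, 5, 6, 0, 0]⟩ (.n (.n .e
      ⟨2752750, 94, [4, 0, -16, -8], .lam 2 1 [3, 4, 0, 0, 0, 5, 6]⟩ .e) ⟨2752862, 106, [-4,
      -12, 16, 8], .lam 2 1 [3, 4, 0, 0, 5, 0, 6]⟩ .e))) ⟨2752883, 110, [4, 12, -16, -8], .lam
      2 1 [3, 4, 0, 0, 5, 6, 0]⟩ (.n (.n (.n (.n .e ⟨2754094, 74, [-8, -16, 48, 8], .sym 3 [2,
      4, 0, 3, 0, 5, 6]⟩ .e) ⟨2754374, 88, [12, 20, -48, -8], .sym 3 [2, 4, 0, 3, 5, 0, 6]⟩ (.n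
      .e ⟨2754416, 91, [-8, -20, 48, 8], .sym 3 [2, 4, 0, 3, 5, 6, 0]⟩ .e)) ⟨2755102, 187, [22,
      20, -64, -24], .lam 2 1 [3, 4, 0, 5, 0, 0, 6]⟩ (.n (.n .e ⟨2755123, 168, [-4, 0, 24, 4],
      .sym 2 [4, 2, 0, 5, 0, 6, 3]⟩ .e) ⟨2755270, 146, [-14, -12, 64, 24], .sym 3 [2, 4, 0, 5,
      3, 0, 6]⟩ .e)) ⟨2755312, 186, [34, 12, -64, -24], .sym 3 [2, 4, 0, 5, 3, 6, 0]⟩ (.n (.n
      (.n .e ⟨2755459, 137, [8, 4, -24, -4], .sym 2 [4, 2, 0, 5, 6, 0, 3]⟩ .e) ⟨2755480, 161,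
      [4, 4, -24, -4], .sym 2 [4, 2, 0, 5, 6, 3, 0]⟩ .e) ⟨2764846, 60, [4, 16, -32, 0], .lam 4
      1 [2, 0, 3, 0, 0, 5, 6]⟩ (.n (.n .e ⟨2765126, 61, [-8, -8, 32, 0], .lam 4 1 [2, 0, 3, 0,
      5, 0, 6]⟩ .e) ⟨2765168, 62, [4, 8, -32, 0], .lam 4 1 [2, 0, 3, 0, 5, 6, 0]⟩ .e))))))

def tr2222 : Tb :=
  (.n (.n (.n (.n (.n (.n (.n .e ⟨2767408, 34, [0, 8, 0, 0], .low 0 3 [2, 3, 4, 5, 0, 6, 0]⟩ .e)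
      ⟨2767744, 16, [-4, 0, 0, 0], .sym 2 [4, 2, 3, 5, 6, 0, 0]⟩ (.n .e ⟨2773022, 208, [46, 56,
      -144, -48], .sym 2 [4, 2, 5, 0, 0, 3, 6]⟩ .e)) ⟨2773043, 193, [0, -4, -24, -4], .sym 2
      [4, 5, 2, 0, 0, 6, 3]⟩ (.n (.n .e ⟨2773190, 180, [-42, -52, 144, 48], .sym 2 [4, 2, 5, 0,
      3, 0, 6]⟩ .e) ⟨2773232, 203, [50, 60, -272, -56], .sym 2 [4, 5, 2, 0, 3, 6, 0]⟩ .e))
      ⟨2773379, 156, [-4, 0, 24, 4], .sym 2 [4, 5, 2, 0, 6, 0, 3]⟩ (.n (.n (.n .e ⟨2773400,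
      191, [0, 0, -24, -4], .sym 2 [4, 5, 2, 0, 6, 3, 0]⟩ .e) ⟨2774534, 20, [-4, -4, 0, 0],
      .lam 4 1 [2, 5, 6, 3, 0, 0, 0]⟩ (.n .e ⟨2774576, 19, [0, 4, 0, 0], .bas 1⟩ .e)) ⟨2774912,
      10, [4, 0, 0, 0], .bas 0⟩ (.n (.n .e ⟨2776067, 31, [4, 4, 0, 0], .sym 2 [4, 2, 5, 6, 0,
      0, 3]⟩ .e) ⟨2776088, 29, [0, -4, 0, 0], .sym 2 [4, 2, 5, 6, 0, 3, 0]⟩ .e))) ⟨2776256, 17,
      [8, 0, 0, 0], .sym 3 [2, 4, 5, 6, 3, 0, 0]⟩ (.n (.n (.n (.n .e ⟨3146990, 68, [-4, -8, 24,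
      8], .sym 3 [0, 2, 0, 4, 3, 5, 6]⟩ .e) ⟨3147102, 107, [8, 12, -24, -8], .lam 2 1 [4, 0, 0,
      3, 5, 0, 6]⟩ (.n .e ⟨3147123, 111, [-4, -12, 24, 8], .lam 2 1 [4, 0, 0, 3, 5, 6, 0]⟩ .e))
      ⟨3148446, 117, [20, 20, -72, -16], .low 0 2 [2, 0, 0, 4, 5, 3, 6]⟩ (.n (.n .e ⟨3148467,
      118, [-12, -20, 72, 16], .low 0 2 [2, 0, 0, 4, 5, 6, 3]⟩ .e) ⟨3148691, 104, [-8, -8, 40,
      8], .low 0 1 [2, 3, 4, 0, 0, 5, 6]⟩ .e)) ⟨3154158, 64, [2, 8, -16, -4], .lam 2 1 [4, 0,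
      3, 0, 0, 5, 6]⟩ (.n (.n (.n .e ⟨3154270, 76, [-6, -6, 16, 4], .lam 2 1 [4, 0, 3, 0, 5, 0,
      6]⟩ .e) ⟨3154291, 79, [2, 6, -16, -4], .lam 2 1 [4, 0, 3, 0, 5, 6, 0]⟩ .e) ⟨3155502, 63,
      [0, 0, 0, 4], .bas 3⟩ (.n (.n .e ⟨3155782, 66, [2, 2, 0, -4], .lam 4 1 [5, 0, 2, 3, 0, 0,
      6]⟩ .e) ⟨3155824, 67, [0, -2, 0, 4], .lam 4 1 [5, 0, 2, 3, 0, 6, 0]⟩ .e)))) ⟨3156510,
      150, [6, 4, -28, -6], .lam 4 1 [5, 0, 2, 6, 0, 3, 0]⟩ (.n (.n (.n (.n (.n .e ⟨3156531,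
      131, [-2, -4, 28, 6], .lam 4 1 [5, 0, 2, 6, 0, 0, 3]⟩ .e) ⟨3156678, 133, [10, 8, -36,
      -10], .low 0 2 [2, 0, 3, 4, 5, 0, 6]⟩ (.n .e ⟨3156720, 151, [-6, -8, 36, 10], .low 0 2
      [2, 0, 3, 4, 5, 6, 0]⟩ .e)) ⟨3156867, 119, [4, 6, -28, -6], .low 0 1 [2, 4, 0, 0, 5, 6,
      3]⟩ (.n (.n .e ⟨3156888, 128, [-6, -6, 28, 6], .lam 2 1 [4, 0, 3, 5, 6, 0, 0]⟩ .e)
      ⟨3166366, 115, [-4, -6, 16, 4], .lam 4 1 [5, 0, 6, 0, 2, 3, 0]⟩ .e)) ⟨3166387, 122, [2,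
      6, -16, -4], .lam 4 1 [5, 0, 6, 0, 2, 0, 3]⟩ (.n (.n (.n .e ⟨3166611, 120, [-4, -8, 16,
      4], .lam 4 1 [5, 0, 6, 0, 0, 2, 3]⟩ .e) ⟨3167262, 143, [-19, -22, 56, 20], .lam 2 1 [4,
      0, 5, 3, 0, 0, 6]⟩ .e) ⟨3167283, 183, [-23, -30, 80, 32], .low 0 2 [2, 0, 4, 3, 0, 5, 6]⟩
      (.n (.n .e ⟨3167430, 127, [17, 20, -56, -20], .sym 3 [2, 4, 0, 0, 5, 3, 6]⟩ .e) ⟨3167472,
      145, [-21, -20, 56, 20], .lam 4 1 [5, 0, 6, 2, 3, 0, 0]⟩ .e))) ⟨3167619, 147, [27, 34,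
      -80, -32], .low 0 2 [2, 0, 4, 3, 5, 0, 6]⟩ (.n (.n (.n (.n .e ⟨3167640, 182, [19, 18,
      -56, -20], .lam 4 1 [5, 0, 6, 2, 0, 3, 0]⟩ .e) ⟨3169299, 101, [-4, -8, 16, 4], .lam 2 1
      [4, 0, 5, 6, 0, 3, 0]⟩ (.n .e ⟨3169411, 102, [2, 6, -16, -4], .lam 2 1 [4, 0, 5, 6, 3, 0,
      0]⟩ .e)) ⟨3169432, 82, [-4, -6, 16, 4], .low 0 1 [2, 3, 4, 0, 5, 6, 0]⟩ (.n (.n .e
      ⟨3211502, 83, [2, 0, -8, -4], .lam 2 1 [4, 0, 0, 0, 3, 5, 6]⟩ .e) ⟨3211614, 108, [-2, -6,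
      8, 4], .lam 2 1 [4, 3, 0, 0, 5, 0, 6]⟩ .e)) ⟨3211635, 112, [2, 6, -8, -4], .lam 2 1 [4,
      3, 0, 0, 5, 6, 0]⟩ (.n (.n (.n .e ⟨3212846, 75, [-4, -8, 24, 4], .sym 3 [4, 2, 0, 3, 0,
      5, 6]⟩ .e) ⟨3213126, 89, [6, 10, -24, -4], .sym 3 [4, 2, 0, 3, 5, 0, 6]⟩ .e) ⟨3213168,
      92, [-4, -10, 24, 4], .sym 3 [4, 2, 0, 3, 5, 6, 0]⟩ (.n (.n .e ⟨3213854, 160, [-2, -4,
      12, 2], .lam 4 1 [5, 2, 0, 6, 0, 3, 0]⟩ .e) ⟨3213875, 136, [-2, 0, 12, 2], .lam 4 1 [5,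
      2, 0, 6, 0, 0, 3]⟩ .e))))) ⟨3214022, 138, [10, 12, -36, -6], .low 0 2 [2, 3, 0, 4, 5, 0,
      6]⟩ (.n (.n (.n (.n (.n (.n .e ⟨3214064, 162, [-2, -8, 12, 2], .low 0 2 [2, 3, 0, 4, 5,
      6, 0]⟩ .e) ⟨3214211, 121, [4, 2, -12, -2], .low 0 1 [0, 4, 0, 2, 5, 6, 3]⟩ (.n .e
      ⟨3214232, 132, [2, 2, -12, -2], .low 0 1 [0, 4, 2, 0, 3, 5, 6]⟩ .e)) ⟨3223598, 57, [2, 8,
      -16, 0], .lam 4 1 [0, 2, 3, 0, 0, 5, 6]⟩ (.n (.n .e ⟨3223878, 58, [-4, -4, 16, 0], .lam 4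
      1 [0, 2, 3, 0, 5, 0, 6]⟩ .e) ⟨3223920, 59, [2, 4, -16, 0], .lam 4 1 [0, 2, 3, 0, 5, 6,
      0]⟩ .e)) ⟨3226118, 32, [-4, -4, 0, 0], .low 0 2 [2, 3, 4, 5, 0, 0, 6]⟩ (.n (.n (.n .e
      ⟨3226160, 30, [0, 4, 0, 0], .low 0 2 [2, 3, 4, 5, 0, 6, 0]⟩ .e) ⟨3226496, 14, [-2, 0, 0,
      0], .low 0 1 [2, 3, 4, 5, 6, 0, 0]⟩ .e) ⟨3231774, 178, [23, 28, -72, -24], .lam 2 1 [4,
      3, 5, 0, 0, 0, 6]⟩ (.n (.n .e ⟨3231795, 167, [0, -6, -4, 2], .lam 4 1 [5, 2, 6, 0, 0, 0,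
      3]⟩ .e) ⟨3231942, 142, [-21, -26, 72, 24], .lam 2 1 [4, 0, 5, 0, 3, 0, 6]⟩ .e)))
      ⟨3231984, 179, [23, 26, -72, -24], .lam 4 1 [5, 2, 6, 0, 3, 0, 0]⟩ (.n (.n (.n (.n .e
      ⟨3232131, 135, [-2, 4, 4, -2], .lam 4 1 [5, 2, 0, 0, 6, 0, 3]⟩ .e) ⟨3232152, 159, [-4,
      -8, 20, 6], .lam 4 1 [5, 2, 0, 0, 6, 3, 0]⟩ (.n .e ⟨3233286, 23, [-2, -2, 0, 0], .sym 2
      [4, 2, 5, 3, 0, 0, 6]⟩ .e)) ⟨3233328, 21, [0, 2, 0, 0], .sym 2 [4, 2, 5, 3, 0, 6, 0]⟩ (.n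
      (.n .e ⟨3233664, 11, [2, 0, 0, 0], .sym 2 [4, 2, 5, 3, 6, 0, 0]⟩ .e) ⟨3234819, 28, [2, 2,
      0, 0], .low 0 1 [2, 4, 5, 6, 0, 0, 3]⟩ .e)) ⟨3234840, 27, [0, -2, 0, 0], .low 0 1 [2, 4,
      5, 6, 0, 3, 0]⟩ (.n (.n (.n .e ⟨3235008, 15, [-2, 0, 0, 0], .low 0 1 [2, 4, 5, 6, 3, 0,
      0]⟩ .e) ⟨3309726, 126, [-16, -14, 56, 12], .lam 4 1 [5, 0, 0, 0, 2, 3, 6]⟩ .e) ⟨3309747,
      139, [10, 14, -56, -12], .lam 4 1 [5, 0, 0, 0, 2, 6, 3]⟩ (.n (.n .e ⟨3309971, 125, [12,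
      16, -56, -12], .lam 4 1 [5, 6, 0, 0, 0, 2, 3]⟩ .e) ⟨3310622, 170, [5, 4, -20, -6], .lam 2
      1 [4, 5, 0, 3, 0, 0, 6]⟩ .e)))) ⟨3310643, 172, [15, 18, -80, -16], .lam 2 1 [4, 5, 0, 3,
      0, 6, 0]⟩ (.n (.n (.n (.n (.n .e ⟨3310790, 140, [-7, -6, 20, 6], .sym 3 [0, 2, 0, 4, 5,
      3, 6]⟩ .e) ⟨3310832, 141, [-15, -16, 80, 16], .sym 3 [2, 4, 0, 0, 5, 6, 3]⟩ (.n .e
      ⟨3310979, 154, [-10, -16, 44, 10], .lam 2 1 [4, 5, 0, 0, 6, 0, 3]⟩ .e)) ⟨3311000, 177,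
      [-11, -6, 56, 12], .low 0 2 [2, 4, 0, 3, 5, 6, 0]⟩ (.n (.n .e ⟨3312659, 116, [-4, 0, 24,
      4], .lam 4 1 [5, 0, 0, 6, 0, 2, 3]⟩ .e) ⟨3312771, 123, [2, -2, -24, -4], .lam 2 1 [4, 5,
      0, 6, 0, 0, 3]⟩ .e)) ⟨3312792, 124, [-4, 2, 24, 4], .lam 2 1 [4, 5, 0, 6, 0, 3, 0]⟩ (.n
      (.n (.n .e ⟨3317790, 190, [0, 2, 12, 2], .lam 4 1 [5, 6, 2, 0, 0, 3, 0]⟩ .e) ⟨3317811,
      155, [0, -2, -12, -2], .lam 4 1 [5, 6, 2, 0, 0, 0, 3]⟩ .e) ⟨3317958, 157, [-6, -4, 28,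
      2], .low 0 2 [2, 4, 3, 0, 5, 0, 6]⟩ (.n (.n .e ⟨3318000, 171, [25, 30, -136, -28], .lam 2
      1 [4, 5, 0, 0, 3, 6, 0]⟩ .e) ⟨3318147, 130, [-2, 0, 12, 2], .lam 4 1 [5, 0, 2, 0, 6, 0,
      3]⟩ .e))) ⟨3318168, 149, [0, 0, -12, -2], .lam 4 1 [5, 0, 2, 0, 6, 3, 0]⟩ (.n (.n (.n (.n
      .e ⟨3319302, 24, [-2, -2, 0, 0], .sym 2 [4, 5, 2, 3, 0, 0, 6]⟩ .e) ⟨3319344, 22, [0, 2,
      0, 0], .sym 2 [4, 5, 2, 3, 0, 6, 0]⟩ (.n .e ⟨3319680, 12, [2, 0, 0, 0], .sym 2 [4, 5, 2,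
      3, 6, 0, 0]⟩ .e)) ⟨3320835, 35, [2, 2, 0, 0], .sym 2 [4, 5, 2, 6, 0, 0, 3]⟩ (.n (.n .e
      ⟨3320856, 33, [0, -2, 0, 0], .sym 2 [4, 5, 2, 6, 0, 3, 0]⟩ .e) ⟨3321024, 18, [4, 0, 0,
      0], .sym 3 [4, 5, 2, 6, 3, 0, 0]⟩ .e)) ⟨3334163, 113, [-8, -16, 32, 8], .low 0 1 [0, 4,
      0, 5, 6, 2, 3]⟩ (.n (.n (.n .e ⟨3334275, 114, [4, 12, -32, -8], .low 0 1 [0, 4, 5, 6, 2,
      0, 3]⟩ .e) ⟨3334296, 103, [-8, -12, 32, 8], .low 0 1 [0, 4, 2, 3, 5, 6, 0]⟩ .e) ⟨3335171,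
      26, [4, 4, 0, 0], .low 0 2 [2, 4, 5, 3, 0, 0, 6]⟩ (.n (.n .e ⟨3335192, 25, [0, -4, 0, 0],
      .low 0 2 [2, 4, 5, 3, 0, 6, 0]⟩ .e) ⟨3335360, 13, [-4, 0, 0, 0], .low 0 2 [2, 4, 5, 3, 6,
      0, 0]⟩ .e))))))

def tb2222 : Tb := .n tl2222 ⟨2767366, 36, [-8, -8, 0, 0], .low 0 3 [2, 3, 4, 5, 0, 0, 6]⟩ tr2222

def ce2222 : Cert where
  cx := cx2222
  D := 4
  bk := [2774912, 2774576, 2177392, 3155502]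
  tb := tb2222
  pl := [.low 0 2 [2, 4, 0, 3, 5, 0, 6], .lam 4 1 [5, 0, 0, 2, 6, 3, 0], .sym 3 [4, 2, 0, 5, 0, 3, 6]]
  fams := [(FB, [⟨[(b (l 1) (l 2))], [(l 3), (l 4), (l 5)], [(l 6)]⟩, ⟨[(b (l 1) (l 2))], [(b (l 3) (l
      4)), (l 5), (l 6)], []⟩]),
    (FA, []),
    (FC, [])]
  cases := [([([], [0, 2]), ([], []), ([], [])], [], [.cm 0 0 [-1, 7] 1]),
    ([([0], [2]), ([], []), ([], [])], [], [.zr 0 0 [1]]),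
    ([([2], [0, 1]), ([], []), ([], [])], [], [.zr 0 2 [1]]),
    ([([1, 2], [0]), ([], []), ([], [])], [], [.zr 0 1 [1]]),
    ([([0, 2], [1]), ([], [1]), ([], [])], [], [.zr 0 0 [1]]),
    ([([0, 2], [1]), ([], []), ([], [0])], [], [.zr 0 0 [1]])]

def z02222 : Zs :=
  [(0, [3, 0, 0, 0]), (2, [0, 0, -24, 0]), (1, [0, 1, 0, -1])]

def sv2222 : List (List (List (List ℤ))) :=
  [[[[-156, -228, 480, 144], [268, 476, -1064, -236], [-240, -372, 1080, 276]], [[-12, 36, -336,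
      -48], [282, 268, -552, -268], [66, 216, -672, -96]]], [], []]

theorem okt2222 : chkTb ce2222.cx ce2222.tb ce2222.D ce2222.bk = true :=
  chkTb_node (by decide +kernel) (by decide +kernel) (by decide +kernel)

theorem okz2222 : plainZ ce2222.cx ce2222.tb ce2222.pl [] = some z02222 := by decide +kernel

theorem oks2222 : famsV ce2222.cx ce2222.tb ce2222.fams = some sv2222 := by decide +kernel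

theorem okc2222 : chkCases ce2222 z02222 sv2222 ce2222.cases = true := by decide +kernel

theorem okv2222 : ce2222.cov 2 = true := by decide +kernel

theorem ok2222 : (ce2222.chk && ce2222.cov 2) = true :=
  Cert.ok_of (Cert.chk_of okt2222 (by decide) okz2222 oks2222 okc2222) okv2222

end Pool.Agent.Lib.MP_b4a71d_al.Eng
end

section

/-!
# MP_b4a71d_al: the certificate of the type 3221 in degree 8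
-/

set_option autoImplicit false

namespace Pool.Agent.Lib.MP_b4a71d_al.Eng

open Tr

/-- The type 3221. -/
def cx3221 : Cx := ⟨7, 5, [(2, 3, true), (3, 6, true)], (2, 3, true), [([3, 4, 5], [1, 2], true)]⟩

def tl3221 : Tb :=
  (.n (.n (.n (.n (.n (.n (.n .e ⟨2098405, 98, [-128, -8, 208, 96, -48, -60, 296, 208, -96, -48,
      -32, 32], .lam 2 1 [0, 0, 0, 0, 3, 4, 5]⟩ .e) ⟨2098853, 99, [-32, 40, -208, -224, 48,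
      -36, -104, 176, -32, -80, -224, -32], .lam 2 1 [0, 0, 0, 3, 0, 4, 5]⟩ .e) ⟨2098965, 102,
      [-32, -40, 272, 224, -48, -12, 72, -240, 96, 144, 96, 32], .lam 2 1 [0, 0, 0, 3, 4, 0,
      5]⟩ (.n .e ⟨2098986, 91, [0, 72, -144, -96, 48, 12, -72, 240, -96, -144, -96, -32], .lam
      2 1 [0, 0, 0, 3, 4, 5, 0]⟩ .e)) ⟨2105573, 92, [56, -40, -64, 0, 0, 24, -80, -64, 48, 48,
      32, -32], .lam 3 1 [0, 0, 2, 0, 4, 5, 0]⟩ (.n (.n .e ⟨2106917, 93, [-16, 32, 64, 32, 0,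
      0, 32, -32, 32, -64, 32, 32], .lam 3 1 [0, 0, 2, 4, 0, 5, 0]⟩ .e) ⟨2107141, 94, [32, -32,
      -32, -32, 0, 0, 0, 0, 0, 0, 0, -32], .lam 3 1 [0, 0, 2, 4, 5, 0, 0]⟩ (.n .e ⟨2107176, 90,
      [0, 0, 0, 0, 0, 0, 0, 0, 0, 0, 0, 32], .bas 11⟩ .e))) ⟨2109605, 110, [120, -40, -64, 64,
      0, 64, -128, -160, 80, 112, 160, -32], .lam 2 1 [0, 0, 3, 0, 0, 4, 5]⟩ (.n (.n (.n (.n .e
      ⟨2109717, 112, [-104, 120, 32, -128, 32, -40, 144, 288, -144, -144, -96, 32], .lam 2 1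
      [0, 0, 3, 0, 4, 0, 5]⟩ .e) ⟨2109738, 106, [88, -56, 0, 0, 0, 40, -144, -288, 144, 144,
      96, -32], .lam 2 1 [0, 0, 3, 0, 4, 5, 0]⟩ .e) ⟨2110501, 100, [0, 16, 64, 32, 0, 8, -16,
      -128, 64, 32, 32, 32], .sym 2 [0, 0, 3, 2, 0, 4, 5]⟩ (.n .e ⟨2110725, 103, [32, -48, -32,
      32, -32, 16, 0, 0, 0, 0, 0, -32], .sym 2 [0, 0, 3, 2, 4, 0, 5]⟩ .e)) ⟨2110760, 95, [-16,
      32, 0, 0, 0, -16, 0, 0, 0, 0, 0, 32], .sym 2 [0, 0, 3, 2, 4, 5, 0]⟩ (.n (.n .e ⟨2111509,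
      127, [-44, -2, 140, 104, -4, -25, 134, 28, -32, 20, -40, 40], .lam 3 1 [0, 0, 4, 0, 0, 2,
      5]⟩ .e) ⟨2111530, 135, [412, -126, -620, -264, 132, 233, -838, -572, 352, 204, -56,
      -136], .sym 2 [0, 0, 3, 4, 0, 5, 2]⟩ (.n .e ⟨2111621, 119, [44, 2, -140, -104, 4, 25,
      -134, -28, 32, -20, -56, -40], .lam 3 1 [0, 0, 4, 0, 2, 0, 5]⟩ .e)))) ⟨2111656, 131,
      [-60, 14, 140, 72, -36, -25, 134, 28, -32, 20, 56, 40], .lam 3 1 [0, 0, 4, 5, 2, 0, 0]⟩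
      (.n (.n (.n (.n (.n .e ⟨2111810, 133, [44, 18, -140, -168, 36, 9, -134, -28, 32, -20,
      -56, -40], .low 0 2 [0, 0, 2, 3, 4, 0, 5]⟩ .e) ⟨2111824, 139, [124, -46, -140, -8, 4, 49,
      -182, -124, 64, 76, 136, -40], .lam 3 1 [0, 0, 4, 5, 0, 2, 0]⟩ .e) ⟨2162917, 50, [24, 16,
      -48, -32, 16, 12, -72, -48, 16, 0, 0, 0], .sym 2 [0, 0, 2, 0, 3, 4, 5]⟩ (.n .e ⟨2164261,
      79, [16, -24, 48, 64, -16, 12, 24, -48, 0, 48, 64, 0], .sym 2 [0, 0, 2, 3, 0, 4, 5]⟩ .e))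
      ⟨2164485, 83, [0, 24, -80, -64, 16, 4, -24, 80, -32, -48, -32, 0], .sym 2 [0, 0, 2, 3, 4,
      0, 5]⟩ (.n (.n .e ⟨2164520, 81, [0, -24, 48, 32, -16, -4, 24, -80, 32, 48, 32, 0], .sym 2
      [0, 0, 2, 3, 4, 5, 0]⟩ .e) ⟨2175013, 84, [-40, 8, 0, -32, 0, -24, 48, 96, -48, -48, -64,
      0], .sym 2 [0, 2, 3, 0, 0, 4, 5]⟩ (.n .e ⟨2175237, 86, [24, -24, 0, 32, 0, 8, -48, -96,
      48, 48, 32, 0], .sym 2 [0, 2, 3, 0, 4, 0, 5]⟩ .e))) ⟨2175272, 85, [-24, 8, 0, 0, 0, -8,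
      48, 96, -48, -48, -32, 0], .sym 2 [0, 2, 3, 0, 4, 5, 0]⟩ (.n (.n (.n (.n .e ⟨2177029, 55,
      [0, 0, 0, 0, 0, 0, 0, 0, 0, 0, 32, 0], .bas 10⟩ .e) ⟨2177064, 56, [-16, 0, 0, -32, 0, 0,
      0, 0, 0, 0, -32, 0], .lam 3 1 [0, 2, 4, 5, 0, 0, 0]⟩ .e) ⟨2177344, 12, [0, 0, 0, 32, 0,
      0, 0, 0, 0, 0, 0, 0], .bas 3⟩ (.n .e ⟨2195621, 111, [96, -44, -8, 80, -8, 54, -100, -200,
      80, 88, 144, -16], .lam 2 1 [0, 3, 0, 0, 0, 4, 5]⟩ .e)) ⟨2195733, 113, [-64, 44, -24,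
      -80, 8, -30, 116, 232, -112, -120, -80, 16], .lam 2 1 [0, 3, 0, 0, 4, 0, 5]⟩ (.n (.n .e
      ⟨2195754, 107, [80, -60, -40, 16, -8, 30, -116, -232, 112, 120, 80, -16], .lam 2 1 [0, 3,
      0, 0, 4, 5, 0]⟩ .e) ⟨2196517, 101, [-56, 36, 8, -48, 8, -30, 52, 104, -64, -72, -80, 16],
      .sym 2 [0, 3, 0, 2, 0, 4, 5]⟩ (.n .e ⟨2196741, 104, [40, -52, -8, 48, -8, 14, -52, -104,
      64, 72, 48, -16], .sym 2 [0, 3, 0, 2, 4, 0, 5]⟩ .e))))) ⟨2196776, 96, [-40, 36, 8, -16,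
      8, -14, 52, 104, -64, -72, -48, 16], .sym 2 [0, 3, 0, 2, 4, 5, 0]⟩ (.n (.n (.n (.n (.n
      (.n .e ⟨2197525, 124, [-40, -40, 304, 224, -64, -16, 128, -224, 80, 128, 160, 32], .lam 2
      1 [0, 3, 0, 4, 0, 0, 5]⟩ .e) ⟨2197546, 138, [32, -100, 344, 336, -88, 26, 100, -376, 144,
      248, 304, 16], .low 0 2 [0, 2, 0, 3, 0, 4, 5]⟩ .e) ⟨2197637, 117, [8, 40, -272, -224, 64,
      -8, -144, 192, -48, -96, -192, -32], .sym 2 [3, 0, 0, 4, 0, 2, 5]⟩ (.n .e ⟨2197672, 125,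
      [8, -72, 240, 256, -64, 8, 144, -192, 48, 96, 192, 32], .lam 3 1 [0, 4, 0, 5, 2, 0, 0]⟩
      .e)) ⟨2197826, 126, [-32, 116, -344, -336, 88, -18, -116, 376, -144, -216, -272, -16],
      .low 0 2 [0, 2, 0, 3, 4, 0, 5]⟩ (.n (.n .e ⟨2197840, 137, [12, 130, -460, -360, 100, -31,
      -150, 484, -192, -308, -216, -72], .lam 3 1 [0, 4, 0, 0, 5, 2, 0]⟩ .e) ⟨2203685, 87,
      [-40, 8, 0, -32, 0, -24, 48, 96, -80, -16, -64, 0], .sym 2 [0, 3, 2, 0, 0, 4, 5]⟩ (.n .e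
      ⟨2203909, 89, [24, -24, -32, 32, 0, 16, -64, -64, 48, 48, 32, 0], .sym 2 [0, 3, 2, 0, 4,
      0, 5]⟩ .e))) ⟨2203944, 88, [-40, 24, 32, 0, 0, -16, 64, 64, -48, -48, -32, 0], .sym 2 [0,
      3, 2, 0, 4, 5, 0]⟩ (.n (.n (.n (.n .e ⟨2205701, 58, [0, 0, 32, 0, 0, -8, 16, -32, 32,
      -32, 32, 0], .sym 2 [3, 0, 2, 4, 0, 0, 5]⟩ .e) ⟨2205736, 60, [0, -16, -32, -32, 0, 8,
      -16, 32, -32, 32, -32, 0], .sym 2 [3, 0, 2, 4, 0, 5, 0]⟩ .e) ⟨2206016, 14, [-16, 16, 0,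
      32, 0, 0, 0, 0, 0, 0, 0, 0], .sym 2 [3, 0, 2, 4, 5, 0, 0]⟩ (.n .e ⟨2211861, 114, [-48,
      92, -88, -144, 72, -30, 52, 296, -144, -152, -208, 16], .lam 2 1 [0, 3, 4, 0, 0, 0, 5]⟩
      .e)) ⟨2211882, 109, [128, -76, 88, 208, -8, 30, -52, -296, 144, 152, 208, -16], .lam 2 1
      [0, 3, 4, 0, 0, 5, 0]⟩ (.n (.n .e ⟨2211973, 105, [48, -44, 56, 80, -40, 30, -20, -168,
      80, 88, 112, -16], .sym 2 [0, 3, 4, 0, 2, 0, 5]⟩ .e) ⟨2212008, 97, [-64, 44, -56, -112,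
      8, -30, 20, 168, -80, -88, -112, 16], .sym 2 [0, 3, 4, 0, 2, 5, 0]⟩ (.n .e ⟨2212162, 115,
      [48, -44, 88, 80, -40, 22, -4, -200, 80, 88, 112, -16], .low 0 2 [0, 2, 3, 0, 4, 0, 5]⟩
      .e)))) ⟨2212176, 108, [-48, 28, -88, -112, 8, -22, 4, 200, -80, -88, -112, 16], .low 0 1
      [0, 2, 3, 4, 0, 5, 0]⟩ (.n (.n (.n (.n (.n .e ⟨2212869, 65, [32, -16, 32, 64, -32, 32,
      -32, -128, 64, 64, 96, 0], .sym 2 [0, 3, 4, 2, 0, 0, 5]⟩ .e) ⟨2212904, 67, [-64, 32, -32,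
      -96, 0, -32, 32, 128, -64, -64, -96, 0], .sym 2 [0, 3, 4, 2, 0, 5, 0]⟩ .e) ⟨2213184, 17,
      [0, -16, 0, 32, 32, 0, 0, 0, 0, 0, 0, 0], .sym 2 [0, 3, 4, 2, 5, 0, 0]⟩ (.n .e ⟨2214402,
      69, [32, -16, 0, 64, -32, 40, -48, -96, 32, 96, 96, 0], .low 0 2 [0, 2, 3, 4, 0, 0, 5]⟩
      .e)) ⟨2214416, 71, [-80, 48, 0, -96, 0, -40, 48, 96, -32, -96, -96, 0], .low 0 2 [0, 2,
      3, 4, 0, 5, 0]⟩ (.n (.n .e ⟨2214528, 18, [16, -32, 0, 32, 32, 0, 0, 0, 0, 0, 0, 0], .sym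
      2 [0, 3, 4, 5, 2, 0, 0]⟩ .e) ⟨2621669, 49, [48, 32, -96, -64, 32, 24, -144, -96, 32, 0,
      0, 0], .low 0 2 [2, 0, 0, 0, 3, 4, 5]⟩ (.n .e ⟨2623013, 75, [32, -48, 96, 128, -32, 24,
      48, -96, 0, 96, 128, 0], .low 0 2 [2, 0, 0, 3, 0, 4, 5]⟩ .e))) ⟨2623237, 77, [0, 48,
      -160, -128, 32, 8, -48, 160, -64, -96, -64, 0], .low 0 2 [2, 0, 0, 3, 4, 0, 5]⟩ (.n (.n
      (.n .e ⟨2623272, 76, [0, -48, 96, 64, -32, -8, 48, -160, 64, 96, 64, 0], .low 0 2 [2, 0,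
      0, 3, 4, 5, 0]⟩ .e) ⟨2633765, 78, [-80, 16, 0, -64, 0, -48, 96, 192, -96, -96, -128, 0],
      .lam 3 1 [2, 0, 0, 0, 0, 4, 5]⟩ (.n .e ⟨2633989, 82, [48, -48, 0, 64, 0, 16, -96, -192,
      96, 96, 64, 0], .lam 3 1 [2, 0, 0, 0, 4, 0, 5]⟩ .e)) ⟨2634024, 80, [-48, 16, 0, 0, 0,
      -16, 96, 192, -96, -96, -64, 0], .lam 3 1 [2, 0, 0, 0, 4, 5, 0]⟩ (.n (.n .e ⟨2635781, 57,
      [0, 0, 0, 0, 0, 0, 0, 0, 0, 0, 64, 0], .sym 2 [0, 2, 3, 4, 0, 0, 5]⟩ .e) ⟨2635816, 59,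
      [-32, 0, 0, -64, 0, 0, 0, 0, 0, 0, -64, 0], .sym 2 [0, 2, 3, 4, 0, 5, 0]⟩ (.n .e
      ⟨2636096, 13, [0, 0, 0, 64, 0, 0, 0, 0, 0, 0, 0, 0], .sym 2 [0, 2, 3, 4, 5, 0, 0]⟩
      .e))))))

def tr3221 : Tb :=
  (.n (.n (.n (.n (.n (.n (.n .e ⟨2720005, 40, [0, 32, 64, 0, 0, 0, 0, -64, 0, 0, 0, 0], .sym 2
      [3, 2, 0, 0, 4, 0, 5]⟩ .e) ⟨2720040, 38, [0, 0, 0, 0, 0, 0, 0, 64, 0, 0, 0, 0], .sym 2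
      [3, 2, 0, 0, 4, 5, 0]⟩ .e) ⟨2721797, 47, [32, 0, -64, 0, 0, 32, 0, 64, -64, 0, 0, 0],
      .sym 2 [3, 2, 0, 4, 0, 0, 5]⟩ (.n .e ⟨2721832, 48, [0, 0, 0, 0, 0, -32, 0, -64, 64, 0, 0,
      0], .sym 2 [3, 2, 0, 4, 0, 5, 0]⟩ .e)) ⟨2722112, 10, [0, 0, 64, 0, 0, 0, 0, 0, 0, 0, 0,
      0], .sym 2 [3, 2, 0, 4, 5, 0, 0]⟩ (.n (.n .e ⟨2736133, 21, [-32, -32, 0, 0, 0, -32, 0, 0,
      0, 0, 0, 0], .lam 3 1 [2, 4, 5, 0, 0, 0, 0]⟩ .e) ⟨2736168, 20, [0, 0, 0, 0, 0, 32, 0, 0,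
      0, 0, 0, 0], .bas 5⟩ (.n .e ⟨2736448, 4, [0, 32, 0, 0, 0, 0, 0, 0, 0, 0, 0, 0], .bas 1⟩
      .e))) ⟨2738688, 0, [32, 0, 0, 0, 0, 0, 0, 0, 0, 0, 0, 0], .bas 0⟩ (.n (.n (.n (.n .e
      ⟨2883749, 46, [16, -16, 0, 0, 0, 8, -48, -96, 32, 0, 0, 0], .low 0 1 [0, 3, 0, 0, 2, 4,
      5]⟩ .e) ⟨2883861, 41, [0, -64, 0, 64, -32, -8, 48, 0, 0, 0, 0, 0], .lam 2 1 [3, 0, 0, 0,
      4, 0, 5]⟩ .e) ⟨2883882, 33, [32, -16, -96, 0, 0, 8, -48, 0, 0, 0, 0, 0], .low 0 1 [0, 3,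
      0, 0, 4, 5, 2]⟩ (.n .e ⟨2884645, 52, [-16, 16, 0, 0, 0, -8, 48, 96, -64, -32, 0, 0], .lam
      2 1 [3, 0, 0, 0, 0, 4, 5]⟩ .e)) ⟨2884869, 39, [0, 32, -32, -64, 32, 0, -32, 32, 0, 0, 0,
      0], .lam 3 1 [4, 0, 0, 2, 5, 0, 0]⟩ (.n (.n .e ⟨2884904, 36, [-16, 0, 64, 0, 0, 0, 32,
      -32, 0, 0, 0, 0], .lam 2 1 [3, 0, 0, 0, 4, 5, 0]⟩ .e) ⟨2885653, 72, [-48, 32, -32, -64,
      0, -16, 0, 96, -32, -64, -64, 0], .lam 3 1 [4, 0, 0, 5, 0, 2, 0]⟩ (.n .e ⟨2885674, 70,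
      [0, -32, 64, 64, -32, 16, 0, -96, 32, 64, 64, 0], .lam 3 1 [4, 0, 0, 5, 0, 0, 2]⟩ .e))))
      ⟨2885765, 74, [16, -32, 64, 64, 0, -8, -16, -128, 64, 96, 64, 0], .lam 2 1 [3, 0, 0, 4,
      0, 0, 5]⟩ (.n (.n (.n (.n (.n .e ⟨2885800, 73, [-16, 48, -32, -64, 32, 8, 16, 128, -64,
      -96, -64, 0], .lam 2 1 [3, 0, 0, 4, 0, 5, 0]⟩ .e) ⟨2885954, 31, [16, -16, -64, 0, 0, 0,
      -32, 0, 0, 0, 0, 0], .lam 2 1 [3, 0, 0, 4, 5, 0, 0]⟩ .e) ⟨2885968, 30, [0, 0, 0, 0, 0, 0,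
      32, 0, 0, 0, 0, 0], .bas 6⟩ (.n .e ⟨2891813, 51, [0, 0, 0, 0, 0, 0, 0, 0, 0, 32, 0, 0],
      .bas 9⟩ .e)) ⟨2892037, 34, [0, 16, 0, 0, 0, 8, -16, 0, 0, 0, 0, 0], .lam 3 1 [4, 0, 2, 0,
      5, 0, 0]⟩ (.n (.n .e ⟨2892072, 32, [-16, 16, 32, 0, 0, -8, 16, 0, 0, 0, 0, 0], .low 0 1
      [0, 3, 2, 0, 4, 5, 0]⟩ .e) ⟨2893829, 53, [16, 0, 0, 0, 0, 8, 16, 0, 0, -32, 0, 0], .lam 3
      1 [4, 0, 2, 0, 0, 0, 5]⟩ (.n .e ⟨2893864, 54, [16, -16, -32, 0, 0, -8, -16, 0, 0, 32, 0,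
      0], .lam 3 1 [4, 0, 2, 0, 0, 5, 0]⟩ .e))) ⟨2894144, 11, [-16, 16, 32, 0, 0, 0, 0, 0, 0,
      0, 0, 0], .low 0 1 [0, 3, 2, 4, 5, 0, 0]⟩ (.n (.n (.n .e ⟨2899989, 118, [-100, 26, 260,
      120, -44, -35, 226, 20, -32, 28, 72, 56], .lam 2 1 [3, 0, 4, 0, 0, 0, 5]⟩ .e) ⟨2900010,
      130, [-180, 42, 260, 56, -44, -83, 322, 212, -128, -100, -56, 56], .low 0 2 [2, 0, 3, 0,
      0, 4, 5]⟩ (.n .e ⟨2900101, 116, [116, 6, -260, -120, 44, 59, -242, -20, 32, 4, -8, -56],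
      .sym 2 [0, 3, 0, 0, 4, 2, 5]⟩ .e)) ⟨2900136, 121, [-116, 10, 260, 120, -44, -59, 242, 20,
      -32, -4, 8, 56], .lam 3 1 [4, 0, 5, 0, 2, 0, 0]⟩ (.n (.n .e ⟨2900290, 123, [164, -58,
      -260, -56, 44, 67, -322, -212, 128, 100, 56, -56], .low 0 2 [2, 0, 3, 0, 4, 0, 5]⟩ .e)
      ⟨2900304, 129, [100, -26, -260, -120, 44, 51, -226, -20, 32, -28, -72, -56], .lam 3 1 [4,
      0, 5, 0, 0, 2, 0]⟩ (.n .e ⟨2900997, 61, [0, -16, 0, 0, 0, -8, 16, 0, 0, -32, -64, 0],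
      .low 0 2 [2, 0, 3, 4, 0, 0, 5]⟩ .e))))) ⟨2901032, 62, [48, -16, -32, 64, 0, 8, -16, 0, 0,
      32, 64, 0], .low 0 2 [2, 0, 3, 4, 0, 5, 0]⟩ (.n (.n (.n (.n (.n (.n .e ⟨2901312, 15,
      [-16, 32, 32, -64, 0, 0, 0, 0, 0, 0, 0, 0], .low 0 2 [2, 0, 3, 4, 5, 0, 0]⟩ .e) ⟨2902530,
      29, [-16, -16, 0, 0, 0, -16, 0, 0, 0, 0, 0, 0], .low 0 1 [0, 3, 0, 4, 5, 0, 2]⟩ .e)
      ⟨2902544, 28, [0, 0, 0, 0, 0, 16, 0, 0, 0, 0, 0, 0], .low 0 1 [0, 3, 0, 4, 5, 2, 0]⟩ (.n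
      .e ⟨2902656, 8, [0, 16, 0, 0, 0, 0, 0, 0, 0, 0, 0, 0], .low 0 1 [0, 3, 4, 5, 2, 0, 0]⟩
      .e)) ⟨2949157, 42, [0, 0, 0, 0, 0, 0, 0, 0, 32, 0, 0, 0], .bas 8⟩ (.n (.n .e ⟨2949381,
      37, [0, 16, 32, 0, 0, 0, 0, -32, 0, 0, 0, 0], .lam 3 1 [4, 2, 0, 0, 5, 0, 0]⟩ .e)
      ⟨2949416, 35, [0, 0, 0, 0, 0, 0, 0, 32, 0, 0, 0, 0], .bas 7⟩ (.n .e ⟨2951173, 43, [16, 0,
      -32, 0, 0, 16, 0, 32, -32, 0, 0, 0], .lam 3 1 [4, 2, 0, 0, 0, 0, 5]⟩ .e))) ⟨2951208, 44,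
      [0, 0, 0, 0, 0, -16, 0, -32, 32, 0, 0, 0], .lam 3 1 [4, 2, 0, 0, 0, 5, 0]⟩ (.n (.n (.n
      (.n .e ⟨2951488, 9, [0, 0, 32, 0, 0, 0, 0, 0, 0, 0, 0, 0], .bas 2⟩ .e) ⟨2965509, 24,
      [-16, -16, 0, 0, 0, -16, 0, 0, 0, 0, 0, 0], .sym 2 [3, 2, 4, 0, 0, 0, 5]⟩ .e) ⟨2965544,
      22, [0, 0, 0, 0, 0, 16, 0, 0, 0, 0, 0, 0], .sym 2 [3, 2, 4, 0, 0, 5, 0]⟩ (.n .e ⟨2965824,
      5, [0, 16, 0, 0, 0, 0, 0, 0, 0, 0, 0, 0], .sym 2 [3, 2, 4, 0, 5, 0, 0]⟩ .e)) ⟨2968064, 1,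
      [16, 0, 0, 0, 0, 0, 0, 0, 0, 0, 0, 0], .sym 2 [3, 2, 4, 5, 0, 0, 0]⟩ (.n (.n .e ⟨3014677,
      128, [148, 6, -228, -120, 76, 59, -274, -116, 64, 36, -8, -56], .lam 3 1 [4, 0, 0, 0, 0,
      2, 5]⟩ .e) ⟨3014698, 132, [140, -198, 484, 536, -108, 53, 82, -748, 320, 444, 488, 24],
      .sym 2 [3, 4, 0, 0, 0, 5, 2]⟩ (.n .e ⟨3014789, 120, [-148, 42, 196, 56, -44, -59, 306,
      244, -128, -100, -56, 56], .lam 3 1 [4, 0, 0, 0, 2, 0, 5]⟩ .e)))) ⟨3014824, 134, [148,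
      -74, -228, -56, 12, 59, -306, -244, 128, 100, 56, -56], .lam 3 1 [4, 5, 0, 0, 2, 0, 0]⟩
      (.n (.n (.n (.n (.n .e ⟨3014978, 136, [-148, 58, 228, 56, -44, -59, 306, 212, -128, -100,
      -56, 56], .low 0 2 [2, 3, 0, 0, 4, 0, 5]⟩ .e) ⟨3014992, 122, [28, 114, -524, -392, 100,
      -23, -262, 452, -160, -276, -248, -72], .low 0 1 [0, 2, 0, 3, 4, 0, 5]⟩ .e) ⟨3015685, 63,
      [16, -32, 32, 64, -32, 16, -32, -128, 64, 64, 64, 0], .lam 3 1 [4, 0, 0, 2, 0, 0, 5]⟩ (.n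
      .e ⟨3015720, 64, [-48, 32, -32, -64, 0, -16, 32, 128, -64, -64, -64, 0], .lam 3 1 [4, 0,
      0, 2, 0, 5, 0]⟩ .e)) ⟨3016000, 16, [0, 0, 0, 0, 32, 0, 0, 0, 0, 0, 0, 0], .bas 4⟩ (.n (.n
      .e ⟨3017218, 66, [32, -32, 0, 64, -32, 32, -32, -96, 32, 64, 64, 0], .low 0 2 [2, 3, 0,
      4, 0, 0, 5]⟩ .e) ⟨3017232, 68, [-48, 32, -32, -64, 0, -32, 32, 96, -32, -64, -64, 0],
      .low 0 2 [2, 3, 0, 4, 0, 5, 0]⟩ (.n .e ⟨3017344, 19, [0, 0, 32, 0, 32, 0, 0, 0, 0, 0, 0,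
      0], .sym 2 [3, 0, 4, 5, 2, 0, 0]⟩ .e))) ⟨3022853, 25, [-16, -16, 0, 0, 0, -16, 0, 0, 0,
      0, 0, 0], .sym 2 [3, 4, 2, 0, 0, 0, 5]⟩ (.n (.n (.n .e ⟨3022888, 23, [0, 0, 0, 0, 0, 16,
      0, 0, 0, 0, 0, 0], .sym 2 [3, 4, 2, 0, 0, 5, 0]⟩ .e) ⟨3023168, 6, [0, 16, 0, 0, 0, 0, 0,
      0, 0, 0, 0, 0], .sym 2 [3, 4, 2, 0, 5, 0, 0]⟩ (.n .e ⟨3025408, 2, [16, 0, 0, 0, 0, 0, 0,
      0, 0, 0, 0, 0], .sym 2 [3, 4, 2, 5, 0, 0, 0]⟩ .e)) ⟨3035138, 27, [-32, -32, 0, 0, 0, -32,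
      0, 0, 0, 0, 0, 0], .low 0 2 [2, 3, 4, 0, 0, 0, 5]⟩ (.n (.n .e ⟨3035152, 26, [0, 0, 0, 0,
      0, 32, 0, 0, 0, 0, 0, 0], .low 0 2 [2, 3, 4, 0, 0, 5, 0]⟩ .e) ⟨3035264, 7, [0, 32, 0, 0,
      0, 0, 0, 0, 0, 0, 0, 0], .low 0 2 [2, 3, 4, 0, 5, 0, 0]⟩ (.n .e ⟨3036160, 3, [32, 0, 0,
      0, 0, 0, 0, 0, 0, 0, 0, 0], .low 0 1 [2, 3, 4, 5, 0, 0, 0]⟩ .e))))))

def tb3221 : Tb := .n tl3221 ⟨2719781, 45, [0, 0, 0, 0, 0, 0, 0, 0, 64, 0, 0, 0], .sym 2 [3, 2, 0, 0, 0, 4, 5]⟩ tr3221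

def ce3221 : Cert where
  cx := cx3221
  D := 32
  bk := [2738688, 2736448, 2951488, 2177344, 3016000, 2736168, 2885968, 2949416, 2949157, 2891813, 2177029, 2107176]
  tb := tb3221
  pl := [.low 0 1 [0, 3, 0, 2, 0, 4, 5], .sym 2 [3, 0, 0, 4, 2, 0, 5], .sym 2 [3, 4, 0, 0, 5, 2, 0]]
  fams := [(FB, [⟨[], [(l 1), (l 3), (l 2)], [(l 4), (l 5)]⟩, ⟨[], [(l 1), (l 3), (l 4)], [(l 2), (l 5)]⟩,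
      ⟨[], [(l 1), (l 3), (b (l 2) (l 4))], [(l 5)]⟩, ⟨[], [(b (l 1) (l 2)), (l 3), (l 4)], [(l
      5)]⟩, ⟨[], [(b (l 1) (l 3)), (l 2), (l 4)], [(l 5)]⟩, ⟨[], [(l 1), (l 3), (b (b (l 5) (l
      4)) (l 2))], []⟩, ⟨[], [(b (l 1) (l 3)), (l 2), (b (l 4) (l 5))], []⟩, ⟨[], [(b (b (l 3)
      (l 2)) (l 1)), (l 4), (l 5)], []⟩, ⟨[(b (l 1) (l 3))], [(l 2), (l 4), (l 5)], [(l 0)]⟩]),
    (FA, []),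
    (FC, [])]
  cases := [([([], [0, 2]), ([], []), ([], [])], [], [.cm 0 0 [20, -4, 0, 24, -36, -3, 54, -18, 12] 1, .cm
      0 0 [20, -4, 0, 24, -36, -3, 54, -18, 12] 2, .cm 0 2 [-9580, 3920, -1656, -2400, 108,
      2085, 4050, 4350] 0, .cm 0 2 [-9580, 3920, -1656, -2400, 108, 2085, 4050, 4350] 1, .cm 0
      0 [-100416130, 26921678, 75015936, -113948751, 223188534, 0, 0, 0, 12597948] 1, .cm 0 0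
      [-100416130, 26921678, 75015936, -113948751, 223188534, 0, 0, 0, 12597948] 2, .cm 0 0
      [193165730, -52695970, -108425124, 204002025, -372756618, 0, 62989740] 1, .cm 0 0
      [193165730, -52695970, -108425124, 204002025, -372756618, 0, 62989740] 2, .cm 0 2
      [10792122036732316536329, 0, 0, 0, 0, 0, 0, 136503915750398994985256] 0]),
    ([([0], [2]), ([], []), ([], [])], [], [.zr 0 0 [1], .zr 0 0 [0, 1], .zr 0 0 [0, 0, 1], .zr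
      0 0 [0, 0, 0, 1], .zr 0 0 [0, 0, 0, 0, 1], .zr 0 0 [0, 0, 0, 0, 0, 1], .zr 0 0 [0, 0, 0,
      0, 0, 0, 1], .zr 0 0 [0, 0, 0, 0, 0, 0, 0, 1], .cm 0 2 [-1, 0, 0, 0, 0, 1] 1]),
    ([([2], [0, 1]), ([], []), ([], [])], [], [.zr 0 2 [1], .zr 0 2 [0, 1], .zr 0 2 [0, 0, 1],
      .zr 0 2 [0, 0, 0, 1], .zr 0 2 [0, 0, 0, 0, 1], .zr 0 2 [0, 0, 0, 0, 0, 1], .zr 0 2 [0, 0,
      0, 0, 0, 0, 1], .zr 0 2 [0, 0, 0, 0, 0, 0, 0, 1], .zr 0 2 [0, 0, 0, 0, 0, 0, 0, 0, 1]]),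
    ([([1, 2], [0]), ([], []), ([], [])], [], [.zr 0 1 [1], .zr 0 1 [0, 1], .zr 0 1 [0, 0, 1],
      .zr 0 1 [0, 0, 0, 1], .zr 0 1 [0, 0, 0, 0, 1], .zr 0 1 [0, 0, 0, 0, 0, 1], .zr 0 1 [0, 0,
      0, 0, 0, 0, 1], .zr 0 1 [0, 0, 0, 0, 0, 0, 0, 1], .zr 0 1 [0, 0, 0, 0, 0, 0, 0, 0, 1]]),
    ([([0, 2], [1]), ([], [1]), ([], [])], [], [.zr 0 0 [1], .zr 0 0 [0, 1], .zr 0 0 [0, 0, 1],
      .zr 0 0 [0, 0, 0, 1], .zr 0 0 [0, 0, 0, 0, 1], .zr 0 0 [0, 0, 0, 0, 0, 1], .zr 0 0 [0, 0,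
      0, 0, 0, 0, 1], .zr 0 0 [0, 0, 0, 0, 0, 0, 0, 1], .zr 0 2 [1]]),
    ([([0, 2], [1]), ([], []), ([], [0])], [], [.zr 0 0 [1], .zr 0 0 [0, 1], .zr 0 0 [0, 0, 1],
      .zr 0 0 [0, 0, 0, 1], .zr 0 0 [0, 0, 0, 0, 1], .zr 0 0 [0, 0, 0, 0, 0, 1], .zr 0 0 [0, 0,
      0, 0, 0, 0, 1], .zr 0 0 [0, 0, 0, 0, 0, 0, 0, 1], .zr 0 2 [1]])]

def z03221 : Zs :=
  [(0, [-32, 32, 0, 0, 0, -32, 64, 128, -64, -64, 0, 0]), (1, [0, 2, -12, -16, 4, 3, -10, 4, 0,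
      -4, -16, 0]), (2, [0, 0, -7, -13, 3, 4, -9, -3, 3, 0, -15, 1])]

def sv3221 : List (List (List (List ℤ))) :=
  [[[[-160, 248, -48, -224, 80, -76, 72, 336, -128, -400, -224, 96], [840, -828, 936, 1776, -408,
      522, 36, -1944, 768, 1656, 2064, -144], [-416, 352, -768, -1216, 256, -296, -336, 864,
      -160, -800, -1408, 0]], [[-108, 114, 660, 216, -108, -3, 66, -588, 240, 252, 552, 24],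
      [-260, 170, -1020, -840, 180, -155, 850, 2420, -1120, -1060, -1080, 120], [240, -876,
      1896, 2160, -648, 126, 12, -3144, 1392, 1704, 1680, 48]], [[76, -114, 108, 296, -116, 51,
      30, -212, 48, 68, 216, -24], [504, -124, -568, -16, 168, 258, -876, -728, 448, 472, 208,
      -80], [-480, 164, 744, 16, -136, -218, 892, 472, -304, -216, -144, 144]], [[480, -480,
      768, 1152, -192, 240, -288, -1920, 768, 1152, 1152, 0], [-880, 640, -1120, -1600, 160,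
      -360, 1200, 4000, -1760, -1920, -1920, 0], [192, 96, -576, -384, 192, 48, -864, -576,
      384, 0, -384, 0]], [[-320, -88, 1264, 800, -208, -172, 968, -304, 0, 304, 416, 224],
      [-348, 294, -900, -952, 140, -165, 334, 2028, -864, -1020, -1032, -56], [560, -104, -976,
      -416, 208, 268, -1448, -944, 576, 272, -32, -224]], [[176, -72, -784, -416, 112, 108,
      -776, -16, 64, -48, -352, -32], [-96, 976, -1120, -576, 224, -8, 1072, 4064, -1920,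
      -2144, 64, -320], [-272, -1112, 3152, 1696, -560, -220, 744, -4272, 1856, 2416, 608,
      544]], [[-160, 64, 192, 0, 0, -160, 320, 256, -128, -128, 0, 0], [384, -192, -576, 0, 0,
      464, -288, 320, -192, 192, 0, 0], [32, -32, 192, 0, 0, -160, -256, -896, 448, 64, 0, 0]],
      [[-48, 48, 192, 0, 0, -96, 0, -384, 192, 0, 0, 0], [80, 0, -320, 0, 0, 160, 0, 640, -480,
      0, 0, 0], [0, -48, -192, 0, 0, -48, 0, 0, 192, 0, 0, 0]], [[-144, 144, -96, -192, -96,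
      -96, 96, 384, -192, -192, -192, 0], [2020, -1202, -1492, 616, 348, 1103, -2890, -3300,
      1664, 1748, 1304, -472], [-1860, 906, 1956, -72, -300, -867, 2946, 2292, -1248, -1284,
      -1080, 504]]], [], []]

theorem okt3221 : chkTb ce3221.cx ce3221.tb ce3221.D ce3221.bk = true :=
  chkTb_node (by decide +kernel) (by decide +kernel) (by decide +kernel)

theorem okz3221 : plainZ ce3221.cx ce3221.tb ce3221.pl [] = some z03221 := by decide +kernel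

theorem oks3221 : famsV ce3221.cx ce3221.tb ce3221.fams = some sv3221 := by decide +kernel

theorem okc3221 : chkCases ce3221 z03221 sv3221 ce3221.cases = true := by decide +kernel

theorem okv3221 : ce3221.cov 3 = true := by decide +kernel

theorem ok3221 : (ce3221.chk && ce3221.cov 3) = true :=
  Cert.ok_of (Cert.chk_of okt3221 (by decide) okz3221 oks3221 okc3221) okv3221

end Pool.Agent.Lib.MP_b4a71d_al.Eng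
end

section

/-!
# MP_b4a71d_al: the certificate of the type 422 in degree 8
-/

set_option autoImplicit false

namespace Pool.Agent.Lib.MP_b4a71d_al.Eng

open Tr

/-- The type 422. -/
def cx422 : Cx := ⟨7, 4, [(2, 3, true), (3, 5, true)], (2, 3, true), [([1, 2], [3, 4], true)]⟩

def tl422 : Tb :=
  (.n (.n (.n (.n (.n (.n .e ⟨2097308, 76, [24, -54, -60, -24, -156, 0, -12, -108, 0], .sym 2 [3,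
      4, 0, 0, 0, 0, 2]⟩ .e) ⟨2097364, 81, [-15, 30, 30, -45, -30, -30, 60, 0, 0], .lam 2 1 [0,
      0, 0, 0, 3, 0, 4]⟩ (.n .e ⟨2097378, 72, [24, -54, -60, -24, -36, 0, -12, -48, 0], .low 0
      4 [3, 0, 0, 0, 0, 2, 4]⟩ .e)) ⟨2098204, 79, [48, -18, 12, -48, -132, 0, 108, -36, 0],
      .low 0 4 [0, 3, 2, 0, 0, 0, 4]⟩ (.n (.n .e ⟨2098372, 75, [-3, -18, -18, 27, 18, 18, -36,
      0, 0], .lam 3 1 [0, 0, 0, 2, 4, 0, 0]⟩ .e) ⟨2098400, 73, [0, 18, 12, 0, -36, 0, 36, 0,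
      0], .sym 2 [3, 4, 0, 0, 0, 2, 0]⟩ .e)) ⟨2098708, 85, [33, -12, 18, -45, -114, -6, 96,
      -36, 0], .lam 2 1 [0, 0, 0, 3, 0, 0, 4]⟩ (.n (.n (.n .e ⟨2098722, 89, [-36, 12, -24, 36,
      120, 0, -96, 36, 0], .lam 2 1 [0, 0, 0, 3, 0, 4, 0]⟩ .e) ⟨2098820, 82, [-15, -36, -54,
      27, 54, 18, -72, -12, 0], .sym 2 [0, 0, 0, 3, 2, 0, 4]⟩ (.n .e ⟨2098848, 78, [-6, 36, 12,
      18, -36, -12, 72, 12, 0], .sym 2 [0, 0, 0, 3, 2, 4, 0]⟩ .e)) ⟨2098946, 70, [-12, -18,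
      -36, 0, 36, 0, -36, -12, 0], .low 0 4 [3, 0, 0, 0, 4, 0, 2]⟩ (.n (.n .e ⟨2098960, 71,
      [-6, 18, 0, 18, 0, -12, 36, 12, 0], .low 0 4 [3, 0, 0, 0, 2, 4, 0]⟩ .e) ⟨2105372, 80,
      [36, -18, 12, -36, -108, 0, 84, -36, 0], .low 0 4 [3, 0, 0, 2, 0, 0, 4]⟩ .e))) ⟨2105540,
      77, [0, -12, -12, 18, 12, 12, -24, 0, 0], .lam 3 1 [0, 0, 2, 0, 4, 0, 0]⟩ (.n (.n (.n (.n
      .e ⟨2105568, 74, [0, 12, 12, 0, -24, 0, 24, 0, 0], .low 0 4 [0, 3, 2, 0, 0, 4, 0]⟩ .e)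
      ⟨2106884, 83, [-18, 30, 36, 18, 60, -12, -24, 48, 0], .lam 3 1 [0, 0, 2, 0, 0, 0, 4]⟩ (.n
      .e ⟨2106912, 84, [33, -30, -6, -27, -102, -6, 24, -48, 0], .lam 3 1 [0, 0, 2, 0, 0, 4,
      0]⟩ .e)) ⟨2107136, 33, [0, 0, 0, 0, 0, 12, 0, 0, 0], .bas 5⟩ (.n (.n .e ⟨2109460, 102,
      [42, -24, 12, 0, -108, 12, 84, -36, 12], .lam 2 1 [0, 0, 3, 0, 0, 0, 4]⟩ .e) ⟨2109474,
      94, [-33, 24, 6, 27, 90, 6, -84, 36, -12], .lam 2 1 [0, 0, 3, 0, 0, 4, 0]⟩ .e)) ⟨2109572,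
      96, [6, 0, 12, -18, -12, 0, 0, 0, -12], .lam 3 1 [0, 0, 4, 0, 2, 0, 0]⟩ (.n (.n (.n .e
      ⟨2109600, 93, [0, 0, 0, 0, 0, 0, 0, 0, 12], .bas 8⟩ .e) ⟨2109698, 100, [45, -18, 18, -27,
      -114, -6, 108, -36, 12], .lam 3 1 [0, 0, 4, 0, 0, 0, 2]⟩ .e) ⟨2109712, 98, [-28, 36, 28,
      12, 112, -8, -24, 64, 12], .sym 2 [3, 0, 4, 0, 0, 0, 2]⟩ (.n (.n .e ⟨2110468, 86, [-30,
      24, 12, 18, 84, -12, -48, 36, 0], .sym 2 [0, 0, 3, 2, 0, 0, 4]⟩ .e) ⟨2110496, 90, [33,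
      -24, -6, -27, -90, -6, 48, -36, 0], .sym 2 [0, 0, 3, 2, 0, 4, 0]⟩ .e)))) ⟨2110720, 34,
      [-6, 0, -12, 18, 0, 12, 0, 0, 0], .sym 2 [0, 0, 3, 2, 4, 0, 0]⟩ (.n (.n (.n (.n (.n .e
      ⟨2111490, 68, [-12, -6, -24, 0, 24, 0, -24, -12, 0], .low 0 4 [3, 0, 0, 4, 0, 0, 2]⟩ .e)
      ⟨2111504, 69, [0, 6, 0, 0, 12, 0, 24, 12, 0], .low 0 4 [3, 0, 0, 4, 0, 2, 0]⟩ (.n .e
      ⟨2111616, 28, [-6, 0, -12, 18, 0, 0, 0, 0, 0], .low 0 4 [3, 0, 0, 4, 2, 0, 0]⟩ .e))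
      ⟨2162716, 56, [0, -6, 12, 0, -12, 0, 12, -12, 0], .lam 3 1 [0, 2, 0, 0, 0, 0, 4]⟩ (.n (.n
      .e ⟨2162884, 4, [6, 0, 0, 0, 0, 0, 0, 0, 0], .sym 2 [0, 0, 2, 0, 3, 0, 4]⟩ .e) ⟨2162912,
      11, [0, 0, 12, 0, 0, 0, 0, 0, 0], .bas 2⟩ .e)) ⟨2164228, 8, [0, 6, 0, 0, 0, 0, 0, 0, 0],
      .sym 2 [0, 0, 2, 3, 0, 0, 4]⟩ (.n (.n (.n .e ⟨2164256, 43, [3, -6, 6, -9, 6, 6, 0, 0, 0],
      .low 0 3 [0, 3, 0, 2, 0, 4, 0]⟩ .e) ⟨2164480, 21, [6, 0, 12, -6, -12, 0, 0, 0, 0], .lam 3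
      1 [0, 2, 0, 0, 4, 0, 0]⟩ .e) ⟨2174980, 47, [-6, 0, -12, 0, 12, 0, -12, 0, 0], .lam 3 1
      [0, 2, 4, 0, 0, 0, 0]⟩ (.n (.n .e ⟨2175008, 46, [0, 0, 0, 0, 0, 0, 12, 0, 0], .bas 6⟩ .e)
      ⟨2175232, 16, [0, 0, 0, 6, 0, 0, 0, 0, 0], .sym 2 [0, 2, 3, 0, 4, 0, 0]⟩ .e))) ⟨2177024,
      30, [6, 0, 12, -6, -12, 0, 0, 0, 0], .sym 2 [0, 2, 3, 4, 0, 0, 0]⟩ (.n (.n (.n (.n .e
      ⟨2195476, 103, [6, -78, -96, -12, -48, 24, -168, -96, -36], .sym 2 [0, 3, 0, 0, 0, 2, 4]⟩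
      .e) ⟨2195490, 99, [45, 12, 90, -39, -186, -6, 204, -36, 12], .lam 3 1 [0, 0, 0, 0, 0, 4,
      2]⟩ (.n .e ⟨2195588, 101, [-21, 90, 102, 15, 114, -18, 84, 120, 12], .lam 3 1 [0, 4, 0,
      0, 2, 0, 0]⟩ .e)) ⟨2195616, 95, [30, -90, -84, -42, -120, 12, -84, -120, -12], .lam 3 1
      [0, 0, 0, 0, 2, 4, 0]⟩ (.n (.n .e ⟨2195714, 104, [3, 6, 18, -27, -18, -6, 12, 0, -12],
      .lam 2 1 [0, 3, 0, 0, 4, 0, 0]⟩ .e) ⟨2195728, 97, [0, -6, -12, 0, 12, 0, -12, 0, 12],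
      .sym 2 [0, 3, 0, 0, 4, 2, 0]⟩ .e)) ⟨2196484, 87, [-21, 12, -6, 9, 54, -6, -36, 12, 0],
      .sym 2 [0, 3, 0, 2, 0, 0, 4]⟩ (.n (.n (.n .e ⟨2196512, 91, [18, -12, 0, -18, -36, 0, 36,
      -12, 0], .sym 2 [0, 3, 0, 2, 0, 4, 0]⟩ .e) ⟨2196736, 36, [-3, 0, -6, 15, -6, 6, 0, 0, 0],
      .sym 2 [0, 3, 0, 2, 4, 0, 0]⟩ .e) ⟨2197506, 88, [-21, 6, -6, 9, 54, -6, -36, 12, 0], .low
      0 3 [0, 0, 3, 4, 0, 0, 2]⟩ (.n (.n .e ⟨2197520, 92, [15, -6, -6, -9, -42, -6, 36, -12,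
      0], .low 0 3 [0, 0, 3, 4, 0, 2, 0]⟩ .e) ⟨2197632, 38, [-9, 0, -18, 21, 6, 6, 0, 0, 0],
      .low 0 3 [0, 0, 3, 4, 2, 0, 0]⟩ .e)))))

def tr422 : Tb :=
  (.n (.n (.n (.n (.n (.n .e ⟨2203680, 64, [3, 0, 6, -9, 18, 6, 24, 12, 0], .sym 2 [0, 3, 2, 0,
      0, 4, 0]⟩ .e) ⟨2203904, 22, [0, 0, 0, 12, -12, 0, 0, 0, 0], .sym 2 [0, 3, 2, 0, 4, 0, 0]⟩
      (.n .e ⟨2205696, 41, [9, 0, 18, -3, -30, -6, 0, 0, 0], .low 0 4 [0, 3, 2, 4, 0, 0, 0]⟩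
      .e)) ⟨2211842, 66, [-6, 0, -12, 0, 12, 0, -12, -12, 0], .low 0 4 [0, 3, 4, 0, 0, 0, 2]⟩
      (.n (.n .e ⟨2211856, 67, [3, 0, 6, -9, 18, 6, 12, 12, 0], .low 0 4 [3, 0, 4, 0, 0, 2, 0]⟩
      .e) ⟨2211968, 27, [0, 0, 0, 6, -12, 0, 0, 0, 0], .low 0 4 [0, 3, 4, 0, 2, 0, 0]⟩ .e))
      ⟨2212864, 37, [3, 0, 6, 3, -18, -6, 0, 0, 0], .sym 2 [3, 4, 0, 0, 2, 0, 0]⟩ (.n (.n (.n
      .e ⟨2621468, 62, [0, -12, 24, 0, -24, 0, 24, -24, 0], .low 0 3 [3, 0, 0, 0, 0, 2, 4]⟩ .e)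
      ⟨2621636, 3, [12, 0, 0, 0, 0, 0, 0, 0, 0], .bas 0⟩ (.n .e ⟨2621664, 12, [0, 0, 24, 0, 0,
      0, 0, 0, 0], .sym 2 [0, 0, 2, 0, 3, 4, 0]⟩ .e)) ⟨2622980, 7, [0, 12, 0, 0, 0, 0, 0, 0,
      0], .bas 1⟩ (.n (.n .e ⟨2623008, 44, [6, -12, 12, -18, 12, 12, 0, 0, 0], .low 0 3 [3, 0,
      0, 2, 0, 4, 0]⟩ .e) ⟨2623232, 25, [12, 0, 24, -12, -24, 0, 0, 0, 0], .low 0 3 [3, 0, 0,
      2, 4, 0, 0]⟩ .e))) ⟨2633732, 51, [-12, 0, -24, 0, 24, 0, -24, 0, 0], .sym 2 [0, 2, 3, 0,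
      0, 0, 4]⟩ (.n (.n (.n (.n .e ⟨2633760, 48, [0, 0, 0, 0, 0, 0, 24, 0, 0], .sym 2 [0, 2, 3,
      0, 0, 4, 0]⟩ .e) ⟨2633984, 15, [0, 0, 0, 12, 0, 0, 0, 0, 0], .bas 3⟩ (.n .e ⟨2635776, 29,
      [12, 0, 24, -12, -24, 0, 0, 0, 0], .low 0 4 [3, 0, 0, 2, 4, 0, 0]⟩ .e)) ⟨2719748, 59, [0,
      0, 0, 0, 0, 0, 0, 24, 0], .sym 2 [3, 2, 0, 0, 0, 0, 4]⟩ (.n (.n .e ⟨2719776, 65, [-6, 0,
      -12, 18, -36, -12, 0, -24, 0], .sym 2 [3, 2, 0, 0, 0, 4, 0]⟩ .e) ⟨2720000, 23, [0, 0, 0,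
      0, 24, 0, 0, 0, 0], .sym 2 [3, 2, 0, 0, 4, 0, 0]⟩ .e)) ⟨2721792, 40, [6, 0, 12, -18, 12,
      12, 0, 0, 0], .low 0 3 [3, 4, 0, 2, 0, 0, 0]⟩ (.n (.n (.n .e ⟨2736128, 0, [0, 0, 0, 0, 0,
      0, 0, 0, 0], .low 0 4 [2, 3, 4, 0, 0, 0, 0]⟩ .e) ⟨2883604, 55, [0, -6, 12, 0, -12, 0, 12,
      -12, 0], .lam 2 1 [3, 0, 0, 0, 0, 0, 4]⟩ .e) ⟨2883618, 63, [0, 6, -12, 0, 12, 0, -12, 12,
      0], .low 0 3 [0, 3, 0, 0, 0, 4, 2]⟩ (.n (.n .e ⟨2883716, 5, [6, 0, 0, 0, 0, 0, 0, 0, 0],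
      .low 0 3 [3, 0, 0, 0, 2, 0, 4]⟩ .e) ⟨2883744, 13, [0, 0, 12, 0, 0, 0, 0, 0, 0], .low 0 3
      [0, 3, 0, 0, 2, 4, 0]⟩ .e)))) ⟨2883842, 6, [-6, 0, 0, 0, 0, 0, 0, 0, 0], .low 0 3 [3, 0,
      0, 0, 4, 0, 2]⟩ (.n (.n (.n (.n (.n .e ⟨2883856, 14, [0, 0, -12, 0, 0, 0, 0, 0, 0], .low
      0 3 [0, 3, 0, 0, 4, 2, 0]⟩ .e) ⟨2884612, 9, [0, 6, 0, 0, 0, 0, 0, 0, 0], .low 0 3 [3, 0,
      0, 2, 0, 0, 4]⟩ (.n .e ⟨2884640, 39, [3, -6, 6, -9, 6, 6, 0, 0, 0], .lam 3 1 [4, 0, 0, 2,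
      0, 0, 0]⟩ .e)) ⟨2884864, 20, [6, 0, 12, -6, -12, 0, 0, 0, 0], .lam 2 1 [3, 0, 0, 0, 4, 0,
      0]⟩ (.n (.n .e ⟨2885634, 10, [0, -6, 0, 0, 0, 0, 0, 0, 0], .low 0 3 [3, 0, 0, 4, 0, 0,
      2]⟩ .e) ⟨2885648, 45, [-3, 6, -6, 9, -6, -6, 0, 0, 0], .lam 2 1 [3, 0, 0, 4, 0, 0, 0]⟩
      .e)) ⟨2885760, 26, [-6, 0, -12, 6, 12, 0, 0, 0, 0], .low 0 3 [0, 3, 0, 4, 2, 0, 0]⟩ (.n
      (.n (.n .e ⟨2891780, 52, [-6, 0, -12, 0, 12, 0, -12, 0, 0], .low 0 3 [0, 3, 2, 0, 0, 0,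
      4]⟩ .e) ⟨2891808, 49, [0, 0, 0, 0, 0, 0, 12, 0, 0], .low 0 3 [0, 3, 2, 0, 0, 4, 0]⟩ .e)
      ⟨2892032, 17, [0, 0, 0, 6, 0, 0, 0, 0, 0], .low 0 3 [3, 0, 2, 0, 4, 0, 0]⟩ (.n (.n .e
      ⟨2893824, 31, [6, 0, 12, -6, -12, 0, 0, 0, 0], .low 0 3 [3, 0, 2, 4, 0, 0, 0]⟩ .e)
      ⟨2899970, 53, [6, 0, 12, 0, -12, 0, 12, 0, 0], .low 0 3 [0, 3, 4, 0, 0, 0, 2]⟩ .e)))
      ⟨2899984, 50, [0, 0, 0, 0, 0, 0, -12, 0, 0], .low 0 3 [0, 3, 4, 0, 0, 2, 0]⟩ (.n (.n (.n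
      (.n .e ⟨2900096, 18, [0, 0, 0, -6, 0, 0, 0, 0, 0], .low 0 3 [3, 0, 4, 0, 2, 0, 0]⟩ .e)
      ⟨2900992, 32, [-6, 0, -12, 6, 12, 0, 0, 0, 0], .low 0 3 [3, 0, 4, 2, 0, 0, 0]⟩ (.n .e
      ⟨2949124, 54, [0, 0, 0, 0, 0, 0, 0, 12, 0], .bas 7⟩ .e)) ⟨2949152, 57, [-3, 0, -6, 9,
      -18, -6, 0, -12, 0], .lam 3 1 [4, 2, 0, 0, 0, 0, 0]⟩ (.n (.n .e ⟨2949376, 19, [0, 0, 0,
      0, 12, 0, 0, 0, 0], .bas 4⟩ .e) ⟨2951168, 42, [3, 0, 6, -9, 6, 6, 0, 0, 0], .low 0 4 [3,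
      4, 0, 2, 0, 0, 0]⟩ .e)) ⟨2965504, 1, [0, 0, 0, 0, 0, 0, 0, 0, 0], .sym 2 [3, 2, 4, 0, 0,
      0, 0]⟩ (.n (.n (.n .e ⟨3014658, 60, [0, 0, 0, 0, 0, 0, 0, -12, 0], .low 0 4 [3, 4, 0, 0,
      0, 0, 2]⟩ .e) ⟨3014672, 61, [3, 0, 6, -9, 18, 6, 0, 12, 0], .lam 3 1 [4, 0, 0, 0, 0, 2,
      0]⟩ .e) ⟨3014784, 24, [0, 0, 0, 0, -12, 0, 0, 0, 0], .low 0 4 [3, 4, 0, 0, 2, 0, 0]⟩ (.n
      (.n .e ⟨3015680, 35, [-3, 0, -6, 9, -6, -6, 0, 0, 0], .sym 2 [0, 0, 3, 4, 2, 0, 0]⟩ .e)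
      ⟨3022848, 2, [0, 0, 0, 0, 0, 0, 0, 0, 0], .sym 2 [3, 4, 2, 0, 0, 0, 0]⟩ .e)))))

def tb422 : Tb := .n tl422 ⟨2203652, 58, [-12, 0, -24, 0, 24, 0, -24, -12, 0], .sym 2 [0, 3, 2, 0, 0, 0, 4]⟩ tr422

def ce422 : Cert where
  cx := cx422
  D := 12
  bk := [2621636, 2622980, 2162912, 2633984, 2949376, 2107136, 2175008, 2949124, 2109600]
  tb := tb422
  pl := [.lam 3 1 [0, 0, 0, 2, 0, 0, 4], .lam 3 1 [0, 0, 0, 4, 0, 0, 2], .lam 2 1 [0, 3, 0, 0, 0, 0, 4]]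
  fams := [(FB, [⟨[], [(l 1), (l 3), (l 2)], [(l 0), (l 4)]⟩, ⟨[], [(l 1), (l 3), (l 2)], [(l 4), (l 0)]⟩,
      ⟨[], [(l 1), (l 3), (b (l 0) (l 2))], [(l 4)]⟩, ⟨[], [(b (l 1) (l 2)), (l 3), (l 4)], [(l
      0)]⟩, ⟨[], [(b (l 1) (l 2)), (l 3), (b (l 0) (l 4))], []⟩]),
    (FA, []),
    (FC, [])]
  cases := [([([], [0, 2]), ([], []), ([], [])], [], [.cm 0 0 [-1, 1] 1, .cm 0 0 [-1, 1] 2, .cm 0 0 [2, 0,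
      -42, -24, 45] 1, .cm 0 0 [2, 0, -42, -24, 45] 2, .cm 0 2 [2, 0, -2, 0, 3] 0, .cm 0 0 [-5,
      0, 0, 1] 1]),
    ([([0], [2]), ([], []), ([], [])], [], [.zr 0 0 [1], .zr 0 0 [0, 0, 1], .zr 0 0 [0, 0, 0,
      1], .zr 0 0 [0, 0, 0, 0, 1], .cm 0 2 [2, -2, 0, 0, 5] 1, .cm 0 2 [13, -8, 15] 1]),
    ([([2], [0, 1]), ([], []), ([], [])], [], [.zr 0 2 [1], .zr 0 2 [0, 1], .zr 0 2 [0, 0, 1],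
      .zr 0 2 [0, 0, 0, 1], .zr 0 2 [0, 0, 0, 0, 1], .cm 0 0 [-1, 1] 1]),
    ([([1, 2], [0]), ([], []), ([], [])], [], [.zr 0 1 [1], .zr 0 1 [0, 1], .zr 0 1 [0, 0, 1],
      .zr 0 1 [0, 0, 0, 1], .zr 0 1 [0, 0, 0, 0, 1], .zr 0 2 [1]]),
    ([([0, 2], [1]), ([], [1]), ([], [])], [], [.zr 0 0 [1], .zr 0 0 [0, 0, 1], .zr 0 0 [0, 0,
      0, 1], .zr 0 0 [0, 0, 0, 0, 1], .zr 0 2 [1], .zr 0 2 [0, 1]]),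
    ([([0, 2], [1]), ([], []), ([], [0])], [], [.zr 0 0 [1], .zr 0 0 [0, 0, 1], .zr 0 0 [0, 0,
      0, 1], .zr 0 0 [0, 0, 0, 0, 1], .zr 0 2 [1], .zr 0 2 [0, 1]])]

def z0422 : Zs :=
  [(0, [-6, 6, 0, 6, 24, 0, -12, 12, 0]), (1, [0, -5, -10, 4, 6, 2, -14, -2, 0]), (2, [0, 0, 10,
      -23, -32, -4, 8, -16, -10])]

def sv422 : List (List (List (List ℤ))) :=
  [[[[12, -30, -12, -42, -60, -24, -72, -48, -24], [36, 252, 360, 18, 0, 0, 468, 288, 36], [-69,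
      -156, -246, 93, 174, 30, -324, -84, 12]], [[15, 30, 66, 15, 6, -30, 72, 48, 24], [18,
      -252, -252, -126, -108, 108, -468, -288, -36], [-12, 156, 84, 96, -120, -84, 324, 84,
      -12]], [[27, 234, 318, 21, 66, -66, 528, 276, 96], [-60, -882, -1200, 90, -336, 240,
      -1764, -1056, -216], [-3, 558, 750, -135, 282, -150, 864, 660, 36]], [[-18, -36, -36, 18,
      108, 36, -72, 0, 0], [48, 36, 24, -120, -144, 0, 144, 0, 0], [-54, 36, -36, 126, 36, -36,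
      0, 0, 0]], [[36, -60, -24, -60, 24, 24, -24, 0, 0], [-150, 120, -108, 270, -156, -84,
      -240, -144, 0], [84, -36, 144, -180, 168, 72, 240, 144, 0]]], [], []]

theorem okt422 : chkTb ce422.cx ce422.tb ce422.D ce422.bk = true :=
  chkTb_node (by decide +kernel) (by decide +kernel) (by decide +kernel)

theorem okz422 : plainZ ce422.cx ce422.tb ce422.pl [] = some z0422 := by decide +kernel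

theorem oks422 : famsV ce422.cx ce422.tb ce422.fams = some sv422 := by decide +kernel

theorem okc422 : chkCases ce422 z0422 sv422 ce422.cases = true := by decide +kernel

theorem okv422 : ce422.cov 4 = true := by decide +kernel

theorem ok422 : (ce422.chk && ce422.cov 4) = true :=
  Cert.ok_of (Cert.chk_of okt422 (by decide) okz422 oks422 okc422) okv422

end Pool.Agent.Lib.MP_b4a71d_al.Eng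
end

section

/-!
# MP_b4a71d_al: the certificate of the type 22211 in degree 8
-/

set_option autoImplicit false

namespace Pool.Agent.Lib.MP_b4a71d_al.Eng

open Tr

/-- The type 22211. -/
def cx22211 : Cx := ⟨7, 6, [(2, 3, true), (3, 7, true)], (2, 3, true), [([3, 4, 5, 6], [1, 2], true)]⟩

def tl22211 : Tb :=
  (.n (.n (.n (.n (.n (.n .e ⟨2107182, 30, [-24, -36, -12, 96, 0, 0, 0], .low 0 2 [0, 0, 2, 3, 4,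
      5, 6]⟩ .e) ⟨2110766, 27, [-12, -12, -12, 24, 0, 0, 0], .lam 2 1 [0, 0, 3, 0, 4, 5, 6]⟩
      (.n .e ⟨2111662, 28, [12, 12, 0, -24, 0, 0, 0], .lam 2 1 [0, 0, 3, 4, 0, 5, 6]⟩ .e))
      ⟨2111830, 29, [0, -12, 0, 24, 0, 0, 0], .lam 2 1 [0, 0, 3, 4, 5, 0, 6]⟩ (.n (.n .e
      ⟨2111858, 26, [0, 0, 0, -24, 0, 0, 0], .lam 2 1 [0, 0, 3, 4, 5, 6, 0]⟩ .e) ⟨2164526, 31,
      [0, 0, 0, 0, 8, 0, 0], .bas 4⟩ .e)) ⟨2175278, 19, [4, 4, 4, -8, 0, 0, 0], .lam 3 1 [0, 2,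
      4, 0, 5, 6, 0]⟩ (.n (.n (.n .e ⟨2177070, 20, [-4, -4, 0, 8, 0, 0, 0], .lam 3 1 [0, 2, 4,
      5, 0, 6, 0]⟩ .e) ⟨2177350, 21, [0, 4, 0, -8, 0, 0, 0], .lam 3 1 [0, 2, 4, 5, 6, 0, 0]⟩
      (.n .e ⟨2177392, 18, [0, 0, 0, 8, 0, 0, 0], .bas 3⟩ .e)) ⟨2196782, 47, [8, 8, 8, -16, -8,
      8, 0], .lam 3 1 [0, 0, 0, 2, 4, 5, 6]⟩ (.n (.n .e ⟨2197678, 54, [-8, -8, -4, 16, 8, -8,
      0], .lam 2 1 [0, 3, 0, 4, 0, 5, 6]⟩ .e) ⟨2197846, 55, [4, 8, 4, -16, -8, 8, 0], .lam 2 1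
      [0, 3, 0, 4, 5, 0, 6]⟩ .e))) ⟨2197874, 56, [-4, -4, -4, 16, 8, -8, 0], .lam 2 1 [0, 3, 0,
      4, 5, 6, 0]⟩ (.n (.n (.n (.n .e ⟨2203950, 43, [24, 36, 12, -96, 0, -8, 0], .lam 3 1 [0,
      0, 2, 0, 4, 5, 6]⟩ .e) ⟨2205742, 48, [-24, -36, -8, 96, 0, 8, 0], .lam 3 1 [0, 4, 2, 0,
      0, 5, 6]⟩ (.n .e ⟨2206022, 49, [20, 36, 8, -96, 0, -8, 0], .lam 3 1 [0, 4, 2, 0, 5, 0,
      6]⟩ .e)) ⟨2206064, 50, [-20, -32, -8, 96, 0, 8, 0], .lam 3 1 [0, 4, 2, 0, 5, 6, 0]⟩ (.n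
      (.n .e ⟨2212014, 61, [6, 6, 2, -12, -20, 12, 0], .lam 3 1 [0, 0, 4, 0, 2, 5, 6]⟩ .e)
      ⟨2212182, 72, [-14, -26, -6, 60, -28, 28, -8], .low 0 2 [0, 2, 3, 0, 4, 5, 6]⟩ .e))
      ⟨2212210, 68, [0, 0, 0, -16, -8, 8, -8], .lam 3 1 [0, 4, 0, 0, 5, 6, 2]⟩ (.n (.n (.n .e
      ⟨2212910, 59, [-6, -6, -10, 12, 20, -12, 0], .lam 3 1 [0, 0, 4, 2, 0, 5, 6]⟩ .e)
      ⟨2213190, 75, [22, 26, 14, -60, 28, -28, 8], .lam 2 1 [0, 3, 4, 0, 5, 0, 6]⟩ .e)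
      ⟨2213232, 65, [-8, -8, -8, 16, 8, -8, 8], .lam 3 1 [0, 4, 0, 2, 5, 6, 0]⟩ (.n (.n .e
      ⟨2214422, 98, [-2, 10, -2, -20, -12, 12, 0], .lam 3 1 [0, 4, 0, 5, 0, 2, 6]⟩ .e)
      ⟨2214450, 104, [-55, -61, -13, 118, -6, 18, 40], .sym 2 [0, 3, 4, 5, 0, 6, 2]⟩ .e))))
      ⟨2214534, 85, [-6, -10, 2, 20, 12, -12, 0], .lam 3 1 [0, 4, 0, 5, 2, 0, 6]⟩ (.n (.n (.n
      (.n (.n .e ⟨2214576, 100, [44, 48, 24, -128, -16, 8, 16], .lam 3 1 [0, 4, 5, 6, 2, 0, 0]⟩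
      .e) ⟨2214786, 101, [-8, -4, -4, -8, -16, 8, -8], .low 0 2 [0, 2, 3, 4, 5, 0, 6]⟩ (.n .e
      ⟨2214800, 91, [12, 8, 24, -80, -24, 16, 56], .lam 3 1 [0, 4, 5, 0, 6, 2, 0]⟩ .e))
      ⟨2623278, 32, [24, 36, 12, -96, -8, 0, 0], .lam 2 1 [0, 0, 0, 3, 4, 5, 6]⟩ (.n (.n .e
      ⟨2634030, 23, [8, 8, 8, -16, 0, 0, 0], .sym 2 [0, 2, 3, 0, 4, 5, 6]⟩ .e) ⟨2635822, 24,
      [-8, -8, 0, 16, 0, 0, 0], .sym 2 [0, 2, 3, 4, 0, 5, 6]⟩ .e)) ⟨2636102, 25, [0, 8, 0, -16,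
      0, 0, 0], .sym 2 [0, 2, 3, 4, 5, 0, 6]⟩ (.n (.n (.n .e ⟨2636144, 22, [0, 0, 0, 16, 0, 0,
      0], .sym 2 [0, 2, 3, 4, 5, 6, 0]⟩ .e) ⟨2720046, 37, [-32, -44, -20, 112, 8, 0, 0], .lam 3
      1 [2, 0, 0, 0, 4, 5, 6]⟩ .e) ⟨2721838, 38, [32, 44, 12, -112, -8, 0, 0], .lam 3 1 [2, 0,
      0, 4, 0, 5, 6]⟩ (.n (.n .e ⟨2722118, 39, [-24, -44, -12, 112, 8, 0, 0], .lam 3 1 [2, 0,
      0, 4, 5, 0, 6]⟩ .e) ⟨2722160, 40, [24, 36, 12, -112, -8, 0, 0], .lam 3 1 [2, 0, 0, 4, 5,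
      6, 0]⟩ .e))) ⟨2736174, 9, [0, 0, 8, 0, 0, 0, 0], .bas 2⟩ (.n (.n (.n (.n .e ⟨2736454, 10,
      [-8, 0, -8, 0, 0, 0, 0], .lam 3 1 [2, 4, 5, 0, 0, 0, 6]⟩ .e) ⟨2736496, 11, [8, 8, 8, 0,
      0, 0, 0], .lam 3 1 [2, 4, 5, 0, 0, 6, 0]⟩ (.n .e ⟨2738694, 0, [8, 0, 0, 0, 0, 0, 0], .bas
      0⟩ .e)) ⟨2738736, 4, [-8, -8, 0, 0, 0, 0, 0], .lam 3 1 [2, 4, 5, 6, 0, 0, 0]⟩ (.n (.n .e
      ⟨2739072, 3, [0, 8, 0, 0, 0, 0, 0], .bas 1⟩ .e) ⟨2884910, 42, [4, 4, 4, -8, 8, -8, 0],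
      .lam 2 1 [3, 0, 0, 0, 4, 5, 6]⟩ .e)) ⟨2885806, 51, [-4, -4, 4, 8, -8, 8, 0], .lam 2 1 [3,
      0, 0, 4, 0, 5, 6]⟩ (.n (.n (.n .e ⟨2885974, 52, [-4, 4, -4, -8, 8, -8, 0], .lam 2 1 [3,
      0, 0, 4, 5, 0, 6]⟩ .e) ⟨2886002, 53, [4, 4, 4, 8, -8, 8, 0], .lam 2 1 [3, 0, 0, 4, 5, 6,
      0]⟩ .e) ⟨2892078, 41, [0, 0, 0, 0, 0, 8, 0], .bas 5⟩ (.n (.n .e ⟨2893870, 44, [0, 0, -4,
      0, 0, -8, 0], .lam 3 1 [4, 0, 2, 0, 0, 5, 6]⟩ .e) ⟨2894150, 45, [4, 0, 4, 0, 0, 8, 0],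
      .lam 3 1 [4, 0, 2, 0, 5, 0, 6]⟩ .e)))))

def tr22211 : Tb :=
  (.n (.n (.n (.n (.n (.n .e ⟨2900142, 58, [6, 6, -2, -12, 20, -12, 0], .lam 2 1 [3, 0, 4, 0, 0,
      5, 6]⟩ .e) ⟨2900310, 73, [14, 14, 6, -36, 28, -28, 8], .low 0 2 [2, 0, 3, 0, 4, 5, 6]⟩
      (.n .e ⟨2900338, 69, [0, 0, 0, -8, 8, -8, 8], .lam 3 1 [4, 0, 0, 0, 5, 6, 2]⟩ .e))
      ⟨2901038, 57, [-6, -6, -2, 12, -20, 12, 0], .sym 2 [3, 0, 0, 4, 2, 5, 6]⟩ (.n (.n .e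
      ⟨2901318, 76, [-10, -14, -2, 36, -28, 28, -8], .lam 2 1 [3, 0, 4, 0, 5, 0, 6]⟩ .e)
      ⟨2901360, 66, [-4, -4, -4, 8, -8, 8, -8], .lam 3 1 [4, 0, 0, 2, 5, 6, 0]⟩ .e)) ⟨2902550,
      88, [21, 27, 15, -66, -14, 2, 0], .lam 2 1 [3, 0, 4, 5, 0, 0, 6]⟩ (.n (.n (.n .e
      ⟨2902578, 102, [35, 41, 13, -94, 6, -18, 0], .low 0 2 [2, 0, 3, 4, 0, 5, 6]⟩ .e)
      ⟨2902662, 80, [-25, -27, -15, 66, 14, -2, 0], .sym 2 [3, 4, 0, 0, 5, 2, 6]⟩ (.n .e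
      ⟨2902704, 96, [-13, -11, -11, 42, -10, 6, -16], .lam 3 1 [4, 0, 5, 6, 2, 0, 0]⟩ .e))
      ⟨2902914, 89, [-11, -21, -9, 46, 42, -22, 8], .low 0 2 [2, 0, 3, 4, 5, 0, 6]⟩ (.n (.n .e
      ⟨2902928, 92, [-12, -20, -24, 104, 24, -16, -56], .lam 3 1 [4, 0, 5, 0, 6, 2, 0]⟩ .e)
      ⟨2949422, 33, [-4, -4, -4, 8, -8, 0, 0], .lam 3 1 [0, 2, 0, 0, 4, 5, 6]⟩ .e))) ⟨2951214,
      34, [4, 4, 0, -8, 8, 0, 0], .lam 3 1 [0, 2, 0, 4, 0, 5, 6]⟩ (.n (.n (.n (.n .e ⟨2951494,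
      35, [0, -4, 0, 8, -8, 0, 0], .lam 3 1 [0, 2, 0, 4, 5, 0, 6]⟩ .e) ⟨2951536, 36, [0, 0, 0,
      -8, 8, 0, 0], .lam 3 1 [0, 2, 0, 4, 5, 6, 0]⟩ (.n .e ⟨2965550, 12, [0, 0, 4, 0, 0, 0, 0],
      .sym 2 [3, 2, 4, 0, 0, 5, 6]⟩ .e)) ⟨2965830, 14, [-4, 0, -4, 0, 0, 0, 0], .sym 2 [3, 2,
      4, 0, 5, 0, 6]⟩ (.n (.n .e ⟨2965872, 16, [4, 4, 4, 0, 0, 0, 0], .sym 2 [3, 2, 4, 0, 5, 6,
      0]⟩ .e) ⟨2968070, 1, [4, 0, 0, 0, 0, 0, 0], .sym 2 [3, 2, 4, 5, 0, 0, 6]⟩ .e)) ⟨2968112,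
      7, [-4, -4, 0, 0, 0, 0, 0], .sym 2 [3, 2, 4, 5, 0, 6, 0]⟩ (.n (.n (.n .e ⟨2968448, 5, [0,
      4, 0, 0, 0, 0, 0], .sym 2 [3, 2, 4, 5, 6, 0, 0]⟩ .e) ⟨3014830, 62, [-2, -2, -2, 4, -12,
      4, 0], .lam 3 1 [4, 0, 0, 0, 2, 5, 6]⟩ .e) ⟨3014998, 70, [-34, -46, -22, 108, 4, 4, -8],
      .low 0 2 [2, 3, 0, 0, 4, 5, 6]⟩ (.n (.n .e ⟨3015026, 64, [-4, -4, -4, 0, 0, 0, -8], .lam
      2 1 [3, 4, 0, 0, 5, 6, 0]⟩ .e) ⟨3015726, 60, [2, 2, -2, -4, 12, -4, 0], .lam 3 1 [4, 0,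
      0, 2, 0, 5, 6]⟩ .e)))) ⟨3016006, 74, [38, 46, 26, -108, -4, -4, 8], .lam 2 1 [3, 4, 0, 0,
      5, 0, 6]⟩ (.n (.n (.n (.n (.n .e ⟨3016048, 63, [0, 0, 0, 0, 0, 0, 8], .bas 6⟩ .e)
      ⟨3017238, 84, [-6, 2, -6, -4, -4, 4, 0], .lam 2 1 [3, 4, 0, 5, 0, 0, 6]⟩ (.n .e ⟨3017266,
      99, [-36, -40, -16, 104, 0, 8, 0], .low 0 2 [2, 3, 0, 4, 0, 5, 6]⟩ .e)) ⟨3017350, 79, [2,
      -2, 6, 4, 4, -4, 0], .sym 2 [3, 0, 0, 4, 5, 2, 6]⟩ (.n (.n .e ⟨3017392, 97, [36, 40, 20,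
      -112, -8, 0, 16], .lam 3 1 [4, 5, 0, 6, 2, 0, 0]⟩ .e) ⟨3017602, 87, [-12, -8, -8, 8, -8,
      0, -8], .low 0 2 [2, 3, 0, 4, 5, 0, 6]⟩ .e)) ⟨3017616, 93, [-8, -12, 8, -32, 8, -8, 56],
      .lam 3 1 [4, 5, 0, 0, 6, 2, 0]⟩ (.n (.n (.n .e ⟨3022894, 13, [0, 0, 4, 0, 0, 0, 0], .sym
      2 [3, 4, 2, 0, 0, 5, 6]⟩ .e) ⟨3023174, 15, [-4, 0, -4, 0, 0, 0, 0], .sym 2 [3, 4, 2, 0,
      5, 0, 6]⟩ .e) ⟨3023216, 17, [4, 4, 4, 0, 0, 0, 0], .sym 2 [3, 4, 2, 0, 5, 6, 0]⟩ (.n (.n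
      .e ⟨3025414, 2, [4, 0, 0, 0, 0, 0, 0], .sym 2 [3, 4, 2, 5, 0, 0, 6]⟩ .e) ⟨3025456, 8,
      [-4, -4, 0, 0, 0, 0, 0], .sym 2 [3, 4, 2, 5, 0, 6, 0]⟩ .e))) ⟨3025792, 6, [0, 4, 0, 0, 0,
      0, 0], .sym 2 [3, 4, 2, 5, 6, 0, 0]⟩ (.n (.n (.n (.n .e ⟨3035158, 94, [16, 24, 32, -136,
      -8, -8, 72], .lam 3 1 [4, 5, 6, 0, 0, 2, 0]⟩ .e) ⟨3035186, 103, [60, 60, 20, -80, 0, 0,
      -40], .lam 3 1 [4, 5, 6, 0, 0, 0, 2]⟩ (.n .e ⟨3035270, 86, [0, 4, -4, -8, 8, 0, 0], .lam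
      3 1 [4, 5, 0, 0, 2, 0, 6]⟩ .e)) ⟨3035312, 95, [-18, -26, -22, 140, -4, 12, -64], .low 0 2
      [2, 3, 4, 0, 5, 6, 0]⟩ (.n (.n .e ⟨3035522, 90, [-12, -12, 4, -32, 8, -8, 48], .lam 2 1
      [3, 4, 5, 0, 6, 0, 0]⟩ .e) ⟨3035536, 82, [-26, -34, -30, 140, -4, 12, -64], .low 0 1 [0,
      2, 3, 4, 5, 6, 0]⟩ .e)) ⟨3036166, 77, [-40, -48, -24, 112, -8, 8, -8], .lam 3 1 [4, 5, 0,
      2, 0, 0, 6]⟩ (.n (.n (.n .e ⟨3036208, 67, [2, 2, -2, -4, 12, -4, -8], .lam 3 1 [4, 5, 0,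
      2, 0, 6, 0]⟩ .e) ⟨3036544, 78, [38, 46, 26, -108, -4, -4, 16], .lam 3 1 [4, 5, 0, 2, 6,
      0, 0]⟩ .e) ⟨3038210, 81, [-48, -48, -24, 112, -8, 8, -8], .low 0 2 [2, 3, 4, 5, 0, 0, 6]⟩
      (.n (.n .e ⟨3038224, 71, [10, 10, -2, -4, 12, -4, -8], .low 0 2 [2, 3, 4, 5, 0, 6, 0]⟩
      .e) ⟨3038336, 83, [38, 38, 26, -108, -4, -4, 16], .low 0 1 [2, 3, 4, 5, 6, 0, 0]⟩ .e)))))

def tb22211 : Tb := .n tl22211 ⟨2894192, 46, [-4, -4, -4, 0, 0, -8, 0], .lam 3 1 [4, 0, 2, 0, 5, 6, 0]⟩ tr22211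

def ce22211 : Cert where
  cx := cx22211
  D := 8
  bk := [2738694, 2739072, 2736174, 2177392, 2164526, 2892078, 3016048]
  tb := tb22211
  pl := [.lam 3 1 [0, 0, 4, 5, 0, 6, 2], .sym 2 [3, 4, 5, 0, 2, 0, 6], .sym 2 [3, 4, 5, 6, 0, 2, 0]]
  fams := [(FB, [⟨[(b (l 3) (l 4))], [(l 1), (l 5), (l 2)], [(l 6)]⟩, ⟨[(b (l 1) (l 3))], [(l 2), (l 4),
      (b (l 5) (l 6))], []⟩, ⟨[(b (l 1) (l 2))], [(b (l 3) (l 4)), (l 5), (l 6)], []⟩, ⟨[(b (l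
      1) (l 3))], [(b (l 2) (l 4)), (l 5), (l 6)], []⟩]),
    (FA, []),
    (FC, [])]
  cases := [([([], [0, 2]), ([], []), ([], [])], [], [.cm 0 2 [-6, -9, -7, 38] 0, .cm 0 2 [-6, -9, -7, 38]
      1, .cm 0 0 [3, 4, 0, 10] 1, .cm 0 0 [3, 4, 0, 10] 2]),
    ([([0], [2]), ([], []), ([], [])], [], [.zr 0 0 [1], .zr 0 0 [0, 1], .zr 0 0 [0, 0, 1], .zr
      0 0 [0, 0, 0, 1]]),
    ([([2], [0, 1]), ([], []), ([], [])], [], [.zr 0 2 [1], .zr 0 2 [0, 1], .zr 0 2 [0, 0, 1],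
      .cm 0 0 [0, 0, 1] 1]),
    ([([1, 2], [0]), ([], []), ([], [])], [], [.zr 0 1 [1], .zr 0 1 [0, 1], .zr 0 1 [0, 0, 1],
      .zr 0 1 [0, 0, 0, 1]]),
    ([([0, 2], [1]), ([], [1]), ([], [])], [], [.zr 0 0 [1], .zr 0 0 [0, 1], .zr 0 0 [0, 0, 1],
      .zr 0 0 [0, 0, 0, 1]]),
    ([([0, 2], [1]), ([], []), ([], [0])], [], [.zr 0 0 [1], .zr 0 0 [0, 1], .zr 0 0 [0, 0, 1],
      .zr 0 0 [0, 0, 0, 1]])]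

def z022211 : Zs :=
  [(0, [-20, -20, 0, 0, 0, 0, 40]), (1, [0, 1, 0, -6, 0, -2, 2]), (2, [0, 0, 1, -2, -2, 2, 2])]

def sv22211 : List (List (List (List ℤ))) :=
  [[[[240, 240, 176, -400, -16, -32, -80], [-344, -104, -336, -48, -48, 48, 256], [-186, -590, 2,
      1460, 92, 44, -48]], [[-108, -132, -164, 872, -200, 104, -592], [26, 118, 270, -1412,
      -60, -124, 1152], [152, 96, -104, 672, 400, -96, -720]], [[288, 192, 96, 0, 0, 0, 0], [0,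
      280, 200, -1440, -80, 0, 0], [288, 192, 96, 0, 0, 0, 0]], [[114, 102, -18, 84, 60, -12,
      -216], [-81, -51, 97, -454, -34, 54, 416], [84, 96, 108, -480, -120, 0, 216]]], [], []]

theorem okt22211 : chkTb ce22211.cx ce22211.tb ce22211.D ce22211.bk = true :=
  chkTb_node (by decide +kernel) (by decide +kernel) (by decide +kernel)

theorem okz22211 : plainZ ce22211.cx ce22211.tb ce22211.pl [] = some z022211 := by decide +kernel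

theorem oks22211 : famsV ce22211.cx ce22211.tb ce22211.fams = some sv22211 := by decide +kernel

theorem okc22211 : chkCases ce22211 z022211 sv22211 ce22211.cases = true := by decide +kernel

theorem okv22211 : ce22211.cov 2 = true := by decide +kernel

theorem ok22211 : (ce22211.chk && ce22211.cov 2) = true :=
  Cert.ok_of (Cert.chk_of okt22211 (by decide) okz22211 oks22211 okc22211) okv22211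

end Pool.Agent.Lib.MP_b4a71d_al.Eng
end
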