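import Pool.Agent.Lib.MP_b4a71d_al.TIdeal

section

/-!
# MP_b4a71d_al: the certificate of the type 3311 in degree 8
-/

set_option autoImplicit false

namespace Pool.Agent.Lib.MP_b4a71d_al.Eng

open Tr

/-- The type 3311. -/
def cx3311 : Cx := ⟨7, 5, [(2, 3, true), (3, 6, false)], (2, 3, true), []⟩

def tl3311 : Tb :=
  (.n (.n (.n (.n (.n (.n (.n .e ⟨2098405, 30, [96, -96, 0, 144, 96, 0, 96, 384, 192, 0, 0, 0, 0,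
      0, 0, 0, 0, 0, 0, 0, 0, 0, 0], .lam 2 1 [0, 0, 0, 0, 3, 4, 5]⟩ .e) ⟨2098853, 71, [-96,
      -96, 0, -144, 96, 0, -96, -192, 0, 0, 0, 0, 96, 192, 0, 96, 192, 0, 0, 0, 0, 0, 0], .lam
      2 1 [0, 0, 0, 3, 0, 4, 5]⟩ .e) ⟨2098965, 11, [288, 288, 0, 144, -96, 0, 0, 0, 0, 0, 0, 0,
      0, 0, 0, 0, 0, 0, 0, 0, 0, 0, 0], .lam 2 1 [0, 0, 0, 3, 4, 0, 5]⟩ (.n .e ⟨2098986, 13,
      [96, -96, 192, -144, 96, 0, 0, 0, 0, 0, 0, 0, 0, 0, 0, 0, 0, 0, 0, 0, 0, 0, 0], .lam 2 1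
      [0, 0, 0, 3, 4, 5, 0]⟩ .e)) ⟨2105573, 28, [-96, 96, 0, 0, -96, 0, 48, -96, -192, 0, 0, 0,
      0, 0, 0, 0, 0, 0, 0, 0, 0, 0, 0], .lam 3 1 [0, 0, 2, 0, 4, 0, 5]⟩ (.n (.n .e ⟨2106917,
      70, [96, 96, 0, 0, -96, 0, -48, -96, 0, 0, 0, 0, 48, 96, 0, -96, -192, 0, 0, 0, 0, 0, 0],
      .lam 3 1 [0, 0, 2, 4, 0, 0, 5]⟩ .e) ⟨2107141, 10, [0, 0, 0, 0, 96, 0, 0, 0, 0, 0, 0, 0,
      0, 0, 0, 0, 0, 0, 0, 0, 0, 0, 0], .bas 4⟩ (.n .e ⟨2107176, 12, [-96, 96, -192, 0, -96, 0,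
      0, 0, 0, 0, 0, 0, 0, 0, 0, 0, 0, 0, 0, 0, 0, 0, 0], .lam 3 1 [0, 0, 2, 4, 5, 0, 0]⟩ .e)))
      ⟨2109605, 79, [0, 0, 0, 0, 0, 0, 0, 0, 0, 0, 0, 0, 0, -288, 0, 0, 0, 0, -96, 0, 0, 0, 0],
      .lam 2 1 [0, 0, 3, 0, 0, 4, 5]⟩ (.n (.n (.n (.n .e ⟨2109717, 39, [288, 0, 0, 0, 0, 288,
      0, 288, 0, 0, -96, 0, 0, 0, 0, 0, 0, 0, 0, 0, 0, 0, 0], .lam 2 1 [0, 0, 3, 0, 4, 0, 5]⟩
      .e) ⟨2109738, 46, [144, -144, 0, 120, 144, 0, 48, 192, 288, 0, 0, 96, 0, 0, 0, 0, 0, 0,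
      0, 0, 0, 0, 0], .lam 3 1 [0, 0, 0, 0, 4, 5, 2]⟩ .e) ⟨2110501, 78, [0, 0, 0, 0, 0, 0, 0,
      0, 0, 0, 0, 0, 0, 0, 0, 0, 0, 0, 96, 0, 0, 0, 0], .bas 18⟩ (.n .e ⟨2110725, 38, [0, 0, 0,
      0, 0, 0, 0, 0, 0, 0, 96, 0, 0, 0, 0, 0, 0, 0, 0, 0, 0, 0, 0], .bas 10⟩ .e)) ⟨2110760, 44,
      [-144, 144, 0, -120, -144, 0, -48, -480, -288, 0, 0, -96, 0, 0, 0, 0, 0, 0, 0, 0, 0, 0,
      0], .lam 3 1 [0, 0, 0, 2, 4, 5, 0]⟩ (.n (.n .e ⟨2111509, 94, [-132, -84, 0, -42, 180, 96,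
      72, 96, 48, 0, -48, 0, 36, 48, 0, -12, 168, 24, 48, 0, 0, 0, 0], .lam 3 1 [0, 0, 0, 4, 0,
      2, 5]⟩ .e) ⟨2111530, 107, [-48, -336, 0, 120, 336, 0, 192, 960, 288, 0, 0, 0, -96, 288,
      192, 192, 384, -192, 192, 0, -96, 0, 0], .lam 2 1 [0, 0, 3, 4, 0, 5, 0]⟩ (.n .e ⟨2111621,
      91, [132, 84, 0, 42, -180, -96, -72, -96, -48, 0, 48, 0, -36, -48, 0, -132, -168, -24,
      -48, 0, 0, 0, 0], .lam 3 1 [0, 0, 0, 4, 2, 0, 5]⟩ .e)))) ⟨2111656, 106, [48, 336, 0,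
      -120, -336, 0, -192, -672, -288, 0, 0, 0, 96, 0, -48, -192, -384, 192, -192, 0, 96, 0,
      0], .sym 2 [0, 0, 3, 4, 2, 5, 0]⟩ (.n (.n (.n (.n (.n .e ⟨2111810, 138, [-2894, -1174,
      216, -1431, 286, -1640, -912, -3848, -912, -392, -184, 208, 286, 488, -48, 118, 860,
      -156, 136, 304, -80, 96, -144], .lam 3 1 [0, 0, 4, 5, 0, 0, 2]⟩ .e) ⟨2111824, 133, [2606,
      1174, -216, 1431, -286, 1640, 912, 3848, 912, 392, 184, -208, -286, -488, 48, -118, -860,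
      156, -136, -304, 80, -96, 144], .lam 3 1 [0, 0, 4, 5, 0, 2, 0]⟩ .e) ⟨2162917, 21, [0, 0,
      0, -48, 0, 0, -48, -96, 0, 0, 0, 0, 0, 0, 0, 0, 0, 0, 0, 0, 0, 0, 0], .lam 3 1 [0, 2, 0,
      0, 4, 5, 0]⟩ (.n .e ⟨2164261, 51, [0, 0, 0, 48, 0, 0, 48, 96, 0, 0, 0, 0, -48, -96, 0, 0,
      0, 0, 0, 0, 0, 0, 0], .lam 3 1 [0, 2, 0, 0, 0, 4, 5]⟩ .e)) ⟨2164485, 9, [-96, -96, 0,
      -48, 0, 0, 0, 0, 0, 0, 0, 0, 0, 0, 0, 0, 0, 0, 0, 0, 0, 0, 0], .sym 2 [0, 0, 2, 3, 4, 0,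
      5]⟩ (.n (.n .e ⟨2164520, 8, [0, 0, 0, 48, 0, 0, 0, 0, 0, 0, 0, 0, 0, 0, 0, 0, 0, 0, 0, 0,
      0, 0, 0], .sym 2 [0, 0, 2, 3, 4, 5, 0]⟩ .e) ⟨2175013, 50, [0, 0, 0, 0, 0, 0, 0, 0, 0, 0,
      0, 0, 0, 96, 0, 0, 0, 0, 0, 0, 0, 0, 0], .bas 13⟩ (.n .e ⟨2175237, 22, [-96, 0, 0, 0, 0,
      -96, 0, -96, 0, 0, 0, 0, 0, 0, 0, 0, 0, 0, 0, 0, 0, 0, 0], .lam 3 1 [0, 2, 4, 0, 5, 0,
      0]⟩ .e))) ⟨2175272, 20, [0, 0, 0, 0, 0, 0, 0, 96, 0, 0, 0, 0, 0, 0, 0, 0, 0, 0, 0, 0, 0,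
      0, 0], .bas 7⟩ (.n (.n (.n (.n .e ⟨2177029, 64, [0, 0, 0, 0, 0, 0, 0, 0, 0, 0, 0, 0, 0,
      0, 0, 48, 0, 0, 0, 0, 0, 0, 0], .sym 2 [0, 2, 3, 4, 0, 0, 5]⟩ .e) ⟨2177064, 58, [0, 0, 0,
      0, 0, 0, 0, -96, 0, 0, 0, 0, 0, -96, -48, 0, 0, 0, 0, 0, 0, 0, 0], .sym 2 [0, 2, 3, 4, 0,
      5, 0]⟩ .e) ⟨2177344, 0, [96, 0, 0, 0, 0, 0, 0, 0, 0, 0, 0, 0, 0, 0, 0, 0, 0, 0, 0, 0, 0,
      0, 0], .bas 0⟩ (.n .e ⟨2195621, 77, [-48, 48, 0, 24, -48, 0, 48, 0, -96, 0, 0, 0, -96,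
      -96, 0, 0, 0, -96, 0, 0, 0, 0, 0], .lam 2 1 [0, 3, 0, 0, 0, 4, 5]⟩ .e)) ⟨2195733, 31,
      [-48, 144, 0, -24, -48, 192, 96, 0, -192, 0, 0, 0, 0, 0, 0, 0, 0, 0, 0, 0, 0, 0, 0], .lam
      2 1 [0, 3, 0, 0, 4, 0, 5]⟩ (.n (.n .e ⟨2195754, 37, [-240, 240, -192, 24, -240, 0, 0,
      -192, -288, 96, 0, 0, 0, 0, 0, 0, 0, 0, 0, 0, 0, 0, 0], .lam 2 1 [0, 3, 0, 0, 4, 5, 0]⟩
      .e) ⟨2196517, 75, [48, -48, 0, -24, 48, 0, -48, 0, 96, 0, 0, 0, 0, 96, 0, 0, 0, 0, 0, 0,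
      0, 0, 0], .sym 2 [0, 3, 0, 2, 0, 4, 5]⟩ (.n .e ⟨2196741, 29, [48, 48, 0, 24, 48, 0, 0, 0,
      96, 0, 0, 0, 0, 0, 0, 0, 0, 0, 0, 0, 0, 0, 0], .sym 2 [0, 3, 0, 2, 4, 0, 5]⟩ .e)))))
      ⟨2196776, 35, [48, -48, 0, -24, 48, 0, -48, 96, 96, 0, 0, 0, 0, 0, 0, 0, 0, 0, 0, 0, 0,
      0, 0], .sym 2 [0, 3, 0, 2, 4, 5, 0]⟩ (.n (.n (.n (.n (.n (.n .e ⟨2197525, 90, [-452,
      -596, 0, -74, 180, -384, -40, 64, 144, 0, 16, 0, -172, -48, 0, 84, 168, -232, 144, 0, 0,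
      0, 0], .lam 2 1 [0, 3, 0, 4, 0, 0, 5]⟩ .e) ⟨2197546, 109, [0, 192, -192, 0, -192, 0, 48,
      -96, 0, 0, 0, 0, 144, 96, 96, -96, -192, 0, 0, 96, 0, -96, 0], .lam 2 1 [0, 3, 0, 4, 0,
      5, 0]⟩ .e) ⟨2197637, 87, [356, 500, 0, 74, -180, 384, 88, 32, -144, 0, -16, 0, 124, -48,
      0, -84, -264, 232, -144, 0, 0, 0, 0], .sym 2 [3, 0, 0, 4, 0, 2, 5]⟩ (.n .e ⟨2197672, 108,
      [0, 0, 0, 0, 0, 0, 0, 0, 0, 0, 0, 0, 0, 0, 0, 0, 0, 0, 0, 0, 0, 96, 0], .bas 21⟩ .e))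
      ⟨2197826, 137, [534, 350, -456, 395, -142, 480, 236, 1296, 352, 176, -104, 32, -66, -80,
      12, -142, -204, -188, 72, 152, -64, -240, 48], .lam 2 1 [0, 3, 0, 4, 5, 0, 0]⟩ (.n (.n .e
      ⟨2197840, 131, [-630, -446, 360, -395, 142, -480, -236, -1296, -352, -176, 104, -32, 66,
      80, -12, 142, 204, 188, -72, -152, 64, 240, -48], .sym 2 [3, 4, 0, 0, 5, 0, 2]⟩ .e)
      ⟨2203685, 72, [0, 0, 0, 0, 0, 0, 0, 0, 0, 0, 0, 0, 0, 0, 0, 0, 0, 96, 0, 0, 0, 0, 0],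
      .bas 17⟩ (.n .e ⟨2203909, 26, [0, 0, 0, 0, 0, 0, 0, 0, 96, 0, 0, 0, 0, 0, 0, 0, 0, 0, 0,
      0, 0, 0, 0], .bas 8⟩ .e))) ⟨2203944, 33, [192, -192, 192, 0, 192, 0, -48, 96, 192, -96,
      0, 0, 0, 0, 0, 0, 0, 0, 0, 0, 0, 0, 0], .lam 3 1 [0, 0, 2, 0, 4, 5, 0]⟩ (.n (.n (.n (.n
      .e ⟨2205701, 69, [-96, -96, 0, 0, 0, 0, 48, 96, 0, 0, 0, 0, -48, -96, 0, 96, 96, 0, 0, 0,
      0, 0, 0], .sym 2 [0, 3, 2, 4, 0, 0, 5]⟩ .e) ⟨2205736, 97, [0, -192, 192, 0, 192, 0, 48,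
      96, 0, 0, 0, 0, -48, -96, 0, 96, 192, 0, 0, -96, 0, 0, 0], .lam 3 1 [0, 0, 2, 4, 0, 5,
      0]⟩ .e) ⟨2206016, 5, [96, -96, 96, 0, 0, 0, 0, 0, 0, 0, 0, 0, 0, 0, 0, 0, 0, 0, 0, 0, 0,
      0, 0], .sym 2 [0, 3, 2, 4, 5, 0, 0]⟩ (.n .e ⟨2211861, 95, [-232, 104, 0, -292, -360,
      -480, -416, -1168, -48, 0, 128, 0, 304, 0, 0, -144, -576, 448, -384, 0, 0, 0, 0], .lam 3
      1 [0, 4, 0, 0, 0, 2, 5]⟩ .e)) ⟨2211882, 114, [168, -264, 288, 36, 264, 0, 0, 336, 144,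
      -48, 0, -96, -120, 48, -72, 48, 96, 48, 96, -240, 96, 96, 0], .lam 3 1 [0, 4, 0, 0, 0, 5,
      2]⟩ (.n (.n .e ⟨2211973, 93, [-368, -416, 0, -200, 192, -288, -160, -272, 144, 0, -32, 0,
      56, 288, 0, 72, 144, -16, 96, 0, 0, 0, 0], .lam 3 1 [0, 4, 0, 0, 2, 0, 5]⟩ .e) ⟨2212008,
      111, [48, -48, 0, -24, 48, 0, -48, 0, 96, 0, 0, 0, 96, 96, 0, 0, 0, 96, 0, 0, -96, -96,
      0], .lam 3 1 [0, 4, 0, 0, 2, 5, 0]⟩ (.n .e ⟨2212162, 135, [-1394, -778, -72, -601, -38,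
      -1632, -636, -2240, 80, -104, 216, 112, 50, 8, -72, -134, -300, -20, -264, 160, 208, 192,
      48], .lam 2 1 [0, 3, 4, 0, 5, 0, 0]⟩ .e)))) ⟨2212176, 129, [1202, 970, 120, 481, -106,
      1392, 612, 1712, -416, 56, -120, -208, -50, -8, 72, 134, 300, 20, 264, -160, -208, -192,
      -48], .sym 2 [3, 0, 0, 4, 5, 0, 2]⟩ (.n (.n (.n (.n (.n .e ⟨2212869, 81, [-168, 24, 0,
      -84, -120, 0, 0, -192, -192, 0, -96, 0, -24, -96, 0, 24, -48, 48, -96, 0, 0, 0, 0], .lam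
      3 1 [0, 0, 4, 2, 0, 0, 5]⟩ .e) ⟨2212904, 102, [-72, -24, -96, 60, 24, 0, 48, 336, 48,
      144, 0, 96, -24, -48, 24, 48, 96, -48, -96, -48, 0, 0, 0], .lam 3 1 [0, 0, 4, 2, 0, 5,
      0]⟩ .e) ⟨2213184, 47, [192, -192, -48, 120, 144, 48, 24, 528, 336, 48, -96, 96, 0, 0, 0,
      0, 0, 0, 0, 0, 0, 0, 0], .lam 3 1 [0, 0, 4, 2, 5, 0, 0]⟩ (.n .e ⟨2214402, 127, [688, 712,
      -480, 400, -624, 120, -76, 352, 72, 576, 208, 0, -148, -480, -168, -228, -648, 8, -432,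
      -144, 288, 192, 192], .lam 2 1 [0, 3, 4, 5, 0, 0, 0]⟩ .e)) ⟨2214416, 123, [-316, -292,
      480, -478, 108, -216, -188, -1312, -408, -576, -160, 0, 208, 240, 24, 0, 96, 160, 192,
      144, -192, -192, -96], .sym 2 [0, 3, 4, 5, 0, 2, 0]⟩ (.n (.n .e ⟨2214528, 117, [-180,
      -420, 0, 78, 516, 96, 264, 768, 336, 0, -48, 0, -60, 48, 48, 324, 552, -168, 240, 0, -96,
      0, -96], .lam 3 1 [0, 0, 4, 5, 2, 0, 0]⟩ .e) ⟨2621669, 24, [0, 0, 0, -96, 0, 0, -96,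
      -192, 0, 0, 0, 0, 0, 0, 0, 0, 0, 0, 0, 0, 0, 0, 0], .sym 2 [0, 0, 2, 0, 3, 4, 5]⟩ (.n .e
      ⟨2623013, 53, [0, 0, 0, 96, 0, 0, 96, 192, 0, 0, 0, 0, -96, -192, 0, 0, 0, 0, 0, 0, 0, 0,
      0], .sym 2 [0, 0, 2, 3, 0, 4, 5]⟩ .e))) ⟨2623237, 7, [-192, -192, 0, -96, 0, 0, 0, 0, 0,
      0, 0, 0, 0, 0, 0, 0, 0, 0, 0, 0, 0, 0, 0], .lam 3 1 [2, 0, 0, 4, 5, 0, 0]⟩ (.n (.n (.n .e
      ⟨2623272, 6, [0, 0, 0, 96, 0, 0, 0, 0, 0, 0, 0, 0, 0, 0, 0, 0, 0, 0, 0, 0, 0, 0, 0], .bas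
      3⟩ .e) ⟨2633765, 52, [0, 0, 0, 0, 0, 0, 0, 0, 0, 0, 0, 0, 0, 192, 0, 0, 0, 0, 0, 0, 0, 0,
      0], .sym 2 [0, 2, 3, 0, 0, 4, 5]⟩ (.n .e ⟨2633989, 25, [-192, 0, 0, 0, 0, -192, 0, -192,
      0, 0, 0, 0, 0, 0, 0, 0, 0, 0, 0, 0, 0, 0, 0], .sym 2 [0, 2, 3, 0, 4, 0, 5]⟩ .e))
      ⟨2634024, 23, [0, 0, 0, 0, 0, 0, 0, 192, 0, 0, 0, 0, 0, 0, 0, 0, 0, 0, 0, 0, 0, 0, 0],
      .sym 2 [0, 2, 3, 0, 4, 5, 0]⟩ (.n (.n .e ⟨2635781, 60, [0, 0, 0, 0, 0, 0, 0, 0, 0, 0, 0,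
      0, 0, 0, 0, 96, 0, 0, 0, 0, 0, 0, 0], .bas 15⟩ .e) ⟨2635816, 55, [0, 0, 0, 0, 0, 0, 0,
      -192, 0, 0, 0, 0, 0, -192, -96, 0, 0, 0, 0, 0, 0, 0, 0], .lam 3 1 [2, 0, 4, 0, 0, 5, 0]⟩
      (.n .e ⟨2636096, 1, [192, 0, 0, 0, 0, 0, 0, 0, 0, 0, 0, 0, 0, 0, 0, 0, 0, 0, 0, 0, 0, 0,
      0], .sym 2 [0, 2, 3, 4, 5, 0, 0]⟩ .e))))))

def tr3311 : Tb :=
  (.n (.n (.n (.n (.n (.n (.n .e ⟨2720005, 17, [0, -192, 0, 0, 0, -192, -96, 0, 0, 0, 0, 0, 0, 0,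
      0, 0, 0, 0, 0, 0, 0, 0, 0], .lam 3 1 [2, 4, 0, 0, 5, 0, 0]⟩ .e) ⟨2720040, 16, [0, 0, 0,
      0, 0, 0, 96, 0, 0, 0, 0, 0, 0, 0, 0, 0, 0, 0, 0, 0, 0, 0, 0], .bas 6⟩ .e) ⟨2721797, 61,
      [192, 192, 0, 0, 0, 0, -96, -192, 0, 0, 0, 0, 96, 192, 0, -96, 0, 0, 0, 0, 0, 0, 0], .lam
      3 1 [2, 0, 0, 4, 0, 0, 5]⟩ (.n .e ⟨2721832, 56, [0, 0, 0, 0, 0, 0, -96, 0, 0, 0, 0, 0,
      -96, 0, -96, 0, 0, 0, 0, 0, 0, 0, 0], .lam 3 1 [2, 4, 0, 0, 0, 5, 0]⟩ .e)) ⟨2722112, 3,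
      [0, 192, 0, 0, 0, 0, 0, 0, 0, 0, 0, 0, 0, 0, 0, 0, 0, 0, 0, 0, 0, 0, 0], .sym 2 [3, 2, 0,
      4, 5, 0, 0]⟩ (.n (.n .e ⟨2736133, 62, [192, 0, 0, 0, 0, 192, 0, 192, 0, 0, 0, 0, 0, -192,
      0, -96, 0, 0, 0, 0, 0, 0, 0], .lam 3 1 [2, 0, 4, 0, 0, 0, 5]⟩ .e) ⟨2736168, 54, [0, 0, 0,
      0, 0, 0, 0, 0, 0, 0, 0, 0, 0, 0, 96, 0, 0, 0, 0, 0, 0, 0, 0], .bas 14⟩ (.n .e ⟨2736448,
      15, [0, 0, 0, 0, 0, 192, 0, 0, 0, 0, 0, 0, 0, 0, 0, 0, 0, 0, 0, 0, 0, 0, 0], .sym 2 [3,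
      2, 4, 0, 5, 0, 0]⟩ .e))) ⟨2738688, 63, [-192, 0, 0, 0, 0, 0, 0, 192, 0, 0, 0, 0, 0, 192,
      96, -96, 0, 0, 0, 0, 0, 0, 0], .lam 3 1 [2, 0, 4, 5, 0, 0, 0]⟩ (.n (.n (.n (.n .e
      ⟨2883749, 82, [96, 288, 0, -288, -288, 0, -336, -864, -192, 0, 0, 0, 288, 192, 0, -192,
      -384, 288, -288, 0, 0, 0, 0], .sym 2 [3, 0, 0, 0, 2, 4, 5]⟩ .e) ⟨2883861, 41, [-528,
      -432, 0, -120, 144, -480, -96, -288, 192, 0, 96, 0, 0, 0, 0, 0, 0, 0, 0, 0, 0, 0, 0],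
      .lam 3 1 [0, 0, 0, 0, 4, 2, 5]⟩ .e) ⟨2883882, 43, [0, 0, 0, 0, 0, 0, -48, 0, 0, -96, 0,
      -96, 0, 0, 0, 0, 0, 0, 0, 0, 0, 0, 0], .lam 2 1 [3, 0, 0, 0, 4, 5, 0]⟩ (.n .e ⟨2884645,
      80, [-144, 144, 0, -120, -144, 0, -48, -384, -288, 0, 0, 0, 0, -96, 0, 0, 0, 0, -96, 0,
      0, 0, 0], .lam 3 1 [0, 0, 0, 2, 0, 4, 5]⟩ .e)) ⟨2884869, 40, [-144, 48, 0, -168, -144, 0,
      -96, -384, -288, 0, -96, 0, 0, 0, 0, 0, 0, 0, 0, 0, 0, 0, 0], .lam 3 1 [0, 0, 0, 2, 4, 0,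
      5]⟩ (.n (.n .e ⟨2884904, 42, [0, 0, 0, 0, 0, 0, 0, 0, 0, 0, 0, 96, 0, 0, 0, 0, 0, 0, 0,
      0, 0, 0, 0], .bas 11⟩ .e) ⟨2885653, 85, [296, 392, 0, -28, -264, 288, -32, -160, -192, 0,
      32, 0, 136, 0, 0, -72, -336, 208, -192, 0, 0, 0, 0], .lam 2 1 [3, 0, 0, 4, 0, 0, 5]⟩ (.n
      .e ⟨2885674, 113, [-48, 240, 0, 24, -240, 0, -240, -864, -288, 0, 0, 0, -48, -384, -288,
      -96, -192, 192, -192, -96, 96, 96, 0], .lam 3 1 [0, 0, 0, 4, 0, 5, 2]⟩ .e)))) ⟨2885765,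
      84, [-392, -488, 0, 28, 264, -288, 80, 256, 192, 0, -32, 0, -184, -96, 0, 120, 240, -208,
      192, 0, 0, 0, 0], .sym 2 [3, 0, 0, 0, 4, 2, 5]⟩ (.n (.n (.n (.n (.n .e ⟨2885800, 110,
      [48, -240, 0, 264, 240, 0, 288, 864, 288, 0, 0, 0, -192, -192, 48, 96, 192, -192, 192, 0,
      -96, -96, 0], .lam 3 1 [0, 0, 0, 4, 2, 5, 0]⟩ .e) ⟨2885954, 124, [-516, 268, -48, -466,
      -332, -320, -392, -1728, -480, -80, 112, 160, 308, 272, -96, -140, -376, 376, -368, 64,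
      160, 192, -96], .lam 2 1 [3, 0, 0, 4, 5, 0, 0]⟩ .e) ⟨2885968, 120, [516, -364, -48, 466,
      332, 320, 392, 1728, 480, 80, -112, -160, -308, -272, 96, 140, 376, -376, 368, -64, -160,
      -192, 96], .sym 2 [3, 4, 0, 0, 0, 5, 2]⟩ (.n .e ⟨2891813, 73, [0, -192, 0, 0, 192, 0, 0,
      192, 192, 0, 0, 0, -48, -96, 0, 96, 192, -96, 0, 0, 0, 0, 0], .lam 3 1 [0, 0, 2, 0, 0, 4,
      5]⟩ .e)) ⟨2892037, 27, [96, -96, 0, 0, 0, 0, -48, 96, 96, 0, 0, 0, 0, 0, 0, 0, 0, 0, 0,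
      0, 0, 0, 0], .sym 2 [0, 3, 2, 0, 4, 0, 5]⟩ (.n (.n .e ⟨2892072, 32, [0, 0, 0, 0, 0, 0, 0,
      0, 0, 96, 0, 0, 0, 0, 0, 0, 0, 0, 0, 0, 0, 0, 0], .bas 9⟩ .e) ⟨2893829, 68, [0, 0, 0, 0,
      0, 0, 0, 0, 0, 0, 0, 0, 0, 0, 0, 0, 96, 0, 0, 0, 0, 0, 0], .bas 16⟩ (.n .e ⟨2893864, 96,
      [0, 0, 0, 0, 0, 0, 0, 0, 0, 0, 0, 0, 0, 0, 0, 0, 0, 0, 0, 96, 0, 0, 0], .bas 19⟩ .e)))
      ⟨2894144, 4, [0, 0, 96, 0, 0, 0, 0, 0, 0, 0, 0, 0, 0, 0, 0, 0, 0, 0, 0, 0, 0, 0, 0], .bas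
      2⟩ (.n (.n (.n .e ⟨2899989, 88, [-500, -308, 0, -242, -108, -480, -232, -656, -96, 0, 16,
      0, -4, -48, 0, 12, -72, 8, -48, 0, 0, 0, 0], .lam 2 1 [3, 0, 4, 0, 0, 0, 5]⟩ .e)
      ⟨2900010, 115, [-312, 408, -96, -204, -408, 0, -48, -624, -624, 144, 0, 0, 72, -48, 24,
      -48, -96, 48, -96, -48, 0, -96, 0], .lam 2 1 [3, 0, 4, 0, 0, 5, 0]⟩ (.n .e ⟨2900101, 86,
      [236, 332, 0, 158, -12, 384, 232, 368, -96, 0, -16, 0, -20, 48, 0, 60, 24, 40, 48, 0, 0,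
      0, 0], .sym 2 [0, 3, 0, 0, 4, 2, 5]⟩ .e)) ⟨2900136, 112, [96, -288, 0, 144, 288, 0, 48,
      480, 384, 0, 0, 0, -96, 0, -48, 96, 192, -96, 96, 0, 0, 96, 0], .sym 2 [0, 3, 0, 4, 2, 5,
      0]⟩ (.n (.n .e ⟨2900290, 126, [8, -136, -192, 44, 0, -168, 4, 200, 288, 96, 32, 0, 16,
      -48, 24, -48, -144, -80, 0, 48, 0, -96, 0], .lam 2 1 [3, 0, 4, 0, 5, 0, 0]⟩ .e) ⟨2900304,
      122, [40, 88, 144, -44, 0, 120, -28, -152, -240, -48, -32, 0, -16, 48, -24, 48, 144, 80,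
      0, -48, 0, 96, 0], .sym 2 [3, 0, 4, 0, 5, 2, 0]⟩ (.n .e ⟨2900997, 76, [168, -24, 0, 84,
      120, 0, 0, 192, 192, 0, 0, 0, 24, 96, 0, -24, 48, -48, 0, 0, 0, 0, 0], .sym 2 [3, 0, 0,
      4, 2, 0, 5]⟩ .e))))) ⟨2901032, 100, [216, -120, 96, 60, 120, 0, 0, 144, 240, -144, 0, 0,
      24, 48, -24, -48, -96, 48, 0, 48, 0, 0, 0], .sym 2 [3, 0, 0, 4, 2, 5, 0]⟩ (.n (.n (.n (.n
      (.n (.n .e ⟨2901312, 36, [-48, 48, 48, 0, 0, -48, 24, -48, -48, -48, 0, 0, 0, 0, 0, 0, 0,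
      0, 0, 0, 0, 0, 0], .sym 2 [3, 0, 4, 2, 5, 0, 0]⟩ .e) ⟨2902530, 132, [2254, 798, 264, 911,
      2, 1520, 796, 2536, 552, -184, -24, -208, -42, -296, 24, -82, -596, 340, 104, -160, -112,
      -288, -48], .lam 2 1 [3, 0, 4, 5, 0, 0, 0]⟩ .e) ⟨2902544, 128, [-2158, -798, -264, -911,
      -2, -1520, -796, -2632, -552, 184, 24, 208, 42, 200, -72, 130, 596, -340, -104, 160, 112,
      288, -48], .sym 2 [0, 3, 4, 0, 0, 5, 2]⟩ (.n .e ⟨2902656, 116, [0, 0, 0, 0, 0, 0, 0, 0,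
      0, 0, 0, 0, 0, 0, 0, 0, 0, 0, 0, 0, 0, 0, 96], .bas 22⟩ .e)) ⟨2949157, 49, [0, 0, 0, 0,
      0, 0, 0, 0, 0, 0, 0, 0, 48, 0, 0, 0, 0, 0, 0, 0, 0, 0, 0], .sym 2 [3, 2, 0, 0, 0, 4, 5]⟩
      (.n (.n .e ⟨2949381, 19, [0, -96, 0, 0, 0, -96, -48, 0, 0, 0, 0, 0, 0, 0, 0, 0, 0, 0, 0,
      0, 0, 0, 0], .sym 2 [3, 2, 0, 0, 4, 0, 5]⟩ .e) ⟨2949416, 18, [0, 0, 0, 0, 0, 0, 48, 0, 0,
      0, 0, 0, 0, 0, 0, 0, 0, 0, 0, 0, 0, 0, 0], .sym 2 [3, 2, 0, 0, 4, 5, 0]⟩ (.n .e ⟨2951173,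
      65, [96, 96, 0, 0, 0, 0, -48, -96, 0, 0, 0, 0, 48, 96, 0, -48, 0, 0, 0, 0, 0, 0, 0], .sym
      2 [3, 2, 0, 4, 0, 0, 5]⟩ .e))) ⟨2951208, 59, [0, 0, 0, 0, 0, 0, -48, 0, 0, 0, 0, 0, -48,
      0, -48, 0, 0, 0, 0, 0, 0, 0, 0], .sym 2 [3, 2, 0, 4, 0, 5, 0]⟩ (.n (.n (.n (.n .e
      ⟨2951488, 2, [0, 96, 0, 0, 0, 0, 0, 0, 0, 0, 0, 0, 0, 0, 0, 0, 0, 0, 0, 0, 0, 0, 0], .bas
      1⟩ .e) ⟨2965509, 66, [96, 0, 0, 0, 0, 96, 0, 96, 0, 0, 0, 0, 0, -96, 0, -48, 0, 0, 0, 0,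
      0, 0, 0], .sym 2 [3, 2, 4, 0, 0, 0, 5]⟩ .e) ⟨2965544, 57, [0, 0, 0, 0, 0, 0, 0, 0, 0, 0,
      0, 0, 0, 0, 48, 0, 0, 0, 0, 0, 0, 0, 0], .sym 2 [3, 2, 4, 0, 0, 5, 0]⟩ (.n .e ⟨2965824,
      14, [0, 0, 0, 0, 0, 96, 0, 0, 0, 0, 0, 0, 0, 0, 0, 0, 0, 0, 0, 0, 0, 0, 0], .bas 5⟩ .e))
      ⟨2968064, 67, [-96, 0, 0, 0, 0, 0, 0, 96, 0, 0, 0, 0, 0, 96, 48, -48, 0, 0, 0, 0, 0, 0,
      0], .sym 2 [3, 2, 4, 5, 0, 0, 0]⟩ (.n (.n .e ⟨3014677, 92, [732, 348, 0, 390, 228, 672,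
      360, 1104, 96, 0, -144, 0, -132, 48, 0, 60, 408, -216, 240, 0, 0, 0, 0], .lam 3 1 [4, 0,
      0, 0, 0, 2, 5]⟩ .e) ⟨3014698, 105, [72, -168, 96, -60, 168, 0, -48, -48, 144, -48, 0, 96,
      -24, -144, -24, 48, 96, -48, -96, 144, -96, 0, 0], .lam 2 1 [3, 4, 0, 0, 0, 5, 0]⟩ (.n .e
      ⟨3014789, 89, [60, -132, 0, 102, 36, -96, 24, 240, 96, 0, 48, 0, -84, -144, 0, 12, 120,
      -120, 48, 0, 0, 0, 0], .lam 3 1 [4, 0, 0, 0, 2, 0, 5]⟩ .e)))) ⟨3014824, 104, [0, 0, 0, 0,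
      0, 0, 0, 0, 0, 0, 0, 0, 0, 0, 0, 0, 0, 0, 0, 0, 96, 0, 0], .bas 20⟩ (.n (.n (.n (.n (.n
      .e ⟨3014978, 125, [372, -268, 48, 426, 332, 256, 392, 1488, 368, 80, -144, -64, -316,
      -176, 48, 164, 392, -360, 400, -64, -160, -96, 96], .lam 2 1 [3, 4, 0, 0, 5, 0, 0]⟩ .e)
      ⟨3014992, 121, [-468, 268, 96, -594, -476, -304, -512, -1824, -608, -32, 48, 160, 316,
      176, -48, -164, -392, 360, -400, 64, 160, 96, -96], .sym 2 [3, 0, 0, 0, 4, 5, 2]⟩ .e)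
      ⟨3015685, 83, [120, -168, 0, 204, 168, 0, 144, 576, 384, 0, 96, 0, -24, 0, 0, 24, -48,
      48, 96, 0, 0, 0, 0], .lam 3 1 [4, 0, 0, 2, 0, 0, 5]⟩ (.n .e ⟨3015720, 103, [-72, -24,
      -96, 60, 24, 0, 48, 240, 48, 144, 0, -96, -24, 48, 24, 48, 96, -48, 96, -48, 0, 0, 0],
      .lam 3 1 [4, 0, 0, 2, 0, 5, 0]⟩ .e)) ⟨3016000, 45, [192, -96, -48, 168, 144, 48, 72, 432,
      336, 48, 96, -96, 0, 0, 0, 0, 0, 0, 0, 0, 0, 0, 0], .lam 3 1 [4, 0, 0, 2, 5, 0, 0]⟩ (.n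
      (.n .e ⟨3017218, 136, [-630, -926, -120, 453, 718, -448, 484, 1488, 736, 208, -24, -32,
      -494, -304, 36, 382, 748, -516, 536, 40, -128, -48, 144], .lam 2 1 [3, 4, 0, 5, 0, 0, 0]⟩
      .e) ⟨3017232, 130, [286, 198, 216, -161, -214, 160, -116, -368, -256, -208, -8, 32, 118,
      16, 12, -166, -220, 116, -152, 56, 32, -48, -48], .sym 2 [0, 3, 0, 0, 4, 5, 2]⟩ (.n .e
      ⟨3017344, 118, [344, 728, 0, -292, -504, 288, -368, -1120, -480, 0, 32, 0, 376, 288, -48,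
      -216, -432, 400, -384, 0, 96, 96, -96], .lam 3 1 [4, 0, 0, 5, 2, 0, 0]⟩ .e))) ⟨3022853,
      74, [96, 96, 0, 0, 0, 0, -48, -96, -96, 0, 0, 0, 48, 96, 0, -96, -96, -96, 0, 0, 0, 0,
      0], .lam 3 1 [0, 4, 2, 0, 0, 0, 5]⟩ (.n (.n (.n .e ⟨3022888, 98, [0, 192, 0, 0, -192, 0,
      0, -192, -192, -96, 0, 0, 48, 96, 0, -96, -192, 96, 0, -96, 0, 0, 0], .lam 3 1 [4, 0, 2,
      0, 0, 5, 0]⟩ .e) ⟨3023168, 34, [-96, 96, -96, 0, 0, 0, 48, -96, -96, -96, 0, 0, 0, 0, 0,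
      0, 0, 0, 0, 0, 0, 0, 0], .lam 3 1 [4, 0, 2, 0, 5, 0, 0]⟩ (.n .e ⟨3025408, 99, [0, 0, -96,
      0, 0, 0, 0, 0, 0, 0, 0, 0, 0, 0, 0, 0, -96, 0, 0, -96, 0, 0, 0], .lam 3 1 [4, 0, 2, 5, 0,
      0, 0]⟩ .e)) ⟨3035138, 139, [-1950, -1070, 24, -751, 406, -1352, -752, -2112, -216, -56,
      -8, 208, -46, 392, -72, 178, 836, -308, -8, 160, 112, 480, 48], .lam 3 1 [4, 0, 5, 0, 0,
      0, 2]⟩ (.n (.n .e ⟨3035152, 134, [2618, 1018, 120, 1197, 110, 1880, 1056, 3440, 888,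
      -136, -8, -208, -22, -200, 96, -190, -668, 252, 152, -112, -112, -384, 48], .lam 3 1 [4,
      0, 5, 0, 0, 2, 0]⟩ .e) ⟨3035264, 119, [-332, -44, 0, -302, -276, -384, -280, -848, -288,
      0, 16, 0, 116, -48, 48, -156, -216, 56, -144, 0, 0, -96, -96], .lam 3 1 [4, 0, 5, 0, 2,
      0, 0]⟩ (.n .e ⟨3036160, 101, [48, 0, -144, 0, 0, 0, 0, -48, 0, 0, 0, 0, 0, -48, -24, 24,
      -144, 0, 0, -144, 0, 0, 0], .sym 2 [3, 4, 5, 2, 0, 0, 0]⟩ .e))))))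

def tb3311 : Tb := .n tl3311 ⟨2719781, 48, [0, 0, 0, 0, 0, 0, 0, 0, 0, 0, 0, 0, 96, 0, 0, 0, 0, 0, 0, 0, 0, 0, 0], .bas 12⟩ tr3311

def ce3311 : Cert where
  cx := cx3311
  D := 96
  bk := [2177344, 2951488, 2894144, 2623272, 2107141, 2965824, 2720040, 2175272, 2203909, 2892072, 2110725, 2884904, 2719781, 2175013, 2736168, 2635781, 2893829, 2203685, 2110501, 2893864, 3014824, 2197672, 2902656]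
  tb := tb3311
  pl := [.lam 3 1 [0, 2, 0, 4, 0, 5, 0], .lam 3 1 [4, 2, 0, 0, 0, 0, 5], .lam 3 1 [4, 2, 0, 5, 0, 0, 0], .lam 3 1 [4, 2, 5, 0, 0, 0, 0], .lam 3 1 [0, 2, 0, 0, 4, 0, 5], .lam 3 1 [0, 4, 2, 0, 5, 0, 0], .lam 3 1 [4, 0, 0, 0, 2, 5, 0], .lam 3 1 [0, 4, 2, 0, 0, 5, 0], .lam 3 1 [4, 0, 2, 0, 0, 0, 5], .sym 2 [0, 0, 3, 0, 2, 4, 5], .lam 3 1 [4, 5, 2, 0, 0, 0, 0], .lam 3 1 [0, 4, 5, 2, 0, 0, 0], .lam 3 1 [0, 4, 0, 5, 2, 0, 0], .lam 3 1 [4, 5, 0, 0, 2, 0, 0], .lam 3 1 [0, 4, 5, 0, 2, 0, 0], .sym 2 [3, 0, 4, 0, 5, 0, 2], .sym 2 [3, 0, 4, 0, 0, 5, 2]]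
  fams := [(FB, [⟨[], [(l 1), (l 3), (l 2)], [(l 4), (l 5)]⟩, ⟨[], [(l 1), (l 3), (l 4)], [(l 2), (l 5)]⟩,
      ⟨[], [(l 3), (l 4), (b (l 1) (l 2))], [(l 5)]⟩, ⟨[], [(b (l 1) (l 3)), (l 2), (l 4)], [(l
      5)]⟩, ⟨[], [(b (l 1) (l 3)), (l 4), (b (l 2) (l 5))], []⟩, ⟨[], [(b (b (l 4) (l 1)) (l
      3)), (l 2), (l 5)], []⟩]),
    (FA, []),
    (FC, [])]
  cases := [([([], [0, 2]), ([], []), ([], [])], [], [.cm 0 0 [-5, -8, 1, -1, -1, 5] 1, .cm 0 0 [-5, -8, 1,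
      -1, -1, 5] 2, .cm 0 2 [-72528, -177208, 7263, -55836, 0, 52536] 0, .cm 0 2 [-72528,
      -177208, 7263, -55836, 0, 52536] 1, .cm 0 0 [26918427242, 172382195712, 53446684309] 1,
      .cm 0 0 [26918427242, 172382195712, 53446684309] 2]),
    ([([0], [2]), ([], []), ([], [])], [], [.zr 0 0 [1], .zr 0 0 [0, 1], .zr 0 0 [0, 0, 1], .zr
      0 0 [0, 0, 0, 1], .zr 0 0 [0, 0, 0, 0, 1], .cm 0 2 [0, 0, 0, 0, 1] 1]),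
    ([([2], [0, 1]), ([], []), ([], [])], [], [.zr 0 2 [1], .zr 0 2 [0, 1], .zr 0 2 [0, 0, 1],
      .zr 0 2 [0, 0, 0, 1], .zr 0 2 [0, 0, 0, 0, 1], .zr 0 2 [0, 0, 0, 0, 0, 1]]),
    ([([1, 2], [0]), ([], []), ([], [])], [], [.zr 0 1 [1], .zr 0 1 [0, 1], .zr 0 1 [0, 0, 1],
      .zr 0 1 [0, 0, 0, 1], .zr 0 1 [0, 0, 0, 0, 1], .zr 0 1 [0, 0, 0, 0, 0, 1]]),
    ([([0, 2], [1]), ([], [1]), ([], [])], [], [.zr 0 0 [1], .zr 0 0 [0, 1], .zr 0 0 [0, 0, 1],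
      .zr 0 0 [0, 0, 0, 1], .zr 0 0 [0, 0, 0, 0, 1], .zr 0 2 [1]]),
    ([([0, 2], [1]), ([], []), ([], [0])], [], [.zr 0 0 [1], .zr 0 0 [0, 1], .zr 0 0 [0, 0, 1],
      .zr 0 0 [0, 0, 0, 1], .zr 0 0 [0, 0, 0, 0, 1], .zr 0 2 [1]])]

def z03311 : Zs :=
  [(3, [0, 0, 0, 96, 0, 0, 0, 0, 0, 0, 0, 0, -96, -192, -96, 0, 0, 0, 0, 0, 0, 0, 0]), (0, [192,
      0, 0, 0, 0, 0, -96, 0, 0, 0, 0, 0, 96, 0, 0, -96, 0, 0, 0, 0, 0, 0, 0]), (1, [0, 192, 0,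
      0, 0, 0, -96, 0, 0, 0, 0, 0, 0, 192, 0, -96, 0, 0, 0, 0, 0, 0, 0]), (5, [0, 0, 0, 0, 0,
      192, 0, 192, 0, 0, 0, 0, 0, 0, 96, -96, 0, 0, 0, 0, 0, 0, 0]), (6, [0, 0, 0, 0, 0, 0, -1,
      0, 0, 0, 0, 0, 0, 0, 0, -1, 0, 0, 0, 0, 0, 0, 0]), (2, [0, 0, 2, 0, 2, 0, 0, 0, 2, -2, 0,
      0, -1, 2, 0, 0, 0, 0, 0, 0, 0, 0, 0]), (4, [0, 0, 0, 0, 2, 0, 0, 4, 4, 0, 0, 0, 0, 4, 1,
      0, 0, 0, 0, 0, 0, 0, 0]), (7, [0, 0, 0, 0, 0, 0, 0, 4, 0, 2, 0, 0, 1, 2, 1, 0, 0, 2, 0,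
      -2, 0, 0, 0]), (8, [0, 0, 0, 0, 0, 0, 0, 0, 4, -2, 0, 0, 1, 2, 1, -2, -4, 2, 0, 2, 0, 0,
      0]), (9, [0, 0, 0, 0, 0, 0, 0, 0, 0, -2, 0, 0, 0, 2, 1, -2, 0, -2, 2, 2, 0, 0, 0]), (12,
      [0, 0, 0, 0, 0, 0, 0, 0, 0, 0, 0, 0, 1, 0, 0, 0, -4, 4, -2, -4, 0, 0, 0]), (10, [0, 0, 0,
      0, 0, 0, 0, 0, 0, 0, -2, 2, 0, -2, -1, 1, -4, 4, -4, -4, 0, 0, 0]), (11, [0, 0, 0, 0, 0,
      0, 0, 0, 0, 0, 0, 2, 0, -20, 3, -2, -52, 32, -38, -58, 0, -12, 12]), (13, [0, 0, 0, 0, 0,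
      0, 0, 0, 0, 0, 0, 0, 0, -10, 2, -3, -14, 6, -10, -14, -2, -6, 8]), (14, [0, 0, 0, 0, 0,
      0, 0, 0, 0, 0, 0, 0, 0, 0, 2, -3, 16, -14, 10, 16, -2, -6, -2]), (15, [0, 0, 0, 0, 0, 0,
      0, 0, 0, 0, 0, 0, 0, 0, 0, 1, -6, 5, -4, -5, 1, 6, 3]), (16, [0, 0, 0, 0, 0, 0, 0, 0, 0,
      0, 0, 0, 0, 0, 0, 0, 4, -3, 2, 1, -1, -8, -5])]

def sv3311 : List (List (List (List ℤ))) :=
  [[[[480, -96, 0, -240, 96, 0, -480, -384, 576, 0, 0, 0, 288, 288, 0, -192, -384, 96, -192, 0, 0,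
      0, 0], [-864, 288, 0, 1392, -288, 0, 1824, 2496, -1152, 0, 0, 0, -1200, -2880, 0, 288,
      576, -576, 384, 0, 0, 0, 0], [192, -384, 0, -816, 384, 0, -912, -1248, 576, 0, 0, 0, 720,
      2304, 0, 96, 192, 96, 96, 0, 0, 0, 0]], [[-16, 656, 0, 8, -48, 384, 208, -256, -288, 0,
      32, 0, 208, 96, 0, -96, 0, 256, -96, 0, 0, 0, 0], [5852, 4796, 0, 998, -1596, 5280, 712,
      2480, -1152, 0, -400, 0, 1036, 240, 0, -564, -1800, 1480, -1104, 0, 0, 0, 0], [-4268,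
      -4940, 0, -350, 2028, -4416, -424, -176, 1824, 0, 112, 0, -1372, -240, 0, 708, 2280,
      -1960, 1488, 0, 0, 0, 0]], [[0, 384, 0, 384, 0, -384, 192, 0, 0, 0, 0, 0, -192, -768, 0,
      0, 0, 0, 0, 0, 0, 0, 0], [-384, 2304, 0, -960, 0, 384, -576, -3840, 0, 0, 0, 0, 1536,
      2688, 0, -576, 0, 0, 0, 0, 0, 0, 0], [384, -2304, 0, 384, 0, -384, 0, 2688, 0, 0, 0, 0,
      -960, -384, 0, 576, 0, 0, 0, 0, 0, 0, 0]], [[-2752, -2848, 0, -640, 672, -2880, -704,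
      -1312, 672, 0, 32, 0, -560, -384, 0, 192, 768, -800, 480, 0, 0, 0, 0], [1996, 2860, 0,
      382, -780, 2400, 584, 304, -1728, 0, 16, 0, 188, -432, 0, -36, -72, 8, -720, 0, 0, 0, 0],
      [3088, 2032, 0, 472, -336, 2304, 80, 1216, 480, 0, -224, 0, 896, 1248, 0, -576, -1248,
      896, -288, 0, 0, 0, 0]], [[560, -416, -96, 192, 392, 392, 348, 1688, 864, -16, 64, 32,
      80, 352, 192, 56, 64, -144, 224, -64, 32, -96, 96], [388, 1220, 624, -718, -548, 0, -696,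
      -2480, -1648, -656, -240, -224, 308, 80, 336, 4, -312, 472, -816, 640, -320, 96, -96],
      [-1784, -1512, -432, 244, 416, -1448, -284, -824, 1136, 560, 256, 320, -416, -656, -744,
      -160, 176, -208, 256, -304, 320, 192, 96]], [[3644, 1164, 672, 854, -140, 2432, 680,
      3008, 208, -752, -304, -224, 44, 32, 120, -476, -632, 40, 176, -176, -224, -384, 0],
      [-15334, -5374, -1320, -5867, -18, -10432, -4940, -16960, -4288, 1776, -24, 864, -94,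
      1152, -228, 1158, 4444, -1828, -328, 792, 768, 1776, -336], [5620, 540, 432, 3490, 764,
      3064, 3028, 9712, 3992, -568, 736, -400, -500, -1736, 156, -232, -2272, 824, 304, -184,
      -496, -1200, 288]]], [], []]

theorem okt3311 : chkTb ce3311.cx ce3311.tb ce3311.D ce3311.bk = true :=
  chkTb_node (by decide +kernel) (by decide +kernel) (by decide +kernel)

theorem okz3311 : plainZ ce3311.cx ce3311.tb ce3311.pl [] = some z03311 := by decide +kernel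

theorem oks3311 : famsV ce3311.cx ce3311.tb ce3311.fams = some sv3311 := by decide +kernel

theorem okc3311 : chkCases ce3311 z03311 sv3311 ce3311.cases = true := by decide +kernel

theorem okv3311 : ce3311.cov 3 = true := by decide +kernel

theorem ok3311 : (ce3311.chk && ce3311.cov 3) = true :=
  Cert.ok_of (Cert.chk_of okt3311 (by decide) okz3311 oks3311 okc3311) okv3311

end Pool.Agent.Lib.MP_b4a71d_al.Eng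
end

section

/-!
# MP_b4a71d_al: the certificate of the type 332 in degree 8
-/

set_option autoImplicit false

namespace Pool.Agent.Lib.MP_b4a71d_al.Eng

open Tr

/-- The type 332. -/
def cx332 : Cx := ⟨7, 5, [(2, 3, false), (3, 6, false)], (2, 3, false), []⟩

def tl332 : Tb :=
  (.n (.n (.n (.n (.n (.n (.n .e ⟨2098405, 22, [-24, 0, 0, 0, 0, 0, 0, 0, 0, 0, 0, 0, 0, 0, 0, 0,
      0, 0, 0, 0, 0], .lam 2 1 [0, 0, 0, 0, 3, 4, 5]⟩ .e) ⟨2098853, 30, [0, 0, 0, -24, 0, 0, 0,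
      0, 0, 0, 0, 0, 0, 0, 0, 0, 0, 0, 0, 0, 0], .lam 2 1 [0, 0, 0, 3, 0, 4, 5]⟩ .e) ⟨2098965,
      27, [0, 0, -24, 0, 0, 0, 0, 0, 0, 0, 0, 0, 0, 0, 0, 0, 0, 0, 0, 0, 0], .lam 2 1 [0, 0, 0,
      3, 4, 0, 5]⟩ (.n .e ⟨2098986, 33, [0, 0, 0, 0, -24, 0, 0, 0, 0, 0, 0, 0, 0, 0, 0, 0, 0,
      0, 0, 0, 0], .lam 2 1 [0, 0, 0, 3, 4, 5, 0]⟩ .e)) ⟨2105573, 20, [12, 0, 0, 0, 0, 0, 0, 0,
      0, 0, 0, 0, 0, 0, 0, 0, 0, 0, 0, 0, 0], .bas 0⟩ (.n (.n .e ⟨2106917, 28, [0, 0, 0, 12, 0,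
      0, 0, 0, 0, 0, 0, 0, 0, 0, 0, 0, 0, 0, 0, 0, 0], .bas 3⟩ .e) ⟨2107141, 25, [0, 0, 12, 0,
      0, 0, 0, 0, 0, 0, 0, 0, 0, 0, 0, 0, 0, 0, 0, 0, 0], .bas 2⟩ (.n .e ⟨2107176, 32, [0, 0,
      0, 0, 12, 0, 0, 0, 0, 0, 0, 0, 0, 0, 0, 0, 0, 0, 0, 0, 0], .sym 2 [0, 0, 2, 3, 4, 5, 0]⟩
      .e))) ⟨2109605, 51, [12, 0, 0, 12, 0, 0, 0, 0, 0, 0, 12, -12, 0, 0, 0, 0, 0, 0, 0, 0, 0],
      .lam 2 1 [0, 0, 3, 0, 0, 4, 5]⟩ (.n (.n (.n (.n .e ⟨2109717, 64, [-12, 0, 72, 24, 0, 24,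
      0, -24, -24, 24, -24, 24, 12, 0, 0, 0, 0, 0, 0, 0, 0], .lam 3 1 [0, 0, 0, 0, 4, 2, 5]⟩
      .e) ⟨2109738, 92, [-12, -12, 0, -12, 0, -12, 0, 0, 0, 0, -12, 0, 0, -12, 0, 12, -12, 0,
      0, 0, 0], .lam 2 1 [0, 0, 3, 0, 4, 5, 0]⟩ .e) ⟨2110501, 50, [0, 0, 0, 0, 0, 0, 0, 0, 0,
      0, 0, 12, 0, 0, 0, 0, 0, 0, 0, 0, 0], .bas 11⟩ (.n .e ⟨2110725, 62, [24, 0, -48, -12, 0,
      -12, 0, 12, 24, -24, 12, -24, -12, 0, 0, 0, 0, 0, 0, 0, 0], .lam 3 1 [0, 0, 0, 2, 4, 0,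
      5]⟩ .e)) ⟨2110760, 91, [0, 0, 0, 0, 0, 0, 0, 0, 0, 0, 0, 0, 0, 0, 0, 0, 12, 0, 0, 0, 0],
      .bas 16⟩ (.n (.n .e ⟨2111509, 73, [6, 0, -72, -18, 0, -30, 0, 24, 6, -30, 30, -24, -24,
      0, 0, 0, 0, 0, 0, 0, 0], .lam 3 1 [0, 0, 4, 0, 0, 2, 5]⟩ .e) ⟨2111530, 115, [96, -12, 0,
      48, 12, -12, 48, 0, 0, 0, 0, -48, 0, -12, -48, 36, -72, 24, 0, 12, 0], .lam 2 1 [0, 0, 3,
      4, 0, 5, 0]⟩ (.n .e ⟨2111621, 70, [-30, 0, -48, -30, 0, -6, 0, 24, 18, -18, -6, 0, 0, 0,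
      0, 0, 0, 0, 0, 0, 0], .lam 3 1 [0, 0, 4, 0, 2, 0, 5]⟩ .e)))) ⟨2111656, 112, [-96, 24, 0,
      -48, -12, 24, -48, 0, 0, 0, 0, 48, 0, 24, 48, -36, 72, -24, 0, -12, 0], .sym 2 [0, 0, 3,
      4, 2, 5, 0]⟩ (.n (.n (.n (.n (.n .e ⟨2111810, 138, [69, -72, -2, 127, 12, -83, 138, -42,
      -29, -21, 27, 12, -36, -30, -120, 12, -18, 54, 6, 6, -18], .lam 3 1 [0, 0, 4, 0, 5, 0,
      2]⟩ .e) ⟨2111824, 133, [-69, 72, -22, -127, -12, 83, -138, 42, 29, 21, -3, -12, 36, 42,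
      120, -36, 18, -54, -6, -6, 18], .lam 3 1 [0, 0, 4, 0, 5, 2, 0]⟩ .e) ⟨2162917, 21, [12, 0,
      0, 0, 0, 0, 0, 0, 0, 0, 0, 0, 0, 0, 0, 0, 0, 0, 0, 0, 0], .sym 2 [0, 0, 0, 2, 3, 4, 5]⟩
      (.n .e ⟨2164261, 29, [0, 0, 0, 12, 0, 0, 0, 0, 0, 0, 0, 0, 0, 0, 0, 0, 0, 0, 0, 0, 0],
      .sym 2 [0, 0, 2, 3, 0, 4, 5]⟩ .e)) ⟨2164485, 26, [0, 0, 12, 0, 0, 0, 0, 0, 0, 0, 0, 0, 0,
      0, 0, 0, 0, 0, 0, 0, 0], .sym 2 [0, 0, 2, 3, 4, 0, 5]⟩ (.n (.n .e ⟨2164520, 31, [0, 0, 0,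
      0, 12, 0, 0, 0, 0, 0, 0, 0, 0, 0, 0, 0, 0, 0, 0, 0, 0], .bas 4⟩ .e) ⟨2175013, 47, [-12,
      0, 0, -12, 0, 0, 0, 0, 0, 0, -12, 0, 0, 0, 0, 0, 0, 0, 0, 0, 0], .lam 3 1 [0, 2, 0, 0, 0,
      4, 5]⟩ (.n .e ⟨2175237, 49, [12, 0, 0, 12, 0, -12, 0, -12, 0, 0, 12, 0, 0, 0, 0, 0, 0, 0,
      0, 0, 0], .lam 3 1 [0, 2, 4, 0, 0, 0, 5]⟩ .e))) ⟨2175272, 89, [12, 12, 0, 12, 0, 12, 0,
      0, 0, 0, 12, 0, 0, 12, 0, -12, 0, 0, 0, 0, 0], .lam 3 1 [0, 2, 4, 0, 0, 5, 0]⟩ (.n (.n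
      (.n (.n .e ⟨2177029, 34, [0, 0, 0, 0, 0, 12, 0, 0, 0, 0, 0, 0, 0, 0, 0, 0, 0, 0, 0, 0,
      0], .bas 5⟩ .e) ⟨2177064, 77, [0, -12, 0, 0, 0, -12, 0, 0, 0, 0, 0, 0, 0, -12, 0, 0, 0,
      0, 0, 0, 0], .lam 3 1 [0, 2, 4, 5, 0, 0, 0]⟩ .e) ⟨2177344, 75, [0, 0, 0, 0, 0, 0, 0, 0,
      0, 0, 0, 0, 0, 12, 0, 0, 0, 0, 0, 0, 0], .bas 13⟩ (.n .e ⟨2195621, 55, [48, 0, 0, 60, 0,
      0, -36, -36, 0, -36, 12, -24, 0, 0, 0, 0, 0, 0, 0, 0, 0], .lam 3 1 [0, 0, 0, 0, 2, 4, 5]⟩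
      .e)) ⟨2195733, 57, [0, 0, -48, -12, 0, -12, 0, 12, 24, -36, 12, -24, 0, 0, 0, 0, 0, 0, 0,
      0, 0], .lam 2 1 [0, 3, 0, 0, 4, 0, 5]⟩ (.n (.n .e ⟨2195754, 96, [-24, 48, -108, -60, 12,
      12, -72, 36, 0, -36, 12, 0, 0, 12, 36, -48, 24, 0, 0, 0, 0], .lam 3 1 [0, 0, 0, 0, 4, 5,
      2]⟩ .e) ⟨2196517, 54, [0, 0, -48, -12, 0, 0, -24, 24, 0, -24, 12, -24, 0, 0, 0, 0, 0, 0,
      0, 0, 0], .lam 3 1 [0, 0, 0, 2, 0, 4, 5]⟩ (.n .e ⟨2196741, 56, [0, 0, 48, 12, 0, 12, 0,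
      -12, -24, 24, -12, 24, 0, 0, 0, 0, 0, 0, 0, 0, 0], .lam 3 1 [0, 4, 0, 2, 0, 0, 5]⟩
      .e))))) ⟨2196776, 95, [48, -12, 48, 36, 0, -12, 48, -24, 0, 24, -12, 0, 0, -12, -24, 12,
      -24, 0, 0, 0, 0], .lam 3 1 [0, 0, 0, 2, 4, 5, 0]⟩ (.n (.n (.n (.n (.n (.n .e ⟨2197525,
      72, [42, 0, 48, 30, 0, 18, -24, -24, 6, 18, -6, -12, 12, 0, 0, 0, 0, 0, 0, 0, 0], .lam 2
      1 [0, 3, 0, 4, 0, 0, 5]⟩ .e) ⟨2197546, 113, [0, -60, 180, 60, 12, 0, 48, -72, 0, 48, -24,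
      36, 0, 0, 0, 60, -12, 0, 0, 12, 0], .lam 3 1 [0, 4, 0, 0, 0, 5, 2]⟩ .e) ⟨2197637, 68,
      [-42, 0, -48, -30, 0, -18, 12, 24, -6, -18, 6, 12, -12, 0, 0, 0, 0, 0, 0, 0, 0], .sym 2
      [3, 0, 0, 4, 0, 2, 5]⟩ (.n .e ⟨2197672, 110, [-72, 24, -72, -84, -24, 0, 36, 72, 0, 24,
      0, 12, 0, 0, -12, -12, 12, 0, 0, -12, 0], .lam 3 1 [0, 4, 0, 0, 2, 5, 0]⟩ .e)) ⟨2197826,
      135, [191, -108, 268, 247, 34, -43, 142, -190, 33, 25, -43, -14, 8, -40, -68, 78, -72,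
      20, -2, 26, -6], .lam 2 1 [0, 3, 0, 4, 5, 0, 0]⟩ (.n (.n .e ⟨2197840, 129, [-191, 108,
      -256, -247, -22, 43, -142, 190, -33, -25, 43, 14, -8, 40, 80, -78, 72, -20, 2, -26, 6],
      .sym 2 [3, 4, 0, 0, 5, 0, 2]⟩ .e) ⟨2203685, 44, [0, 0, 0, 0, 0, 0, -12, -12, 0, -12, 0,
      0, 0, 0, 0, 0, 0, 0, 0, 0, 0], .lam 3 1 [0, 4, 2, 0, 0, 0, 5]⟩ (.n .e ⟨2203909, 42, [0,
      0, 0, 0, 0, 0, 0, 0, 0, 12, 0, 0, 0, 0, 0, 0, 0, 0, 0, 0, 0], .bas 9⟩ .e))) ⟨2203944, 84,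
      [0, 12, -12, 0, -12, 0, 24, 12, 0, 12, 0, 0, 0, 0, -12, -12, 0, 0, 0, 0, 0], .lam 3 1 [0,
      4, 2, 0, 0, 5, 0]⟩ (.n (.n (.n (.n .e ⟨2205701, 36, [0, 0, 0, 0, 0, 0, 12, 0, 0, 0, 0, 0,
      0, 0, 0, 0, 0, 0, 0, 0, 0], .bas 6⟩ .e) ⟨2205736, 82, [0, -12, 12, 0, 12, 0, -12, 0, 0,
      0, 0, 0, 0, 0, 12, 0, 0, 0, 0, 0, 0], .lam 3 1 [0, 4, 2, 5, 0, 0, 0]⟩ .e) ⟨2206016, 80,
      [0, 0, -12, 0, -12, 0, 0, 0, 0, 0, 0, 0, 0, 0, -12, 0, 0, 0, 0, 0, 0], .lam 3 1 [0, 0, 2,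
      4, 5, 0, 0]⟩ (.n .e ⟨2211861, 59, [0, 0, -48, -12, 0, 12, -48, 36, 0, -12, 12, -24, 0, 0,
      0, 0, 0, 0, 0, 0, 0], .lam 2 1 [0, 3, 4, 0, 0, 0, 5]⟩ .e)) ⟨2211882, 103, [-24, 24, -72,
      -24, -24, 0, 0, 36, 0, -12, 12, -12, 0, 0, -12, -12, 12, -12, 0, 0, 0], .lam 2 1 [0, 3,
      4, 0, 0, 5, 0]⟩ (.n (.n .e ⟨2211973, 58, [0, 0, 48, 12, 0, 0, 24, -24, -12, 12, -12, 24,
      0, 0, 0, 0, 0, 0, 0, 0, 0], .sym 2 [0, 3, 4, 0, 2, 0, 5]⟩ .e) ⟨2212008, 101, [24, -24,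
      72, 24, 24, 0, 0, -36, 0, 12, -12, 12, 0, 0, 12, 12, -12, 0, 0, 0, 0], .sym 2 [0, 3, 4,
      0, 2, 5, 0]⟩ (.n .e ⟨2212162, 132, [-97, 60, -38, -119, -20, 71, -98, 50, 21, 13, -19, 4,
      32, 26, 88, -36, 42, -34, -2, -10, 18], .lam 2 1 [0, 3, 4, 0, 5, 0, 0]⟩ .e)))) ⟨2212176,
      126, [97, -60, 38, 119, 20, -71, 98, -50, -21, -13, 19, -4, -32, -26, -88, 36, -42, 34,
      -10, 10, -18], .sym 2 [3, 0, 0, 4, 5, 0, 2]⟩ (.n (.n (.n (.n (.n .e ⟨2212869, 41, [0, 0,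
      0, 0, 0, -12, 24, -12, 12, 0, 0, 0, 0, 0, 0, 0, 0, 0, 0, 0, 0], .sym 2 [0, 3, 4, 2, 0, 0,
      5]⟩ .e) ⟨2212904, 97, [0, 0, 0, 0, 0, 0, 0, 0, 0, 0, 0, 0, 0, 0, 0, 0, 0, 12, 0, 0, 0],
      .bas 17⟩ .e) ⟨2213184, 104, [0, 0, 0, 0, 0, 0, 0, 0, 0, 0, 0, 0, 0, 0, 0, 0, 0, 0, 12, 0,
      0], .bas 18⟩ (.n .e ⟨2214402, 139, [-166, 192, -460, -346, -44, 30, -176, 272, -26, -38,
      50, 4, -16, 32, 64, -156, 84, -4, 4, -28, -12], .lam 3 1 [0, 4, 0, 5, 0, 0, 2]⟩ .e))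
      ⟨2214416, 136, [148, -144, 292, 280, 20, -60, 224, -200, 32, 20, -44, -4, 4, -44, -112,
      108, -72, 16, -4, 16, 0], .lam 3 1 [0, 4, 0, 5, 0, 2, 0]⟩ (.n (.n .e ⟨2214528, 117, [126,
      -24, 48, 78, 12, -18, 48, -24, -18, 18, 6, -48, 0, -24, -48, 36, -72, 24, 0, 12, -12],
      .lam 3 1 [0, 0, 4, 5, 2, 0, 0]⟩ .e) ⟨2621669, 0, [0, 0, 0, 0, 0, 0, 0, 0, 0, 0, 0, 0, 0,
      0, 0, 0, 0, 0, 0, 0, 0], .sym 2 [0, 2, 0, 0, 3, 4, 5]⟩ (.n .e ⟨2623013, 1, [0, 0, 0, 0,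
      0, 0, 0, 0, 0, 0, 0, 0, 0, 0, 0, 0, 0, 0, 0, 0, 0], .sym 2 [0, 2, 0, 3, 0, 4, 5]⟩ .e)))
      ⟨2623237, 2, [0, 0, 0, 0, 0, 0, 0, 0, 0, 0, 0, 0, 0, 0, 0, 0, 0, 0, 0, 0, 0], .sym 2 [0,
      2, 0, 3, 4, 0, 5]⟩ (.n (.n (.n .e ⟨2623272, 3, [0, 0, 0, 0, 0, 0, 0, 0, 0, 0, 0, 0, 0, 0,
      0, 0, 0, 0, 0, 0, 0], .sym 2 [0, 2, 0, 3, 4, 5, 0]⟩ .e) ⟨2633765, 4, [0, 0, 0, 0, 0, 0,
      0, 0, 0, 0, 0, 0, 0, 0, 0, 0, 0, 0, 0, 0, 0], .sym 2 [0, 2, 3, 0, 0, 4, 5]⟩ (.n .e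
      ⟨2633989, 5, [0, 0, 0, 0, 0, 0, 0, 0, 0, 0, 0, 0, 0, 0, 0, 0, 0, 0, 0, 0, 0], .sym 2 [0,
      2, 3, 0, 4, 0, 5]⟩ .e)) ⟨2634024, 6, [0, 0, 0, 0, 0, 0, 0, 0, 0, 0, 0, 0, 0, 0, 0, 0, 0,
      0, 0, 0, 0], .sym 2 [0, 2, 3, 0, 4, 5, 0]⟩ (.n (.n .e ⟨2635781, 7, [0, 0, 0, 0, 0, 0, 0,
      0, 0, 0, 0, 0, 0, 0, 0, 0, 0, 0, 0, 0, 0], .sym 2 [0, 2, 3, 4, 0, 0, 5]⟩ .e) ⟨2635816, 8,
      [0, 0, 0, 0, 0, 0, 0, 0, 0, 0, 0, 0, 0, 0, 0, 0, 0, 0, 0, 0, 0], .sym 2 [0, 2, 3, 4, 0,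
      5, 0]⟩ (.n .e ⟨2636096, 9, [0, 0, 0, 0, 0, 0, 0, 0, 0, 0, 0, 0, 0, 0, 0, 0, 0, 0, 0, 0,
      0], .sym 2 [0, 2, 3, 4, 5, 0, 0]⟩ .e))))))

def tr332 : Tb :=
  (.n (.n (.n (.n (.n (.n (.n .e ⟨2720005, 11, [0, 0, 0, 0, 0, 0, 0, 0, 0, 0, 0, 0, 0, 0, 0, 0,
      0, 0, 0, 0, 0], .sym 2 [2, 3, 0, 0, 4, 0, 5]⟩ .e) ⟨2720040, 12, [0, 0, 0, 0, 0, 0, 0, 0,
      0, 0, 0, 0, 0, 0, 0, 0, 0, 0, 0, 0, 0], .sym 2 [2, 3, 0, 0, 4, 5, 0]⟩ .e) ⟨2721797, 13,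
      [0, 0, 0, 0, 0, 0, 0, 0, 0, 0, 0, 0, 0, 0, 0, 0, 0, 0, 0, 0, 0], .sym 2 [2, 3, 0, 4, 0,
      0, 5]⟩ (.n .e ⟨2721832, 14, [0, 0, 0, 0, 0, 0, 0, 0, 0, 0, 0, 0, 0, 0, 0, 0, 0, 0, 0, 0,
      0], .sym 2 [2, 3, 0, 4, 0, 5, 0]⟩ .e)) ⟨2722112, 15, [0, 0, 0, 0, 0, 0, 0, 0, 0, 0, 0, 0,
      0, 0, 0, 0, 0, 0, 0, 0, 0], .sym 2 [2, 3, 0, 4, 5, 0, 0]⟩ (.n (.n .e ⟨2736133, 16, [0, 0,
      0, 0, 0, 0, 0, 0, 0, 0, 0, 0, 0, 0, 0, 0, 0, 0, 0, 0, 0], .sym 2 [2, 3, 4, 0, 0, 0, 5]⟩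
      .e) ⟨2736168, 17, [0, 0, 0, 0, 0, 0, 0, 0, 0, 0, 0, 0, 0, 0, 0, 0, 0, 0, 0, 0, 0], .sym 2
      [2, 3, 4, 0, 0, 5, 0]⟩ (.n .e ⟨2736448, 18, [0, 0, 0, 0, 0, 0, 0, 0, 0, 0, 0, 0, 0, 0, 0,
      0, 0, 0, 0, 0, 0], .sym 2 [2, 3, 4, 0, 5, 0, 0]⟩ .e))) ⟨2738688, 19, [0, 0, 0, 0, 0, 0,
      0, 0, 0, 0, 0, 0, 0, 0, 0, 0, 0, 0, 0, 0, 0], .sym 2 [2, 3, 4, 5, 0, 0, 0]⟩ (.n (.n (.n
      (.n .e ⟨2883749, 53, [-60, 0, 0, -48, 0, 0, 36, 36, 0, 36, -24, 36, 0, 0, 0, 0, 0, 0, 0,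
      0, 0], .sym 2 [3, 0, 0, 0, 2, 4, 5]⟩ .e) ⟨2883861, 61, [12, 0, 0, -12, 0, -12, 0, 12, 0,
      12, 12, 0, -12, 0, 0, 0, 0, 0, 0, 0, 0], .lam 2 1 [3, 0, 0, 0, 4, 0, 5]⟩ .e) ⟨2883882,
      94, [36, -36, 108, 72, 12, 0, 72, -36, 0, 36, 0, 0, 0, 0, -36, 36, -12, 0, 0, 0, 0], .lam
      2 1 [3, 0, 0, 0, 4, 5, 0]⟩ (.n .e ⟨2884645, 52, [24, 0, 48, 12, 0, 0, 24, -24, 0, 24,
      -12, 12, 0, 0, 0, 0, 0, 0, 0, 0, 0], .sym 2 [0, 0, 3, 2, 0, 4, 5]⟩ .e)) ⟨2884869, 60, [0,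
      0, 0, 0, 0, 0, 0, 0, 0, 0, 0, 0, 12, 0, 0, 0, 0, 0, 0, 0, 0], .bas 12⟩ (.n (.n .e
      ⟨2884904, 93, [-24, 12, -48, -36, 0, 12, -48, 24, 0, -24, 12, 0, 0, 12, 24, -12, 12, 0,
      0, 0, 0], .sym 2 [0, 0, 3, 2, 4, 5, 0]⟩ .e) ⟨2885653, 66, [24, 0, 60, 24, 0, 12, 24, -24,
      12, 24, -12, 12, 0, 0, 0, 0, 0, 0, 0, 0, 0], .lam 2 1 [3, 0, 0, 4, 0, 0, 5]⟩ (.n .e
      ⟨2885674, 102, [0, 0, 0, 0, -12, -24, 48, 0, 0, 24, -12, 12, 0, -24, -24, 12, 0, 12, 0,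
      0, 0], .lam 2 1 [3, 0, 0, 4, 0, 5, 0]⟩ .e)))) ⟨2885765, 65, [-24, 0, -36, 0, 0, 0, -12,
      24, -12, -24, 12, -12, 0, 0, 0, 0, 0, 0, 0, 0, 0], .sym 2 [3, 0, 0, 0, 4, 2, 5]⟩ (.n (.n
      (.n (.n (.n .e ⟨2885800, 100, [0, 24, -36, -24, 0, 12, -60, 0, 0, -24, 12, -12, 0, 12,
      36, -12, 0, -12, 0, 0, 0], .sym 2 [3, 0, 0, 4, 2, 5, 0]⟩ .e) ⟨2885954, 122, [-2, -24, 28,
      34, 8, -6, 20, 4, -10, 26, 10, 20, -8, 4, -52, 0, 0, 16, -28, 4, -12], .lam 2 1 [3, 0, 0,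
      4, 5, 0, 0]⟩ .e) ⟨2885968, 120, [2, 24, -16, -34, 4, 6, -20, -4, 10, -26, -10, -20, 8, 8,
      40, 0, 0, -16, 28, -4, 12], .sym 2 [3, 4, 0, 0, 0, 5, 2]⟩ (.n .e ⟨2891813, 45, [12, 0,
      24, 12, 0, 0, 12, -12, 0, 12, 0, 0, 0, 0, 0, 0, 0, 0, 0, 0, 0], .lam 3 1 [4, 0, 2, 0, 0,
      0, 5]⟩ .e)) ⟨2892037, 43, [-12, 0, -12, 0, 0, 0, 0, 0, 0, -12, 0, 0, 0, 0, 0, 0, 0, 0, 0,
      0, 0], .lam 3 1 [0, 0, 2, 0, 4, 0, 5]⟩ (.n (.n .e ⟨2892072, 85, [-12, 12, -36, -24, 0, 0,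
      -24, 12, 0, -12, 0, 0, 0, 0, 12, -12, 0, 0, 0, 0, 0], .lam 3 1 [4, 0, 2, 0, 0, 5, 0]⟩ .e)
      ⟨2893829, 37, [0, 0, -12, -12, 0, 0, -12, 0, 0, 0, 0, 0, 0, 0, 0, 0, 0, 0, 0, 0, 0], .lam
      3 1 [0, 0, 2, 4, 0, 0, 5]⟩ (.n .e ⟨2893864, 81, [0, -12, 12, 12, 0, 0, 12, 0, 0, 0, 0, 0,
      0, 0, -12, 0, 0, 0, 0, 0, 0], .lam 3 1 [4, 0, 2, 5, 0, 0, 0]⟩ .e))) ⟨2894144, 79, [0, 0,
      0, 0, 0, 0, 0, 0, 0, 0, 0, 0, 0, 0, 12, 0, 0, 0, 0, 0, 0], .bas 14⟩ (.n (.n (.n .e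
      ⟨2899989, 69, [6, 0, 48, 6, 0, -6, 48, -36, 18, 18, -18, 24, 12, 0, 0, 0, 0, 0, 0, 0, 0],
      .lam 2 1 [3, 0, 4, 0, 0, 0, 5]⟩ .e) ⟨2900010, 114, [-84, 48, -108, -96, 0, 36, -144, 36,
      0, -60, 12, 12, 0, 36, 84, -48, 36, -24, 0, 12, 0], .lam 3 1 [4, 0, 0, 0, 0, 5, 2]⟩ (.n
      .e ⟨2900101, 67, [18, 0, 0, 6, 0, 6, -24, 0, -6, 6, 6, -12, 0, 0, 0, 0, 0, 0, 0, 0, 0],
      .sym 2 [0, 3, 0, 0, 4, 2, 5]⟩ .e)) ⟨2900136, 111, [60, -24, 36, 72, 0, -12, 24, -36, 0,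
      -12, 12, -24, 0, -12, -36, 12, 0, 12, 0, -12, 0], .lam 3 1 [4, 0, 0, 0, 2, 5, 0]⟩ (.n (.n
      .e ⟨2900290, 127, [40, 24, 40, 4, 8, 24, -40, -8, 8, 8, 4, -16, 4, 16, 32, 12, -12, -20,
      -4, 4, 0], .lam 2 1 [3, 0, 4, 0, 5, 0, 0]⟩ .e) ⟨2900304, 123, [-16, -12, -88, -16, -8,
      -36, 40, 32, 16, -32, 8, -8, -16, -16, -32, 0, 24, 20, 16, -4, 0], .sym 2 [3, 0, 4, 0, 0,
      5, 2]⟩ (.n .e ⟨2900997, 63, [-24, 0, -48, -12, 0, 0, -24, 24, -12, -24, 12, -12, -12, 0,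
      0, 0, 0, 0, 0, 0, 0], .lam 3 1 [4, 0, 0, 2, 0, 0, 5]⟩ .e))))) ⟨2901032, 98, [0, 0, 0, 0,
      0, 0, 0, 0, 0, 0, 0, -12, 0, 0, 0, 0, -12, -12, 0, 0, 0], .lam 3 1 [0, 0, 4, 2, 0, 5, 0]⟩
      (.n (.n (.n (.n (.n (.n .e ⟨2901312, 105, [-24, 0, 48, 12, 0, 12, 0, -12, -24, 24, -12,
      24, 12, 0, 0, 0, -12, 0, -12, 0, 0], .lam 3 1 [0, 0, 4, 2, 5, 0, 0]⟩ .e) ⟨2902530, 130,
      [-49, 60, 2, -127, 4, 51, -110, 2, 25, -11, -19, 16, -4, 38, 136, -12, 6, -58, 10, 14,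
      -6], .lam 2 1 [3, 0, 4, 5, 0, 0, 0]⟩ .e) ⟨2902544, 125, [49, -72, -2, 127, -4, -51, 110,
      -2, -25, 11, 19, -16, 4, -38, -136, 12, -6, 58, -10, -14, -6], .sym 2 [0, 3, 4, 0, 0, 5,
      2]⟩ (.n .e ⟨2902656, 116, [0, 0, 0, 0, 0, 0, 0, 0, 0, 0, 0, 0, 0, 0, 0, 0, 0, 0, 0, 0,
      12], .bas 20⟩ .e)) ⟨2949157, 46, [0, 0, 0, 0, 0, 0, 0, 0, 0, 0, 12, 0, 0, 0, 0, 0, 0, 0,
      0, 0, 0], .bas 10⟩ (.n (.n .e ⟨2949381, 48, [0, 0, 12, 12, 0, 12, 0, -12, 0, 0, -12, 0,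
      0, 0, 0, 0, 0, 0, 0, 0, 0], .lam 3 1 [4, 2, 0, 0, 0, 0, 5]⟩ .e) ⟨2949416, 90, [0, 12,
      -24, -12, -12, -12, 0, 0, 0, 0, -12, 0, 0, -12, 0, -12, 0, 0, 0, 0, 0], .lam 3 1 [4, 2,
      0, 0, 0, 5, 0]⟩ (.n .e ⟨2951173, 35, [0, 0, -12, -12, 0, -12, 0, 0, 0, 0, 0, 0, 0, 0, 0,
      0, 0, 0, 0, 0, 0], .lam 3 1 [0, 2, 0, 4, 0, 0, 5]⟩ .e))) ⟨2951208, 78, [0, -12, 24, 12,
      12, 12, 0, 0, 0, 0, 0, 0, 0, 12, 0, 0, 0, 0, 0, 0, 0], .lam 3 1 [4, 2, 0, 5, 0, 0, 0]⟩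
      (.n (.n (.n (.n .e ⟨2951488, 76, [0, 0, -12, 0, -12, 0, 0, 0, 0, 0, 0, 0, 0, -12, 0, 0,
      0, 0, 0, 0, 0], .lam 3 1 [0, 2, 0, 4, 5, 0, 0]⟩ .e) ⟨2965509, 39, [0, 0, 0, 0, 0, 0, 0,
      12, 0, 0, 0, 0, 0, 0, 0, 0, 0, 0, 0, 0, 0], .sym 2 [3, 0, 4, 2, 0, 0, 5]⟩ .e) ⟨2965544,
      87, [0, 0, 0, 0, 0, 0, 0, 0, 0, 0, 0, 0, 0, 0, 0, 12, 0, 0, 0, 0, 0], .sym 2 [3, 0, 4, 2,
      0, 5, 0]⟩ (.n .e ⟨2965824, 88, [0, -12, 0, 0, 0, 0, 0, -12, 0, 0, 0, 0, 0, 0, 0, -12, 0,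
      0, 0, 0, 0], .sym 2 [3, 0, 4, 2, 5, 0, 0]⟩ .e)) ⟨2968064, 23, [0, 12, 0, 0, 0, 0, 0, 0,
      0, 0, 0, 0, 0, 0, 0, 0, 0, 0, 0, 0, 0], .bas 1⟩ (.n (.n .e ⟨3014677, 74, [-42, 0, -108,
      -18, 0, 6, -72, 48, -30, -54, 18, -36, 0, 0, 0, 0, 0, 0, 0, 0, 0], .lam 3 1 [4, 0, 0, 0,
      0, 2, 5]⟩ .e) ⟨3014698, 109, [48, -12, 0, 24, 0, -12, 24, 0, 0, 0, 0, -24, 0, -12, -24,
      0, -24, 12, 0, -12, 0], .lam 2 1 [3, 4, 0, 0, 0, 5, 0]⟩ (.n .e ⟨3014789, 71, [66, 0, 36,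
      42, 0, -6, 0, -60, 18, -18, 6, -12, 0, 0, 0, 0, 0, 0, 0, 0, 0], .lam 3 1 [4, 0, 0, 0, 2,
      0, 5]⟩ .e)))) ⟨3014824, 108, [0, 0, 0, 0, 0, 0, 0, 0, 0, 0, 0, 0, 0, 0, 0, 0, 0, 0, 0,
      12, 0], .bas 19⟩ (.n (.n (.n (.n (.n .e ⟨3014978, 124, [-38, 48, -144, -54, -4, 14, -148,
      64, -26, -82, 46, -40, -8, 16, 56, -12, 12, -20, -4, -8, 12], .lam 2 1 [3, 4, 0, 0, 5, 0,
      0]⟩ .e) ⟨3014992, 121, [86, -48, 240, 102, 4, -14, 196, -88, 2, 130, -70, 64, 8, -28,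
      -80, 36, -36, 20, 16, 8, -12], .sym 2 [3, 0, 0, 0, 4, 5, 2]⟩ .e) ⟨3015685, 40, [0, 0, 0,
      0, 0, 0, 0, 0, 12, 0, 0, 0, 0, 0, 0, 0, 0, 0, 0, 0, 0], .bas 8⟩ (.n .e ⟨3015720, 99,
      [-48, 12, 0, -24, 0, 12, -24, 0, 0, 0, 0, 24, 0, 12, 24, -12, 24, -12, 0, 0, 0], .lam 3 1
      [0, 4, 0, 2, 0, 5, 0]⟩ .e)) ⟨3016000, 106, [-48, 12, -96, -48, 0, 0, -48, 36, 24, -48,
      24, -24, 0, 12, 24, -12, 24, 0, -12, 0, 0], .lam 3 1 [0, 4, 0, 2, 5, 0, 0]⟩ (.n (.n .e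
      ⟨3017218, 134, [-25, -24, 12, 39, -2, 13, -14, -10, -7, -35, 17, -26, 8, 8, 4, 18, 0,
      -16, -2, -10, 18], .lam 2 1 [3, 4, 0, 5, 0, 0, 0]⟩ .e) ⟨3017232, 128, [1, 36, -84, -63,
      2, -1, -58, 34, -5, -13, 7, 2, -8, 4, 32, -30, 0, 4, 2, 10, -6], .sym 2 [0, 3, 0, 0, 4,
      5, 2]⟩ (.n .e ⟨3017344, 118, [24, -24, 72, 24, 0, -12, 72, -24, 12, 48, -24, 24, 0, -12,
      -36, 12, 0, 12, 0, 0, -12], .lam 3 1 [4, 0, 0, 5, 2, 0, 0]⟩ .e))) ⟨3022853, 38, [0, 0, 0,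
      0, 0, 0, 0, 12, 0, 0, 0, 0, 0, 0, 0, 0, 0, 0, 0, 0, 0], .bas 7⟩ (.n (.n (.n .e ⟨3022888,
      83, [0, 0, 0, 0, 0, 0, 0, 0, 0, 0, 0, 0, 0, 0, 0, 12, 0, 0, 0, 0, 0], .bas 15⟩ .e)
      ⟨3023168, 86, [0, -12, 0, 0, 0, 0, 0, -12, 0, 0, 0, 0, 0, 0, 0, -12, 0, 0, 0, 0, 0], .lam
      3 1 [4, 5, 2, 0, 0, 0, 0]⟩ (.n .e ⟨3025408, 24, [0, 12, 0, 0, 0, 0, 0, 0, 0, 0, 0, 0, 0,
      0, 0, 0, 0, 0, 0, 0, 0], .sym 2 [3, 4, 2, 5, 0, 0, 0]⟩ .e)) ⟨3035138, 137, [93, -132, 66,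
      219, -12, -111, 294, -30, -33, 63, 3, -12, 0, -90, -252, 48, -30, 102, -6, -30, 6], .lam
      3 1 [4, 0, 5, 0, 0, 0, 2]⟩ (.n (.n .e ⟨3035152, 131, [-39, 84, 42, -117, 12, 93, -198, 6,
      -9, 3, -9, 0, 0, 54, 168, -12, -18, -78, -6, 18, 6], .lam 3 1 [4, 0, 5, 0, 0, 2, 0]⟩ .e)
      ⟨3035264, 119, [-78, 24, -36, -78, 0, 6, 0, 36, 6, 6, -18, 36, 0, 12, 36, -12, 0, -12, 0,
      12, -12], .lam 3 1 [4, 0, 5, 0, 2, 0, 0]⟩ (.n .e ⟨3036160, 107, [0, 0, 0, 0, 0, 12, -24,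
      12, -12, 0, 0, 0, 0, 0, 0, 0, 0, -12, -12, 0, 0], .lam 3 1 [0, 4, 5, 2, 0, 0, 0]⟩ .e))))))

def tb332 : Tb := .n tl332 ⟨2719781, 10, [0, 0, 0, 0, 0, 0, 0, 0, 0, 0, 0, 0, 0, 0, 0, 0, 0, 0, 0, 0, 0], .sym 2 [2, 3, 0, 0, 0, 4, 5]⟩ tr332

def ce332 : Cert where
  cx := cx332
  D := 12
  bk := [2105573, 2968064, 2107141, 2106917, 2164520, 2177029, 2205701, 3022853, 3015685, 2203909, 2949157, 2110501, 2884869, 2177344, 2894144, 3022888, 2110760, 2212904, 2213184, 3014824, 2902656]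
  tb := tb332
  pl := [.lam 2 1 [0, 0, 3, 0, 4, 0, 5], .lam 2 1 [0, 0, 3, 4, 5, 0, 0], .lam 3 1 [0, 0, 2, 4, 0, 5, 0], .lam 3 1 [0, 2, 0, 0, 4, 5, 0], .lam 3 1 [0, 4, 2, 0, 5, 0, 0], .lam 3 1 [4, 2, 0, 0, 5, 0, 0], .lam 2 1 [3, 0, 0, 0, 0, 4, 5], .sym 2 [0, 0, 0, 3, 4, 2, 5], .lam 3 1 [4, 0, 5, 2, 0, 0, 0], .lam 3 1 [0, 4, 0, 0, 2, 0, 5], .lam 3 1 [0, 0, 0, 4, 0, 2, 5], .lam 3 1 [4, 0, 0, 2, 0, 5, 0], .lam 3 1 [4, 5, 0, 0, 2, 0, 0], .sym 2 [0, 3, 4, 2, 5, 0, 0], .sym 2 [3, 0, 4, 0, 2, 5, 0]]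
  fams := [(FB, [⟨[], [(l 1), (l 2), (l 3)], [(l 4), (l 5)]⟩, ⟨[], [(l 1), (l 3), (l 4)], [(l 2), (l 5)]⟩,
      ⟨[], [(l 1), (l 3), (b (l 2) (l 4))], [(l 5)]⟩, ⟨[], [(b (l 1) (l 3)), (l 2), (l 4)], [(l
      5)]⟩, ⟨[], [(b (l 1) (l 3)), (l 4), (b (l 2) (l 5))], []⟩, ⟨[], [(b (b (l 4) (l 1)) (l
      3)), (l 2), (l 5)], []⟩]),
    (FA, [⟨[(b (l 1) (l 3))], [(l 4), (l 2)], [(l 5)]⟩]),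
    (FC, [])]
  cases := [([([], [0, 2]), ([], []), ([], [])], [], [.cm 0 0 [-17, -68, -8, 2, 6, 18] 1, .cm 0 0 [-17,
      -68, -8, 2, 6, 18] 2, .cm 0 2 [-497, -2634, 110, 0, 1080] 0, .cm 0 2 [-497, -2634, 110,
      0, 1080] 1, .cm 0 2 [421, 3522, 938, 1656] 0, .cm 0 2 [421, 3522, 938, 1656] 1]),
    ([([0], [2]), ([], []), ([], [])], [], [.zr 0 0 [1], .zr 0 0 [0, 1], .zr 0 0 [0, 0, 1], .zr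
      0 0 [0, 0, 0, 1], .zr 0 0 [0, 0, 0, 0, 1], .cm 0 2 [0, 0, 0, 0, 0, 1] 1]),
    ([([2], [0, 1]), ([], []), ([], [])], [], [.zr 0 2 [1], .zr 0 2 [0, 1], .zr 0 2 [0, 0, 1],
      .zr 0 2 [0, 0, 0, 1], .zr 0 2 [0, 0, 0, 0, 1], .cm 0 1 [1] 0]),
    ([([1, 2], [0]), ([], [2]), ([], [])], [], [.zr 0 1 [1], .zr 0 1 [0, 1], .zr 0 1 [0, 0, 1],
      .zr 0 1 [0, 0, 0, 1], .zr 0 1 [0, 0, 0, 0, 1], .cm 1 2 [1] 0]),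
    ([([0, 2], [1]), ([], [1]), ([], [])], [], [.zr 0 0 [1], .zr 0 0 [0, 1], .zr 0 0 [0, 0, 1],
      .zr 0 0 [0, 0, 0, 1], .zr 0 0 [0, 0, 0, 0, 1], .zr 0 2 [1]]),
    ([([0, 2], [1]), ([], []), ([], [0])], [], [.zr 0 0 [1], .zr 0 0 [0, 1], .zr 0 0 [0, 0, 1],
      .zr 0 0 [0, 0, 0, 1], .zr 0 0 [0, 0, 0, 0, 1], .zr 0 2 [1]])]

def z0332 : Zs :=
  [(0, [24, 0, 24, 24, 0, 0, 0, -24, 0, 0, 0, 0, 0, 0, 0, 0, 0, 0, 0, 0, 0]), (2, [0, 0, -24, 0,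
      0, 0, 0, 0, 0, 0, 24, 0, 0, 24, 0, -24, 0, 0, 0, 0, 0]), (1, [0, 1, 0, -1, -1, 0, 0, 0,
      0, 0, -1, 0, 0, -1, 0, 1, 0, 0, 0, 0, 0]), (4, [0, 0, 0, 0, -1, 0, 0, -1, 0, 0, 1, 0, 0,
      1, 0, 0, 0, 0, 0, 0, 0]), (6, [0, 0, 0, 0, 0, 0, 1, 1, 0, 1, -2, 0, 0, -2, -1, 0, 0, 0,
      0, 0, 0]), (10, [0, 0, 0, 0, 0, 0, 0, 0, 0, 0, -1, 0, 0, -1, 0, 0, 0, 0, 0, 0, 0]), (7,
      [0, 0, 0, 0, 0, 0, 0, -4, 0, 0, 0, 2, 0, 1, 3, -4, 0, 0, 0, 0, 0]), (3, [0, 0, 0, -4, 0,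
      -4, 0, 0, 8, -12, 0, -6, 0, -3, 3, 16, 0, 0, 0, 0, 0]), (5, [0, 0, 0, 0, 0, -4, 0, 0, 8,
      -16, 0, -10, 0, -5, 1, 20, -4, -4, -4, 0, 0]), (8, [0, 0, 0, 0, 0, 0, 0, 0, 8, -8, 0,
      -10, 2, -3, 3, 12, -6, -6, -6, 0, 0]), (11, [0, 0, 0, 0, 0, 0, 0, 0, 0, 0, 0, 2, 6, 3,
      -3, -4, 6, 6, 6, 0, 0]), (9, [0, 0, 0, 0, 0, 0, 0, 0, 0, 2, 0, 0, -10, -3, 3, 2, -4, -8,
      -6, 0, 0]), (12, [0, 0, 0, 0, 0, 0, 0, 0, 0, 0, 0, 0, 8, 1, 1, -4, 8, 8, 8, -4, 4]), (13,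
      [0, 0, 0, 0, 0, 0, 0, 0, 0, 0, 0, 0, 0, 1, 1, -4, 8, 0, 8, -4, 4]), (15, [0, 0, 0, 0, 0,
      0, 0, 0, 0, 0, 0, 0, 0, 0, 0, 2, -4, 0, -3, 2, -1])]

def sv332 : List (List (List (List ℤ))) :=
  [[[[72, 0, 96, 120, 0, 0, -24, -120, 0, -24, -24, 48, 0, 0, 0, 0, 0, 0, 0, 0, 0], [72, 0, -24,
      -168, 0, 0, 48, 72, 0, 48, 24, -48, 0, 0, 0, 0, 0, 0, 0, 0, 0], [-192, 0, -72, -24, 0, 0,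
      24, 96, 0, 24, 24, 24, 0, 0, 0, 0, 0, 0, 0, 0, 0]], [[-24, 0, -240, -84, 0, -84, 24, 84,
      48, -108, 72, -60, -48, 0, 0, 0, 0, 0, 0, 0, 0], [-114, 0, 156, 102, 0, 174, -120, 24,
      -126, 18, -78, 36, 24, 0, 0, 0, 0, 0, 0, 0, 0], [78, 0, 48, -6, 0, -42, -24, -60, -18,
      78, 6, 12, 24, 0, 0, 0, 0, 0, 0, 0, 0]], [[-132, 0, 96, -108, 0, 48, 48, 72, -24, 120,
      -72, 72, 36, 0, 0, 0, 0, 0, 0, 0, 0], [288, 0, -504, 180, 0, -228, -132, -72, 96, -312,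
      276, -228, -108, 0, 0, 0, 0, 0, 0, 0, 0], [-30, 0, 432, 30, 0, 162, 24, -120, -66, 162,
      -174, 120, 60, 0, 0, 0, 0, 0, 0, 0, 0]], [[-120, 0, -84, -48, 0, -48, 84, 12, 0, -72,
      -12, 36, 12, 0, 0, 0, 0, 0, 0, 0, 0], [594, 0, 444, 330, 0, 42, -72, -336, 42, 102, 42,
      -108, -36, 0, 0, 0, 0, 0, 0, 0, 0], [-408, 0, -384, -228, 0, 12, -84, 348, -72, -72, 24,
      12, -12, 0, 0, 0, 0, 0, 0, 0, 0]], [[-36, 36, 0, -48, 24, 96, -192, 24, -12, -60, 12,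
      -36, 12, 60, 108, -36, 12, -48, 12, 0, 12], [38, -120, 28, 94, -20, -190, 628, -28, 150,
      130, -58, 64, -28, -100, -236, 108, -24, 92, 4, -4, -12], [196, 36, -60, 36, -16, -28,
      -196, -44, -32, -52, 64, -100, -20, -20, 32, -12, 0, -8, 8, -8, 12]], [[-214, 300, -996,
      -534, -8, 22, -752, 452, -58, -362, 206, -164, -64, 68, 304, -180, 72, -28, -32, 20, 0],
      [-77, -660, 900, 867, -34, -343, 1682, -374, -11, 473, -275, 350, 88, -260, -952, 234, 0,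
      304, 74, -62, -42], [208, 216, 234, -186, 38, 230, -484, -188, 172, -88, 16, -130, 16,
      166, 488, 6, -66, -206, -28, 40, 36]]], [[[-432, 0, -528, -168, 0, 216, -456, 528, -240,
      -48, -24, -168, -24, 0, 0, 0, 0, 0, 0, 0, 0], [258, 0, 252, 114, 0, -126, 216, -288, 126,
      -18, 42, 60, 0, 0, 0, 0, 0, 0, 0, 0, 0], [84, 0, -24, 60, 0, -36, -24, -48, 12, -84, 60,
      -48, -24, 0, 0, 0, 0, 0, 0, 0, 0]]], []]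

theorem okt332 : chkTb ce332.cx ce332.tb ce332.D ce332.bk = true :=
  chkTb_node (by decide +kernel) (by decide +kernel) (by decide +kernel)

theorem okz332 : plainZ ce332.cx ce332.tb ce332.pl [] = some z0332 := by decide +kernel

theorem oks332 : famsV ce332.cx ce332.tb ce332.fams = some sv332 := by decide +kernel

theorem okc332 : chkCases ce332 z0332 sv332 ce332.cases = true := by decide +kernel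

theorem okv332 : ce332.cov 3 = true := by decide +kernel

theorem ok332 : (ce332.chk && ce332.cov 3) = true :=
  Cert.ok_of (Cert.chk_of okt332 (by decide) okz332 oks332 okc332) okv332

end Pool.Agent.Lib.MP_b4a71d_al.Eng
end
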