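import Pool.Agent.Lib.MP_b4a71d_al.Level
import Pool.Agent.Lib.MP_b4a71d_al.K3alg
import Pool.Agent.Lib.MP_b4a71d_al.S.Main
import Pool.Agent.Lib.MP_b4a71d_al.Sym

section

section

/-!
# MP_b4a71d_al, finite check engine: soundness of the computations
-/

set_option autoImplicit false

namespace Pool.Agent.Lib.MP_b4a71d_al.Eng

universe u

noncomputable section

variable {F : Type u} [Field F]

/-! ### Trees and words in the free Lie algebra -/

/-- the Lie polynomial of a tree -/
def Tr.ev : Tr → FL F
  | .l i => X F i
  | .b s t => ⁅s.ev, t.ev⁆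

/-- brackets from the right with the letters of a word -/
def act : List ℕ → FL F → FL F
  | [], f => f
  | i :: w, f => act w ⁅f, X F i⁆

theorem act_append (u v : List ℕ) (f : FL F) : act (u ++ v) f = act v (act u f) := by
  induction u generalizing f with
  | nil => rfl
  | cons i u ih => exact ih _

theorem act_add (w : List ℕ) (f g : FL F) : act w (f + g) = act w f + act w g := by
  induction w generalizing f g with
  | nil => rfl
  | cons i w ih => rw [act, add_lie, ih]; rfl

theorem act_zero (w : List ℕ) : act w (0 : FL F) = 0 := by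
  induction w with
  | nil => rfl
  | cons i w ih => rw [act, zero_lie, ih]

theorem act_zsmul (w : List ℕ) (c : ℤ) (f : FL F) : act w (c • f) = c • act w f := by
  induction w generalizing f with
  | nil => rfl
  | cons i w ih => rw [act, zsmul_lie, ih]; rfl

theorem ren_act (g : ℕ → ℕ) (w : List ℕ) (f : FL F) : ren g (act w f) = act (w.map g) (ren g f) := by
  induction w generalizing f with
  | nil => rfl
  | cons i w ih => rw [act, ih, LieHom.map_lie, ren_X]; rfl

/-- value of a polynomial at `f` -/
def evP (f : FL F) : Po → FL F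
  | [] => 0
  | a :: p => a.1 • act a.2 f + evP f p

theorem evP_add (p : Po) (f g : FL F) : evP (f + g) p = evP f p + evP g p := by
  induction p with
  | nil => simp [evP]
  | cons a p ih => rw [evP, evP, evP, ih, act_add, smul_add]; abel

theorem evP_zero (p : Po) : evP (0 : FL F) p = 0 := by
  induction p with
  | nil => rfl
  | cons a p ih => rw [evP, ih, act_zero, smul_zero, add_zero]

theorem evP_zsmul (p : Po) (c : ℤ) (f : FL F) : evP (c • f) p = c • evP f p := by
  induction p with
  | nil => simp [evP]
  | cons a p ih => rw [evP, evP, ih, act_zsmul, smul_add, smul_comm]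

theorem evP_neg (p : Po) (f : FL F) : evP (-f) p = -evP f p := by
  have := evP_zsmul p (-1) f
  simpa using this

theorem eqW_eq {u v : List ℕ} (h : eqW u v = true) : u = v := by
  induction u generalizing v with
  | nil =>
    cases v with
    | nil => rfl
    | cons b v => simp [eqW] at h
  | cons a u ih =>
    cases v with
    | nil => simp [eqW] at h
    | cons b v =>
      cases hab : Nat.beq a b with
      | false => simp [eqW, hab] at h
      | true =>
        rw [Nat.eq_of_beq_eq_true hab, ih (v := v) (by simpa [eqW, hab] using h)]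

theorem evP_addW (f : FL F) (c : ℤ) (w : List ℕ) (p : Po) :
    evP f (addW c w p) = c • act w f + evP f p := by
  induction p with
  | nil => rfl
  | cons a p ih =>
    cases h : eqW a.2 w with
    | true =>
      rw [addW, h, cond_true, evP, evP, eqW_eq h, add_smul]
      abel
    | false =>
      rw [addW, h, cond_false, evP, evP, ih]
      abel

theorem evP_mulW (f : FL F) (c : ℤ) (u : List ℕ) (q acc : Po) :
    evP f (mulW c u q acc) = c • evP (act u f) q + evP f acc := by
  induction q with
  | nil => simp [mulW, evP]
  | cons b q ih =>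
    rw [mulW, evP_addW, ih, evP, act_append, smul_add, mul_smul]
    abel

theorem evP_mulP (f : FL F) (c : ℤ) (p q acc : Po) :
    evP f (mulP c p q acc) = c • evP (evP f p) q + evP f acc := by
  induction p with
  | nil => simp [mulP, evP, evP_zero]
  | cons a p ih =>
    rw [mulP, evP_mulW, ih, evP, evP_add, evP_zsmul, smul_add, mul_smul]
    abel

theorem evP_mulN (f : FL F) (c : ℤ) (p q acc : Po) :
    evP f (mulN c p q acc) = c • evP (evP f p) q + evP f acc := by
  induction p with
  | nil => simp [mulN, evP, evP_zero]
  | cons a p ih =>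
    have key : ∀ (q r : Po), evP f (q.foldr (fun b r => (c * a.1 * b.1, a.2 ++ b.2) :: r) r) =
        (c * a.1) • evP (act a.2 f) q + evP f r := by
      intro q r
      induction q with
      | nil => simp [evP]
      | cons b q ih2 =>
        rw [List.foldr_cons, evP, ih2, evP, act_append, smul_add, mul_smul (c * a.1) b.1]
        abel
    rw [mulN, key, ih, evP, evP_add, evP_zsmul, smul_add, mul_smul]
    abel

theorem asp_ev (t : Tr) (f : FL F) : evP f t.asp = ⁅f, t.ev⁆ := by
  induction t generalizing f with
  | l i => simp [Tr.asp, evP, Tr.ev, act]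
  | b s t ihs iht =>
    rw [Tr.asp, evP_mulP, evP_mulP, ihs, iht, iht, ihs, Tr.ev, leibniz_lie f s.ev t.ev,
      ← lie_skew s.ev ⁅f, t.ev⁆]
    simp only [evP, add_zero, one_smul, neg_smul]

theorem cnt_zero_or {s t : Tr} (h : (Tr.b s t).cnt = 1) :
    (s.cnt = 1 ∧ t.cnt = 0) ∨ (s.cnt = 0 ∧ t.cnt = 1) := by
  rw [Tr.cnt] at h
  omega

theorem exz_ev (t : Tr) (h : t.cnt = 1) : evP (X F 1) t.exz = t.ev := by
  induction t with
  | l i =>
    have hi : i = 1 := by
      cases h1 : Nat.beq i 1 with
      | true => exact Nat.eq_of_beq_eq_true h1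
      | false => simp [Tr.cnt, h1] at h
    subst hi
    simp [Tr.exz, evP, act, Tr.ev]
  | b s t ihs iht =>
    rw [Tr.exz]
    cases h1 : Nat.beq s.cnt 1 with
    | true =>
      rw [cond_true, evP_mulN, ihs (Nat.eq_of_beq_eq_true h1), asp_ev, Tr.ev]
      simp [evP]
    | false =>
      have h2 : t.cnt = 1 := by
        rcases cnt_zero_or h with h3 | h3
        · rw [h3.1] at h1
          exact absurd h1 (by decide)
        · exact h3.2
      rw [cond_false, evP_mulN, iht h2, asp_ev, Tr.ev, ← lie_skew]
      simp [evP]

theorem ev_mp (g : ℕ → ℕ) (t : Tr) : (t.mp g).ev = ren g (t.ev : FL F) := by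
  induction t with
  | l i => rw [Tr.mp, Tr.ev, Tr.ev, ren_X]
  | b s t ihs iht => rw [Tr.mp, Tr.ev, Tr.ev, ihs, iht, LieHom.map_lie]

/-- value of a combination of trees -/
def evC : Cb → FL F
  | [] => 0
  | a :: p => a.1 • a.2.ev + evC p

theorem evC_append (p q : Cb) : (evC (p ++ q) : FL F) = evC p + evC q := by
  induction p with
  | nil => simp [evC]
  | cons a p ih => rw [List.cons_append, evC, evC, ih, add_assoc]

theorem swp_eq (a m i : ℕ) : swp a m i = Equiv.swap a m i := by
  unfold swp
  cases h1 : Nat.beq i a with
  | true => rw [cond_true, Nat.eq_of_beq_eq_true h1, Equiv.swap_apply_left]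
  | false =>
    rw [cond_false]
    have hia : i ≠ a := Nat.ne_of_beq_eq_false h1
    cases h2 : Nat.beq i m with
    | true => rw [cond_true, Nat.eq_of_beq_eq_true h2, Equiv.swap_apply_right]
    | false =>
      rw [cond_false, Equiv.swap_apply_of_ne_of_ne hia (Nat.ne_of_beq_eq_false h2)]

theorem swp_fun (a m : ℕ) : swp a m = (Equiv.swap a m : ℕ → ℕ) := funext (swp_eq a m)

/-- the sign of a group -/
def sg (alt : Bool) : F := if alt then -1 else 1

/-! ### Functionals -/

variable (φ : FL F →ₗ[F] F)

/-- the value at the word `w` -/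
def G (w : List ℕ) : F := φ (act w (X F 1))

/-- Equivariance under the groups. -/
def Eqv (gs : List Grp) : Prop :=
  ∀ g ∈ gs, 2 ≤ g.1 ∧ ∀ a m, g.1 ≤ a → a < g.2.1 → g.1 ≤ m → m < g.2.1 → a ≠ m →
    ∀ f : FL F, φ (ren (Equiv.swap a m) f) = sg g.2.2 * φ f

variable {φ}

theorem findG_mem {gs : List Grp} {a : ℕ} {g : Grp} (h : findG gs a = some g) :
    g ∈ gs ∧ g.1 ≤ a ∧ a < g.2.1 := by
  induction gs with
  | nil => simp [findG] at h
  | cons g' gs ih =>
    rw [findG] at h
    cases h1 : (Nat.ble g'.1 a && Nat.ble (a + 1) g'.2.1) with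
    | true =>
      rw [h1, cond_true, Option.some.injEq] at h
      subst h
      rw [Bool.and_eq_true, Nat.ble_eq, Nat.ble_eq] at h1
      exact ⟨List.mem_cons_self, h1.1, h1.2⟩
    | false =>
      rw [h1, cond_false] at h
      obtain ⟨h2, h3⟩ := ih h
      exact ⟨List.mem_cons_of_mem _ h2, h3⟩

theorem G_swp {gs : List Grp} (hφ : Eqv φ gs) {g : Grp} (hg : g ∈ gs) {a m : ℕ}
    (h1 : g.1 ≤ a) (h2 : a < g.2.1) (h3 : g.1 ≤ m) (h4 : m < g.2.1) (ham : a ≠ m)
    (w : List ℕ) : G φ (w.map (swp a m)) = sg g.2.2 * G φ w := by
  have h5 := hφ g hg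
  rw [G, G, ← h5.2 a m h1 h2 h3 h4 ham, ren_act, ren_X, swp_fun,
    Equiv.swap_apply_of_ne_of_ne (by omega) (by omega)]

theorem sg_mul_sg (alt : Bool) : (sg alt * sg alt : F) = 1 := by
  cases alt <;> simp [sg]

theorem sg_xor (s alt : Bool) : (sg (xor s alt) : F) = sg s * sg alt := by
  cases s <;> cases alt <;> simp [sg]

theorem norm_G {gs : List Grp} (hφ : Eqv φ gs) (n : ℕ) (pre suf : List ℕ) (s : Bool)
    {s' : Bool} {v : List ℕ} (h : norm gs n pre suf s = some (s', v)) :
    sg s * G φ (pre ++ suf) = sg s' * G φ v := by
  induction n generalizing pre suf s with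
  | zero =>
    cases suf with
    | nil =>
      simp only [norm, Option.some.injEq, Prod.mk.injEq] at h
      rw [h.1, h.2, List.append_nil]
    | cons a suf => simp [norm] at h
  | succ n ih =>
    cases suf with
    | nil =>
      simp only [norm, Option.some.injEq, Prod.mk.injEq] at h
      rw [h.1, h.2, List.append_nil]
    | cons a suf =>
      rw [norm] at h
      cases hf : findG gs a with
      | none =>
        rw [hf] at h
        have := ih _ _ _ h
        rwa [List.append_assoc, List.singleton_append] at this
      | some g =>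
        obtain ⟨st, e, alt⟩ := g
        rw [hf] at h
        obtain ⟨hg, h1, h2⟩ := findG_mem hf
        dsimp only at h h1 h2
        cases h3 : Nat.beq (st + cntG st e pre) a with
        | true =>
          rw [h3, cond_true] at h
          have := ih _ _ _ h
          rwa [List.append_assoc, List.singleton_append] at this
        | false =>
          rw [h3, cond_false] at h
          cases h4 : Nat.ble (st + cntG st e pre + 1) e with
          | false => rw [h4, cond_false] at h; simp at h
          | true =>
            rw [h4, cond_true] at h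
            rw [Nat.ble_eq] at h4
            have h5 := ih _ _ _ h
            have h6 := G_swp hφ hg (a := a) (m := st + cntG st e pre) h1 h2 (by omega)
              (by dsimp only; omega) (Ne.symm (Nat.ne_of_beq_eq_false h3)) (pre ++ a :: suf)
            have h7 : (pre ++ a :: suf).map (swp a (st + cntG st e pre)) =
                pre.map (swp a (st + cntG st e pre)) ++ [st + cntG st e pre] ++
                  suf.map (swp a (st + cntG st e pre)) := by
              rw [List.map_append, List.map_cons, swp_eq, Equiv.swap_apply_left]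
              simp
            rw [← h5, sg_xor, ← h7, h6]
            dsimp only
            rw [mul_assoc, ← mul_assoc (sg alt) (sg alt), sg_mul_sg, one_mul]

/-- value of a row -/
def rowV (φ : FL F →ₗ[F] F) (n : ℕ) : Row → F
  | [] => 0
  | a :: r => (a.1 : F) * G φ (dec n a.2 []) + rowV φ n r

theorem rowV_addC (n : ℕ) (c : ℤ) (k : ℕ) (r : Row) :
    rowV φ n (addC c k r) = (c : F) * G φ (dec n k []) + rowV φ n r := by
  induction r with
  | nil => rfl
  | cons a r ih =>
    rw [addC]
    cases h : Nat.beq a.2 k with
    | true =>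
      rw [cond_true, rowV, rowV, Nat.eq_of_beq_eq_true h]
      push_cast
      ring
    | false =>
      rw [cond_false, rowV, rowV, ih]
      ring

theorem rowV_addT {gs : List Grp} (hφ : Eqv φ gs) {n : ℕ} {c : ℤ} {w : List ℕ} {r r' : Row}
    (h : addT gs n c w r = some r') : rowV φ n r' = (c : F) * G φ w + rowV φ n r := by
  rw [addT] at h
  cases h1 : norm gs n [] w false with
  | none => rw [h1] at h; simp at h
  | some x =>
    obtain ⟨s, v⟩ := x
    rw [h1] at h
    dsimp only at h
    cases h2 : eqW (dec n (code v 1) []) v with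
    | false => rw [h2, cond_false] at h; simp at h
    | true =>
      rw [h2, cond_true, Option.some.injEq] at h
      rw [← h, rowV_addC, eqW_eq h2]
      have h3 := norm_G hφ n [] w false h1
      have h4 : G φ w = sg s * G φ v := by
        rw [← h3]
        simp [sg]
      rw [h4]
      cases s
      · simp [sg]
      · simp [sg]

theorem rowV_addPo {gs : List Grp} (hφ : Eqv φ gs) {n : ℕ} {c : ℤ} {p : Po} {r r' : Row}
    (h : addPo gs n c p r = some r') :
    rowV φ n r' = (c : F) * φ (evP (X F 1) p) + rowV φ n r := by
  induction p generalizing r' with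
  | nil =>
    rw [addPo, Option.some.injEq] at h
    subst h
    simp [evP]
  | cons a p ih =>
    rw [addPo] at h
    cases h1 : addPo gs n c p r with
    | none => rw [h1] at h; simp at h
    | some r1 =>
      rw [h1] at h
      dsimp only at h
      rw [rowV_addT hφ h, ih h1, evP, map_add, map_zsmul, G]
      push_cast
      rw [zsmul_eq_mul]
      ring

theorem rowV_rowC {gs : List Grp} (hφ : Eqv φ gs) {n : ℕ} {p : Cb} {r : Row}
    (h : rowC gs n p = some r) : rowV φ n r = φ (evC p) := by
  induction p generalizing r with
  | nil =>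
    rw [rowC, Option.some.injEq] at h
    subst h
    simp [evC, rowV]
  | cons a p ih =>
    rw [rowC] at h
    cases h0 : Nat.beq a.2.cnt 1 with
    | false => rw [h0, cond_false] at h; simp at h
    | true =>
      rw [h0, cond_true] at h
      cases h1 : rowC gs n p with
      | none => rw [h1] at h; simp at h
      | some r1 =>
        rw [h1] at h
        dsimp only at h
        rw [rowV_addPo hφ h, ih h1, evC, map_add, map_zsmul, exz_ev _ (Nat.eq_of_beq_eq_true h0),
          zsmul_eq_mul]

end

end Pool.Agent.Lib.MP_b4a71d_al.Eng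
end

section

/-!
# MP_b4a71d_al, finite check engine: soundness of tables and of the elimination
-/

set_option autoImplicit false

namespace Pool.Agent.Lib.MP_b4a71d_al.Eng

universe u

noncomputable section

variable {F : Type u} [Field F]

/-! ### Vectors -/

def dot (g : ℕ → F) : List ℤ → F
  | [] => 0
  | a :: v => (a : F) * g 0 + dot (fun i => g (i + 1)) v

theorem dot_addV (g : ℕ → F) (c : ℤ) (v u : List ℤ) :
    dot g (addV c v u) = (c : F) * dot g v + dot g u := by
  induction v generalizing g u with
  | nil => simp [addV, dot]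
  | cons a v ih =>
    cases u with
    | nil =>
      simp only [addV, dot, ih]
      push_cast
      ring
    | cons b u =>
      simp only [addV, dot, ih]
      push_cast
      ring

theorem isZ_iff {c : ℤ} : isZ c = true ↔ c = 0 := by
  cases c with
  | ofNat n =>
    rw [isZ]
    constructor
    · intro h
      rw [Nat.eq_of_beq_eq_true h]
      rfl
    · intro h
      have : n = 0 := by
        have := Int.ofNat.inj (h.trans Int.ofNat_zero.symm)
        exact this
      rw [this]
      rfl
  | negSucc n =>
    rw [isZ]
    constructor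
    · intro h
      exact absurd h (by decide)
    · intro h
      exact absurd h (Int.negSucc_ne_zero n)

theorem allZ_dot (g : ℕ → F) {v : List ℤ} (h : allZ v = true) : dot g v = 0 := by
  induction v generalizing g with
  | nil => rfl
  | cons a v ih =>
    rw [allZ, Bool.and_eq_true] at h
    rw [dot, ih _ h.2, isZ_iff.1 h.1]
    simp

theorem dot_unitV (g : ℕ → F) (D : ℤ) (n : ℕ) : dot g (unitV D n) = (D : F) * g n := by
  induction n generalizing g with
  | zero => simp [unitV, dot]
  | succ n ih => rw [unitV, dot, ih]; simp

theorem dot_zero (v : List ℤ) (g : ℕ → F) (h : ∀ i, g i = 0) : dot g v = 0 := by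
  induction v generalizing g with
  | nil => rfl
  | cons a v ih => rw [dot, h 0, ih _ (fun i => h (i + 1))]; simp

theorem dot_smulV (g : ℕ → F) (p : ℤ) (v : List ℤ) : dot g (smulV p v) = (p : F) * dot g v := by
  induction v generalizing g with
  | nil => simp [smulV, dot]
  | cons x v ih =>
    simp only [smulV, dot, ih]
    push_cast
    ring

theorem dot_lcV (g : ℕ → F) (p a : ℤ) (v r : List ℤ) :
    dot g (lcV p a v r) = (p : F) * dot g v - (a : F) * dot g r := by
  rw [lcV, dot_addV, dot_smulV]
  push_cast
  ring

/-! ### Tables -/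

def Tb.Mem (x : Ent) : Tb → Prop
  | .e => False
  | .n a y b => a.Mem x ∨ x = y ∨ b.Mem x

theorem Tb.find_mem {t : Tb} {k : ℕ} {x : Ent} (h : t.find k = some x) : t.Mem x ∧ x.key = k := by
  induction t with
  | e => simp [Tb.find] at h
  | n a y b iha ihb =>
    rw [Tb.find] at h
    cases h1 : Nat.beq k y.key with
    | true =>
      rw [h1, cond_true, Option.some.injEq] at h
      subst h
      exact ⟨Or.inr (Or.inl rfl), (Nat.eq_of_beq_eq_true h1).symm⟩
    | false =>
      rw [h1, cond_false] at h
      cases h2 : Nat.ble k y.key with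
      | true =>
        rw [h2, cond_true] at h
        exact ⟨Or.inl (iha h).1, (iha h).2⟩
      | false =>
        rw [h2, cond_false] at h
        exact ⟨Or.inr (Or.inr (ihb h).1), (ihb h).2⟩

theorem Tb.all_mem {t : Tb} {p : Ent → Bool} (h : t.all p = true) {x : Ent} (hx : t.Mem x) :
    p x = true := by
  induction t with
  | e => exact hx.elim
  | n a y b iha ihb =>
    rw [Tb.all, Bool.and_eq_true, Bool.and_eq_true] at h
    rcases hx with hx | rfl | hx
    · exact iha h.2.1 hx
    · exact h.1
    · exact ihb h.2.2 hx

variable {φ : FL F →ₗ[F] F}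

theorem vecR_dot {tb : Tb} {n : ℕ} {g : ℕ → F}
    (htb : ∀ x, tb.Mem x → G φ (dec n x.key []) = dot g x.v) {r : Row} {acc v : List ℤ}
    (h : vecR tb r acc = some v) : dot g v = rowV φ n r + dot g acc := by
  induction r generalizing acc with
  | nil =>
    rw [vecR, Option.some.injEq] at h
    subst h
    simp [rowV]
  | cons a r ih =>
    rw [vecR] at h
    cases h1 : isZ a.1 with
    | true =>
      rw [h1, cond_true] at h
      rw [ih h, rowV, isZ_iff.1 h1]
      simp
    | false =>
      rw [h1, cond_false] at h
      cases h2 : tb.find a.2 with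
      | none => rw [h2] at h; simp at h
      | some x =>
        rw [h2] at h
        obtain ⟨hx, hk⟩ := Tb.find_mem h2
        rw [ih h, rowV, dot_addV, ← htb x hx, hk]
        ring

theorem pivR_dot {tb : Tb} {n key rk : ℕ} {g : ℕ → F}
    (htb : ∀ x, tb.Mem x → x.rk < rk → G φ (dec n x.key []) = dot g x.v) {r : Row} {c c' : ℤ}
    {acc v : List ℤ} (h : pivR tb key rk r c acc = some (c', v)) :
    (c' : F) * G φ (dec n key []) + dot g v =
      (c : F) * G φ (dec n key []) + rowV φ n r + dot g acc := by
  induction r generalizing c acc with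
  | nil =>
    rw [pivR, Option.some.injEq, Prod.mk.injEq] at h
    obtain ⟨rfl, rfl⟩ := h
    simp [rowV]
  | cons a r ih =>
    rw [pivR] at h
    cases h1 : isZ a.1 with
    | true =>
      rw [h1, cond_true] at h
      rw [ih h, rowV, isZ_iff.1 h1]
      simp
    | false =>
      rw [h1, cond_false] at h
      cases h2 : Nat.beq a.2 key with
      | true =>
        rw [h2, cond_true] at h
        rw [ih h, rowV, Nat.eq_of_beq_eq_true h2]
        push_cast
        ring
      | false =>
        rw [h2, cond_false] at h
        cases h3 : tb.find a.2 with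
        | none => rw [h3] at h; simp at h
        | some x =>
          rw [h3] at h
          dsimp only at h
          cases h4 : Nat.ble (x.rk + 1) rk with
          | false => rw [h4, cond_false] at h; simp at h
          | true =>
            rw [h4, cond_true] at h
            obtain ⟨hx, hk⟩ := Tb.find_mem h3
            rw [ih h, rowV, dot_addV, ← htb x hx (Nat.ble_eq.mp h4), hk]
            ring

theorem memN_iff {a : ℕ} {w : List ℕ} : memN a w = true ↔ a ∈ w := by
  induction w with
  | nil => simp [memN]
  | cons b w ih =>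
    rw [memN, List.mem_cons]
    cases h : Nat.beq a b with
    | true => simp [Nat.eq_of_beq_eq_true h]
    | false => simp [ih, Nat.ne_of_beq_eq_false h]

theorem getL_mem {α : Type*} {l : List α} {i : ℕ} {x : α} (h : getL l i = some x) : x ∈ l := by
  induction l generalizing i with
  | nil => simp [getL] at h
  | cons a l ih =>
    cases i with
    | zero =>
      rw [getL, Option.some.injEq] at h
      rw [h]
      exact List.mem_cons_self
    | succ i => exact List.mem_cons_of_mem _ (ih h)

/-! ### The functionals of a type -/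

/-- `φ` is a functional of the type `cx`. -/
structure TypeOK (cx : Cx) (φ : FL F →ₗ[F] F) : Prop where
  eqv : Eqv φ cx.gs
  der : ∀ j, 1 ≤ j → j ≤ cx.k → ∀ f, φ (D j f) = 0
  sym : ∀ j, cx.zg.1 ≤ j → j < cx.zg.2.1 → ∀ f, φ (ren (Equiv.swap 1 j) f) = sg cx.zg.2.2 * φ f
  low : ∀ l ∈ cx.lows, ∀ j ∈ l.2.1, ∀ f,
    φ f + sg l.2.2 * (l.1.map (fun m => φ (ren (Equiv.swap m j) f))).sum = 0

theorem evC_map_one (l : List Tr) : (evC (l.map (fun t => ((1 : ℤ), t))) : FL F) =
    (l.map (Tr.ev (F := F))).sum := by
  induction l with
  | nil => rfl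
  | cons t l ih => rw [List.map_cons, evC, ih, List.map_cons, List.sum_cons, one_smul]

theorem ev_der (j : ℕ) (t : Tr) : ((t.der j).map (Tr.ev (F := F))).sum = D j t.ev := by
  induction t with
  | l i =>
    rw [Tr.der]
    cases h : Nat.beq i 0 with
    | true =>
      rw [Nat.eq_of_beq_eq_true h, cond_true, Tr.ev, D, dd_X_same]
      simp [Tr.ev]
    | false =>
      rw [cond_false, Tr.ev, D, dd_X_ne (Nat.ne_of_beq_eq_false h)]
      simp
  | b s t ihs iht =>
    have h1 : ∀ l : List Tr, ((l.map (fun s' => Tr.b s' t)).map (Tr.ev (F := F))).sum =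
        ⁅(l.map (Tr.ev (F := F))).sum, (t.ev : FL F)⁆ := by
      intro l
      induction l with
      | nil => simp
      | cons a l ih => simp only [List.map_cons, List.sum_cons, ih, add_lie, Tr.ev]
    have h2 : ∀ l : List Tr, ((l.map (fun t' => Tr.b s t')).map (Tr.ev (F := F))).sum =
        ⁅(s.ev : FL F), (l.map (Tr.ev (F := F))).sum⁆ := by
      intro l
      induction l with
      | nil => simp
      | cons a l ih => simp only [List.map_cons, List.sum_cons, ih, lie_add, Tr.ev]
    rw [Tr.der, List.map_append, List.sum_append, h1, h2, ihs, iht, Tr.ev, D, dd_lie, add_comm]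

theorem specCb_zero {cx : Cx} (hφ : TypeOK cx φ) {s : Spec} {cb : Cb}
    (h : specCb cx s = some cb) : φ (evC cb) = 0 := by
  cases s with
  | bas i => simp [specCb] at h
  | lam j i w =>
    rw [specCb] at h
    cases h1 : (Nat.ble 1 j && Nat.ble j cx.k) with
    | false => rw [h1, cond_false] at h; simp at h
    | true =>
      rw [h1, cond_true, Option.some.injEq] at h
      rw [Bool.and_eq_true, Nat.ble_eq, Nat.ble_eq] at h1
      rw [← h, evC_map_one, ev_der]
      exact hφ.der j h1.1 h1.2 _
  | sym j w =>
    rw [specCb] at h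
    cases h1 : (Nat.ble cx.zg.1 j && Nat.ble (j + 1) cx.zg.2.1) with
    | false => rw [h1, cond_false] at h; simp at h
    | true =>
      rw [h1, cond_true, Option.some.injEq] at h
      rw [Bool.and_eq_true, Nat.ble_eq, Nat.ble_eq] at h1
      rw [← h]
      simp only [evC, add_zero, one_smul, map_add, ev_mp, swp_fun]
      rw [hφ.sym j h1.1 h1.2, map_zsmul]
      cases cx.zg.2.2
      · simp [sg]
      · simp [sg]
  | low i j w =>
    rw [specCb] at h
    cases h1 : getL cx.lows i with
    | none => rw [h1] at h; simp at h
    | some l =>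
      obtain ⟨mem, js, alt⟩ := l
      rw [h1] at h
      dsimp only at h
      cases h2 : memN j js with
      | false => rw [h2, cond_false] at h; simp at h
      | true =>
        rw [h2, cond_true, Option.some.injEq] at h
        have h3 := hφ.low _ (getL_mem h1) j (memN_iff.1 h2) (lnT (.l 1) w).ev
        dsimp only at h3
        rw [← h, evC, map_add, one_smul]
        convert h3 using 2
        have key : ∀ mem : List ℕ, φ (evC (mem.map (fun m => ((bif alt then (-1 : ℤ) else 1),
            (lnT (.l 1) w).mp (swp m j))))) =
            sg alt * (mem.map (fun m => φ (ren (Equiv.swap m j) (lnT (.l 1) w).ev))).sum := by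
          intro mem
          induction mem with
          | nil => simp [evC]
          | cons m mem ih =>
            rw [List.map_cons, evC, map_add, ih, List.map_cons, List.sum_cons, mul_add, map_zsmul,
              ev_mp, swp_fun]
            cases alt <;> simp [sg]
        exact key mem

/-- the basic values -/
def gB (φ : FL F →ₗ[F] F) (n : ℕ) (D : ℤ) (bk : List ℕ) (i : ℕ) : F :=
  match getL bk i with
  | none => 0
  | some k => G φ (dec n k []) / (D : F)

variable [CharZero F]

theorem chkTb_sound {cx : Cx} (hφ : TypeOK cx φ) {tb : Tb} {D : ℤ} (hD : D ≠ 0) {bk : List ℕ}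
    (h : chkTb cx tb D bk = true) :
    ∀ x, tb.Mem x → G φ (dec cx.n x.key []) = dot (gB φ cx.n D bk) x.v := by
  have main : ∀ r : ℕ, ∀ x, tb.Mem x → x.rk = r →
      G φ (dec cx.n x.key []) = dot (gB φ cx.n D bk) x.v := by
    intro r
    induction r using Nat.strong_induction_on with
    | _ r ih =>
      intro x hx hr
      have h1 := Tb.all_mem h hx
      have hlt : ∀ y, tb.Mem y → y.rk < x.rk →
          G φ (dec cx.n y.key []) = dot (gB φ cx.n D bk) y.v := by
        intro y hy hyr
        exact ih y.rk (hr ▸ hyr) y hy rfl
      have gen : ∀ cb : Cb, specCb cx x.sp = some cb →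
          (match rowC cx.gs cx.n cb with
            | none => false
            | some r =>
              match pivR tb x.key x.rk r 0 [] with
              | none => false
              | some (c, acc) => !(isZ c) && allZ (addV c x.v acc)) = true →
          G φ (dec cx.n x.key []) = dot (gB φ cx.n D bk) x.v := by
        intro cb hcb h2
        cases h3 : rowC cx.gs cx.n cb with
        | none => rw [h3] at h2; simp at h2
        | some r' =>
          rw [h3] at h2
          dsimp only at h2
          cases h4 : pivR tb x.key x.rk r' 0 [] with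
          | none => rw [h4] at h2; simp at h2
          | some y =>
            obtain ⟨c, acc⟩ := y
            rw [h4] at h2
            dsimp only at h2
            rw [Bool.and_eq_true] at h2
            have h5 := pivR_dot (φ := φ) (n := cx.n) (g := gB φ cx.n D bk) hlt h4
            rw [rowV_rowC hφ.eqv h3, specCb_zero hφ hcb] at h5
            have h6 := allZ_dot (gB φ cx.n D bk) h2.2
            rw [dot_addV] at h6
            have hc : (c : F) ≠ 0 := by
              have hc0 : c ≠ 0 := by
                intro hc0
                rw [isZ_iff.2 hc0] at h2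
                exact absurd h2.1 (by decide)
              exact_mod_cast hc0
            simp only [Int.cast_zero, zero_mul, add_zero, dot] at h5
            have h7 : (c : F) * (G φ (dec cx.n x.key []) - dot (gB φ cx.n D bk) x.v) = 0 := by
              linear_combination h5 - h6
            rcases mul_eq_zero.1 h7 with h8 | h8
            · exact absurd h8 hc
            · exact sub_eq_zero.1 h8
      rw [chkE] at h1
      cases hsp : x.sp with
      | bas i =>
        rw [hsp] at h1
        dsimp only at h1
        cases h2 : getL bk i with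
        | none => rw [h2] at h1; simp at h1
        | some k =>
          rw [h2] at h1
          dsimp only at h1
          rw [Bool.and_eq_true] at h1
          have h3 := allZ_dot (gB φ cx.n D bk) h1.2
          have hD' : (D : F) ≠ 0 := by exact_mod_cast hD
          have h4 : (D : F) * gB φ cx.n D bk i = G φ (dec cx.n k []) := by
            rw [gB, h2]
            field_simp
          rw [dot_addV, dot_unitV, h4, Nat.eq_of_beq_eq_true h1.1] at h3
          push_cast at h3
          linear_combination h3
      | lam j i w =>
        rw [hsp] at h1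
        dsimp only at h1
        cases h2 : specCb cx (.lam j i w) with
        | none => rw [h2] at h1; simp at h1
        | some cb => rw [h2] at h1; exact gen cb (by rw [hsp, h2]) h1
      | sym j w =>
        rw [hsp] at h1
        dsimp only at h1
        cases h2 : specCb cx (.sym j w) with
        | none => rw [h2] at h1; simp at h1
        | some cb => rw [h2] at h1; exact gen cb (by rw [hsp, h2]) h1
      | low i j w =>
        rw [hsp] at h1
        dsimp only at h1
        cases h2 : specCb cx (.low i j w) with
        | none => rw [h2] at h1; simp at h1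
        | some cb => rw [h2] at h1; exact gen cb (by rw [hsp, h2]) h1
  intro x hx
  exact main x.rk x hx rfl

end

end Pool.Agent.Lib.MP_b4a71d_al.Eng
end
end

section

section

/-!
# MP_b4a71d_al, finite check engine: soundness of the elimination, the main theorem
-/

set_option autoImplicit false
set_option linter.unusedSectionVars false

namespace Pool.Agent.Lib.MP_b4a71d_al.Eng

universe u

noncomputable section

variable {F : Type u} [Field F] [CharZero F]

/-! ### Reduction of vectors -/

/-- all rows vanish at `g` and have nonzero pivots -/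
def ZOK (g : ℕ → F) (Z : Zs) : Prop := ∀ z ∈ Z, dot g z.2 = 0 ∧ getZ z.2 z.1 ≠ 0

theorem nrmV_dot (g : ℕ → F) (v : List ℤ) : ∃ p : ℤ, p ≠ 0 ∧ dot g v = (p : F) * dot g (nrmV v) := by
  rw [nrmV]
  dsimp only
  cases h1 : Nat.ble (gcdV v 0) 1 with
  | true => exact ⟨1, one_ne_zero, by simp⟩
  | false =>
    rw [cond_false]
    cases h2 : allZ (addV (-(gcdV v 0 : ℤ)) (v.map (divI (gcdV v 0))) v) with
    | false => exact ⟨1, one_ne_zero, by simp⟩
    | true =>
      rw [cond_true]
      refine ⟨gcdV v 0, ?_, ?_⟩
      · intro h
        have h3 : gcdV v 0 = 0 := by exact_mod_cast h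
        rw [h3] at h1
        exact absurd h1 (by decide)
      · have h3 := allZ_dot g h2
        rw [dot_addV] at h3
        push_cast at h3 ⊢
        linear_combination h3

theorem red_dot {g : ℕ → F} {Z : Zs} (hZ : ZOK g Z) (v : List ℤ) :
    ∃ p q : ℤ, p ≠ 0 ∧ q ≠ 0 ∧ (p : F) * dot g (red Z v) = (q : F) * dot g v := by
  induction Z generalizing v with
  | nil => exact ⟨1, 1, one_ne_zero, one_ne_zero, rfl⟩
  | cons z Z ih =>
    have hZ' : ZOK g Z := fun y hy => hZ y (List.mem_cons_of_mem _ hy)
    obtain ⟨hz0, hz1⟩ := hZ z List.mem_cons_self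
    rw [red]
    cases h1 : isZ (getZ v z.1) with
    | true => exact ih hZ' v
    | false =>
      rw [cond_false]
      obtain ⟨p, q, hp, hq, h2⟩ := ih hZ' (nrmV (lcV (getZ z.2 z.1) (getZ v z.1) v z.2))
      obtain ⟨r, hr, h3⟩ := nrmV_dot g (lcV (getZ z.2 z.1) (getZ v z.1) v z.2)
      rw [dot_lcV, hz0, mul_zero, sub_zero] at h3
      refine ⟨r * p, q * getZ z.2 z.1, mul_ne_zero hr hp, mul_ne_zero hq hz1, ?_⟩
      push_cast
      rw [mul_assoc, h2, mul_assoc (q : F), h3]
      ring

theorem red_zero_iff {g : ℕ → F} {Z : Zs} (hZ : ZOK g Z) (v : List ℤ) :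
    dot g (red Z v) = 0 ↔ dot g v = 0 := by
  obtain ⟨p, q, hp, hq, h⟩ := red_dot hZ v
  have hp' : (p : F) ≠ 0 := by exact_mod_cast hp
  have hq' : (q : F) ≠ 0 := by exact_mod_cast hq
  constructor
  · intro h1
    rw [h1, mul_zero] at h
    exact (mul_eq_zero.1 h.symm).resolve_left hq'
  · intro h1
    rw [h1, mul_zero] at h
    exact (mul_eq_zero.1 h).resolve_left hp'

theorem fstNZ_spec {v : List ℤ} {i c : ℕ} (h : fstNZ v i = some c) :
    i ≤ c ∧ getZ v (c - i) ≠ 0 := by
  induction v generalizing i with
  | nil => simp [fstNZ] at h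
  | cons a v ih =>
    rw [fstNZ] at h
    cases h1 : isZ a with
    | true =>
      rw [h1, cond_true] at h
      obtain ⟨h2, h3⟩ := ih h
      refine ⟨by omega, ?_⟩
      have h4 : c - i = (c - (i + 1)) + 1 := by omega
      rw [h4, getZ]
      exact h3
    | false =>
      rw [h1, cond_false, Option.some.injEq] at h
      subst h
      refine ⟨le_rfl, ?_⟩
      rw [Nat.sub_self, getZ]
      intro h2
      rw [isZ_iff.2 h2] at h1
      exact absurd h1 (by decide)

theorem insZ_ok {g : ℕ → F} {Z : Zs} (hZ : ZOK g Z) {v : List ℤ} (hv : dot g v = 0) :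
    ZOK g (insZ Z v) := by
  rw [insZ]
  cases h : fstNZ (red Z v) 0 with
  | none => exact hZ
  | some c =>
    dsimp only
    intro z hz
    rcases List.mem_append.1 hz with hz | hz
    · exact hZ z hz
    · rw [List.mem_singleton] at hz
      subst hz
      exact ⟨(red_zero_iff hZ v).2 hv, by simpa using (fstNZ_spec h).2⟩

/-! ### Operations -/

/-- The vectors of the operations have the values `β_c ψ_j`. -/
def OpsOK (g : ℕ → F) (β : ℕ → F) : List (List (List ℤ)) → List F → Prop
  | [], [] => True
  | s :: S, p :: ψ => (∀ c v, getL s c = some v → dot g v = β c * p) ∧ OpsOK g β S ψ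
  | _, _ => False

def lsum : List ℤ → List F → F
  | a :: l, p :: ψ => (a : F) * p + lsum l ψ
  | _, _ => 0

theorem cmbV_dot {g : ℕ → F} {β : ℕ → F} {c : ℕ} {l : List ℤ} {S : List (List (List ℤ))}
    {ψ : List F} (h : OpsOK g β S ψ) {acc v : List ℤ} (hv : cmbV c l S acc = some v) :
    dot g v = β c * lsum l ψ + dot g acc := by
  induction l generalizing S ψ acc with
  | nil =>
    rw [cmbV, Option.some.injEq] at hv
    rw [hv]
    simp [lsum]
  | cons a l ih =>
    cases S with
    | nil => simp [cmbV] at hv
    | cons s S =>
      cases ψ with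
      | nil => exact h.elim
      | cons p ψ =>
        rw [cmbV] at hv
        cases h1 : isZ a with
        | true =>
          rw [h1, cond_true] at hv
          rw [ih h.2 hv, lsum, isZ_iff.1 h1]
          simp
        | false =>
          rw [h1, cond_false] at hv
          cases h2 : getL s c with
          | none => rw [h2] at hv; simp at hv
          | some w =>
            rw [h2] at hv
            rw [ih h.2 hv, lsum, dot_addV, h.1 c w h2]
            ring

/-- The families with some knowledge: their operations have the values `β_c ψ_j`. -/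
def FamsOK (g : ℕ → F) (kn : Kn) (B : List (ℕ → F)) (SS : List (List (List (List ℤ)))) : Prop :=
  ∀ f x S, getL kn f = some x → x ≠ ([], []) → getL SS f = some S →
    ∃ β, getL B f = some β ∧ ∃ ψ, OpsOK g β S ψ

/-- the knowledge is true -/
def KnOK (B : List (ℕ → F)) (kn : Kn) : Prop :=
  ∀ f x, getL kn f = some x → ∀ β, getL B f = some β → (∀ c ∈ x.1, β c = 0) ∧ ∀ c ∈ x.2, β c ≠ 0

theorem stepZ_ok {g : ℕ → F} {B : List (ℕ → F)} {SS : List (List (List (List ℤ)))}
    {kn : Kn} (hS : FamsOK g kn B SS) (hk : KnOK B kn) {Z Z' : Zs} (hZ : ZOK g Z) {s : St}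
    (h : stepZ kn SS Z s = some Z') : ZOK g Z' := by
  cases s with
  | zr f c l =>
    rw [stepZ] at h
    cases h1 : getL kn f with
    | none => rw [h1] at h; simp at h
    | some x =>
      obtain ⟨ze, nz⟩ := x
      cases h2 : getL SS f with
      | none => rw [h1, h2] at h; simp at h
      | some Sf =>
        rw [h1, h2] at h
        dsimp only at h
        cases h3 : memN c ze with
        | false => rw [h3, cond_false] at h; simp at h
        | true =>
          rw [h3, cond_true] at h
          cases h4 : cmbV c l Sf [] with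
          | none => rw [h4] at h; simp at h
          | some v =>
            rw [h4] at h
            dsimp only at h
            rw [Option.some.injEq] at h
            rw [← h]
            have hne : ((ze, nz) : List ℕ × List ℕ) ≠ ([], []) := by
              intro h9
              rw [Prod.mk.injEq] at h9
              rw [h9.1] at h3
              exact absurd h3 (by simp [memN])
            obtain ⟨β, hβ, ψ, hψ⟩ := hS f _ _ h1 hne h2
            apply insZ_ok hZ
            rw [cmbV_dot hψ h4, (hk f _ h1 β hβ).1 c (memN_iff.1 h3)]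
            simp [dot]
  | cm f c l c' =>
    rw [stepZ] at h
    cases h1 : getL kn f with
    | none => rw [h1] at h; simp at h
    | some x =>
      obtain ⟨ze, nz⟩ := x
      cases h2 : getL SS f with
      | none => rw [h1, h2] at h; simp at h
      | some Sf =>
        rw [h1, h2] at h
        dsimp only at h
        cases h3 : memN c nz with
        | false => rw [h3, cond_false] at h; simp at h
        | true =>
          rw [h3, cond_true] at h
          cases h4 : cmbV c l Sf [] with
          | none => rw [h4] at h; simp at h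
          | some v =>
            rw [h4] at h
            dsimp only at h
            cases h5 : allZ (red Z v) with
            | false => rw [h5, cond_false] at h; simp at h
            | true =>
              rw [h5, cond_true] at h
              cases h6 : cmbV c' l Sf [] with
              | none => rw [h6] at h; simp at h
              | some v' =>
                rw [h6] at h
                dsimp only at h
                rw [Option.some.injEq] at h
                rw [← h]
                have hne : ((ze, nz) : List ℕ × List ℕ) ≠ ([], []) := by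
                  intro h9
                  rw [Prod.mk.injEq] at h9
                  rw [h9.2] at h3
                  exact absurd h3 (by simp [memN])
                obtain ⟨β, hβ, ψ, hψ⟩ := hS f _ _ h1 hne h2
                have h7 := (red_zero_iff hZ v).1 (allZ_dot g h5)
                rw [cmbV_dot hψ h4, dot, add_zero] at h7
                have h8 := (mul_eq_zero.1 h7).resolve_left ((hk f _ h1 β hβ).2 c (memN_iff.1 h3))
                apply insZ_ok hZ
                rw [cmbV_dot hψ h6, h8]
                simp [dot]

theorem runZ_ok {g : ℕ → F} {B : List (ℕ → F)} {SS : List (List (List (List ℤ)))}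
    {kn : Kn} (hS : FamsOK g kn B SS) (hk : KnOK B kn) {Z Z' : Zs} (hZ : ZOK g Z) {ss : List St}
    (h : runZ kn SS ss Z = some Z') : ZOK g Z' := by
  induction ss generalizing Z with
  | nil =>
    rw [runZ, Option.some.injEq] at h
    rw [← h]
    exact hZ
  | cons s ss ih =>
    rw [runZ] at h
    cases h1 : stepZ kn SS Z s with
    | none => rw [h1] at h; simp at h
    | some Z1 =>
      rw [h1] at h
      exact ih (stepZ_ok hS hk hZ h1) h

theorem allN_mem {n : ℕ} {l : List ℕ} (h : allN n l = true) : ∀ i, i < n → i ∈ l := by
  induction n with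
  | zero => intro i hi; omega
  | succ n ih =>
    rw [allN, Bool.and_eq_true] at h
    intro i hi
    rcases Nat.lt_succ_iff_lt_or_eq.1 hi with hi | rfl
    · exact ih h.2 i hi
    · exact memN_iff.1 h.1

theorem zeroOff_get {done : List ℕ} {v : List ℤ} {i : ℕ} (h : zeroOff done v i = true) :
    ∀ j, i + j ∉ done → getZ v j = 0 := by
  induction v generalizing i with
  | nil => intro j _; rfl
  | cons a v ih =>
    rw [zeroOff, Bool.and_eq_true, Bool.or_eq_true] at h
    intro j hj
    cases j with
    | zero =>
      rw [getZ]
      rcases h.1 with h1 | h1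
      · exact isZ_iff.1 h1
      · exact absurd (memN_iff.1 h1) hj
    | succ j =>
      rw [getZ]
      apply ih h.2 j
      rwa [add_assoc, add_comm 1 j]

theorem dot_single {g : ℕ → F} {v : List ℤ} {c : ℕ} (h : ∀ j, j ≠ c → g j = 0 ∨ getZ v j = 0) :
    dot g v = (getZ v c : F) * g c := by
  induction v generalizing g c with
  | nil => simp [dot, getZ]
  | cons a v ih =>
    rw [dot]
    cases c with
    | zero =>
      have h1 : dot (fun i => g (i + 1)) v = 0 := by
        have : ∀ j, getZ v j = 0 ∨ g (j + 1) = 0 := by
          intro j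
          rcases h (j + 1) (by omega) with h2 | h2
          · exact Or.inr h2
          · exact Or.inl h2
        clear ih h
        induction v generalizing g with
        | nil => rfl
        | cons b v ih2 =>
          rw [dot, ih2 (g := fun i => g (i + 1)) (fun j => this (j + 1))]
          rcases this 0 with h2 | h2
          · rw [getZ] at h2
            rw [h2]
            simp
          · simp [h2]
      rw [h1, getZ]
      simp
    | succ c =>
      rw [ih (g := fun i => g (i + 1)) (c := c) (fun j hj => by
        rcases h (j + 1) (by omega) with h2 | h2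
        · exact Or.inl h2
        · exact Or.inr h2), getZ]
      rcases h 0 (by omega) with h2 | h2
      · simp [h2]
      · rw [getZ] at h2
        rw [h2]
        simp

theorem triZ_zero {g : ℕ → F} {n : ℕ} {Z : Zs} (hZ : ZOK g Z) {done : List ℕ}
    (hd : ∀ i ∈ done, g i = 0) (h : triZ n Z done = true) : ∀ i, i < n → g i = 0 := by
  induction Z generalizing done with
  | nil =>
    rw [triZ] at h
    exact fun i hi => hd i (allN_mem h i hi)
  | cons z Z ih =>
    rw [triZ, Bool.and_eq_true, Bool.and_eq_true] at h
    obtain ⟨h1, h2, h3⟩ := h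
    have hz := hZ z List.mem_cons_self
    refine ih (fun y hy => hZ y (List.mem_cons_of_mem _ hy)) ?_ h3
    have hc : g z.1 = 0 := by
      have h4 := dot_single (g := g) (v := z.2) (c := z.1) (fun j hj => by
        by_cases hjd : j ∈ done
        · exact Or.inl (hd j hjd)
        · right
          apply zeroOff_get h2 j
          rw [zero_add, List.mem_cons, not_or]
          exact ⟨hj, hjd⟩)
      rw [hz.1] at h4
      have h5 : ((getZ z.2 z.1 : ℤ) : F) ≠ 0 := by exact_mod_cast hz.2
      exact (mul_eq_zero.1 h4.symm).resolve_left h5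
    intro i hi
    rcases List.mem_cons.1 hi with rfl | hi
    · exact hc
    · exact hd i hi

variable {φ : FL F →ₗ[F] F}

theorem vecC_dot {cx : Cx} (hφ : TypeOK cx φ) {tb : Tb} {g : ℕ → F}
    (htb : ∀ x, tb.Mem x → G φ (dec cx.n x.key []) = dot g x.v) {cb : Cb} {v : List ℤ}
    (h : vecC cx tb cb = some v) : dot g v = φ (evC cb) := by
  rw [vecC] at h
  cases h1 : rowC cx.gs cx.n cb with
  | none => rw [h1] at h; simp at h
  | some r =>
    rw [h1] at h
    rw [vecR_dot htb h, rowV_rowC hφ.eqv h1]
    simp [dot]

theorem plainZ_ok {cx : Cx} (hφ : TypeOK cx φ) {tb : Tb} {g : ℕ → F}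
    (htb : ∀ x, tb.Mem x → G φ (dec cx.n x.key []) = dot g x.v) {ss : List Spec} {Z Z' : Zs}
    (hZ : ZOK g Z) (h : plainZ cx tb ss Z = some Z') : ZOK g Z' := by
  induction ss generalizing Z with
  | nil =>
    rw [plainZ, Option.some.injEq] at h
    rw [← h]
    exact hZ
  | cons s ss ih =>
    rw [plainZ] at h
    cases h1 : specCb cx s with
    | none => rw [h1] at h; simp at h
    | some cb =>
      rw [h1] at h
      dsimp only at h
      cases h2 : vecC cx tb cb with
      | none => rw [h2] at h; simp at h
      | some v =>
        rw [h2] at h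
        dsimp only at h
        refine ih (insZ_ok hZ ?_) h
        rw [vecC_dot hφ htb h2, specCb_zero hφ h1]

theorem extraZ_ok {cx : Cx} (hφ : TypeOK cx φ) {tb : Tb} {g : ℕ → F}
    (htb : ∀ x, tb.Mem x → G φ (dec cx.n x.key []) = dot g x.v) {ss : List Cb}
    (hss : ∀ cb ∈ ss, φ (evC cb) = 0) {Z Z' : Zs}
    (hZ : ZOK g Z) (h : extraZ cx tb ss Z = some Z') : ZOK g Z' := by
  induction ss generalizing Z with
  | nil =>
    rw [extraZ, Option.some.injEq] at h
    rw [← h]
    exact hZ
  | cons cb ss ih =>
    rw [extraZ] at h
    cases h2 : vecC cx tb cb with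
    | none => rw [h2] at h; simp at h
    | some v =>
      rw [h2] at h
      dsimp only at h
      refine ih (fun cb hcb => hss cb (List.mem_cons_of_mem _ hcb)) (insZ_ok hZ ?_) h
      rw [vecC_dot hφ htb h2, hss cb List.mem_cons_self]

/-! ### The operations and the T-ideal -/

theorem brT_ev (t : Tr) (w : List Tr) :
    ((brT t w).ev : FL F) = w.foldl (fun (f : FL F) (s : Tr) => ⁅f, (s.ev : FL F)⁆) t.ev := by
  induction w generalizing t with
  | nil => rfl
  | cons s w ih => rw [brT, ih, List.foldl_cons]; rfl

theorem sub_ev (g : ℕ → Tr) (t : Tr) :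
    ((t.sub g).ev : FL F) = FreeLieAlgebra.lift F (fun i => ((g i).ev : FL F)) t.ev := by
  induction t with
  | l i => rw [Tr.sub, Tr.ev, FreeLieAlgebra.lift_of_apply]
  | b s t ihs iht => rw [Tr.sub, Tr.ev, Tr.ev, LieHom.map_lie, ihs, iht]

theorem evC_derCb (j : ℕ) (p : Cb) : (evC (derCb j p) : FL F) = D j (evC p) := by
  induction p with
  | nil => rw [derCb, evC, map_zero]
  | cons a p ih =>
    have h : ∀ l : List Tr, (evC (l.map (fun t => (a.1, t))) : FL F) =
        a.1 • (l.map (Tr.ev (F := F))).sum := by
      intro l
      induction l with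
      | nil => simp [evC]
      | cons t l ih => rw [List.map_cons, evC, ih, List.map_cons, List.sum_cons, smul_add]
    rw [derCb, evC_append, h, ih, ev_der, evC, map_add, map_zsmul]

/-- The derivations of an operation. -/
def dF : ℕ → List Tr → FL F → FL F
  | _, [], f => f
  | m, _ :: l, f => dF (m + 1) l (D m f)

theorem dF_add (l : List Tr) (m : ℕ) (f g : FL F) : dF m l (f + g) = dF m l f + dF m l g := by
  induction l generalizing m f g with
  | nil => rfl
  | cons a l ih => rw [dF, map_add, ih]; rfl

theorem dF_smul (l : List Tr) (m : ℕ) (c : F) (f : FL F) : dF m l (c • f) = c • dF m l f := by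
  induction l generalizing m f with
  | nil => rfl
  | cons a l ih => rw [dF, map_smul, ih]; rfl

theorem dF_mem {T : Submodule F (FL F)} (hT : IsTIdeal F T) (l : List Tr) (m : ℕ) {f : FL F}
    (hf : f ∈ T) : dF m l f ∈ T := by
  induction l generalizing m f with
  | nil => exact hf
  | cons a l ih => exact ih (m + 1) (hT.dd_mem 0 m hf)

theorem evC_derCbs (l : List Tr) (m : ℕ) (p : Cb) :
    (evC (derCbs m l p) : FL F) = dF m l (evC p) := by
  induction l generalizing m p with
  | nil => rfl
  | cons a l ih => rw [derCbs, ih, evC_derCb, dF]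

/-- The operation on the free Lie algebra. -/
def opF (o : Op) (f : FL F) : FL F :=
  o.br.foldl (fun f s => ⁅f, s.ev⁆) (FreeLieAlgebra.lift F (fun i => ((sbF o.a o.sb i).ev : FL F))
    (dF 9 o.a f))

theorem foldl_add (w : List Tr) (f g : FL F) :
    w.foldl (fun f s => ⁅f, s.ev⁆) (f + g) =
      w.foldl (fun f s => ⁅f, s.ev⁆) f + w.foldl (fun f s => ⁅f, s.ev⁆) g := by
  induction w generalizing f g with
  | nil => rfl
  | cons s w ih => rw [List.foldl_cons, add_lie, ih]; rfl

theorem foldl_smul (w : List Tr) (c : F) (f : FL F) :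
    w.foldl (fun f s => ⁅f, s.ev⁆) (c • f) = c • w.foldl (fun f s => ⁅f, s.ev⁆) f := by
  induction w generalizing f with
  | nil => rfl
  | cons s w ih => rw [List.foldl_cons, smul_lie, ih]; rfl

theorem opF_add (o : Op) (f g : FL F) : opF o (f + g) = opF o f + opF o g := by
  rw [opF, dF_add, map_add, foldl_add]
  rfl

theorem opF_smul (o : Op) (c : F) (f : FL F) : opF o (c • f) = c • opF o f := by
  rw [opF, dF_smul, map_smul, foldl_smul]
  rfl

theorem opF_sub (o : Op) (f g : FL F) : opF o (f - g) = opF o f - opF o g := by
  rw [sub_eq_add_neg, ← neg_one_smul F g, opF_add, opF_smul, neg_one_smul, ← sub_eq_add_neg]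

theorem opF_mem {T : Submodule F (FL F)} (hT : IsTIdeal F T) (o : Op) {f : FL F} (hf : f ∈ T) :
    opF o f ∈ T := by
  have key : ∀ (w : List Tr) (f : FL F), f ∈ T → w.foldl (fun f s => ⁅f, s.ev⁆) f ∈ T := by
    intro w
    induction w with
    | nil => intro f hf; exact hf
    | cons s w ih => intro f hf; exact ih _ (hT.lie_mem f hf _)
  rw [opF]
  apply key
  apply hT.map_mem
  exact dF_mem hT _ _ hf

theorem opCb_ev (o : Op) (p : Cb) : (evC (opCb o p) : FL F) = opF o (evC p) := by
  have key : ∀ p : Cb, (evC (p.map (fun (x : ℤ × Tr) => (x.1, brT (x.2.sub (sbF o.a o.sb)) o.br))) :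
      FL F) = o.br.foldl (fun f s => ⁅f, s.ev⁆)
        (FreeLieAlgebra.lift F (fun i => ((sbF o.a o.sb i).ev : FL F)) (evC p)) := by
    intro p
    induction p with
    | nil =>
      rw [List.map_nil, evC, map_zero]
      have := foldl_smul o.br (0 : F) (0 : FL F)
      rw [zero_smul, zero_smul] at this
      exact this.symm
    | cons a p ih =>
      rw [List.map_cons, evC, ih, evC, map_add, foldl_add, brT_ev, sub_ev, map_zsmul]
      congr 1
      rw [← Int.cast_smul_eq_zsmul F, ← Int.cast_smul_eq_zsmul F, foldl_smul]
  rw [opCb, key, opF, evC_derCbs]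

/-- A family of relations in `T`: the components `hs` are proportional modulo `T`, with
coefficients `β`. -/
def FamT (T : Submodule F (FL F)) (hs : List Cb) (β : ℕ → F) : Prop :=
  (∃ c, (getL hs c).isSome ∧ β c ≠ 0) ∧
    ∀ c c' H H', getL hs c = some H → getL hs c' = some H' → β c' • evC H - β c • evC H' ∈ T

theorem opV_get {cx : Cx} (hφ : TypeOK cx φ) {tb : Tb} {g : ℕ → F}
    (htb : ∀ x, tb.Mem x → G φ (dec cx.n x.key []) = dot g x.v) {o : Op} {hs : List Cb}
    {s : List (List ℤ)} (h : opV cx tb o hs = some s) {c : ℕ} {v : List ℤ}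
    (hv : getL s c = some v) : ∃ H, getL hs c = some H ∧ dot g v = φ (evC (opCb o H)) := by
  induction hs generalizing s c with
  | nil =>
    rw [opV, Option.some.injEq] at h
    subst h
    simp [getL] at hv
  | cons H hs ih =>
    rw [opV] at h
    cases h1 : vecC cx tb (opCb o H) with
    | none => rw [h1] at h; simp at h
    | some w =>
      rw [h1] at h
      dsimp only at h
      cases h2 : opV cx tb o hs with
      | none => rw [h2] at h; simp at h
      | some ws =>
        rw [h2] at h
        dsimp only at h
        rw [Option.some.injEq] at h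
        subst h
        cases c with
        | zero =>
          rw [getL, Option.some.injEq] at hv
          subst hv
          exact ⟨H, rfl, vecC_dot hφ htb h1⟩
        | succ c => exact ih h2 hv

theorem opsV_ok {cx : Cx} (hφ : TypeOK cx φ) {tb : Tb} {g : ℕ → F}
    (htb : ∀ x, tb.Mem x → G φ (dec cx.n x.key []) = dot g x.v) {T : Submodule F (FL F)}
    (hT : IsTIdeal F T) (hφT : ∀ f ∈ T, φ f = 0) {hs : List Cb} {β : ℕ → F} (hβ : FamT T hs β)
    {os : List Op} {S : List (List (List ℤ))} (h : opsV cx tb hs os = some S) :
    ∃ ψ, OpsOK g β S ψ := by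
  induction os generalizing S with
  | nil =>
    rw [opsV, Option.some.injEq] at h
    subst h
    exact ⟨[], trivial⟩
  | cons o os ih =>
    rw [opsV] at h
    cases h1 : opV cx tb o hs with
    | none => rw [h1] at h; simp at h
    | some s =>
      rw [h1] at h
      dsimp only at h
      cases h2 : opsV cx tb hs os with
      | none => rw [h2] at h; simp at h
      | some S' =>
        rw [h2] at h
        dsimp only at h
        rw [Option.some.injEq] at h
        subst h
        obtain ⟨ψ, hψ⟩ := ih h2
        obtain ⟨⟨c0, hc0, hβ0⟩, hrel⟩ := hβ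
        obtain ⟨H0, hH0⟩ := Option.isSome_iff_exists.1 hc0
        refine ⟨(φ (evC (opCb o H0)) / β c0) :: ψ, ?_, hψ⟩
        intro c v hv
        obtain ⟨H, hH, hd⟩ := opV_get hφ htb h1 hv
        rw [hd]
        have h3 := hφT _ (opF_mem hT o (hrel c c0 H H0 hH hH0))
        rw [opF_sub, opF_smul, opF_smul, ← opCb_ev, ← opCb_ev, map_sub, map_smul, map_smul,
          smul_eq_mul, smul_eq_mul] at h3
        field_simp
        linear_combination h3

/-- the families of `T` -/
def FamsT (T : Submodule F (FL F)) : List (List Cb × List Op) → List (ℕ → F) → Prop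
  | [], [] => True
  | f :: fs, β :: B => FamT T f.1 β ∧ FamsT T fs B
  | _, _ => False

theorem FamsT.get {T : Submodule F (FL F)} {fs : List (List Cb × List Op)} {B : List (ℕ → F)}
    (h : FamsT T fs B) {f : ℕ} {fm : List Cb × List Op} (hf : getL fs f = some fm) :
    ∃ β, getL B f = some β ∧ FamT T fm.1 β := by
  induction fs generalizing B f with
  | nil => simp [getL] at hf
  | cons f' fs ih =>
    cases B with
    | nil => exact h.elim
    | cons β B =>
      cases f with
      | zero =>
        rw [getL, Option.some.injEq] at hf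
        subst hf
        exact ⟨β, rfl, h.1⟩
      | succ f => exact ih h.2 hf

/-- The families with some knowledge are families of relations of `T`. -/
def FamsW (T : Submodule F (FL F)) (kn : Kn) (fs : List (List Cb × List Op))
    (B : List (ℕ → F)) : Prop :=
  ∀ f x fm, getL kn f = some x → x ≠ ([], []) → getL fs f = some fm →
    ∃ β, getL B f = some β ∧ FamT T fm.1 β

theorem FamsT.weak {T : Submodule F (FL F)} {fs : List (List Cb × List Op)} {B : List (ℕ → F)}
    (h : FamsT T fs B) (kn : Kn) : FamsW T kn fs B := fun _ _ _ _ _ hf => h.get hf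

theorem famsV_get {cx : Cx} {tb : Tb} {fs : List (List Cb × List Op)}
    {SS : List (List (List (List ℤ)))} (h : famsV cx tb fs = some SS) {f : ℕ}
    {S : List (List (List ℤ))} (hS : getL SS f = some S) :
    ∃ fm, getL fs f = some fm ∧ opsV cx tb fm.1 fm.2 = some S := by
  induction fs generalizing SS f with
  | nil =>
    rw [famsV, Option.some.injEq] at h
    subst h
    simp [getL] at hS
  | cons f' fs ih =>
    rw [famsV] at h
    cases h1 : opsV cx tb f'.1 f'.2 with
    | none => rw [h1] at h; simp at h
    | some S1 =>
      rw [h1] at h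
      dsimp only at h
      cases h2 : famsV cx tb fs with
      | none => rw [h2] at h; simp at h
      | some SS1 =>
        rw [h2] at h
        dsimp only at h
        rw [Option.some.injEq] at h
        subst h
        cases f with
        | zero =>
          rw [getL, Option.some.injEq] at hS
          subst hS
          exact ⟨f', rfl, h1⟩
        | succ f => exact ih h2 hS

theorem famsV_ok {cx : Cx} (hφ : TypeOK cx φ) {tb : Tb} {g : ℕ → F}
    (htb : ∀ x, tb.Mem x → G φ (dec cx.n x.key []) = dot g x.v) {T : Submodule F (FL F)}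
    (hT : IsTIdeal F T) (hφT : ∀ f ∈ T, φ f = 0) {fs : List (List Cb × List Op)}
    {B : List (ℕ → F)} {kn : Kn} (hB : FamsW T kn fs B) {SS : List (List (List (List ℤ)))}
    (h : famsV cx tb fs = some SS) : FamsOK g kn B SS := by
  intro f x S hx hne hS
  obtain ⟨fm, hfm, h1⟩ := famsV_get h hS
  obtain ⟨β, hβ, hF⟩ := hB f x fm hx hne hfm
  exact ⟨β, hβ, opsV_ok hφ htb hT hφT hF h1⟩

theorem chkCases_mem {c : Cert} {Z0 : Zs} {S : List (List (List (List ℤ)))}
    {xs : List (Kn × List Cb × List St)} (h : chkCases c Z0 S xs = true)
    {x : Kn × List Cb × List St} (hx : x ∈ xs) : chkCase c Z0 S x = true := by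
  induction xs with
  | nil => simp at hx
  | cons y xs ih =>
    rw [chkCases, Bool.and_eq_true] at h
    rcases List.mem_cons.1 hx with rfl | hx
    · exact h.1
    · exact ih h.2 hx

/-- Main theorem of the engine: the values of `φ` at all words of the table are zero. -/
theorem Cert.table_zero {c : Cert} (hc : c.chk = true) (hφ : TypeOK c.cx φ)
    {T : Submodule F (FL F)} (hT : IsTIdeal F T) (hφT : ∀ f ∈ T, φ f = 0) {B : List (ℕ → F)}
    {x : Kn × List Cb × List St} (hB : FamsW T x.1 c.fams B) (hx : x ∈ c.cases)
    (hk : KnOK B x.1) (hex : ∀ cb ∈ x.2.1, φ (evC cb) = 0) :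
    ∀ y, c.tb.Mem y → G φ (dec c.cx.n y.key []) = 0 := by
  rw [Cert.chk, Bool.and_eq_true, Bool.and_eq_true] at hc
  obtain ⟨h1, h2, h3⟩ := hc
  have hD : c.D ≠ 0 := by
    intro h
    rw [isZ_iff.2 h] at h2
    exact absurd h2 (by decide)
  have htb := chkTb_sound hφ hD h1
  intro y hy
  rw [htb y hy]
  cases h4 : plainZ c.cx c.tb c.pl [] with
  | none => rw [h4] at h3; simp at h3
  | some Z0 =>
    rw [h4] at h3
    dsimp only at h3
    cases h5 : famsV c.cx c.tb c.fams with
    | none => rw [h5] at h3; simp at h3
    | some SS =>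
      rw [h5] at h3
      dsimp only at h3
      have hZ0 := plainZ_ok hφ htb (Z := []) (fun z hz => by simp at hz) h4
      have hSS := famsV_ok hφ htb hT hφT hB h5
      have h6 := chkCases_mem h3 hx
      rw [chkCase] at h6
      cases h7 : extraZ c.cx c.tb x.2.1 Z0 with
      | none => rw [h7] at h6; simp at h6
      | some Z1 =>
        rw [h7] at h6
        dsimp only at h6
        have hZ1 := extraZ_ok hφ htb hex hZ0 h7
        cases h8 : runZ x.1 SS x.2.2 Z1 with
        | none => rw [h8] at h6; simp at h6
        | some Z =>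
          rw [h8] at h6
          dsimp only at h6
          have hZ := runZ_ok hSS hk hZ1 h8
          have hZr : ZOK (gB φ c.cx.n c.D c.bk) Z.reverse :=
            fun z hz => hZ z (List.mem_reverse.1 hz)
          have h9 := triZ_zero hZr (fun i hi => absurd hi List.not_mem_nil) h6
          apply dot_zero
          intro i
          by_cases hi : i < c.bk.length
          · exact h9 i hi
          · have : getL c.bk i = none := by
              have gen : ∀ (l : List ℕ) (i : ℕ), l.length ≤ i → getL l i = none := by
                intro l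
                induction l with
                | nil => intro i _; rfl
                | cons a l ih =>
                  intro i hi
                  cases i with
                  | zero => simp at hi
                  | succ i => exact ih i (by simpa using hi)
              exact gen _ _ (not_lt.1 hi)
            rw [gB, this]

end

end Pool.Agent.Lib.MP_b4a71d_al.Eng
end

section

/-!
# MP_b4a71d_al, finite check engine: the table covers all words
-/

set_option autoImplicit false
set_option linter.unusedSectionVars false

namespace Pool.Agent.Lib.MP_b4a71d_al.Eng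

universe u

noncomputable section

variable {F : Type u} [Field F] {φ : FL F →ₗ[F] F}

theorem allL_mem {α : Type} {p : α → Bool} {l : List α} (h : allL p l = true) {a : α}
    (ha : a ∈ l) : p a = true := by
  induction l with
  | nil => simp at ha
  | cons b l ih =>
    rw [allL, Bool.and_eq_true] at h
    rcases List.mem_cons.1 ha with rfl | ha
    · exact h.1
    · exact ih h.2 ha

theorem eraseN_perm {a : ℕ} {l : List ℕ} (h : a ∈ l) : l.Perm (a :: eraseN a l) := by
  induction l with
  | nil => simp at h
  | cons b l ih =>
    rw [eraseN]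
    cases hab : Nat.beq a b with
    | true => rw [cond_true, Nat.eq_of_beq_eq_true hab]
    | false =>
      rw [cond_false]
      have hne := Nat.ne_of_beq_eq_false hab
      have h2 : a ∈ l := (List.mem_cons.1 h).resolve_left hne
      exact ((ih h2).cons b).trans (List.Perm.swap a b _)

theorem map_swp_of_notMem {a m : ℕ} {w : List ℕ} (ha : a ∉ w) (hm : m ∉ w) :
    w.map (swp a m) = w := by
  induction w with
  | nil => rfl
  | cons b w ih =>
    rw [List.mem_cons, not_or] at ha hm
    rw [List.map_cons, ih ha.2 hm.2, swp_eq,
      Equiv.swap_apply_of_ne_of_ne (Ne.symm ha.1) (Ne.symm hm.1)]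

theorem cov_zero {gs : List Grp} (hφ : Eqv φ gs) {n : ℕ} {tb : Tb}
    (htb : ∀ x, tb.Mem x → G φ (dec n x.key []) = 0) (N : ℕ) (pre : List ℕ) (d : ℕ)
    (ls : List ℕ) (hnd : ls.Nodup) (h0 : 0 ∉ ls) (hc : cov gs n tb N pre d ls = true)
    (hlen : N = d + ls.length)
    (suf : List ℕ) (hsuf : suf.Perm (List.replicate d 0 ++ ls)) : G φ (pre ++ suf) = 0 := by
  induction N generalizing pre d ls suf with
  | zero =>
    rw [cov, Bool.and_eq_true, Bool.and_eq_true] at hc
    have hd := Nat.eq_of_beq_eq_true hc.1
    have hl := Nat.eq_of_beq_eq_true hc.2.1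
    rw [List.length_eq_zero_iff] at hl
    subst hd hl
    simp only [List.replicate_zero, List.append_nil, List.perm_nil] at hsuf
    rw [hsuf, List.append_nil]
    have h1 := hc.2.2
    rw [inTb] at h1
    cases h2 : tb.find (code pre 1) with
    | none => rw [h2] at h1; simp at h1
    | some x =>
      rw [h2] at h1
      dsimp only at h1
      rw [← eqW_eq h1]
      exact htb x (Tb.find_mem h2).1
  | succ N ih =>
    unfold cov at hc
    rw [Bool.and_eq_true, Bool.and_eq_true] at hc
    obtain ⟨hc0, hc1, hc2⟩ := hc
    cases suf with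
    | nil =>
      have := hsuf.length_eq
      simp only [List.length_nil, List.length_append, List.length_replicate] at this
      omega
    | cons a suf =>
      have ha : a ∈ List.replicate d 0 ++ ls := hsuf.subset List.mem_cons_self
      rcases List.mem_append.1 ha with ha | ha
      · -- the letter `0`
        have ha0 := List.eq_of_mem_replicate ha
        subst ha0
        cases d with
        | zero => simp at ha
        | succ d =>
          dsimp only at hc0
          have h1 : suf.Perm (List.replicate d 0 ++ ls) := by
            rw [List.replicate_succ, List.cons_append] at hsuf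
            exact List.Perm.cons_inv hsuf
          have := ih (pre ++ [0]) d ls hnd h0 hc0 (by omega) suf h1
          rwa [List.append_assoc, List.singleton_append] at this
      · -- a letter of a group
        have h1 := allL_mem hc2 ha
        rw [okLetter] at h1
        cases hf : findG gs a with
        | none => rw [hf] at h1; simp at h1
        | some g =>
          rw [hf] at h1
          dsimp only at h1
          obtain ⟨hg, hga1, hga2⟩ := findG_mem hf
          rw [Bool.and_eq_true, Bool.and_eq_true, Bool.and_eq_true] at h1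
          obtain ⟨h2, h3, h4, h5⟩ := h1
          rw [memN_iff] at h3
          have h4' : g.1 + cntG g.1 g.2.1 pre ∉ pre := by
            intro h
            rw [memN_iff.2 h] at h4
            exact absurd h4 (by decide)
          have h5' : a ∉ pre := by
            intro h
            rw [memN_iff.2 h] at h5
            exact absurd h5 (by decide)
          have h6 := allL_mem hc1 hg
          rw [h2, cond_true] at h6
          rw [Nat.ble_eq] at h2
          set m := g.1 + cntG g.1 g.2.1 pre with hm
          have hnd' : (eraseN m ls).Nodup := by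
            have := (eraseN_perm h3).nodup hnd
            exact (List.nodup_cons.1 this).2
          have hmn : m ∉ eraseN m ls := by
            have := (eraseN_perm h3).nodup hnd
            exact (List.nodup_cons.1 this).1
          have h0' : 0 ∉ eraseN m ls := by
            intro h
            exact h0 ((eraseN_perm h3).symm.subset (List.mem_cons_of_mem _ h))
          have hlen' : N = d + (eraseN m ls).length := by
            have := (eraseN_perm h3).length_eq
            rw [List.length_cons] at this
            omega
          have key := ih (pre ++ [m]) d (eraseN m ls) hnd' h0' h6 hlen'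
          by_cases ham : a = m
          · rw [ham] at hsuf ⊢
            have h7 : suf.Perm (List.replicate d 0 ++ eraseN m ls) := by
              have h8 : (List.replicate d 0 ++ ls).Perm (m :: (List.replicate d 0 ++ eraseN m ls)) :=
                ((eraseN_perm h3).append_left _).trans List.perm_middle
              exact List.Perm.cons_inv (hsuf.trans h8)
            have := key suf h7
            rwa [List.append_assoc, List.singleton_append] at this
          · -- exchange `a` and `m`
            have h7 := G_swp hφ hg (a := a) (m := m) hga1 hga2 (by omega) (by omega) ham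
              (pre ++ a :: suf)
            have h8 : (pre ++ a :: suf).map (swp a m) = pre ++ m :: suf.map (swp a m) := by
              rw [List.map_append, map_swp_of_notMem h5' h4', List.map_cons, swp_eq,
                Equiv.swap_apply_left]
            have hae : a ∈ eraseN m ls := by
              have := (eraseN_perm h3).subset ha
              exact (List.mem_cons.1 this).resolve_left ham
            have h9 : (suf.map (swp a m)).Perm (List.replicate d 0 ++ eraseN m ls) := by
              -- `ls = a, m, r`
              obtain ⟨r, hr⟩ : ∃ r, (eraseN m ls).Perm (a :: r) := ⟨_, List.perm_cons_erase hae⟩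
              have hls : ls.Perm (m :: a :: r) := (eraseN_perm h3).trans (hr.cons m)
              have hnd2 := hls.nodup hnd
              have hmr : m ∉ r := fun h =>
                (List.nodup_cons.1 hnd2).1 (List.mem_cons_of_mem _ h)
              have har : a ∉ r := (List.nodup_cons.1 (List.nodup_cons.1 hnd2).2).1
              have hsuf2 : suf.Perm (List.replicate d 0 ++ m :: r) := by
                have h10 : (List.replicate d 0 ++ ls).Perm
                    (a :: (List.replicate d 0 ++ m :: r)) :=
                  ((hls.trans (List.Perm.swap a m r)).append_left _).trans List.perm_middle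
                exact List.Perm.cons_inv (hsuf.trans h10)
              have h11 := hsuf2.map (swp a m)
              rw [List.map_append, List.map_cons, map_swp_of_notMem har hmr, swp_eq,
                Equiv.swap_apply_right] at h11
              have h12 : (List.replicate d 0).map (swp a m) = List.replicate d 0 := by
                apply map_swp_of_notMem
                · intro h
                  rw [List.eq_of_mem_replicate h] at ha
                  exact h0 ha
                · intro h
                  rw [List.eq_of_mem_replicate h] at h3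
                  exact h0 h3
              rw [h12] at h11
              exact h11.trans (hr.symm.append_left _)
            have h10 := key _ h9
            rw [List.append_assoc, List.singleton_append, ← h8, h7] at h10
            rcases mul_eq_zero.1 h10 with h | h
            · exfalso
              have := sg_mul_sg (F := F) g.2.2
              rw [h, mul_zero] at this
              exact zero_ne_one this
            · exact h

theorem act_eq_lnm (w : List ℕ) (f : FL F) : act w f = lnm f w := by
  induction w generalizing f with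
  | nil => rfl
  | cons i w ih => rw [act, ih, lnm_cons]

/-- A functional which is zero on all words of the table is zero on `W k d`. -/
theorem Cert.zero_on_W {c : Cert} {d : ℕ} (hk : 1 ≤ c.cx.k) (hcov : c.cov d = true)
    (hφ : Eqv φ c.cx.gs) (htb : ∀ x, c.tb.Mem x → G φ (dec c.cx.n x.key []) = 0) :
    ∀ f ∈ W (F := F) c.cx.k d, φ f = 0 := by
  have h1 : 1 ∈ cont (Finset.Icc 1 c.cx.k) d := by
    rw [cont, Multiset.mem_add]
    exact Or.inr (Finset.mem_Icc.2 ⟨le_rfl, hk⟩)
  have hcont : cont (Finset.Icc 1 c.cx.k) d =
      1 ::ₘ ((List.replicate d 0 ++ List.range' 2 (c.cx.k - 1) : List ℕ) : Multiset ℕ) := by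
    rw [cont, ← Multiset.coe_add, ← Multiset.coe_replicate, ← Multiset.add_cons]
    congr 1
    have h2 : Finset.Icc 1 c.cx.k = insert 1 (Finset.Icc 2 c.cx.k) := by
      ext i
      simp only [Finset.mem_Icc, Finset.mem_insert]
      omega
    rw [h2, Finset.insert_val, Multiset.ndinsert_of_notMem (by simp)]
    have h3 : (Finset.Icc 2 c.cx.k) = (List.range' 2 (c.cx.k - 1)).toFinset := by
      ext i
      rw [Finset.mem_Icc, List.mem_toFinset, List.mem_range'_1]
      omega
    rw [h3, List.toFinset_val, List.dedup_eq_self.2 List.nodup_range']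
  intro f hf
  rw [W, WW, homC_eq_nSpan h1, NSpan] at hf
  induction hf using Submodule.span_induction with
  | mem f h =>
    obtain ⟨l, hl, rfl⟩ := h
    rw [hcont, Multiset.cons_inj_right, Multiset.coe_eq_coe] at hl
    have h2 := cov_zero hφ htb (d + (c.cx.k - 1)) [] d (List.range' 2 (c.cx.k - 1))
      List.nodup_range' (by rw [List.mem_range'_1]; omega) hcov (by rw [List.length_range']) l hl
    rwa [List.nil_append, G, act_eq_lnm] at h2
  | zero => exact map_zero φ
  | add a b _ _ h1 h2 => rw [map_add, h1, h2, add_zero]
  | smul c a _ h => rw [map_smul, h, smul_zero]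

end

end Pool.Agent.Lib.MP_b4a71d_al.Eng
end

section

/-!
# MP_b4a71d_al, finite check engine: functionals on `W k d` extended by zero
-/

set_option autoImplicit false
set_option linter.unusedSectionVars false

namespace Pool.Agent.Lib.MP_b4a71d_al.Eng

universe u

noncomputable section

variable {F : Type u} [Field F] [CharZero F]

/-- The functional `φ` on `W k d`, extended by zero to the other contents. -/
def ext (k d : ℕ) (φ : FL F →ₗ[F] F) : FL F →ₗ[F] F :=
  φ.comp (cmp (cont (Finset.Icc 1 k) d))

theorem ext_apply (k d : ℕ) (φ : FL F →ₗ[F] F) (f : FL F) :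
    ext k d φ f = φ (cmp (cont (Finset.Icc 1 k) d) f) := rfl

theorem ext_W {k d : ℕ} (φ : FL F →ₗ[F] F) {f : FL F} (hf : f ∈ W k d) : ext k d φ f = φ f := by
  rw [ext_apply, cmp_of_mem hf]

theorem cmp_W (k d : ℕ) (f : FL F) : cmp (cont (Finset.Icc 1 k) d) f ∈ W (F := F) k d :=
  cmp_mem _ _

theorem ext_T {k d : ℕ} {φ : FL F →ₗ[F] F} {T : Submodule F (FL F)} (hT : IsTIdeal F T)
    (h : ∀ w ∈ T, w ∈ W (F := F) k d → φ w = 0) {f : FL F} (hf : f ∈ T) : ext k d φ f = 0 :=
  h _ (hT.cmp_mem hf _) (cmp_W k d f)

theorem ext_D {k d : ℕ} {φ : FL F →ₗ[F] F}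
    (h : ∀ w ∈ Lam (F := F) (Finset.Icc 1 k) d, φ w = 0) {j : ℕ} (h1 : 1 ≤ j) (hk : j ≤ k)
    (f : FL F) : ext k d φ (D j f) = 0 := by
  have hj : j ∈ Finset.Icc 1 k := Finset.mem_Icc.2 ⟨h1, hk⟩
  have h0 : 0 ∉ Finset.Icc 1 k := by simp
  refine fl_induction (p := fun f => ext k d φ (D j f) = 0) ?_ ?_ f
  · intro s f hf
    by_cases hs : (0 : ℕ) ∈ s
    · have h2 := dd_mem 0 j hf
      by_cases hc : j ::ₘ s.erase 0 = cont (Finset.Icc 1 k) d
      · have h3 : s = cont ((Finset.Icc 1 k).erase j) (d + 1) := by
          rw [← cont_erase hj h0, ← hc, Multiset.erase_cons_head, Multiset.cons_erase hs]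
        rw [hc] at h2
        rw [ext_apply, D, cmp_of_mem h2]
        apply h
        rw [h3] at hf
        exact Submodule.mem_iSup_of_mem j (Submodule.mem_iSup_of_mem hj ⟨f, hf, rfl⟩)
      · rw [ext_apply, D, cmp_of_mem_ne h2 hc, map_zero]
    · rw [D, dd_eq_zero j hf hs, map_zero]
  · intro a b ha hb
    rw [map_add, map_add, ha, hb, add_zero]

theorem cmp_ren {k d : ℕ} {σ : Equiv.Perm ℕ} (hσ : ∀ i, i ∉ Finset.Icc 1 k → σ i = i)
    (f : FL F) : cmp (cont (Finset.Icc 1 k) d) (ren σ f) =
      ren σ (cmp (cont (Finset.Icc 1 k) d) f) := by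
  have h0 : σ 0 = 0 := hσ 0 (by simp)
  have hmap := cont_map σ h0 (image_eq_of_fix σ hσ) d
  refine fl_induction (p := fun f => cmp (cont (Finset.Icc 1 k) d) (ren σ f) =
      ren σ (cmp (cont (Finset.Icc 1 k) d) f)) ?_ ?_ f
  · intro s f hf
    by_cases hs : s = cont (Finset.Icc 1 k) d
    · subst hs
      have h2 := ren_mem (F := F) σ hf
      rw [hmap] at h2
      rw [cmp_of_mem hf, cmp_of_mem h2]
    · rw [cmp_of_mem_ne hf hs, cmp_of_mem_ne (ren_mem σ hf), map_zero]
      intro h
      apply hs
      apply Multiset.map_injective σ.injective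
      rw [h, hmap]
  · intro a b ha hb
    rw [map_add, map_add, ha, hb, map_add, map_add]

theorem ext_ren {k d : ℕ} (φ : FL F →ₗ[F] F) {σ : Equiv.Perm ℕ}
    (hσ : ∀ i, i ∉ Finset.Icc 1 k → σ i = i) (f : FL F) :
    ext k d φ (ren σ f) = φ (ren σ (cmp (cont (Finset.Icc 1 k) d) f)) := by
  rw [ext_apply, cmp_ren hσ]

theorem swap_fix {k a b : ℕ} (ha : a ∈ Finset.Icc 1 k) (hb : b ∈ Finset.Icc 1 k) :
    ∀ i, i ∉ Finset.Icc 1 k → (Equiv.swap a b) i = i := by
  intro i hi
  apply Equiv.swap_apply_of_ne_of_ne
  · rintro rfl
    exact hi ha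
  · rintro rfl
    exact hi hb

theorem swap_W {k d a b : ℕ} (ha : a ∈ Finset.Icc 1 k) (hb : b ∈ Finset.Icc 1 k) {f : FL F}
    (hf : f ∈ W k d) : ren (Equiv.swap a b) f ∈ W (F := F) k d :=
  ren_WW _ (swap_fix ha hb 0 (by simp)) (image_eq_of_fix _ (swap_fix ha hb)) hf

/-- `φ` is a functional of the level `(k, d)` modulo `T`. -/
structure LF (T : Submodule F (FL F)) (k d : ℕ) (φ : FL F →ₗ[F] F) : Prop where
  lam : ∀ w ∈ Lam (F := F) (Finset.Icc 1 k) d, φ w = 0
  ideal : ∀ w ∈ T, w ∈ W (F := F) k d → φ w = 0

/-- `φ` is (anti)symmetric (`alt = true`: antisymmetric) under the exchange of `a` and `b`. -/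
def EqvW (k d : ℕ) (φ : FL F →ₗ[F] F) (a b : ℕ) (alt : Bool) : Prop :=
  ∀ w ∈ W (F := F) k d, φ (ren (Equiv.swap a b) w) = sg alt * φ w

theorem LF.ren {T : Submodule F (FL F)} (hT : IsTIdeal F T) {k d : ℕ} {φ : FL F →ₗ[F] F}
    (h : LF T k d φ) {σ : Equiv.Perm ℕ} (hσ : ∀ i, i ∉ Finset.Icc 1 k → σ i = i) :
    LF T k d (φ.comp (MP_b4a71d_al.ren (F := F) σ).toLinearMap) where
  lam w hw := h.lam _ (stab_Lam (by simp) d σ hσ w hw)
  ideal w hw hw2 := h.ideal _ (hT.map_mem _ _ hw)
    (ren_WW σ (hσ 0 (by simp)) (image_eq_of_fix σ hσ) hw2)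

theorem LF.add {T : Submodule F (FL F)} {k d : ℕ} {φ ψ : FL F →ₗ[F] F}
    (h : LF T k d φ) (h' : LF T k d ψ) : LF T k d (φ + ψ) where
  lam w hw := by rw [LinearMap.add_apply, h.lam w hw, h'.lam w hw, add_zero]
  ideal w hw hw2 := by rw [LinearMap.add_apply, h.ideal w hw hw2, h'.ideal w hw hw2, add_zero]

theorem LF.smul {T : Submodule F (FL F)} {k d : ℕ} {φ : FL F →ₗ[F] F}
    (h : LF T k d φ) (c : F) : LF T k d (c • φ) where
  lam w hw := by rw [LinearMap.smul_apply, h.lam w hw, smul_zero]
  ideal w hw hw2 := by rw [LinearMap.smul_apply, h.ideal w hw hw2, smul_zero]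

/-- Conditions on the groups of a type. -/
structure GrpOK (cx : Cx) (d : ℕ) (φ : FL F →ₗ[F] F) : Prop where
  gs : ∀ g ∈ cx.gs, 2 ≤ g.1 ∧ g.2.1 ≤ cx.k + 1 ∧ ∀ a m, g.1 ≤ a → a < g.2.1 → g.1 ≤ m →
    m < g.2.1 → a ≠ m → EqvW cx.k d φ a m g.2.2
  zg : ∀ j, cx.zg.1 ≤ j → j < cx.zg.2.1 → 1 ≤ j ∧ j ≤ cx.k ∧ EqvW cx.k d φ 1 j cx.zg.2.2
  low : ∀ l ∈ cx.lows, (∀ m ∈ l.1, 1 ≤ m ∧ m ≤ cx.k) ∧ ∀ j ∈ l.2.1, (1 ≤ j ∧ j ≤ cx.k) ∧
    ∀ w ∈ W (F := F) cx.k d,
      φ w + sg l.2.2 * (l.1.map (fun m => φ (ren (Equiv.swap m j) w))).sum = 0

theorem ext_typeOK {cx : Cx} (hk : 1 ≤ cx.k) {d : ℕ} {φ : FL F →ₗ[F] F}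
    {T : Submodule F (FL F)} (h : LF T cx.k d φ) (hg : GrpOK cx d φ) :
    TypeOK cx (ext cx.k d φ) where
  eqv := by
    intro g hgm
    obtain ⟨h2, h3, h4⟩ := hg.gs g hgm
    refine ⟨h2, ?_⟩
    intro a m ha1 ha2 hm1 hm2 ham f
    have ha : a ∈ Finset.Icc 1 cx.k := Finset.mem_Icc.2 ⟨by omega, by omega⟩
    have hm : m ∈ Finset.Icc 1 cx.k := Finset.mem_Icc.2 ⟨by omega, by omega⟩
    rw [ext_ren φ (swap_fix ha hm), h4 a m ha1 ha2 hm1 hm2 ham _ (cmp_W _ _ _)]
    rfl
  der := fun j h1 h2 f => ext_D h.lam h1 h2 f
  sym := by
    intro j h1 h2 f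
    obtain ⟨h3, h4, h5⟩ := hg.zg j h1 h2
    have ha : 1 ∈ Finset.Icc 1 cx.k := Finset.mem_Icc.2 ⟨le_rfl, hk⟩
    have hm : j ∈ Finset.Icc 1 cx.k := Finset.mem_Icc.2 ⟨h3, h4⟩
    rw [ext_ren φ (swap_fix ha hm), h5 _ (cmp_W _ _ _)]
    rfl
  low := by
    intro l hl j hj f
    obtain ⟨h1, h2⟩ := hg.low l hl
    obtain ⟨h3, h4⟩ := h2 j hj
    have hj' : j ∈ Finset.Icc 1 cx.k := Finset.mem_Icc.2 h3
    have key : l.1.map (fun m => ext cx.k d φ (ren (Equiv.swap m j) f)) =
        l.1.map (fun m => φ (ren (Equiv.swap m j) (cmp (cont (Finset.Icc 1 cx.k) d) f))) := by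
      apply List.map_congr_left
      intro m hm
      rw [ext_ren φ (swap_fix (Finset.mem_Icc.2 (h1 m hm)) hj')]
    rw [key, ext_apply]
    exact h4 _ (cmp_W _ _ _)

end

end Pool.Agent.Lib.MP_b4a71d_al.Eng
end
end
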