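import Pool.Agent.Lib.MP_b4a71d_al.Ops
import Pool.Agent.Lib.MP_b4a71d_al.Eng.Glob

section

/-!
# Symmetrization over more than `d` letters kills the level `(k, d)`
-/

set_option autoImplicit false
set_option linter.unusedSectionVars false

namespace Pool.Agent.Lib.MP_b4a71d_al

universe u

noncomputable section

variable {F : Type u} [Field F]

/-- The commutator of `x_a -> x_b` and `x_b -> x_a`. -/
theorem dd_comm_weight {a b : ℕ} (hab : a ≠ b) {s : Multiset ℕ} {f : FL F} (hf : f ∈ HomC s) :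
    dd a b (dd b a f) = dd b a (dd a b f) + ((s.count b : F) - (s.count a : F)) • f := by
  refine homC_induction (p := fun s f => dd a b (dd b a f) =
    dd b a (dd a b f) + ((s.count b : F) - (s.count a : F)) • f) ?_ ?_ ?_ ?_ ?_ hf
  · intro i
    by_cases hia : i = a
    · subst hia
      rw [dd_X_ne hab, map_zero, dd_X_same, dd_X_same, Multiset.count_singleton_self,
        Multiset.count_singleton, if_neg (Ne.symm hab), Nat.cast_zero, Nat.cast_one, zero_sub,
        neg_smul, one_smul, add_neg_cancel]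
    · by_cases hib : i = b
      · subst hib
        rw [dd_X_same, dd_X_same, dd_X_ne hia, map_zero, Multiset.count_singleton_self,
          Multiset.count_singleton, if_neg (Ne.symm hia), Nat.cast_zero, Nat.cast_one, sub_zero,
          one_smul, zero_add]
      · rw [dd_X_ne hib, map_zero, dd_X_ne hia, map_zero, Multiset.count_singleton,
          Multiset.count_singleton, if_neg (Ne.symm hib), if_neg (Ne.symm hia), Nat.cast_zero,
          sub_zero, zero_smul, add_zero]
  · intro s t f g _ _ h1 h2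
    rw [dd_lie, map_add, dd_lie, dd_lie, dd_lie, map_add, dd_lie, dd_lie, h1, h2, lie_add,
      add_lie, lie_smul, smul_lie, Multiset.count_add, Multiset.count_add]
    push_cast
    module
  · intro s
    simp
  · intro s f g _ _ h1 h2
    rw [map_add, map_add, map_add, map_add, h1, h2, smul_add]
    abel
  · intro s c f _ h1
    rw [map_smul, map_smul, map_smul, map_smul, h1, smul_add, smul_comm]

/-- A highest weight vector of negative weight is zero. -/
theorem eq_zero_of_weight [CharZero F] {z : ℕ} (hz : z ≠ 0) {s : Multiset ℕ} {v : FL F}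
    (hv : v ∈ HomC s) (hE : dd z 0 v = 0) (hlt : s.count 0 < s.count z) : v = 0 := by
  set a := s.count 0 with ha
  set b := s.count z with hb
  have hcont : ∀ m, m ≤ a → ∃ t : Multiset ℕ, (dd 0 z)^[m] v ∈ HomC (F := F) t ∧
      t.count 0 + m = a ∧ t.count z = b + m := by
    intro m
    induction m with
    | zero => exact fun _ => ⟨s, hv, by rw [← ha, add_zero], by rw [← hb, add_zero]⟩
    | succ m ih =>
      intro hm
      obtain ⟨t, ht, ht0, htz⟩ := ih (by omega)
      refine ⟨z ::ₘ t.erase 0, ?_, ?_, ?_⟩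
      · rw [Function.iterate_succ_apply']
        exact dd_mem 0 z ht
      · rw [Multiset.count_cons_of_ne (Ne.symm hz), Multiset.count_erase_self]
        omega
      · rw [Multiset.count_cons_self, Multiset.count_erase_of_ne hz]
        omega
  have hform : ∀ m, m ≤ a → dd z 0 ((dd 0 z)^[m + 1] v) =
      (((m : F) + 1) * ((a : F) - (b : F) - (m : F))) • (dd 0 z)^[m] v := by
    intro m
    induction m with
    | zero =>
      intro _
      rw [Function.iterate_succ_apply', Function.iterate_zero, id_eq, dd_comm_weight hz hv, hE,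
        map_zero, zero_add, ← ha, ← hb]
      congr 1
      push_cast
      ring
    | succ m ih =>
      intro hm
      obtain ⟨t, ht, ht0, htz⟩ := hcont (m + 1) hm
      rw [Function.iterate_succ_apply', dd_comm_weight hz ht, ih (by omega), map_smul,
        ← Function.iterate_succ_apply' (dd (F := F) 0 z), ← add_smul]
      congr 1
      have h1 : (t.count 0 : F) = (a : F) - (m : F) - 1 := by
        have : (t.count 0 : F) + ((m : F) + 1) = (a : F) := by exact_mod_cast ht0
        linear_combination this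
      have h2 : (t.count z : F) = (b : F) + ((m : F) + 1) := by exact_mod_cast htz
      rw [h1, h2]
      push_cast
      ring
  have hdown : ∀ m, m ≤ a + 1 → (dd 0 z)^[m] v = 0 → v = 0 := by
    intro m
    induction m with
    | zero => exact fun _ h => h
    | succ m ih =>
      intro hm h
      apply ih (by omega)
      have h1 := hform m (by omega)
      rw [h, map_zero] at h1
      refine (smul_eq_zero.1 h1.symm).resolve_left ?_
      apply mul_ne_zero
      · have : ((m + 1 : ℕ) : F) ≠ 0 := Nat.cast_ne_zero.2 (by omega)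
        exact_mod_cast this
      · have h3 : (a : F) - (b : F) - (m : F) = -((b - a + m : ℕ) : F) := by
          have h4 : ((b - a + m : ℕ) : F) + (a : F) = (b : F) + (m : F) := by
            have : b - a + m + a = b + m := by omega
            exact_mod_cast this
          linear_combination h4
        rw [h3, neg_ne_zero, Nat.cast_ne_zero]
        omega
  apply hdown (a + 1) le_rfl
  obtain ⟨t, ht, ht0, _⟩ := hcont a le_rfl
  rw [Function.iterate_succ_apply']
  apply dd_eq_zero z ht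
  rw [← Multiset.count_eq_zero]
  omega

/-- The map which sends all letters of the list `A` to `z`. -/
def coll (z : ℕ) (A : List ℕ) : ℕ → ℕ := fun i => if i ∈ A then z else i

theorem coll_mem {z : ℕ} {A : List ℕ} {i : ℕ} (h : i ∈ A) : coll z A i = z := if_pos h

theorem coll_notMem {z : ℕ} {A : List ℕ} {i : ℕ} (h : i ∉ A) : coll z A i = i := if_neg h

theorem coll_eq {z : ℕ} {A : List ℕ} (hz : z ∈ A) {i : ℕ} (h : coll z A i = z) : i ∈ A := by
  by_contra hcon
  rw [coll_notMem hcon] at h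
  exact hcon (by rw [h]; exact hz)

theorem count_cont_le {Y : Finset ℕ} (d : ℕ) {p : ℕ} (hp : p ≠ 0) :
    (cont Y d).count p ≤ 1 := by
  rw [cont, Multiset.count_add, Multiset.count_replicate, if_neg (Ne.symm hp), zero_add]
  exact (Multiset.nodup_iff_count_le_one.1 Y.nodup) p

theorem symL_of_coll {Y : Finset ℕ} (h0 : 0 ∉ Y) {d : ℕ} {z : ℕ} (hz : z ∈ Y) (A : List ℕ)
    (hA : ∀ a ∈ A, a ∈ Y) (hnd : (A ++ [z]).Nodup) : ∀ g ∈ WW (F := F) Y d,
    ren (coll z (A ++ [z])) g = 0 → symL (A ++ [z]) g = 0 := by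
  induction A with
  | nil =>
    intro g hg h
    have h1 : ren (coll z ([] ++ [z])) g = g := by
      apply ren_eq_self hg
      intro i _
      by_cases hi : i = z
      · rw [hi, coll_mem (by simp)]
      · rw [coll_notMem]
        simp only [List.nil_append, List.mem_singleton]
        exact hi
    rw [h1] at h
    rw [h, map_zero]
  | cons t A ih =>
    intro g hg h
    have htY := hA t List.mem_cons_self
    have hnd' : (A ++ [z]).Nodup := (List.nodup_cons.1 hnd).2
    have ht : t ∉ A ++ [z] := (List.nodup_cons.1 hnd).1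
    have hAY : ∀ a ∈ A ++ [z], a ∈ Y := by
      intro a ha
      rcases List.mem_append.1 ha with h | h
      · exact hA a (List.mem_cons_of_mem _ h)
      · rw [List.mem_singleton.1 h]
        exact hz
    have hz0 : z ≠ 0 := by
      rintro rfl
      exact h0 hz
    have ht0 : t ≠ 0 := by
      rintro rfl
      exact h0 htY
    have hzmem : z ∈ (t :: A) ++ [z] := by simp
    rw [List.cons_append] at h hzmem ⊢
    rw [symL_cons]
    have hswW : ∀ a ∈ A ++ [z], ren (Equiv.swap a t) g ∈ WW (F := F) Y d := by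
      intro a ha
      apply stab_WW h0 d _ _ _ hg
      intro i hi
      apply Equiv.swap_apply_of_ne_of_ne
      · rintro rfl
        exact hi (hAY i ha)
      · rintro rfl
        exact hi htY
    apply ih (fun a ha => hA a (List.mem_cons_of_mem _ ha)) hnd'
    · apply Submodule.add_mem _ hg
      apply list_sum_mem
      intro x hx
      obtain ⟨a, ha, rfl⟩ := List.mem_map.1 hx
      exact hswW a ha
    · -- the derivation `z -> t` of the collapsed element
      have h1 := dd_ren z t (coll z (t :: (A ++ [z]))) hg (by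
        intro p hp
        have hpm := coll_eq hzmem hp
        apply count_cont_le
        rintro rfl
        rcases List.mem_cons.1 hpm with h | h
        · exact ht0 h.symm
        · exact h0 (hAY 0 h)) (t :: (A ++ [z])).toFinset (by
        intro p _ hp
        rw [List.mem_toFinset]
        exact coll_eq hzmem hp)
      rw [h, map_zero] at h1
      have h2 : ∀ p ∈ (t :: (A ++ [z])).toFinset,
          (if p ∈ cont Y d ∧ coll z (t :: (A ++ [z])) p = z then
            ren (Function.update (coll z (t :: (A ++ [z]))) p t) g else 0) =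
          ren (coll z (A ++ [z])) (ren (Equiv.swap p t) g) := by
        intro p hp
        rw [List.mem_toFinset] at hp
        have hpY : p ∈ Y := by
          rcases List.mem_cons.1 hp with h | h
          · rw [h]
            exact htY
          · exact hAY p h
        rw [if_pos ⟨Multiset.mem_add.2 (Or.inr hpY), coll_mem hp⟩, ren_ren]
        apply hom_congr hg
        intro i hi
        rw [ren_X, ren_X]
        congr 1
        rw [Function.comp_apply]
        by_cases hip : i = p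
        · rw [hip, Function.update_self, Equiv.swap_apply_left, coll_notMem ht]
        · rw [Function.update_of_ne hip]
          by_cases hit : i = t
          · rw [hit, Equiv.swap_apply_right, coll_mem List.mem_cons_self]
            rcases List.mem_cons.1 hp with h3 | h3
            · exact absurd (hit.trans h3.symm) hip
            · rw [coll_mem h3]
          · rw [Equiv.swap_apply_of_ne_of_ne hip hit]
            by_cases hiA : i ∈ A ++ [z]
            · rw [coll_mem hiA, coll_mem (List.mem_cons_of_mem _ hiA)]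
            · rw [coll_notMem hiA, coll_notMem]
              rw [List.mem_cons, not_or]
              exact ⟨hit, hiA⟩
      rw [Finset.sum_congr rfl h2, List.toFinset_cons,
        Finset.sum_insert (by rw [List.mem_toFinset]; exact ht), Equiv.swap_self] at h1
      have h3 : ren (⇑(Equiv.refl ℕ)) g = g := ren_id' g
      rw [h3] at h1
      rw [map_add, h1]
      congr 1
      rw [map_list_sum, List.map_map, List.sum_toFinset _ hnd']
      rfl

theorem coll_E {Y : Finset ℕ} (h0 : 0 ∉ Y) {d : ℕ} {z : ℕ} {A : List ℕ}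
    (hz : z ∈ A) (hA : ∀ a ∈ A, a ∈ Y) {g : FL F} (hg : g ∈ WW (F := F) Y d)
    (hE : ∀ a ∈ A, E a g = 0) : dd z 0 (ren (coll z A) g) = 0 := by
  have h1 := dd_ren z 0 (coll z A) hg (by
    intro p hp
    have hpm := coll_eq hz hp
    apply count_cont_le
    rintro rfl
    exact h0 (hA 0 hpm)) A.toFinset (by
    intro p _ hp
    rw [List.mem_toFinset]
    exact coll_eq hz hp)
  rw [h1]
  apply Finset.sum_eq_zero
  intro p hp
  rw [List.mem_toFinset] at hp
  have hpY := hA p hp
  have hp0 : p ≠ 0 := by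
    rintro rfl
    exact h0 hpY
  have h0A : (0 : ℕ) ∉ A := fun h => h0 (hA 0 h)
  rw [if_pos ⟨Multiset.mem_add.2 (Or.inr hpY), coll_mem hp⟩]
  have h2 : ren (Function.update (coll z A) p 0) g = ren (coll z A) (E p g) := by
    rw [E, dd_eq_ren 0 hg (count_cont hpY h0 d), ren_ren]
    apply hom_congr hg
    intro i _
    rw [ren_X, ren_X]
    congr 1
    rw [Function.comp_apply]
    by_cases hip : i = p
    · rw [hip, Function.update_self, mrg_same, coll_notMem h0A]
    · rw [Function.update_of_ne hip, mrg_ne hip]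
  rw [h2, hE p hp, map_zero]

theorem count_map_coll {Y : Finset ℕ} (h0 : 0 ∉ Y) {d : ℕ} {z : ℕ} {A : List ℕ} (hnd : A.Nodup)
    (hz : z ∈ A) (hA : ∀ a ∈ A, a ∈ Y) :
    ((cont Y d).map (coll z A)).count 0 = d ∧ ((cont Y d).map (coll z A)).count z = A.length := by
  have h0A : (0 : ℕ) ∉ A := fun h => h0 (hA 0 h)
  have hz0 : z ≠ 0 := by
    rintro rfl
    exact h0A hz
  rw [cont, Multiset.map_add, Multiset.map_replicate, coll_notMem h0A]
  constructor
  · rw [Multiset.count_add, Multiset.count_replicate_self, Multiset.count_eq_zero.2, add_zero]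
    intro h
    obtain ⟨i, hi, hi2⟩ := Multiset.mem_map.1 h
    by_cases hiA : i ∈ A
    · rw [coll_mem hiA] at hi2
      exact hz0 hi2
    · rw [coll_notMem hiA] at hi2
      rw [hi2] at hi
      exact h0 hi
  · rw [Multiset.count_add, Multiset.count_replicate, if_neg (Ne.symm hz0), zero_add,
      Multiset.count_map]
    have h1 : Multiset.filter (fun a => z = coll z A a) Y.val =
        (Y.filter (fun a => a ∈ A)).val := by
      rw [Finset.filter_val]
      apply Multiset.filter_congr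
      intro a _
      constructor
      · intro h
        exact coll_eq hz h.symm
      · intro h
        exact (coll_mem h).symm
    rw [h1, Finset.card_val]
    have h2 : Y.filter (fun a => a ∈ A) = A.toFinset := by
      ext a
      rw [Finset.mem_filter, List.mem_toFinset]
      exact ⟨fun h => h.2, fun h => ⟨hA a h, h⟩⟩
    rw [h2, List.toFinset_card_of_nodup hnd]

/-- Symmetrization over more than `d` letters kills highest weight vectors. -/
theorem symL_KE [CharZero F] {Y : Finset ℕ} (h0 : 0 ∉ Y) {d : ℕ} {A : List ℕ} (hnd : A.Nodup)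
    (hA : ∀ a ∈ A, a ∈ Y) (hlen : d < A.length) {g : FL F} (hg : g ∈ KE (F := F) Y d) :
    symL A g = 0 := by
  rw [mem_KE] at hg
  obtain ⟨B, z, rfl⟩ : ∃ B z, A = B ++ [z] := by
    rcases List.eq_nil_or_concat A with h | ⟨l', i, h⟩
    · rw [h, List.length_nil] at hlen
      omega
    · exact ⟨l', i, by rw [h, List.concat_eq_append]⟩
  have hzY : z ∈ Y := hA z (by simp)
  have hz0 : z ≠ 0 := by
    rintro rfl
    exact h0 hzY
  apply symL_of_coll h0 hzY B (fun a ha => hA a (List.mem_append_left _ ha)) hnd g hg.1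
  have hzA : z ∈ B ++ [z] := by simp
  have hcount := count_map_coll h0 (d := d) hnd hzA hA
  apply eq_zero_of_weight hz0 (ren_mem _ hg.1)
  · exact coll_E h0 hzA hA hg.1 (fun a ha => hg.2 a (hA a ha))
  · rw [hcount.1, hcount.2]
    exact hlen

/-- Symmetrization over more than `d` letters maps the level `(k, d)` into `Lam`. -/
theorem sym_kill [CharZero F] {Y : Finset ℕ} (h0 : 0 ∉ Y) {d : ℕ} {A : List ℕ} (hnd : A.Nodup)
    (hA : ∀ a ∈ A, a ∈ Y) (hlen : d < A.length) {w : FL F} (hw : w ∈ WW (F := F) Y d) :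
    symL A w ∈ Lam (F := F) Y d := by
  obtain ⟨p, p1, p2, _, _, _, _⟩ := exists_prK (F := F) Y h0 d
  have h1 : w = (w - p w) + p w := by abel
  rw [h1, map_add, symL_KE h0 hnd hA hlen (p1 w hw), add_zero]
  exact GA_mem (stab_Lam h0 d) (symL_mem_GA A hA) (p2 w hw)

end

end Pool.Agent.Lib.MP_b4a71d_al
end

section

/-!
# MP_b4a71d_al: functionals on `W k d` vanish if those of a few types do
-/

set_option autoImplicit false
set_option linter.unusedSectionVars false

namespace Pool.Agent.Lib.MP_b4a71d_al.Eng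

universe u

noncomputable section

variable {F : Type u} [Field F] [CharZero F]

/-- The space of functionals `P` is stable under the permutations of the letters `1, ..., k`. -/
def FStab (k : ℕ) (P : Submodule F (FL F →ₗ[F] F)) : Prop :=
  ∀ φ ∈ P, ∀ σ : Equiv.Perm ℕ, (∀ i, i ∉ Finset.Icc 1 k → σ i = i) →
    φ.comp (ren (F := F) σ).toLinearMap ∈ P

/-- `φ` vanishes on `W k d`. -/
def VanW (k d : ℕ) (φ : FL F →ₗ[F] F) : Prop := ∀ w ∈ W (F := F) k d, φ w = 0

/-- `φ` is (anti)symmetric in the letters of `A` (`alt = true`: antisymmetric). -/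
def EqS (k d : ℕ) (φ : FL F →ₗ[F] F) (alt : Bool) (A : Finset ℕ) : Prop :=
  ∀ a ∈ A, ∀ b ∈ A, a ≠ b → EqvW k d φ a b alt

/-- `φ ± ∑_{a ∈ A} φ ∘ (a t)`. -/
def gar (φ : FL F →ₗ[F] F) (alt : Bool) (A : Finset ℕ) (t : ℕ) : FL F →ₗ[F] F :=
  φ + (sg alt : F) • ∑ a ∈ A, φ.comp (ren (F := F) (Equiv.swap a t)).toLinearMap

/-- Functionals of `P` which are (anti)symmetric in `A` and in `B` vanish. -/
def Z2 (k d : ℕ) (P : Submodule F (FL F →ₗ[F] F)) (alt : Bool) (A : Finset ℕ) (alt' : Bool)
    (B : Finset ℕ) : Prop :=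
  ∀ φ ∈ P, EqS k d φ alt A → EqS k d φ alt' B → VanW k d φ

variable {k d : ℕ} {P : Submodule F (FL F →ₗ[F] F)}

theorem swap_mem_set {A : Finset ℕ} {a b c : ℕ} (ha : a ∈ A) (hb : b ∈ A) (hc : c ∈ A) :
    Equiv.swap a b c ∈ A := by
  by_cases h1 : c = a
  · subst h1
    rw [Equiv.swap_apply_left]
    exact hb
  · by_cases h2 : c = b
    · subst h2
      rw [Equiv.swap_apply_right]
      exact ha
    · rw [Equiv.swap_apply_of_ne_of_ne h1 h2]
      exact hc

theorem gar_apply (φ : FL F →ₗ[F] F) (alt : Bool) (A : Finset ℕ) (t : ℕ) (w : FL F) :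
    gar φ alt A t w = φ w + sg alt * ∑ a ∈ A, φ (ren (Equiv.swap a t) w) := by
  rw [gar, LinearMap.add_apply, LinearMap.smul_apply, LinearMap.sum_apply, smul_eq_mul]
  rfl

theorem ren_swap_swap (a b c e : ℕ) (w : FL F) :
    ren (F := F) (Equiv.swap a b) (ren (Equiv.swap c e) w) =
      ren (Equiv.swap (Equiv.swap a b c) (Equiv.swap a b e)) (ren (Equiv.swap a b) w) := by
  have h := congrArg (fun A : Module.End F (FL F) => A w) (sw_mul_sw (F := F) a b c e)
  exact h

theorem ren_swap_self (a b : ℕ) (w : FL F) :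
    ren (F := F) (Equiv.swap a b) (ren (Equiv.swap a b) w) = w := by
  have h := congrArg (fun A : Module.End F (FL F) => A w) (sw_sq (F := F) a b)
  exact h

theorem W_swap {k a b : ℕ} (ha : a ∈ Finset.Icc 1 k) (hb : b ∈ Finset.Icc 1 k) {d : ℕ}
    {w : FL F} (hw : w ∈ W (F := F) k d) : ren (Equiv.swap a b) w ∈ W (F := F) k d :=
  swap_W ha hb hw

theorem W_perm {k d : ℕ} {σ : Equiv.Perm ℕ} (hσ : ∀ i, i ∉ Finset.Icc 1 k → σ i = i)
    {w : FL F} (hw : w ∈ W (F := F) k d) : ren σ w ∈ W (F := F) k d :=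
  ren_WW _ (hσ 0 (by simp)) (image_eq_of_fix _ hσ) hw

theorem EqvW.symm {k d : ℕ} {φ : FL F →ₗ[F] F} {a b : ℕ} {alt : Bool} (h : EqvW k d φ a b alt) :
    EqvW k d φ b a alt := by
  intro w hw
  rw [Equiv.swap_comm]
  exact h w hw

theorem EqS.mono {k d : ℕ} {φ : FL F →ₗ[F] F} {alt : Bool} {A B : Finset ℕ}
    (h : EqS k d φ alt A) (hB : B ⊆ A) : EqS k d φ alt B :=
  fun a ha b hb => h a (hB ha) b (hB hb)

theorem EqS.single {k d : ℕ} (φ : FL F →ₗ[F] F) (alt : Bool) (a : ℕ) :
    EqS k d φ alt {a} := by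
  intro x hx y hy hxy
  rw [Finset.mem_singleton] at hx hy
  exact absurd (hx.trans hy.symm) hxy

theorem EqS.empty {k d : ℕ} (φ : FL F →ₗ[F] F) (alt : Bool) :
    EqS k d φ alt ∅ := by
  intro x hx
  exact absurd hx (Finset.notMem_empty x)

/-- Permutations of `S` moving `A` to `A'`. -/
theorem exists_perm_supp (S : Finset ℕ) : ∀ (n : ℕ) (A A' : Finset ℕ), A ⊆ S → A' ⊆ S →
    A.card = A'.card → (A \ A').card = n → ∃ σ : Equiv.Perm ℕ, (∀ i, i ∉ S → σ i = i) ∧
      (∀ i, i ∈ A ∩ A' → σ i = i) ∧ A.image σ = A' := by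
  intro n
  induction n with
  | zero =>
    intro A A' hA hA' hc hn
    refine ⟨1, fun _ _ => rfl, fun _ _ => rfl, ?_⟩
    have h1 : A ⊆ A' := Finset.sdiff_eq_empty_iff_subset.1 (Finset.card_eq_zero.1 hn)
    have h2 : A = A' := Finset.eq_of_subset_of_card_le h1 hc.ge
    rw [← h2]
    exact Finset.image_id
  | succ n ih =>
    intro A A' hA hA' hc hn
    have h1 : (A \ A').Nonempty := by
      rw [← Finset.card_pos, hn]
      exact Nat.succ_pos n
    have h2 : (A' \ A).Nonempty := by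
      rw [← Finset.card_pos, ← Finset.card_sdiff_comm hc, hn]
      exact Nat.succ_pos n
    obtain ⟨a, ha⟩ := h1
    obtain ⟨b, hb⟩ := h2
    rw [Finset.mem_sdiff] at ha hb
    have hab : a ≠ b := fun h => hb.2 (h ▸ ha.1)
    set A1 := insert b (A.erase a) with hA1
    have hc1 : A1.card = A.card := by
      rw [hA1, Finset.card_insert_of_notMem (fun h => hb.2 (Finset.mem_of_mem_erase h)),
        Finset.card_erase_of_mem ha.1]
      have := Finset.card_pos.2 ⟨a, ha.1⟩
      omega
    have hd1 : A1 \ A' = (A \ A').erase a := by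
      ext x
      simp only [hA1, Finset.mem_sdiff, Finset.mem_insert, Finset.mem_erase]
      constructor
      · rintro ⟨rfl | ⟨h3, h4⟩, h5⟩
        · exact absurd hb.1 h5
        · exact ⟨h3, h4, h5⟩
      · rintro ⟨h3, h4, h5⟩
        exact ⟨Or.inr ⟨h3, h4⟩, h5⟩
    obtain ⟨σ, hσ1, hσ2, hσ3⟩ := ih A1 A' (by
      rw [hA1]
      intro x hx
      rcases Finset.mem_insert.1 hx with rfl | hx
      · exact hA' hb.1
      · exact hA (Finset.mem_of_mem_erase hx)) hA' (hc1.trans hc) (by
      rw [hd1, Finset.card_erase_of_mem (Finset.mem_sdiff.2 ha), hn]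
      rfl)
    refine ⟨(Equiv.swap a b).trans σ, ?_, ?_, ?_⟩
    · intro i hi
      rw [Equiv.trans_apply, Equiv.swap_apply_of_ne_of_ne, hσ1 i hi]
      · rintro rfl
        exact hi (hA ha.1)
      · rintro rfl
        exact hi (hA' hb.1)
    · intro i hi
      rw [Finset.mem_inter] at hi
      have h3 : i ≠ a := by
        rintro rfl
        exact ha.2 hi.2
      have h4 : i ≠ b := by
        rintro rfl
        exact hb.2 hi.1
      rw [Equiv.trans_apply, Equiv.swap_apply_of_ne_of_ne h3 h4]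
      apply hσ2
      rw [Finset.mem_inter, hA1, Finset.mem_insert, Finset.mem_erase]
      exact ⟨Or.inr ⟨h3, hi.1⟩, hi.2⟩
    · have h3 : A.image ((Equiv.swap a b).trans σ) = (A.image (Equiv.swap a b)).image σ := by
        rw [Finset.image_image]
        rfl
      have h4 : A.image (Equiv.swap a b) = A1 := by
        ext x
        rw [Finset.mem_image, hA1, Finset.mem_insert, Finset.mem_erase]
        constructor
        · rintro ⟨y, hy, rfl⟩
          by_cases h5 : y = a
          · subst h5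
            exact Or.inl (Equiv.swap_apply_left _ _)
          · have h6 : y ≠ b := by
              rintro rfl
              exact hb.2 hy
            rw [Equiv.swap_apply_of_ne_of_ne h5 h6]
            exact Or.inr ⟨h5, hy⟩
        · rintro (rfl | ⟨h5, h6⟩)
          · exact ⟨a, ha.1, Equiv.swap_apply_left _ _⟩
          · refine ⟨x, h6, Equiv.swap_apply_of_ne_of_ne h5 ?_⟩
            rintro rfl
            exact hb.2 h6
      rw [h3, h4, hσ3]

theorem gar_mem (hP : FStab k P) {φ : FL F →ₗ[F] F} (hφ : φ ∈ P) (alt : Bool) {A : Finset ℕ}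
    (hA : A ⊆ Finset.Icc 1 k) {t : ℕ} (ht : t ∈ Finset.Icc 1 k) : gar φ alt A t ∈ P := by
  rw [gar]
  apply P.add_mem hφ
  apply P.smul_mem
  apply P.sum_mem
  intro a ha
  exact hP φ hφ _ (swap_fix (hA ha) ht)

/-- The Garnir element is (anti)symmetric in `A ∪ {t}`. -/
theorem gar_eqS {φ : FL F →ₗ[F] F} {alt : Bool} {A : Finset ℕ} (hA : A ⊆ Finset.Icc 1 k) {t : ℕ}
    (ht : t ∈ Finset.Icc 1 k) (htA : t ∉ A) (h : EqS k d φ alt A) :
    EqS k d (gar φ alt A t) alt (insert t A) := by
  have hss := sg_mul_sg (F := F) alt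
  -- the case of two letters of `A`
  have key1 : ∀ a ∈ A, ∀ b ∈ A, a ≠ b → EqvW k d (gar φ alt A t) a b alt := by
    intro a ha b hb hab w hw
    have hta : t ≠ a := by
      rintro rfl
      exact htA ha
    have htb : t ≠ b := by
      rintro rfl
      exact htA hb
    have hsum : ∑ c ∈ A, φ (ren (Equiv.swap c t) (ren (Equiv.swap a b) w)) =
        sg alt * ∑ c ∈ A, φ (ren (Equiv.swap c t) w) := by
      rw [Finset.mul_sum]
      have hinv : ∀ c, Equiv.swap a b (Equiv.swap a b c) = c := fun c => Equiv.swap_apply_self a b c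
      refine Finset.sum_nbij' (fun c => Equiv.swap a b c) (fun c => Equiv.swap a b c) ?_ ?_ ?_ ?_ ?_
      · intro c hc
        exact swap_mem_set ha hb hc
      · intro c hc
        exact swap_mem_set ha hb hc
      · intro c _
        exact hinv c
      · intro c _
        exact hinv c
      · intro c hc
        have h1 := ren_swap_swap (F := F) a b (Equiv.swap a b c) t w
        rw [hinv, Equiv.swap_apply_of_ne_of_ne hta htb] at h1
        rw [← h1]
        exact h a ha b hb hab _ (W_swap (hA (swap_mem_set ha hb hc)) ht hw)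
    rw [gar_apply, gar_apply, h a ha b hb hab w hw, hsum]
    ring
  -- the case of one letter of `A` and `t`
  have key2 : ∀ b ∈ A, EqvW k d (gar φ alt A t) b t alt := by
    intro b hb w hw
    have htb : t ≠ b := by
      rintro rfl
      exact htA hb
    have hsum : ∑ c ∈ A, φ (ren (Equiv.swap c t) (ren (Equiv.swap b t) w)) =
        φ w + sg alt * ∑ c ∈ A.erase b, φ (ren (Equiv.swap c t) w) := by
      rw [← Finset.add_sum_erase A _ hb, ren_swap_self, Finset.mul_sum]
      congr 1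
      apply Finset.sum_congr rfl
      intro c hc
      have hcb : c ≠ b := Finset.ne_of_mem_erase hc
      have hcA := Finset.mem_of_mem_erase hc
      have hct : c ≠ t := by
        rintro rfl
        exact htA hcA
      rw [ren_swap_swap c t b t, Equiv.swap_apply_right,
        Equiv.swap_apply_of_ne_of_ne hcb.symm htb.symm]
      exact h b hb c hcA hcb.symm _ (W_swap (hA hcA) ht hw)
    rw [gar_apply, gar_apply, hsum, ← Finset.add_sum_erase A _ hb]
    linear_combination (-φ (ren (Equiv.swap b t) w)) * hss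
  intro a ha b hb hab
  rcases Finset.mem_insert.1 ha with rfl | ha'
  · rcases Finset.mem_insert.1 hb with rfl | hb'
    · exact absurd rfl hab
    · exact (key2 b hb').symm
  · rcases Finset.mem_insert.1 hb with rfl | hb'
    · exact key2 a ha'
    · exact key1 a ha' b hb' hab

/-- Other symmetries are kept. -/
theorem gar_eqS' {φ : FL F →ₗ[F] F} {alt alt' : Bool} {A B : Finset ℕ}
    (hA : A ⊆ Finset.Icc 1 k) {t : ℕ} (ht : t ∈ Finset.Icc 1 k) (hB : B ⊆ Finset.Icc 1 k)
    (hBA : Disjoint B (insert t A)) (h : EqS k d φ alt' B) :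
    EqS k d (gar φ alt A t) alt' B := by
  intro a ha b hb hab w hw
  have hne : ∀ c ∈ insert t A, ∀ x ∈ B, c ≠ x := by
    intro c hc x hx hcx
    exact Finset.disjoint_left.1 hBA hx (hcx ▸ hc)
  have hsum : ∑ c ∈ A, φ (ren (Equiv.swap c t) (ren (Equiv.swap a b) w)) =
      sg alt' * ∑ c ∈ A, φ (ren (Equiv.swap c t) w) := by
    rw [Finset.mul_sum]
    apply Finset.sum_congr rfl
    intro c hc
    have hcm := Finset.mem_insert_of_mem (a := c) (b := t) hc
    have htm := Finset.mem_insert_self t A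
    rw [ren_swap_swap c t a b, Equiv.swap_apply_of_ne_of_ne (hne c hcm a ha).symm
      (hne t htm a ha).symm, Equiv.swap_apply_of_ne_of_ne (hne c hcm b hb).symm
      (hne t htm b hb).symm]
    exact h a ha b hb hab _ (W_swap (hA hc) ht hw)
  rw [gar_apply, gar_apply, h a ha b hb hab w hw, hsum]
  ring

/-- The condition `Z2` depends only on the sizes of the two disjoint sets. -/
theorem Z2.perm (hP : FStab k P) {alt alt' : Bool} {A B A' B' : Finset ℕ}
    (h : Z2 k d P alt A alt' B) (hA : A ⊆ Finset.Icc 1 k) (hB : B ⊆ Finset.Icc 1 k)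
    (hA' : A' ⊆ Finset.Icc 1 k) (hB' : B' ⊆ Finset.Icc 1 k) (hAB : Disjoint A B)
    (hAB' : Disjoint A' B') (hcA : A.card = A'.card) (hcB : B.card = B'.card) :
    Z2 k d P alt A' alt' B' := by
  classical
  obtain ⟨σ1, h11, _, h13⟩ := exists_perm_supp (Finset.Icc 1 k) _ A A' hA hA' hcA rfl
  have himg := image_eq_of_fix σ1 h11
  obtain ⟨σ2, h21, _, h23⟩ := exists_perm_supp (Finset.Icc 1 k \ A') _ (B.image σ1) B' (by
    intro x hx
    obtain ⟨y, hy, rfl⟩ := Finset.mem_image.1 hx
    rw [Finset.mem_sdiff]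
    refine ⟨?_, ?_⟩
    · rw [← himg]
      exact Finset.mem_image_of_mem _ (hB hy)
    · intro h3
      rw [← h13] at h3
      obtain ⟨z, hz, hzy⟩ := Finset.mem_image.1 h3
      rw [σ1.injective hzy] at hz
      exact Finset.disjoint_left.1 hAB hz hy) (by
    intro x hx
    rw [Finset.mem_sdiff]
    exact ⟨hB' hx, fun h3 => Finset.disjoint_left.1 hAB' h3 hx⟩)
    (by rw [Finset.card_image_of_injective _ σ1.injective, hcB]) rfl
  set σ : Equiv.Perm ℕ := σ1.trans σ2 with hσ
  have hfix : ∀ i, i ∉ Finset.Icc 1 k → σ i = i := by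
    intro i hi
    rw [hσ, Equiv.trans_apply, h11 i hi, h21 i (fun h3 => hi (Finset.mem_sdiff.1 h3).1)]
  have hmA : ∀ a ∈ A, σ a ∈ A' := by
    intro a ha
    have h3 : σ1 a ∈ A' := by
      rw [← h13]
      exact Finset.mem_image_of_mem _ ha
    rw [hσ, Equiv.trans_apply, h21 _ (fun h4 => (Finset.mem_sdiff.1 h4).2 h3)]
    exact h3
  have hmB : ∀ b ∈ B, σ b ∈ B' := by
    intro b hb
    rw [← h23, hσ, Equiv.trans_apply]
    exact Finset.mem_image_of_mem _ (Finset.mem_image_of_mem _ hb)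
  have hren : ∀ (a b : ℕ) (w : FL F), ren (F := F) σ (ren (Equiv.swap a b) w) =
      ren (Equiv.swap (σ a) (σ b)) (ren σ w) := by
    intro a b w
    have h3 := ren_mul (F := F) σ (Equiv.swap a b)
    rw [Equiv.mul_swap_eq_swap_mul, ← ren_mul (F := F) (Equiv.swap (σ a) (σ b)) σ] at h3
    exact congrArg (fun A : Module.End F (FL F) => A w) h3
  intro φ hφ hφA hφB
  have h4 := h _ (hP φ hφ σ hfix) (fun a ha b hb hab w hw => by
      change φ (ren σ (ren (Equiv.swap a b) w)) = sg alt * φ (ren σ w)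
      rw [hren]
      exact hφA _ (hmA a ha) _ (hmA b hb) (fun h5 => hab (σ.injective h5)) _ (W_perm hfix hw))
    (fun a ha b hb hab w hw => by
      change φ (ren σ (ren (Equiv.swap a b) w)) = sg alt' * φ (ren σ w)
      rw [hren]
      exact hφB _ (hmB a ha) _ (hmB b hb) (fun h5 => hab (σ.injective h5)) _ (W_perm hfix hw))
  have hfix' : ∀ i, i ∉ Finset.Icc 1 k → σ.symm i = i := by
    intro i hi
    rw [Equiv.symm_apply_eq, hfix i hi]
  intro w hw
  have h5 := h4 _ (W_perm hfix' hw)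
  change φ (ren σ (ren σ.symm w)) = 0 at h5
  rw [ren_ren] at h5
  have h6 : (σ : ℕ → ℕ) ∘ (σ.symm : ℕ → ℕ) = id := by
    funext i
    simp
  rw [h6, ren_id'] at h5
  exact h5

/-- Lemma L: `φ` antisymmetric in `A`, symmetric in `p, q`; the Garnir elements for `A ∪ p`,
`A ∪ q` vanish and so do the symmetrizations in `{p, q} ∪ i`: then `φ` vanishes. -/
theorem lemL {φ : FL F →ₗ[F] F} {A : Finset ℕ} {p q : ℕ} (hp : VanW k d (gar φ true A p))
    (hq : VanW k d (gar φ true A q)) (hpq : p ≠ q)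
    (hs : ∀ i ∈ A, VanW k d (gar φ false {p, q} i)) : VanW k d φ := by
  intro w hw
  have h1 := hp w hw
  have h2 := hq w hw
  rw [gar_apply] at h1 h2
  have h3 : ∑ i ∈ A, (φ w + (φ (ren (Equiv.swap i p) w) + φ (ren (Equiv.swap i q) w))) = 0 := by
    apply Finset.sum_eq_zero
    intro i hi
    have h4 := hs i hi w hw
    rw [gar_apply, Finset.sum_pair hpq, Equiv.swap_comm p i, Equiv.swap_comm q i] at h4
    have h5 : (sg false : F) = 1 := rfl
    rw [h5, one_mul] at h4
    exact h4
  rw [Finset.sum_add_distrib, Finset.sum_add_distrib, Finset.sum_const, nsmul_eq_mul] at h3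
  have h5 : (sg true : F) = -1 := rfl
  rw [h5] at h1 h2
  have h6 : ((A.card : F) + 2) * φ w = 0 := by linear_combination h3 + h1 + h2
  have h7 : ((A.card : F) + 2) ≠ 0 := by
    have h8 : ((A.card + 2 : ℕ) : F) ≠ 0 := Nat.cast_ne_zero.2 (by omega)
    push_cast at h8
    exact h8
  exact (mul_eq_zero.1 h6).resolve_left h7

/-- `Z2` for one set. -/
theorem Z2.one (hP : FStab k P) {alt : Bool} {A A' : Finset ℕ}
    (h : ∀ φ ∈ P, EqS k d φ alt A → VanW k d φ) (hA : A ⊆ Finset.Icc 1 k)
    (hA' : A' ⊆ Finset.Icc 1 k) (hc : A.card = A'.card) :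
    ∀ φ ∈ P, EqS k d φ alt A' → VanW k d φ := by
  have h1 : Z2 k d P alt A true ∅ := fun φ hφ h2 _ => h φ hφ h2
  have h2 := Z2.perm hP h1 hA (Finset.empty_subset _) hA' (Finset.empty_subset _)
    (Finset.disjoint_empty_right _) (Finset.disjoint_empty_right _) hc rfl
  exact fun φ hφ h3 => h2 φ hφ h3 (EqS.empty φ true)

/-- `gar φ alt {a} b` is `φ ± φ ∘ (a b)`. -/
theorem eqv_of_van {φ : FL F →ₗ[F] F} {a b : ℕ} {alt : Bool}
    (h : VanW k d (gar φ alt {a} b)) : EqvW k d φ a b (!alt) := by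
  intro w hw
  have h1 := h w hw
  rw [gar_apply, Finset.sum_singleton] at h1
  have h2 : (sg (!alt) : F) = - sg alt := by cases alt <;> simp [sg]
  rw [h2]
  linear_combination (sg alt) * h1 - φ (ren (Equiv.swap a b) w) * sg_mul_sg (F := F) alt

theorem gar_single {φ : FL F →ₗ[F] F} {a b : ℕ} {alt : Bool} (ha : a ∈ Finset.Icc 1 k)
    (hb : b ∈ Finset.Icc 1 k) (hab : a ≠ b) : EqS k d (gar φ alt {a} b) alt {a, b} := by
  have h1 := gar_eqS (k := k) (d := d) (φ := φ) (alt := alt) (A := {a})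
    (Finset.singleton_subset_iff.2 ha) hb (by
      rw [Finset.mem_singleton]
      exact hab.symm) (EqS.single φ alt a)
  exact h1.mono (by
    intro x hx
    rw [Finset.mem_insert, Finset.mem_singleton] at hx ⊢
    tauto)

theorem eqS_pair {φ : FL F →ₗ[F] F} {a b : ℕ} {alt : Bool} (h : EqvW k d φ a b alt) :
    EqS k d φ alt {a, b} := by
  intro x hx y hy hxy
  rw [Finset.mem_insert, Finset.mem_singleton] at hx hy
  rcases hx with rfl | rfl <;> rcases hy with rfl | rfl
  · exact absurd rfl hxy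
  · exact h
  · exact h.symm
  · exact absurd rfl hxy

/-- The step with Lemma L: `φ` antisymmetric in `A`, symmetric in `p, q`. -/
theorem step (hP : FStab k P) {φ : FL F →ₗ[F] F} (hφ : φ ∈ P) {A : Finset ℕ} {p q : ℕ}
    (hA : A ⊆ Finset.Icc 1 k) (hp : p ∈ Finset.Icc 1 k) (hq : q ∈ Finset.Icc 1 k) (hpA : p ∉ A)
    (hqA : q ∉ A) (hpq : p ≠ q) (h : EqS k d φ true A) (h' : EqvW k d φ p q false)
    (hZ : ∀ B ⊆ Finset.Icc 1 k, B.card = A.card + 1 → ∀ ψ ∈ P, EqS k d ψ true B → VanW k d ψ)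
    (hS : ∀ i ∈ A, ∀ ψ ∈ P, EqS k d ψ false {p, q, i} → EqS k d ψ true (A.erase i) →
      VanW k d ψ) : VanW k d φ := by
  have hins : ∀ t, t ∈ Finset.Icc 1 k → t ∉ A → VanW k d (gar φ true A t) := by
    intro t ht htA
    apply hZ (insert t A) (Finset.insert_subset ht hA) (Finset.card_insert_of_notMem htA) _
      (gar_mem hP hφ true hA ht) (gar_eqS hA ht htA h)
  apply lemL (hins p hp hpA) (hins q hq hqA) hpq
  intro i hi
  have hpqs : ({p, q} : Finset ℕ) ⊆ Finset.Icc 1 k := by
    intro x hx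
    rw [Finset.mem_insert, Finset.mem_singleton] at hx
    rcases hx with rfl | rfl
    · exact hp
    · exact hq
  have hiS : i ∈ Finset.Icc 1 k := hA hi
  have hipq : i ∉ ({p, q} : Finset ℕ) := by
    rw [Finset.mem_insert, Finset.mem_singleton]
    rintro (rfl | rfl)
    · exact hpA hi
    · exact hqA hi
  apply hS i hi _ (gar_mem hP hφ false hpqs hiS)
  · apply (gar_eqS hpqs hiS hipq (eqS_pair h')).mono
    intro x hx
    simp only [Finset.mem_insert, Finset.mem_singleton] at hx ⊢
    tauto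
  · apply gar_eqS' hpqs hiS ((Finset.erase_subset _ _).trans hA) _
      (h.mono (Finset.erase_subset _ _))
    rw [Finset.disjoint_left]
    intro x hx hx2
    simp only [Finset.mem_insert, Finset.mem_singleton, Finset.mem_erase] at hx hx2
    rcases hx2 with rfl | rfl | rfl
    · exact hx.1 rfl
    · exact hpA hx.2
    · exact hqA hx.2

/-- If symmetrizations in three letters vanish and antisymmetrizations in `|A| + 1` letters vanish
then functionals antisymmetric in `A` are antisymmetric in the other letters. -/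
theorem step_anti (hP : FStab k P) {A : Finset ℕ} (hA : A ⊆ Finset.Icc 1 k)
    (hs : ∀ B ⊆ Finset.Icc 1 k, B.card = 3 → ∀ ψ ∈ P, EqS k d ψ false B → VanW k d ψ)
    (hZ : ∀ B ⊆ Finset.Icc 1 k, B.card = A.card + 1 → ∀ ψ ∈ P, EqS k d ψ true B → VanW k d ψ)
    {φ : FL F →ₗ[F] F} (hφ : φ ∈ P) (h : EqS k d φ true A) :
    EqS k d φ true (Finset.Icc 1 k \ A) := by
  intro p hp q hq hpq
  rw [Finset.mem_sdiff] at hp hq
  have hp1 : ({p} : Finset ℕ) ⊆ Finset.Icc 1 k := Finset.singleton_subset_iff.2 hp.1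
  have hvan : VanW k d (gar φ false {p} q) := by
    apply step hP (gar_mem hP hφ false hp1 hq.1) hA hp.1 hq.1 hp.2 hq.2 hpq _ _ hZ
    · intro i hi ψ hψ h1 _
      apply hs {p, q, i} _ _ ψ hψ h1
      · intro x hx
        simp only [Finset.mem_insert, Finset.mem_singleton] at hx
        rcases hx with rfl | rfl | rfl
        · exact hp.1
        · exact hq.1
        · exact hA hi
      · have h2 : p ≠ i := by
          rintro rfl
          exact hp.2 hi
        have h3 : q ≠ i := by
          rintro rfl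
          exact hq.2 hi
        exact Finset.card_eq_three.2 ⟨p, q, i, hpq, h2, h3, rfl⟩
    · apply gar_eqS' hp1 hq.1 hA _ h
      rw [Finset.disjoint_left]
      intro x hx hx2
      simp only [Finset.mem_insert, Finset.mem_singleton] at hx2
      rcases hx2 with rfl | rfl
      · exact hq.2 hx
      · exact hp.2 hx
    · exact gar_single hp.1 hq.1 hpq p (by simp) q (by simp) hpq
  exact eqv_of_van hvan

/-- If antisymmetrizations in two letters vanish then all functionals are symmetric. -/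
theorem all_sym (hP : FStab k P)
    (h2 : ∀ B ⊆ Finset.Icc 1 k, B.card = 2 → ∀ ψ ∈ P, EqS k d ψ true B → VanW k d ψ)
    {φ : FL F →ₗ[F] F} (hφ : φ ∈ P) : EqS k d φ false (Finset.Icc 1 k) := by
  intro p hp q hq hpq
  have hp1 : ({p} : Finset ℕ) ⊆ Finset.Icc 1 k := Finset.singleton_subset_iff.2 hp
  have hvan : VanW k d (gar φ true {p} q) := by
    apply h2 {p, q} _ (Finset.card_pair hpq) _ (gar_mem hP hφ true hp1 hq)
      (gar_single hp hq hpq)
    intro x hx
    simp only [Finset.mem_insert, Finset.mem_singleton] at hx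
    rcases hx with rfl | rfl
    · exact hp
    · exact hq
  exact eqv_of_van hvan

/-- The case `k = 4`. -/
theorem chain4 {P : Submodule F (FL F →ₗ[F] F)} (hP : FStab 4 P) {d : ℕ}
    (h44 : ∀ φ ∈ P, EqS 4 d φ false {1, 2, 3, 4} → VanW 4 d φ)
    (h41111 : ∀ φ ∈ P, EqS 4 d φ true {1, 2, 3, 4} → VanW 4 d φ)
    (h4211 : ∀ φ ∈ P, EqS 4 d φ true {2, 3, 4} → VanW 4 d (gar φ true {2, 3, 4} 1) → VanW 4 d φ)
    (h431 : ∀ φ ∈ P, EqS 4 d φ false {2, 3, 4} → VanW 4 d (gar φ false {2, 3, 4} 1) → VanW 4 d φ)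
    (h422 : ∀ φ ∈ P, EqS 4 d φ true {1, 2} → EqS 4 d φ true {3, 4} →
      VanW 4 d (gar φ true {1, 2} 3) → VanW 4 d (gar φ true {1, 2} 4) → VanW 4 d φ) :
    ∀ φ ∈ P, VanW 4 d φ := by
  have s4 : ({1, 2, 3, 4} : Finset ℕ) ⊆ Finset.Icc 1 4 := by decide
  have s3 : ({2, 3, 4} : Finset ℕ) ⊆ Finset.Icc 1 4 := by decide
  have s2 : ({1, 2} : Finset ℕ) ⊆ Finset.Icc 1 4 := by decide
  have m1 : 1 ∈ Finset.Icc 1 4 := by decide
  have m3 : 3 ∈ Finset.Icc 1 4 := by decide
  have m4 : 4 ∈ Finset.Icc 1 4 := by decide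
  have Z3a : ∀ B ⊆ Finset.Icc 1 4, B.card = 3 → ∀ ψ ∈ P, EqS 4 d ψ true B → VanW 4 d ψ := by
    intro B hB hc
    apply Z2.one hP (A := {2, 3, 4}) _ s3 hB (by rw [hc]; rfl)
    intro φ hφ h
    exact h4211 φ hφ h (h41111 _ (gar_mem hP hφ true s3 m1) (gar_eqS s3 m1 (by decide) h))
  have Z3s : ∀ B ⊆ Finset.Icc 1 4, B.card = 3 → ∀ ψ ∈ P, EqS 4 d ψ false B → VanW 4 d ψ := by
    intro B hB hc
    apply Z2.one hP (A := {2, 3, 4}) _ s3 hB (by rw [hc]; rfl)
    intro φ hφ h
    exact h431 φ hφ h (h44 _ (gar_mem hP hφ false s3 m1) (gar_eqS s3 m1 (by decide) h))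
  have Z22 : ∀ φ ∈ P, EqS 4 d φ true {1, 2} → EqS 4 d φ true {3, 4} → VanW 4 d φ := by
    intro φ hφ h1 h2
    exact h422 φ hφ h1 h2
      (Z3a _ (by decide) (by decide) _ (gar_mem hP hφ true s2 m3) (gar_eqS s2 m3 (by decide) h1))
      (Z3a _ (by decide) (by decide) _ (gar_mem hP hφ true s2 m4) (gar_eqS s2 m4 (by decide) h1))
  have Z2a : ∀ φ ∈ P, EqS 4 d φ true {1, 2} → VanW 4 d φ := by
    intro φ hφ h
    have h1 : EqvW 4 d φ 3 4 false := by
      apply eqv_of_van (alt := true)
      apply Z22 _ (gar_mem hP hφ true (by decide) m4)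
      · exact gar_eqS' (by decide) m4 s2 (by decide) h
      · exact gar_single m3 m4 (by decide)
    apply step hP hφ s2 m3 m4 (by decide) (by decide) (by decide) h h1
    · exact Z3a
    · intro i hi ψ hψ h3 _
      apply Z3s _ _ _ ψ hψ h3
      · intro x hx
        simp only [Finset.mem_insert, Finset.mem_singleton] at hx hi
        rcases hx with rfl | rfl | rfl
        · decide
        · decide
        · rcases hi with rfl | rfl <;> decide
      · simp only [Finset.mem_insert, Finset.mem_singleton] at hi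
        rcases hi with rfl | rfl <;> decide
  intro φ hφ
  exact h44 φ hφ (all_sym hP (fun B hB hc => Z2.one hP Z2a s2 hB (by rw [hc]; rfl)) hφ)

/-- The case `k = 5`: functionals which are antisymmetric in three letters. -/
theorem chain5a {P : Submodule F (FL F →ₗ[F] F)} (hP : FStab 5 P) {d : ℕ}
    (h311111 : ∀ φ ∈ P, EqS 5 d φ true {1, 2, 3, 4, 5} → VanW 5 d φ)
    (h32111 : ∀ φ ∈ P, EqS 5 d φ true {2, 3, 4, 5} → VanW 5 d (gar φ true {2, 3, 4, 5} 1) →
      VanW 5 d φ)
    (h3221 : ∀ φ ∈ P, EqS 5 d φ true {1, 2} → EqS 5 d φ true {3, 4, 5} →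
      VanW 5 d (gar φ true {3, 4, 5} 1) → VanW 5 d (gar φ true {3, 4, 5} 2) → VanW 5 d φ)
    (h3311 : ∀ φ ∈ P, EqS 5 d φ true {1, 2} → EqS 5 d φ false {3, 4, 5} → VanW 5 d φ) :
    ∀ A ⊆ Finset.Icc 1 5, A.card = 3 → ∀ φ ∈ P, EqS 5 d φ true A → VanW 5 d φ := by
  have s4 : ({2, 3, 4, 5} : Finset ℕ) ⊆ Finset.Icc 1 5 := by decide
  have s3 : ({3, 4, 5} : Finset ℕ) ⊆ Finset.Icc 1 5 := by decide
  have m1 : 1 ∈ Finset.Icc 1 5 := by decide
  have m2 : 2 ∈ Finset.Icc 1 5 := by decide
  have Z4a : ∀ B ⊆ Finset.Icc 1 5, B.card = 4 → ∀ ψ ∈ P, EqS 5 d ψ true B → VanW 5 d ψ := by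
    intro B hB hc
    apply Z2.one hP (A := {2, 3, 4, 5}) _ s4 hB (by rw [hc]; rfl)
    intro φ hφ h
    exact h32111 φ hφ h (h311111 _ (gar_mem hP hφ true s4 m1) (gar_eqS s4 m1 (by decide) h))
  have Z32 : ∀ φ ∈ P, EqS 5 d φ true {1, 2} → EqS 5 d φ true {3, 4, 5} → VanW 5 d φ := by
    intro φ hφ h1 h2
    exact h3221 φ hφ h1 h2
      (Z4a _ (by decide) (by decide) _ (gar_mem hP hφ true s3 m1) (gar_eqS s3 m1 (by decide) h2))
      (Z4a _ (by decide) (by decide) _ (gar_mem hP hφ true s3 m2) (gar_eqS s3 m2 (by decide) h2))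
  have h3311' : Z2 5 d P true {1, 2} false {3, 4, 5} := h3311
  have Z3a : ∀ φ ∈ P, EqS 5 d φ true {3, 4, 5} → VanW 5 d φ := by
    intro φ hφ h
    have h1 : EqvW 5 d φ 1 2 false := by
      apply eqv_of_van (alt := true)
      apply Z32 _ (gar_mem hP hφ true (by decide) m2)
      · exact gar_single m1 m2 (by decide)
      · exact gar_eqS' (by decide) m2 s3 (by decide) h
    apply step hP hφ s3 m1 m2 (by decide) (by decide) (by decide) h h1
    · exact Z4a
    · intro i hi ψ hψ h3 h4
      have key : Z2 5 d P true (({3, 4, 5} : Finset ℕ).erase i) false {1, 2, i} := by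
        simp only [Finset.mem_insert, Finset.mem_singleton] at hi
        rcases hi with rfl | rfl | rfl <;>
        exact h3311'.perm hP (by decide) (by decide) (by decide) (by decide) (by decide)
          (by decide) (by decide) (by decide)
      exact key ψ hψ h4 h3
  intro A hA hc
  exact Z2.one hP Z3a s3 hA (by rw [hc]; rfl)

/-- The case `k = 5`. -/
theorem chain5 {P : Submodule F (FL F →ₗ[F] F)} (hP : FStab 5 P) {d : ℕ}
    (h311111 : ∀ φ ∈ P, EqS 5 d φ true {1, 2, 3, 4, 5} → VanW 5 d φ)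
    (h32111 : ∀ φ ∈ P, EqS 5 d φ true {2, 3, 4, 5} → VanW 5 d (gar φ true {2, 3, 4, 5} 1) →
      VanW 5 d φ)
    (h3221 : ∀ φ ∈ P, EqS 5 d φ true {1, 2} → EqS 5 d φ true {3, 4, 5} →
      VanW 5 d (gar φ true {3, 4, 5} 1) → VanW 5 d (gar φ true {3, 4, 5} 2) → VanW 5 d φ)
    (h3311 : ∀ φ ∈ P, EqS 5 d φ true {1, 2} → EqS 5 d φ false {3, 4, 5} → VanW 5 d φ)
    (h332 : ∀ φ ∈ P, EqS 5 d φ false {1, 2} → EqS 5 d φ false {3, 4, 5} → VanW 5 d φ) :
    ∀ φ ∈ P, VanW 5 d φ := by
  have s3 : ({3, 4, 5} : Finset ℕ) ⊆ Finset.Icc 1 5 := by decide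
  have s2 : ({1, 2} : Finset ℕ) ⊆ Finset.Icc 1 5 := by decide
  have m1 : 1 ∈ Finset.Icc 1 5 := by decide
  have m2 : 2 ∈ Finset.Icc 1 5 := by decide
  have Z3a := chain5a hP h311111 h32111 h3221 h3311
  have Z3s : ∀ φ ∈ P, EqS 5 d φ false {3, 4, 5} → VanW 5 d φ := by
    intro φ hφ h
    have h1 : EqvW 5 d φ 1 2 true := by
      apply eqv_of_van (alt := false)
      apply h332 _ (gar_mem hP hφ false (by decide) m2)
      · exact gar_single m1 m2 (by decide)
      · exact gar_eqS' (by decide) m2 s3 (by decide) h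
    exact h3311 φ hφ (eqS_pair h1) h
  have Z3s' : ∀ B ⊆ Finset.Icc 1 5, B.card = 3 → ∀ ψ ∈ P, EqS 5 d ψ false B → VanW 5 d ψ :=
    fun B hB hc => Z2.one hP Z3s s3 hB (by rw [hc]; rfl)
  have Z2a : ∀ φ ∈ P, EqS 5 d φ true {1, 2} → VanW 5 d φ := by
    intro φ hφ h
    have h1 := step_anti hP s2 Z3s' Z3a hφ h
    exact Z3a {3, 4, 5} s3 (by decide) φ hφ (h1.mono (by decide))
  intro φ hφ
  apply Z3s φ hφ
  exact (all_sym hP (fun B hB hc => Z2.one hP Z2a s2 hB (by rw [hc]; rfl)) hφ).mono s3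

/-- The case `k = 6`, when symmetrizations in three letters vanish. -/
theorem chain6 {P : Submodule F (FL F →ₗ[F] F)} (hP : FStab 6 P) {d : ℕ}
    (hs : ∀ φ ∈ P, EqS 6 d φ false {1, 2, 3} → VanW 6 d φ)
    (h2111111 : ∀ φ ∈ P, EqS 6 d φ true {1, 2, 3, 4, 5, 6} → VanW 6 d φ)
    (h221111 : ∀ φ ∈ P, EqS 6 d φ true {2, 3, 4, 5, 6} →
      VanW 6 d (gar φ true {2, 3, 4, 5, 6} 1) → VanW 6 d φ)
    (h22211 : ∀ φ ∈ P, EqS 6 d φ true {1, 2} → EqS 6 d φ true {3, 4, 5, 6} →
      VanW 6 d (gar φ true {3, 4, 5, 6} 1) → VanW 6 d (gar φ true {3, 4, 5, 6} 2) → VanW 6 d φ)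
    (h2222 : ∀ φ ∈ P, EqS 6 d φ true {1, 2, 3} → EqS 6 d φ true {4, 5, 6} →
      VanW 6 d (gar φ true {4, 5, 6} 1) → VanW 6 d (gar φ true {4, 5, 6} 2) →
      VanW 6 d (gar φ true {4, 5, 6} 3) → VanW 6 d φ) :
    ∀ φ ∈ P, VanW 6 d φ := by
  have s5 : ({2, 3, 4, 5, 6} : Finset ℕ) ⊆ Finset.Icc 1 6 := by decide
  have s4 : ({3, 4, 5, 6} : Finset ℕ) ⊆ Finset.Icc 1 6 := by decide
  have s3 : ({1, 2, 3} : Finset ℕ) ⊆ Finset.Icc 1 6 := by decide
  have s3' : ({4, 5, 6} : Finset ℕ) ⊆ Finset.Icc 1 6 := by decide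
  have s2 : ({1, 2} : Finset ℕ) ⊆ Finset.Icc 1 6 := by decide
  have m1 : 1 ∈ Finset.Icc 1 6 := by decide
  have m2 : 2 ∈ Finset.Icc 1 6 := by decide
  have m3 : 3 ∈ Finset.Icc 1 6 := by decide
  have Z3s : ∀ B ⊆ Finset.Icc 1 6, B.card = 3 → ∀ ψ ∈ P, EqS 6 d ψ false B → VanW 6 d ψ :=
    fun B hB hc => Z2.one hP hs s3 hB (by rw [hc]; rfl)
  have Z5a : ∀ B ⊆ Finset.Icc 1 6, B.card = 5 → ∀ ψ ∈ P, EqS 6 d ψ true B → VanW 6 d ψ := by
    intro B hB hc
    apply Z2.one hP (A := {2, 3, 4, 5, 6}) _ s5 hB (by rw [hc]; rfl)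
    intro φ hφ h
    exact h221111 φ hφ h (h2111111 _ (gar_mem hP hφ true s5 m1) (gar_eqS s5 m1 (by decide) h))
  have Z42 : ∀ φ ∈ P, EqS 6 d φ true {1, 2} → EqS 6 d φ true {3, 4, 5, 6} → VanW 6 d φ := by
    intro φ hφ h1 h2
    exact h22211 φ hφ h1 h2
      (Z5a _ (by decide) (by decide) _ (gar_mem hP hφ true s4 m1) (gar_eqS s4 m1 (by decide) h2))
      (Z5a _ (by decide) (by decide) _ (gar_mem hP hφ true s4 m2) (gar_eqS s4 m2 (by decide) h2))
  have Z4a : ∀ B ⊆ Finset.Icc 1 6, B.card = 4 → ∀ ψ ∈ P, EqS 6 d ψ true B → VanW 6 d ψ := by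
    intro B hB hc
    apply Z2.one hP (A := {3, 4, 5, 6}) _ s4 hB (by rw [hc]; rfl)
    intro φ hφ h
    have h1 : EqvW 6 d φ 1 2 false := by
      apply eqv_of_van (alt := true)
      apply Z42 _ (gar_mem hP hφ true (by decide) m2)
      · exact gar_single m1 m2 (by decide)
      · exact gar_eqS' (by decide) m2 s4 (by decide) h
    apply step hP hφ s4 m1 m2 (by decide) (by decide) (by decide) h h1
    · exact Z5a
    · intro i hi ψ hψ h3 _
      simp only [Finset.mem_insert, Finset.mem_singleton] at hi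
      rcases hi with rfl | rfl | rfl | rfl <;>
      exact Z3s _ (by decide) (by decide) ψ hψ h3
  have Z33 : ∀ φ ∈ P, EqS 6 d φ true {1, 2, 3} → EqS 6 d φ true {4, 5, 6} → VanW 6 d φ := by
    intro φ hφ h1 h2
    exact h2222 φ hφ h1 h2
      (Z4a _ (by decide) (by decide) _ (gar_mem hP hφ true s3' m1)
        (gar_eqS s3' m1 (by decide) h2))
      (Z4a _ (by decide) (by decide) _ (gar_mem hP hφ true s3' m2)
        (gar_eqS s3' m2 (by decide) h2))
      (Z4a _ (by decide) (by decide) _ (gar_mem hP hφ true s3' m3)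
        (gar_eqS s3' m3 (by decide) h2))
  have Z3a : ∀ B ⊆ Finset.Icc 1 6, B.card = 3 → ∀ ψ ∈ P, EqS 6 d ψ true B → VanW 6 d ψ := by
    intro B hB hc
    apply Z2.one hP (A := {1, 2, 3}) _ s3 hB (by rw [hc]; rfl)
    intro φ hφ h
    have h1 := step_anti hP s3 Z3s Z4a hφ h
    exact Z33 φ hφ h (h1.mono (by decide))
  have Z2a : ∀ φ ∈ P, EqS 6 d φ true {1, 2} → VanW 6 d φ := by
    intro φ hφ h
    have h1 := step_anti hP s2 Z3s Z3a hφ h
    exact Z4a {3, 4, 5, 6} s4 (by decide) φ hφ (h1.mono (by decide))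
  intro φ hφ
  apply hs φ hφ
  exact (all_sym hP (fun B hB hc => Z2.one hP Z2a s2 hB (by rw [hc]; rfl)) hφ).mono s3

/-- `k = 4`: no antisymmetric functionals in two letters and no symmetric ones. -/
theorem chain43 {P : Submodule F (FL F →ₗ[F] F)} (hP : FStab 4 P) {d : ℕ}
    (hs : ∀ φ ∈ P, EqS 4 d φ false {1, 2, 3, 4} → VanW 4 d φ)
    (ha : ∀ φ ∈ P, EqS 4 d φ true {1, 2} → VanW 4 d φ) : ∀ φ ∈ P, VanW 4 d φ := by
  intro φ hφ
  apply hs φ hφ
  exact (all_sym hP (fun B hB hc => Z2.one hP ha (by decide) hB (by rw [hc]; rfl)) hφ).mono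
    (by decide)

/-- `k = 5`, when symmetrizations in three letters vanish. -/
theorem chain52 {P : Submodule F (FL F →ₗ[F] F)} (hP : FStab 5 P) {d : ℕ}
    (hs : ∀ φ ∈ P, EqS 5 d φ false {1, 2, 3} → VanW 5 d φ)
    (h5 : ∀ φ ∈ P, EqS 5 d φ true {1, 2, 3, 4, 5} → VanW 5 d φ)
    (h4 : ∀ φ ∈ P, EqS 5 d φ true {2, 3, 4, 5} → VanW 5 d φ)
    (h32 : ∀ φ ∈ P, EqS 5 d φ true {3, 4, 5} → EqS 5 d φ true {1, 2} → VanW 5 d φ) :
    ∀ φ ∈ P, VanW 5 d φ := by
  have s3 : ({3, 4, 5} : Finset ℕ) ⊆ Finset.Icc 1 5 := by decide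
  have s3' : ({1, 2, 3} : Finset ℕ) ⊆ Finset.Icc 1 5 := by decide
  have s2 : ({1, 2} : Finset ℕ) ⊆ Finset.Icc 1 5 := by decide
  have m1 : 1 ∈ Finset.Icc 1 5 := by decide
  have m2 : 2 ∈ Finset.Icc 1 5 := by decide
  have Z3s : ∀ B ⊆ Finset.Icc 1 5, B.card = 3 → ∀ ψ ∈ P, EqS 5 d ψ false B → VanW 5 d ψ :=
    fun B hB hc => Z2.one hP hs s3' hB (by rw [hc]; rfl)
  have Z4a : ∀ B ⊆ Finset.Icc 1 5, B.card = 4 → ∀ ψ ∈ P, EqS 5 d ψ true B → VanW 5 d ψ :=
    fun B hB hc => Z2.one hP h4 (by decide) hB (by rw [hc]; rfl)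
  have Z3a : ∀ B ⊆ Finset.Icc 1 5, B.card = 3 → ∀ ψ ∈ P, EqS 5 d ψ true B → VanW 5 d ψ := by
    intro B hB hc
    apply Z2.one hP (A := {3, 4, 5}) _ s3 hB (by rw [hc]; rfl)
    intro φ hφ h
    have h1 : EqvW 5 d φ 1 2 false := by
      apply eqv_of_van (alt := true)
      apply h32 _ (gar_mem hP hφ true (by decide) m2)
      · exact gar_eqS' (by decide) m2 s3 (by decide) h
      · exact gar_single m1 m2 (by decide)
    apply step hP hφ s3 m1 m2 (by decide) (by decide) (by decide) h h1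
    · exact Z4a
    · intro i hi ψ hψ h3 _
      simp only [Finset.mem_insert, Finset.mem_singleton] at hi
      rcases hi with rfl | rfl | rfl <;>
      exact Z3s _ (by decide) (by decide) ψ hψ h3
  have Z2a : ∀ φ ∈ P, EqS 5 d φ true {1, 2} → VanW 5 d φ := by
    intro φ hφ h
    have h1 := step_anti hP s2 Z3s Z3a hφ h
    exact Z3a {3, 4, 5} s3 (by decide) φ hφ (h1.mono (by decide))
  intro φ hφ
  apply hs φ hφ
  exact (all_sym hP (fun B hB hc => Z2.one hP Z2a s2 hB (by rw [hc]; rfl)) hφ).mono s3'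

/-! ### The functionals of a level -/

/-- The functionals of the level `(k, d)` modulo `T` killed by the operators in `L`. -/
def PAdm (T : Submodule F (FL F)) (k d : ℕ) (L : Set (Module.End F (FL F))) :
    Submodule F (FL F →ₗ[F] F) where
  carrier := {φ | Adm T k d ∅ L φ}
  add_mem' := by
    intro φ ψ hφ hψ
    refine ⟨fun w hw => ?_, fun w hw hw2 => ?_, fun p hp => absurd hp (Set.notMem_empty p),
      fun e he σ hσ w hw => ?_⟩
    · rw [LinearMap.add_apply, hφ.lam w hw, hψ.lam w hw, add_zero]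
    · rw [LinearMap.add_apply, hφ.ideal w hw hw2, hψ.ideal w hw hw2, add_zero]
    · rw [LinearMap.add_apply, hφ.kill e he σ hσ w hw, hψ.kill e he σ hσ w hw, add_zero]
  zero_mem' := ⟨fun _ _ => rfl, fun _ _ _ => rfl, fun p hp => absurd hp (Set.notMem_empty p),
    fun _ _ _ _ _ _ => rfl⟩
  smul_mem' := by
    intro c φ hφ
    refine ⟨fun w hw => ?_, fun w hw hw2 => ?_, fun p hp => absurd hp (Set.notMem_empty p),
      fun e he σ hσ w hw => ?_⟩
    · rw [LinearMap.smul_apply, hφ.lam w hw, smul_zero]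
    · rw [LinearMap.smul_apply, hφ.ideal w hw hw2, smul_zero]
    · rw [LinearMap.smul_apply, hφ.kill e he σ hσ w hw, smul_zero]

theorem mem_PAdm {T : Submodule F (FL F)} {k d : ℕ} {L : Set (Module.End F (FL F))}
    {φ : FL F →ₗ[F] F} : φ ∈ PAdm T k d L ↔ Adm T k d ∅ L φ := Iff.rfl

theorem PAdm.lf {T : Submodule F (FL F)} {k d : ℕ} {L : Set (Module.End F (FL F))}
    {φ : FL F →ₗ[F] F} (h : φ ∈ PAdm T k d L) : LF T k d φ := ⟨h.lam, h.ideal⟩

theorem PAdm.stab {T : Submodule F (FL F)} (hT : IsTIdeal F T) (k d : ℕ)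
    (L : Set (Module.End F (FL F))) : FStab k (PAdm T k d L) := by
  intro φ hφ σ hσ
  have h1 := (PAdm.lf hφ).ren hT hσ
  refine ⟨h1.lam, h1.ideal, fun p hp => absurd hp (Set.notMem_empty p),
    fun e he τ hτ w hw => ?_⟩
  change φ (ren σ (ren τ (e w))) = 0
  rw [ren_ren]
  exact hφ.kill e he (σ * τ) (fun i hi => by
    rw [Equiv.Perm.mul_apply, hτ i hi, hσ i hi]) w hw

/-- Symmetric functionals in more than `d` letters vanish. -/
theorem PAdm.sym {T : Submodule F (FL F)} {k d : ℕ} {L : Set (Module.End F (FL F))}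
    {φ : FL F →ₗ[F] F} (h : φ ∈ PAdm T k d L) {A : Finset ℕ} (hA : A ⊆ Finset.Icc 1 k)
    (hc : d < A.card) (hs : EqS k d φ false A) : VanW k d φ := by
  intro w hw
  have h1 : φ (symL A.toList w) = 0 := by
    apply h.lam
    apply sym_kill (by simp) (Finset.nodup_toList A)
      (fun a ha => hA (Finset.mem_toList.1 ha)) (by rw [Finset.length_toList]; exact hc) hw
  have h2 := functional_symE (F := F) (ε := 1) (by ring) A.toList (Finset.nodup_toList A)
    (W (F := F) k d) (fun a ha b hb w hw => W_swap (hA (Finset.mem_toList.1 ha))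
      (hA (Finset.mem_toList.1 hb)) hw) φ (fun a ha b hb hab w hw =>
      hs a (Finset.mem_toList.1 ha) b (Finset.mem_toList.1 hb) hab w hw) w hw
  change φ (symL A.toList w) = _ at h2
  rw [h1] at h2
  exact (mul_eq_zero.1 h2.symm).resolve_left (Nat.cast_ne_zero.2 (Nat.factorial_ne_zero _))

theorem alt_val {φ : FL F →ₗ[F] F} {l : List ℕ} (hl : l.Nodup)
    (hlk : ∀ a ∈ l, a ∈ Finset.Icc 1 k) (hs : EqS k d φ true l.toFinset) :
    ∀ w ∈ W (F := F) k d, φ (altL l w) = (l.length.factorial : F) * φ w :=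
  functional_symE (F := F) (ε := -1) (by ring) l hl
    (W (F := F) k d) (fun a ha b hb w hw => W_swap (hlk a ha) (hlk b hb) hw) φ
    (fun a ha b hb hab w hw => hs a (List.mem_toFinset.2 ha) b (List.mem_toFinset.2 hb) hab w hw)

/-- An antisymmetric functional killed by the antisymmetrizer vanishes. -/
theorem PAdm.alt {T : Submodule F (FL F)} {k d : ℕ} {L : Set (Module.End F (FL F))}
    {φ : FL F →ₗ[F] F} (h : φ ∈ PAdm T k d L) {l : List ℕ} (hl : l.Nodup)
    (hlk : ∀ a ∈ l, a ∈ Finset.Icc 1 k) (hL : altL l ∈ L) (hs : EqS k d φ true l.toFinset) :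
    VanW k d φ := by
  intro w hw
  have h1 := h.kill _ hL 1 (fun _ _ => rfl) w hw
  rw [Equiv.Perm.coe_one, ren_id'] at h1
  rw [alt_val hl hlk hs w hw] at h1
  exact (mul_eq_zero.1 h1).resolve_left (Nat.cast_ne_zero.2 (Nat.factorial_ne_zero _))

theorem PAdm.alt2 {T : Submodule F (FL F)} {k d : ℕ} {L : Set (Module.End F (FL F))}
    {φ : FL F →ₗ[F] F} (h : φ ∈ PAdm T k d L) {l l' : List ℕ} (hl : l.Nodup) (hl' : l'.Nodup)
    (hlk : ∀ a ∈ l, a ∈ Finset.Icc 1 k) (hlk' : ∀ a ∈ l', a ∈ Finset.Icc 1 k)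
    (hL : altL l * altL l' ∈ L) (hs : EqS k d φ true l.toFinset)
    (hs' : EqS k d φ true l'.toFinset) : VanW k d φ := by
  intro w hw
  have h1 := h.kill _ hL 1 (fun _ _ => rfl) w hw
  rw [Equiv.Perm.coe_one, ren_id', Module.End.mul_apply,
    alt_val hl hlk hs _ (GA_mem (stab_WW (by simp) d) (altL_mem_GA l' hlk') hw),
    alt_val hl' hlk' hs' w hw] at h1
  exact (mul_eq_zero.1 ((mul_eq_zero.1 h1).resolve_left
    (Nat.cast_ne_zero.2 (Nat.factorial_ne_zero _)))).resolve_left
    (Nat.cast_ne_zero.2 (Nat.factorial_ne_zero _))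

/-- If all functionals of the level vanish then the level is zero modulo `T`. -/
theorem LZ_of_van {T : Submodule F (FL F)} (hT : IsTIdeal F T) {k d : ℕ}
    (h : ∀ φ ∈ PAdm T k d ∅, VanW k d φ) : LZ T k d := by
  intro f hf
  rw [mem_KE] at hf
  apply mem_T_of_ker hT hf.2
  by_contra hcon
  set B : Submodule F (FL F) := Lam (Finset.Icc 1 k) d ⊔ (T ⊓ W k d) with hB
  have h1 : B.mkQ f ≠ 0 := by
    intro h2
    rw [Submodule.mkQ_apply, Submodule.Quotient.mk_eq_zero] at h2
    exact hcon h2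
  obtain ⟨l, hl⟩ := exists_functional (F := F) h1
  have h2 : ∀ w ∈ B, (l.comp B.mkQ) w = 0 := by
    intro w hw
    rw [LinearMap.comp_apply, Submodule.mkQ_apply, (Submodule.Quotient.mk_eq_zero B).2 hw,
      map_zero]
  exact hl (h (l.comp B.mkQ) ⟨fun w hw => h2 w (Submodule.mem_sup_left hw),
    fun w hw hw2 => h2 w (Submodule.mem_sup_right ⟨hw, hw2⟩),
    fun p hp => absurd hp (Set.notMem_empty p),
    fun e he => absurd he (Set.notMem_empty e)⟩ f hf.1)

end

end Pool.Agent.Lib.MP_b4a71d_al.Eng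
end

section

/-!
# MP_b4a71d_al, finite check engine: from the conditions on functionals to the certificates
-/

set_option autoImplicit false
set_option linter.unusedSectionVars false

namespace Pool.Agent.Lib.MP_b4a71d_al.Eng

universe u

noncomputable section

variable {F : Type u} [Field F] [CharZero F]

/-! ### The zero test -/

/-- all coefficients of the expansion of a combination of trees are zero -/
def zC (n : ℕ) (cb : Cb) : Bool :=
  match rowC [] n cb with
  | none => false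
  | some r => allZ (r.map (fun x => x.1))

theorem rowV_allZ (φ : FL F →ₗ[F] F) (n : ℕ) {r : Row} (h : allZ (r.map (fun x => x.1)) = true) :
    rowV φ n r = 0 := by
  induction r with
  | nil => rfl
  | cons a r ih =>
    rw [List.map_cons, allZ, Bool.and_eq_true] at h
    rw [rowV, ih h.2, isZ_iff.1 h.1]
    simp

/-- The zero test is sound. -/
theorem zC_sound {n : ℕ} {cb : Cb} (h : zC n cb = true) : (evC cb : FL F) = 0 := by
  rw [← Module.forall_dual_apply_eq_zero_iff F]
  intro φ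
  have hφ : Eqv φ [] := fun g hg => by simp at hg
  rw [zC] at h
  cases h1 : rowC [] n cb with
  | none => rw [h1] at h; simp at h
  | some r =>
    rw [h1] at h
    dsimp only at h
    rw [← rowV_rowC hφ h1]
    exact rowV_allZ φ n h

/-- multiplication of a combination by an integer -/
def sC (c : ℤ) : Cb → Cb
  | [] => []
  | a :: p => (c * a.1, a.2) :: sC c p

theorem evC_sC (c : ℤ) (p : Cb) : (evC (sC c p) : FL F) = c • evC p := by
  induction p with
  | nil => simp [sC, evC]
  | cons a p ih => rw [sC, evC, ih, evC, smul_add, smul_smul]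

/-- renaming of a combination -/
def mpC (g : ℕ → ℕ) : Cb → Cb
  | [] => []
  | a :: p => (a.1, a.2.mp g) :: mpC g p

theorem evC_mpC (g : ℕ → ℕ) (p : Cb) : (evC (mpC g p) : FL F) = ren g (evC p) := by
  induction p with
  | nil => simp [mpC, evC]
  | cons a p ih =>
    rw [mpC, evC, ih, evC, map_add, ev_mp]
    congr 1
    rw [← Int.cast_smul_eq_zsmul F, ← Int.cast_smul_eq_zsmul F, map_smul]

/-- substitution of trees in a combination -/
def sbC (g : ℕ → Tr) : Cb → Cb
  | [] => []
  | a :: p => (a.1, a.2.sub g) :: sbC g p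

theorem evC_sbC (g : ℕ → Tr) (p : Cb) : (evC (sbC g p) : FL F) =
    FreeLieAlgebra.lift F (fun i => ((g i).ev : FL F)) (evC p) := by
  induction p with
  | nil => simp [sbC, evC]
  | cons a p ih =>
    rw [sbC, evC, ih, evC, map_add, sub_ev]
    congr 1
    rw [← Int.cast_smul_eq_zsmul F, ← Int.cast_smul_eq_zsmul F, map_smul]

/-! ### Certificates -/

/-- The main theorem of the engine in terms of functionals of a level. -/
theorem Cert.zero {c : Cert} {d : ℕ} (hok : (c.chk && c.cov d) = true) (hk : 1 ≤ c.cx.k)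
    {T : Submodule F (FL F)} (hT : IsTIdeal F T) {φ : FL F →ₗ[F] F} (hφ : LF T c.cx.k d φ)
    (hg : GrpOK c.cx d φ) {B : List (ℕ → F)} {x : Kn × List Cb × List St}
    (hB : FamsW T x.1 c.fams B) (hx : x ∈ c.cases) (hkn : KnOK B x.1)
    (hex : ∀ cb ∈ x.2.1, ext c.cx.k d φ (evC cb) = 0) : VanW c.cx.k d φ := by
  rw [Bool.and_eq_true] at hok
  have hty := ext_typeOK hk hφ hg
  have htb := Cert.table_zero hok.1 hty hT (fun f hf => ext_T hT hφ.ideal hf) hB hx hkn hex
  intro w hw
  rw [← ext_W φ hw]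
  exact Cert.zero_on_W hk hok.2 hty.eqv htb w hw

theorem EqvW.comb {k d a b : ℕ} {alt : Bool} {φ ψ : FL F →ₗ[F] F} (h : EqvW k d φ a b alt)
    (h' : EqvW k d ψ a b alt) (x y : F) : EqvW k d (x • φ + y • ψ) a b alt := by
  intro w hw
  simp only [LinearMap.add_apply, LinearMap.smul_apply, smul_eq_mul]
  rw [h w hw, h' w hw]
  ring

theorem GrpOK.comb {cx : Cx} {d : ℕ} {φ ψ : FL F →ₗ[F] F} (h : GrpOK cx d φ)
    (h' : GrpOK cx d ψ) (x y : F) : GrpOK cx d (x • φ + y • ψ) where
  gs g hg := by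
    obtain ⟨h1, h2, h3⟩ := h.gs g hg
    exact ⟨h1, h2, fun a m ha1 ha2 hm1 hm2 ham => (h3 a m ha1 ha2 hm1 hm2 ham).comb
      ((h'.gs g hg).2.2 a m ha1 ha2 hm1 hm2 ham) x y⟩
  zg j h1 h2 := ⟨(h.zg j h1 h2).1, (h.zg j h1 h2).2.1,
    (h.zg j h1 h2).2.2.comb (h'.zg j h1 h2).2.2 x y⟩
  low l hl := by
    obtain ⟨h1, h2⟩ := h.low l hl
    refine ⟨h1, fun j hj => ⟨(h2 j hj).1, fun w hw => ?_⟩⟩
    have h3 := (h2 j hj).2 w hw
    have h4 := ((h'.low l hl).2 j hj).2 w hw
    have key : ∀ L : List ℕ, (L.map (fun m => (x • φ + y • ψ) (ren (Equiv.swap m j) w))).sum =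
        x * (L.map (fun m => φ (ren (Equiv.swap m j) w))).sum +
          y * (L.map (fun m => ψ (ren (Equiv.swap m j) w))).sum := by
      intro L
      induction L with
      | nil => simp
      | cons a L ih =>
        rw [List.map_cons, List.sum_cons, ih, List.map_cons, List.sum_cons, List.map_cons,
          List.sum_cons]
        simp only [LinearMap.add_apply, LinearMap.smul_apply, smul_eq_mul]
        ring
    rw [key]
    simp only [LinearMap.add_apply, LinearMap.smul_apply, smul_eq_mul]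
    linear_combination x * h3 + y * h4

/-- Two functionals of the type are dependent if one value determines the functional. -/
theorem Cert.dep {c : Cert} {d : ℕ} (hok : (c.chk && c.cov d) = true) (hk : 1 ≤ c.cx.k)
    {T : Submodule F (FL F)} (hT : IsTIdeal F T) {φ ψ : FL F →ₗ[F] F} (hφ : LF T c.cx.k d φ)
    (hψ : LF T c.cx.k d ψ) (hg : GrpOK c.cx d φ) (hg' : GrpOK c.cx d ψ) {B : List (ℕ → F)}
    (hB : FamsT T c.fams B) {x : Kn × List Cb × List St} (hx : x ∈ c.cases) (hkn : KnOK B x.1)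
    (hex : x.2.1.length ≤ 1) : ∃ a b : F, (a ≠ 0 ∨ b ≠ 0) ∧
      ∀ w ∈ W (F := F) c.cx.k d, a * φ w + b * ψ w = 0 := by
  rcases h : x.2.1 with _ | ⟨cb, l⟩
  · refine ⟨1, 0, Or.inl one_ne_zero, fun w hw => ?_⟩
    have := Cert.zero hok hk hT hφ hg (hB.weak _) hx hkn (by rw [h]; simp) w hw
    rw [this]
    ring
  · rcases l with _ | ⟨cb', l⟩
    · by_cases hp : ext c.cx.k d φ (evC cb) = 0
      · refine ⟨1, 0, Or.inl one_ne_zero, fun w hw => ?_⟩
        have := Cert.zero hok hk hT hφ hg (hB.weak _) hx hkn (by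
          rw [h]
          intro cb' hcb'
          rw [List.mem_singleton] at hcb'
          rw [hcb', hp]) w hw
        rw [this]
        ring
      · refine ⟨ext c.cx.k d ψ (evC cb), -ext c.cx.k d φ (evC cb), Or.inr (neg_ne_zero.2 hp),
          fun w hw => ?_⟩
        have := Cert.zero hok hk hT ((hφ.smul (ext c.cx.k d ψ (evC cb))).add
          (hψ.smul (-ext c.cx.k d φ (evC cb)))) (hg.comb hg' _ _) (hB.weak _) hx hkn (by
          rw [h]
          intro cb' hcb'
          rw [List.mem_singleton] at hcb'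
          rw [hcb', ext_apply]
          simp only [LinearMap.add_apply, LinearMap.smul_apply, smul_eq_mul]
          rw [← ext_apply, ← ext_apply]
          ring) w hw
        simpa only [LinearMap.add_apply, LinearMap.smul_apply, smul_eq_mul] using this
    · rw [h] at hex
      simp at hex

/-! ### Conditions for `GrpOK` -/

theorem EqS.range {k d : ℕ} {φ : FL F →ₗ[F] F} {alt : Bool} {A : Finset ℕ} (h : EqS k d φ alt A)
    {lo hi : ℕ} (hA : ∀ a, lo ≤ a → a < hi → a ∈ A) :
    ∀ a m, lo ≤ a → a < hi → lo ≤ m → m < hi → a ≠ m → EqvW k d φ a m alt :=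
  fun a m h1 h2 h3 h4 h5 => h a (hA a h1 h2) m (hA m h3 h4) h5

theorem gar_list {k d : ℕ} {φ : FL F →ₗ[F] F} {alt : Bool} {L : List ℕ} (hL : L.Nodup) {t : ℕ}
    (h : VanW k d (gar φ alt L.toFinset t)) : ∀ w ∈ W (F := F) k d,
      φ w + sg alt * (L.map (fun m => φ (ren (Equiv.swap m t) w))).sum = 0 := by
  intro w hw
  have h1 := h w hw
  rw [gar, LinearMap.add_apply, LinearMap.smul_apply, LinearMap.sum_apply, smul_eq_mul,
    List.sum_toFinset _ hL] at h1
  exact h1

end

end Pool.Agent.Lib.MP_b4a71d_al.Eng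
end
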