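import Pool.Agent.Lib.MP_b4a71d_al.TIdeal

section

/-!
# MP_b4a71d_al: the certificate of the type 2111111 in degree 8
-/

set_option autoImplicit false

namespace Pool.Agent.Lib.MP_b4a71d_al.Eng

open Tr

/-- The type 2111111. -/
def cx2111111 : Cx := ⟨7, 6, [(2, 7, true)], (2, 7, true), []⟩

def tl2111111 : Tb :=
  (.n (.n (.n (.n .e ⟨2107182, 20, [-3], .lam 2 1 [0, 0, 3, 4, 5, 6, 0]⟩ .e) ⟨2164526, 16, [1],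
      .sym 2 [0, 0, 2, 3, 4, 5, 6]⟩ .e) ⟨2175278, 17, [-1], .sym 2 [0, 2, 3, 0, 4, 5, 6]⟩ (.n
      (.n .e ⟨2177070, 18, [1], .sym 2 [0, 2, 3, 4, 0, 5, 6]⟩ .e) ⟨2177350, 19, [-1], .sym 2
      [0, 2, 3, 4, 5, 0, 6]⟩ .e)) ⟨2177392, 15, [1], .sym 2 [0, 2, 3, 4, 5, 6, 0]⟩ (.n (.n (.n
      .e ⟨2623278, 11, [2], .lam 2 1 [3, 0, 0, 4, 5, 6, 0]⟩ .e) ⟨2634030, 12, [-2], .lam 2 1
      [3, 0, 4, 0, 5, 6, 0]⟩ .e) ⟨2635822, 13, [2], .lam 2 1 [3, 0, 4, 5, 0, 6, 0]⟩ (.n .e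
      ⟨2636102, 14, [-2], .lam 2 1 [3, 0, 4, 5, 6, 0, 0]⟩ .e)))

def tr2111111 : Tb :=
  (.n (.n (.n (.n .e ⟨2720046, 0, [0], .sym 3 [0, 2, 3, 0, 4, 5, 6]⟩ .e) ⟨2721838, 1, [0], .sym 3
      [0, 2, 3, 4, 0, 5, 6]⟩ .e) ⟨2722118, 2, [0], .sym 3 [0, 2, 3, 4, 5, 0, 6]⟩ (.n (.n .e
      ⟨2722160, 3, [0], .sym 3 [0, 2, 3, 4, 5, 6, 0]⟩ .e) ⟨2736174, 4, [0], .sym 3 [2, 3, 4, 0,
      0, 5, 6]⟩ .e)) ⟨2736454, 5, [0], .sym 3 [2, 3, 4, 0, 5, 0, 6]⟩ (.n (.n (.n .e ⟨2736496,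
      6, [0], .sym 3 [2, 3, 4, 0, 5, 6, 0]⟩ .e) ⟨2738694, 7, [0], .sym 3 [2, 3, 4, 5, 0, 0, 6]⟩
      .e) ⟨2738736, 8, [0], .sym 3 [2, 3, 4, 5, 0, 6, 0]⟩ (.n .e ⟨2739072, 9, [0], .sym 3 [2,
      3, 4, 5, 6, 0, 0]⟩ .e)))

def tb2111111 : Tb := .n tl2111111 ⟨2636144, 10, [2], .bas 0⟩ tr2111111

def ce2111111 : Cert where
  cx := cx2111111
  D := 2
  bk := [2636144]
  tb := tb2111111
  pl := []
  fams := [(FB, [⟨[(b (l 1) (l 2))], [(b (l 3) (l 4)), (l 5), (l 6)], []⟩]),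
    (FA, [⟨[(b (l 1) (l 2)), (b (l 3) (l 4))], [(l 5), (l 6)], []⟩]),
    (FC, [⟨[], [(l 1), (l 2), (l 3), (b (l 4) (l 5))], [(l 6)]⟩])]
  cases := [([([], [0, 2]), ([], []), ([], [])], [], [.cm 0 0 [1] 1]),
    ([([0], [2]), ([], []), ([], [])], [], [.cm 0 2 [1] 1]),
    ([([2], [0, 1]), ([], []), ([], [])], [], [.cm 0 0 [1] 1]),
    ([([1, 2], [0]), ([], []), ([], [])], [], [.zr 0 1 [1]]),
    ([([0, 2], [1]), ([], [1]), ([], [])], [], [.cm 1 1 [1] 0]),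
    ([([0, 2], [1]), ([], []), ([], [0])], [], [.cm 2 0 [1] 1])]

def z02111111 : Zs :=
  []

def sv2111111 : List (List (List (List ℤ))) :=
  [[[[0], [-40], [0]]], [[[32], [0], [32]]], [[[0], [-120]]]]

theorem okt2111111 : chkTb ce2111111.cx ce2111111.tb ce2111111.D ce2111111.bk = true :=
  chkTb_node (by decide +kernel) (by decide +kernel) (by decide +kernel)

theorem okz2111111 : plainZ ce2111111.cx ce2111111.tb ce2111111.pl [] = some z02111111 := by decide +kernel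

theorem oks2111111 : famsV ce2111111.cx ce2111111.tb ce2111111.fams = some sv2111111 := by decide +kernel

theorem okc2111111 : chkCases ce2111111 z02111111 sv2111111 ce2111111.cases = true := by decide +kernel

theorem okv2111111 : ce2111111.cov 2 = true := by decide +kernel

theorem ok2111111 : (ce2111111.chk && ce2111111.cov 2) = true :=
  Cert.ok_of (Cert.chk_of okt2111111 (by decide) okz2111111 oks2111111 okc2111111) okv2111111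

end Pool.Agent.Lib.MP_b4a71d_al.Eng
end

section

/-!
# MP_b4a71d_al: the certificate of the type 221111 in degree 8
-/

set_option autoImplicit false

namespace Pool.Agent.Lib.MP_b4a71d_al.Eng

open Tr

/-- The type 221111. -/
def cx221111 : Cx := ⟨7, 6, [(2, 7, true)], (0, 0, false), [([2, 3, 4, 5, 6], [1], true)]⟩

def tl221111 : Tb :=
  (.n (.n (.n (.n .e ⟨2107182, 6, [0, 0, 3], .bas 2⟩ .e) ⟨2164526, 11, [0, 0, -1], .lam 2 1 [0,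
      3, 0, 0, 4, 5, 6]⟩ .e) ⟨2175278, 7, [0, -1, 3], .lam 2 1 [0, 0, 3, 0, 4, 5, 6]⟩ (.n (.n
      .e ⟨2177070, 17, [6, -6, -1], .lam 2 1 [0, 3, 4, 5, 0, 0, 6]⟩ .e) ⟨2177350, 8, [3, -4,
      3], .lam 2 1 [0, 0, 3, 4, 5, 0, 6]⟩ .e)) ⟨2177392, 9, [-3, 1, -3], .lam 2 1 [0, 0, 3, 4,
      5, 6, 0]⟩ (.n (.n (.n .e ⟨2623278, 12, [0, 0, -2], .lam 2 1 [3, 0, 0, 0, 4, 5, 6]⟩ .e)
      ⟨2634030, 4, [0, 1, 0], .lam 2 1 [3, 0, 4, 0, 5, 6, 0]⟩ .e) ⟨2635822, 16, [6, -4, 0],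
      .lam 1 2 [0, 3, 0, 4, 5, 6, 0]⟩ (.n .e ⟨2636102, 5, [-3, 4, 0], .lam 2 1 [3, 0, 4, 5, 6,
      0, 0]⟩ .e)))

def tr221111 : Tb :=
  (.n (.n (.n (.n .e ⟨2720046, 10, [0, -1, 2], .lam 1 2 [0, 3, 0, 0, 4, 5, 6]⟩ .e) ⟨2721838, 18,
      [6, -6, 0], .lam 2 1 [3, 4, 0, 5, 0, 0, 6]⟩ .e) ⟨2722118, 13, [3, -4, 2], .lam 2 1 [3, 4,
      0, 0, 5, 0, 6]⟩ (.n (.n .e ⟨2722160, 14, [-3, 1, -2], .lam 2 1 [3, 4, 0, 0, 5, 6, 0]⟩ .e)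
      ⟨2736174, 19, [-6, 7, -2], .lam 2 1 [3, 4, 5, 0, 0, 0, 6]⟩ .e)) ⟨2736454, 2, [-3, 3, 0],
      .lam 2 1 [3, 4, 5, 0, 6, 0, 0]⟩ (.n (.n (.n .e ⟨2736496, 0, [3, 0, 0], .bas 0⟩ .e)
      ⟨2738694, 15, [9, -10, 2], .lam 1 2 [0, 3, 0, 4, 5, 0, 6]⟩ .e) ⟨2738736, 20, [-9, 7, -2],
      .lam 2 1 [3, 4, 5, 6, 0, 0, 0]⟩ (.n .e ⟨2739072, 1, [0, 3, 0], .bas 1⟩ .e)))

def tb221111 : Tb := .n tl221111 ⟨2636144, 3, [3, -1, 0], .low 0 1 [0, 2, 3, 4, 5, 6, 0]⟩ tr221111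

def ce221111 : Cert where
  cx := cx221111
  D := 3
  bk := [2736496, 2739072, 2107182]
  tb := tb221111
  pl := [.lam 2 1 [0, 0, 3, 4, 0, 5, 6]]
  fams := [(FB, [⟨[(b (l 2) (l 3))], [(l 1), (l 4), (l 5)], [(l 6)]⟩, ⟨[(b (l 1) (l 2))], [(b (l 3) (l
      4)), (l 5), (l 6)], []⟩]),
    (FA, [⟨[(b (l 1) (l 2)), (b (l 3) (l 4))], [(l 5), (l 6)], []⟩]),
    (FC, [⟨[], [(l 2), (l 3), (l 1), (l 4)], [(l 5), (l 6)]⟩])]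
  cases := [([([], [0, 2]), ([], []), ([], [])], [], [.cm 0 0 [1, 1] 1, .cm 0 0 [1, 1] 2]),
    ([([0], [2]), ([], []), ([], [])], [], [.zr 0 0 [1], .cm 0 2 [1] 1]),
    ([([2], [0, 1]), ([], []), ([], [])], [], [.zr 0 2 [1], .cm 0 0 [1] 1]),
    ([([1, 2], [0]), ([], []), ([], [])], [], [.zr 0 1 [1], .zr 0 1 [0, 1]]),
    ([([0, 2], [1]), ([], [1]), ([], [])], [], [.zr 0 0 [1], .cm 1 1 [1] 0]),
    ([([0, 2], [1]), ([], []), ([], [0])], [], [.zr 0 0 [1], .cm 2 0 [1] 1])]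

def z0221111 : Zs :=
  [(0, [12, -10, 2])]

def sv221111 : List (List (List (List ℤ))) :=
  [[[[36, -36, 0], [0, 30, -60], [-144, 144, 0]], [[252, -204, 48], [-588, 510, -128], [252, -204,
      48]]], [[[336, -296, 80], [-204, 164, -40], [-72, 32, 0]]], [[[36, -40, -4], [48, -40,
      -52]]]]

theorem okt221111 : chkTb ce221111.cx ce221111.tb ce221111.D ce221111.bk = true :=
  chkTb_node (by decide +kernel) (by decide +kernel) (by decide +kernel)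

theorem okz221111 : plainZ ce221111.cx ce221111.tb ce221111.pl [] = some z0221111 := by decide +kernel

theorem oks221111 : famsV ce221111.cx ce221111.tb ce221111.fams = some sv221111 := by decide +kernel

theorem okc221111 : chkCases ce221111 z0221111 sv221111 ce221111.cases = true := by decide +kernel

theorem okv221111 : ce221111.cov 2 = true := by decide +kernel

theorem ok221111 : (ce221111.chk && ce221111.cov 2) = true :=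
  Cert.ok_of (Cert.chk_of okt221111 (by decide) okz221111 oks221111 okc221111) okv221111

end Pool.Agent.Lib.MP_b4a71d_al.Eng
end

section

/-!
# MP_b4a71d_al: the certificate of the type 31111 in degree 7
-/

set_option autoImplicit false

namespace Pool.Agent.Lib.MP_b4a71d_al.Eng

open Tr

/-- The type 31111. -/
def cx31111 : Cx := ⟨6, 4, [(2, 5, true)], (2, 5, true), []⟩

def tl31111 : Tb :=
  (.n (.n (.n (.n .e ⟨262300, 18, [1, -8, 3], .sym 4 [0, 2, 3, 0, 0, 4]⟩ .e) ⟨263196, 11, [0, -3,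
      1], .lam 2 1 [0, 0, 3, 0, 4, 0]⟩ .e) ⟨263364, 12, [-3, 0, -1], .lam 2 1 [0, 0, 3, 4, 0,
      0]⟩ (.n (.n .e ⟨263392, 10, [0, 0, 1], .bas 2⟩ .e) ⟨270364, 17, [0, 3, -1], .lam 2 1 [0,
      3, 0, 0, 4, 0]⟩ .e)) ⟨270532, 15, [1, -2, 1], .sym 3 [0, 2, 0, 3, 0, 4]⟩ (.n (.n (.n .e
      ⟨270560, 13, [0, 2, -1], .sym 3 [0, 2, 0, 3, 4, 0]⟩ .e) ⟨271876, 7, [-1, -1, 0], .lam 2 1
      [0, 3, 4, 0, 0, 0]⟩ .e) ⟨271904, 6, [0, 1, 0], .bas 1⟩ (.n .e ⟨272128, 4, [1, 0, 0], .bas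
      0⟩ .e)))

def tr31111 : Tb :=
  (.n (.n (.n (.n .e ⟨327876, 16, [2, -4, 2], .sym 3 [2, 0, 0, 3, 0, 4]⟩ .e) ⟨327904, 14, [0, 4,
      -2], .sym 3 [2, 0, 0, 3, 4, 0]⟩ .e) ⟨329220, 9, [-2, -2, 0], .sym 2 [0, 2, 3, 0, 0, 4]⟩
      (.n .e ⟨329248, 8, [0, 2, 0], .sym 2 [0, 2, 3, 0, 4, 0]⟩ .e)) ⟨329472, 5, [2, 0, 0], .sym
      2 [0, 2, 3, 4, 0, 0]⟩ (.n (.n (.n .e ⟨339972, 0, [0, 0, 0], .sym 3 [0, 2, 3, 0, 0, 4]⟩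
      .e) ⟨340000, 1, [0, 0, 0], .sym 3 [0, 2, 3, 0, 4, 0]⟩ .e) ⟨340224, 2, [0, 0, 0], .sym 3
      [0, 2, 3, 4, 0, 0]⟩ (.n .e ⟨342016, 3, [0, 0, 0], .sym 3 [2, 3, 4, 0, 0, 0]⟩ .e)))

def tb31111 : Tb := .n tl31111 ⟨327708, 19, [0, 6, -2], .lam 2 1 [3, 0, 0, 0, 4, 0]⟩ tr31111

def ce31111 : Cert where
  cx := cx31111
  D := 1
  bk := [272128, 271904, 263392]
  tb := tb31111
  pl := [.lam 2 1 [0, 0, 0, 0, 3, 4]]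
  fams := [(FB, [⟨[], [(b (l 1) (l 2)), (l 3), (l 4)], []⟩])]
  cases := [([([], [2])], [[(1, (b (b (b (l 1) (l 2)) (b (l 3) (l 0))) (b (b (l 4) (l 0)) (l 0)))), (-1, (b
      (b (b (b (l 1) (l 2)) (l 0)) (l 3)) (b (b (l 4) (l 0)) (l 0)))), (-1, (b (b (b (b (b (l
      1) (l 2)) (l 0)) (l 0)) (l 3)) (b (l 4) (l 0)))), (-2, (b (b (b (b (b (l 1) (l 2)) (l 0))
      (l 0)) (b (l 3) (l 0))) (l 4))), (1, (b (b (b (l 1) (l 2)) (b (l 4) (l 0))) (b (b (l 3)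
      (l 0)) (l 0)))), (2, (b (b (b (b (l 1) (l 2)) (l 0)) (l 4)) (b (b (l 3) (l 0)) (l 0)))),
      (1, (b (b (b (b (b (l 1) (l 2)) (l 0)) (l 0)) (b (l 4) (l 0))) (l 3))), (2, (b (b (b (b
      (b (l 1) (l 2)) (l 0)) (l 0)) (l 4)) (b (l 3) (l 0)))), (-1, (b (b (b (b (l 1) (l 2)) (l
      0)) (b (l 3) (l 0))) (b (l 4) (l 0)))), (2, (b (b (b (b (l 1) (l 2)) (l 0)) (b (l 4) (l
      0))) (b (l 3) (l 0))))]], [.cm 0 2 [1] 1]),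
    ([([2], [0])], [[(1, (b (b (b (b (l 1) (l 2)) (l 0)) (b (l 3) (l 0))) (b (l 4) (l 0)))),
      (-2, (b (b (b (b (l 1) (l 2)) (l 0)) (b (l 4) (l 0))) (b (l 3) (l 0))))]], [.cm 0 0 [1]
      1]),
    ([([0, 2], [1])], [[(1, (b (b (b (l 1) (l 2)) (b (b (l 3) (l 0)) (l 0))) (b (l 4) (l 0)))),
      (-1, (b (b (b (b (l 1) (l 2)) (l 0)) (b (b (l 3) (l 0)) (l 0))) (l 4))), (-1, (b (b (b (b
      (b (l 1) (l 2)) (l 0)) (l 0)) (l 3)) (b (l 4) (l 0)))), (-1, (b (b (b (b (b (b (l 1) (l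
      2)) (l 0)) (l 0)) (l 0)) (l 3)) (l 4))), (1, (b (b (b (l 1) (l 2)) (l 4)) (b (b (b (l 3)
      (l 0)) (l 0)) (l 0)))), (1, (b (b (b (b (l 1) (l 2)) (l 0)) (l 4)) (b (b (l 3) (l 0)) (l
      0)))), (1, (b (b (b (b (b (l 1) (l 2)) (l 0)) (l 0)) (l 4)) (b (l 3) (l 0)))), (1, (b (b
      (b (b (b (b (l 1) (l 2)) (l 0)) (l 0)) (l 0)) (l 4)) (l 3))), (-2, (b (b (b (b (l 1) (l
      2)) (l 0)) (b (l 3) (l 0))) (b (l 4) (l 0)))), (4, (b (b (b (b (l 1) (l 2)) (l 0)) (b (l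
      4) (l 0))) (b (l 3) (l 0))))]], [.zr 0 0 [1]]),
    ([([1, 2], [0])], [], [.zr 0 1 [1], .zr 0 2 [1]])]

def z031111 : Zs :=
  [(0, [1, -2, 1])]

def sv31111 : List (List (List (List ℤ))) :=
  [[[[12, -12, 12], [-20, -10, -10], [-12, 36, -12]]]]

theorem okt31111 : chkTb ce31111.cx ce31111.tb ce31111.D ce31111.bk = true :=
  chkTb_node (by decide +kernel) (by decide +kernel) (by decide +kernel)

theorem okz31111 : plainZ ce31111.cx ce31111.tb ce31111.pl [] = some z031111 := by decide +kernel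

theorem oks31111 : famsV ce31111.cx ce31111.tb ce31111.fams = some sv31111 := by decide +kernel

theorem okc31111 : chkCases ce31111 z031111 sv31111 ce31111.cases = true := by decide +kernel

theorem okv31111 : ce31111.cov 3 = true := by decide +kernel

theorem ok31111 : (ce31111.chk && ce31111.cov 3) = true :=
  Cert.ok_of (Cert.chk_of okt31111 (by decide) okz31111 oks31111 okc31111) okv31111

end Pool.Agent.Lib.MP_b4a71d_al.Eng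
end

section

/-!
# MP_b4a71d_al: the certificate of the type 311111 in degree 8
-/

set_option autoImplicit false

namespace Pool.Agent.Lib.MP_b4a71d_al.Eng

open Tr

/-- The type 311111. -/
def cx311111 : Cx := ⟨7, 5, [(2, 6, true)], (2, 6, true), []⟩

def tl311111 : Tb :=
  (.n (.n (.n (.n (.n .e ⟨2098405, 30, [0, 2, 2], .sym 5 [0, 2, 3, 4, 0, 0, 5]⟩ .e) ⟨2105573, 23,
      [0, 1, 1], .lam 2 1 [0, 0, 3, 0, 4, 5, 0]⟩ .e) ⟨2106917, 24, [0, 2, 2], .lam 2 1 [0, 0,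
      3, 4, 0, 5, 0]⟩ (.n .e ⟨2107141, 25, [3, 1, -2], .lam 2 1 [0, 0, 3, 4, 5, 0, 0]⟩ .e))
      ⟨2107176, 20, [0, -1, 2], .sym 5 [0, 2, 3, 4, 0, 5, 0]⟩ (.n (.n .e ⟨2162917, 33, [0, -1,
      -1], .lam 2 1 [0, 3, 0, 0, 4, 5, 0]⟩ .e) ⟨2164261, 28, [0, 0, 0], .sym 3 [0, 2, 0, 3, 0,
      4, 5]⟩ (.n .e ⟨2164485, 31, [-1, -1, 0], .sym 3 [0, 2, 0, 3, 4, 0, 5]⟩ .e))) ⟨2164520,
      26, [0, 1, 0], .sym 3 [0, 2, 0, 3, 4, 5, 0]⟩ (.n (.n (.n (.n .e ⟨2175013, 17, [0, 1, 1],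
      .lam 2 1 [0, 3, 4, 0, 0, 5, 0]⟩ .e) ⟨2175237, 18, [1, 0, -1], .lam 2 1 [0, 3, 4, 0, 5, 0,
      0]⟩ .e) ⟨2175272, 16, [0, 0, 1], .bas 2⟩ (.n .e ⟨2177029, 13, [-1, -1, 0], .lam 2 1 [0,
      3, 4, 5, 0, 0, 0]⟩ .e)) ⟨2177064, 12, [0, 1, 0], .bas 1⟩ (.n (.n .e ⟨2177344, 10, [1, 0,
      0], .bas 0⟩ .e) ⟨2621669, 34, [0, -2, -2], .lam 2 1 [3, 0, 0, 0, 4, 5, 0]⟩ (.n .e
      ⟨2623013, 29, [0, 0, 0], .sym 3 [2, 0, 0, 3, 0, 4, 5]⟩ .e))))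

def tr311111 : Tb :=
  (.n (.n (.n (.n (.n .e ⟨2623272, 27, [0, 2, 0], .sym 3 [2, 0, 0, 3, 4, 5, 0]⟩ .e) ⟨2633765, 21,
      [0, 2, 2], .sym 2 [0, 2, 3, 0, 0, 4, 5]⟩ .e) ⟨2633989, 22, [2, 0, -2], .sym 2 [0, 2, 3,
      0, 4, 0, 5]⟩ (.n .e ⟨2634024, 19, [0, 0, 2], .sym 2 [0, 2, 3, 0, 4, 5, 0]⟩ .e)) ⟨2635781,
      15, [-2, -2, 0], .sym 2 [0, 2, 3, 4, 0, 0, 5]⟩ (.n (.n .e ⟨2635816, 14, [0, 2, 0], .sym 2
      [0, 2, 3, 4, 0, 5, 0]⟩ .e) ⟨2636096, 11, [2, 0, 0], .sym 2 [0, 2, 3, 4, 5, 0, 0]⟩ (.n .e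
      ⟨2719781, 0, [0, 0, 0], .sym 3 [0, 2, 3, 0, 0, 4, 5]⟩ .e))) ⟨2720005, 1, [0, 0, 0], .sym
      3 [0, 2, 3, 0, 4, 0, 5]⟩ (.n (.n (.n (.n .e ⟨2720040, 2, [0, 0, 0], .sym 3 [0, 2, 3, 0,
      4, 5, 0]⟩ .e) ⟨2721797, 3, [0, 0, 0], .sym 3 [0, 2, 3, 4, 0, 0, 5]⟩ .e) ⟨2721832, 4, [0,
      0, 0], .sym 3 [0, 2, 3, 4, 0, 5, 0]⟩ (.n .e ⟨2722112, 5, [0, 0, 0], .sym 3 [0, 2, 3, 4,
      5, 0, 0]⟩ .e)) ⟨2736133, 6, [0, 0, 0], .sym 3 [2, 3, 4, 0, 0, 0, 5]⟩ (.n (.n .e ⟨2736168,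
      7, [0, 0, 0], .sym 3 [2, 3, 4, 0, 0, 5, 0]⟩ .e) ⟨2736448, 8, [0, 0, 0], .sym 3 [2, 3, 4,
      0, 5, 0, 0]⟩ (.n .e ⟨2738688, 9, [0, 0, 0], .sym 3 [2, 3, 4, 5, 0, 0, 0]⟩ .e))))

def tb311111 : Tb := .n tl311111 ⟨2623237, 32, [-2, -2, 0], .sym 3 [2, 0, 0, 3, 4, 0, 5]⟩ tr311111

def ce311111 : Cert where
  cx := cx311111
  D := 1
  bk := [2177344, 2177064, 2175272]
  tb := tb311111
  pl := []
  fams := [(FB, [⟨[], [(b (l 1) (l 2)), (l 3), (l 4)], [(l 5)]⟩, ⟨[], [(b (l 1) (l 2)), (l 3), (b (l 4) (l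
      5))], []⟩, ⟨[(b (l 1) (l 2))], [(b (l 0) (l 3)), (l 4), (l 5)], []⟩]),
    (FA, [⟨[(b (l 1) (l 2))], [(l 3), (l 4)], [(l 5)]⟩]),
    (FC, [⟨[], [(l 1), (l 2), (l 3), (b (l 4) (l 5))], [(l 0)]⟩])]
  cases := [([([], [0, 2]), ([], []), ([], [])], [], [.cm 0 0 [2, -3, 2] 1, .cm 0 0 [2, -3, 2] 2, .cm 0 2
      [1] 1]),
    ([([0], [2]), ([], []), ([], [])], [], [.zr 0 0 [1], .zr 0 0 [0, 1], .cm 0 2 [1] 1]),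
    ([([2], [0, 1]), ([], []), ([], [])], [], [.zr 0 2 [1], .zr 0 2 [0, 1], .cm 0 0 [1] 1]),
    ([([1, 2], [0]), ([], []), ([], [])], [], [.zr 0 1 [1], .zr 0 1 [0, 1], .zr 0 1 [0, 0, 1]]),
    ([([0, 2], [1]), ([], [1]), ([], [])], [], [.zr 0 0 [1], .zr 0 0 [0, 1], .cm 1 1 [1] 0]),
    ([([0, 2], [1]), ([], []), ([], [0])], [], [.zr 0 0 [1], .zr 0 0 [0, 1], .cm 2 0 [1] 1])]

def z0311111 : Zs :=
  []

def sv311111 : List (List (List (List ℤ))) :=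
  [[[[12, 0, -12], [-20, 10, 30], [12, 0, -12]], [[0, -8, 0], [4, 20, 0], [-4, -8, 4]], [[-12,
      -12, 12], [-2, 40, 30], [30, -12, -30]]], [[[16, -8, -24], [-12, 0, 12], [-8, -8, 0]]],
      [[[12, 0, -12], [48, -60, 12]]]]

theorem okt311111 : chkTb ce311111.cx ce311111.tb ce311111.D ce311111.bk = true :=
  chkTb_node (by decide +kernel) (by decide +kernel) (by decide +kernel)

theorem okz311111 : plainZ ce311111.cx ce311111.tb ce311111.pl [] = some z0311111 := by decide +kernel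

theorem oks311111 : famsV ce311111.cx ce311111.tb ce311111.fams = some sv311111 := by decide +kernel

theorem okc311111 : chkCases ce311111 z0311111 sv311111 ce311111.cases = true := by decide +kernel

theorem okv311111 : ce311111.cov 3 = true := by decide +kernel

theorem ok311111 : (ce311111.chk && ce311111.cov 3) = true :=
  Cert.ok_of (Cert.chk_of okt311111 (by decide) okz311111 oks311111 okc311111) okv311111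

end Pool.Agent.Lib.MP_b4a71d_al.Eng
end

section

/-!
# MP_b4a71d_al: the certificate of the type 3211 in degree 7
-/

set_option autoImplicit false

namespace Pool.Agent.Lib.MP_b4a71d_al.Eng

open Tr

/-- The type 3211. -/
def cx3211 : Cx := ⟨6, 4, [(2, 5, true)], (0, 0, false), [([2, 3, 4], [1], true)]⟩

def tl3211 : Tb :=
  (.n (.n (.n (.n .e ⟨262300, 12, [6, -36, 0, 0, -24, 0], .lam 1 2 [0, 0, 0, 0, 3, 4]⟩ .e)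
      ⟨263196, 10, [0, 0, 0, 0, 12, 0], .bas 4⟩ .e) ⟨263364, 17, [0, -24, 12, -12, -48, 24],
      .lam 1 2 [0, 3, 4, 0, 0, 0]⟩ (.n (.n .e ⟨263392, 13, [0, 0, 0, 0, 0, 12], .bas 5⟩ .e)
      ⟨270364, 11, [-3, 18, 0, 0, 12, 0], .low 0 1 [0, 0, 0, 2, 3, 4]⟩ .e)) ⟨270532, 18, [1,
      -10, -4, 4, 16, -16], .lam 2 1 [0, 3, 0, 0, 0, 4]⟩ (.n (.n (.n .e ⟨270560, 14, [-4, 4,
      16, 8, 8, 4], .lam 1 2 [0, 0, 0, 3, 4, 0]⟩ .e) ⟨271876, 16, [-7, -14, 16, -16, -28, 16],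
      .lam 1 2 [0, 0, 3, 4, 0, 0]⟩ .e) ⟨271904, 15, [0, 0, -12, 0, -12, 12], .lam 2 1 [0, 0, 3,
      0, 4, 0]⟩ (.n .e ⟨272128, 19, [-5, 14, -4, 16, 40, -28], .lam 2 1 [0, 3, 4, 0, 0, 0]⟩
      .e)))

def tr3211 : Tb :=
  (.n (.n (.n (.n .e ⟨327876, 8, [6, -12, 0, 12, 0, 0], .lam 2 1 [3, 0, 0, 4, 0, 0]⟩ .e) ⟨327904,
      2, [0, 12, 0, 0, 0, 0], .bas 1⟩ .e) ⟨329220, 6, [6, 0, -12, 0, 0, 0], .lam 2 1 [3, 0, 4,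
      0, 0, 0]⟩ (.n .e ⟨329248, 4, [0, 0, 12, 0, 0, 0], .bas 2⟩ .e)) ⟨329472, 1, [6, 0, 0, 0,
      0, 0], .low 0 1 [0, 2, 0, 3, 4, 0]⟩ (.n (.n (.n .e ⟨339972, 9, [-9, -6, 12, -12, 0, 0],
      .lam 2 1 [3, 4, 0, 0, 0, 0]⟩ .e) ⟨340000, 5, [-3, 6, -12, 0, 0, 0], .lam 2 1 [3, 0, 0, 0,
      4, 0]⟩ .e) ⟨340224, 7, [0, 0, 0, 12, 0, 0], .bas 3⟩ (.n .e ⟨342016, 0, [12, 0, 0, 0, 0,
      0], .bas 0⟩ .e)))

def tb3211 : Tb := .n tl3211 ⟨327708, 3, [-3, 18, 0, 0, 0, 0], .low 0 1 [0, 2, 0, 0, 3, 4]⟩ tr3211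

def ce3211 : Cert where
  cx := cx3211
  D := 12
  bk := [342016, 327904, 329248, 340224, 263196, 263392]
  tb := tb3211
  pl := [.lam 2 1 [0, 0, 0, 3, 0, 4]]
  fams := [(FB, [⟨[], [(l 1), (l 2), (l 3)], [(l 4)]⟩, ⟨[], [(l 1), (l 2), (b (l 3) (l 4))], []⟩, ⟨[], [(b
      (l 1) (l 2)), (l 3), (l 4)], []⟩])]
  cases := [([([], [2])], [[(1, (b (b (b (l 1) (b (l 2) (l 0))) (b (b (l 3) (l 0)) (l 0))) (l 4))), (-1, (b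
      (b (b (b (l 1) (l 0)) (l 2)) (b (b (l 3) (l 0)) (l 0))) (l 4))), (-1, (b (b (b (b (b (l
      1) (l 0)) (l 0)) (l 2)) (b (l 3) (l 0))) (l 4))), (-2, (b (b (b (b (b (l 1) (l 0)) (l 0))
      (b (l 2) (l 0))) (l 3)) (l 4))), (1, (b (b (b (l 1) (b (l 3) (l 0))) (b (b (l 2) (l 0))
      (l 0))) (l 4))), (2, (b (b (b (b (l 1) (l 0)) (l 3)) (b (b (l 2) (l 0)) (l 0))) (l 4))),
      (1, (b (b (b (b (b (l 1) (l 0)) (l 0)) (b (l 3) (l 0))) (l 2)) (l 4))), (2, (b (b (b (b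
      (b (l 1) (l 0)) (l 0)) (l 3)) (b (l 2) (l 0))) (l 4))), (-1, (b (b (b (b (l 1) (l 0)) (b
      (l 2) (l 0))) (b (l 3) (l 0))) (l 4))), (2, (b (b (b (b (l 1) (l 0)) (b (l 3) (l 0))) (b
      (l 2) (l 0))) (l 4))), (-1, (b (b (l 1) (b (l 2) (l 0))) (b (b (b (l 3) (l 4)) (l 0)) (l
      0)))), (1, (b (b (b (l 1) (l 0)) (l 2)) (b (b (b (l 3) (l 4)) (l 0)) (l 0)))), (1, (b (b
      (b (b (l 1) (l 0)) (l 0)) (l 2)) (b (b (l 3) (l 4)) (l 0)))), (2, (b (b (b (b (l 1) (l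
      0)) (l 0)) (b (l 2) (l 0))) (b (l 3) (l 4)))), (-1, (b (b (l 1) (b (b (l 3) (l 4)) (l
      0))) (b (b (l 2) (l 0)) (l 0)))), (-2, (b (b (b (l 1) (l 0)) (b (l 3) (l 4))) (b (b (l 2)
      (l 0)) (l 0)))), (-1, (b (b (b (b (l 1) (l 0)) (l 0)) (b (b (l 3) (l 4)) (l 0))) (l 2))),
      (-2, (b (b (b (b (l 1) (l 0)) (l 0)) (b (l 3) (l 4))) (b (l 2) (l 0)))), (1, (b (b (b (l
      1) (l 0)) (b (l 2) (l 0))) (b (b (l 3) (l 4)) (l 0)))), (-2, (b (b (b (l 1) (l 0)) (b (b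
      (l 3) (l 4)) (l 0))) (b (l 2) (l 0)))), (1, (b (b (b (l 1) (l 2)) (b (l 3) (l 0))) (b (b
      (l 4) (l 0)) (l 0)))), (-1, (b (b (b (b (l 1) (l 2)) (l 0)) (l 3)) (b (b (l 4) (l 0)) (l
      0)))), (-1, (b (b (b (b (b (l 1) (l 2)) (l 0)) (l 0)) (l 3)) (b (l 4) (l 0)))), (-2, (b
      (b (b (b (b (l 1) (l 2)) (l 0)) (l 0)) (b (l 3) (l 0))) (l 4))), (1, (b (b (b (l 1) (l
      2)) (b (l 4) (l 0))) (b (b (l 3) (l 0)) (l 0)))), (2, (b (b (b (b (l 1) (l 2)) (l 0)) (l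
      4)) (b (b (l 3) (l 0)) (l 0)))), (1, (b (b (b (b (b (l 1) (l 2)) (l 0)) (l 0)) (b (l 4)
      (l 0))) (l 3))), (2, (b (b (b (b (b (l 1) (l 2)) (l 0)) (l 0)) (l 4)) (b (l 3) (l 0)))),
      (-1, (b (b (b (b (l 1) (l 2)) (l 0)) (b (l 3) (l 0))) (b (l 4) (l 0)))), (2, (b (b (b (b
      (l 1) (l 2)) (l 0)) (b (l 4) (l 0))) (b (l 3) (l 0))))]], [.cm 0 2 [1, -1, 1] 0, .cm 0 2
      [1, -1, 1] 1, .cm 0 2 [-1, 0, 1] 0, .cm 0 2 [-1, 0, 1] 1]),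
    ([([2], [0])], [[(1, (b (b (b (b (l 1) (l 0)) (b (l 2) (l 0))) (b (l 3) (l 0))) (l 4))),
      (-2, (b (b (b (b (l 1) (l 0)) (b (l 3) (l 0))) (b (l 2) (l 0))) (l 4)))]], [.zr 0 2 [1],
      .zr 0 2 [0, 1], .zr 0 2 [0, 0, 1], .cm 0 0 [1] 1]),
    ([([0, 2], [1])], [[(1, (b (b (b (l 1) (b (b (l 2) (l 0)) (l 0))) (b (l 3) (l 0))) (l 4))),
      (-1, (b (b (b (b (l 1) (l 0)) (b (b (l 2) (l 0)) (l 0))) (l 3)) (l 4))), (-1, (b (b (b (b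
      (b (l 1) (l 0)) (l 0)) (l 2)) (b (l 3) (l 0))) (l 4))), (-1, (b (b (b (b (b (b (l 1) (l
      0)) (l 0)) (l 0)) (l 2)) (l 3)) (l 4))), (1, (b (b (b (l 1) (l 3)) (b (b (b (l 2) (l 0))
      (l 0)) (l 0))) (l 4))), (1, (b (b (b (b (l 1) (l 0)) (l 3)) (b (b (l 2) (l 0)) (l 0))) (l
      4))), (1, (b (b (b (b (b (l 1) (l 0)) (l 0)) (l 3)) (b (l 2) (l 0))) (l 4))), (1, (b (b
      (b (b (b (b (l 1) (l 0)) (l 0)) (l 0)) (l 3)) (l 2)) (l 4))), (-2, (b (b (b (b (l 1) (l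
      0)) (b (l 2) (l 0))) (b (l 3) (l 0))) (l 4))), (4, (b (b (b (b (l 1) (l 0)) (b (l 3) (l
      0))) (b (l 2) (l 0))) (l 4)))]], [.zr 0 0 [1], .zr 0 0 [0, 1], .zr 0 0 [0, 0, 1], .zr 0 2
      [1]]),
    ([([1, 2], [0])], [], [.zr 0 1 [1], .zr 0 1 [0, 1], .zr 0 1 [0, 0, 1], .zr 0 2 [1], .zr 0 2
      [0, 1]])]

def z03211 : Zs :=
  [(0, [1, -10, 8, 4, -8, 8])]

def sv3211 : List (List (List (List ℤ))) :=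
  [[[[12, -12, -48, 48, 192, -120], [-20, 200, 20, -80, -200, 200], [42, -96, -60, 60, 24, -96]],
      [[-30, 12, 96, 0, 144, -48], [64, 152, -304, -56, -32, -16], [18, -180, 168, 24, -192,
      96]], [[0, -72, 72, 36, 0, 0], [15, 30, -120, 0, 0, 0], [-45, 90, 36, -36, 0, 0]]]]

theorem okt3211 : chkTb ce3211.cx ce3211.tb ce3211.D ce3211.bk = true :=
  chkTb_node (by decide +kernel) (by decide +kernel) (by decide +kernel)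

theorem okz3211 : plainZ ce3211.cx ce3211.tb ce3211.pl [] = some z03211 := by decide +kernel

theorem oks3211 : famsV ce3211.cx ce3211.tb ce3211.fams = some sv3211 := by decide +kernel

theorem okc3211 : chkCases ce3211 z03211 sv3211 ce3211.cases = true := by decide +kernel

theorem okv3211 : ce3211.cov 3 = true := by decide +kernel

theorem ok3211 : (ce3211.chk && ce3211.cov 3) = true :=
  Cert.ok_of (Cert.chk_of okt3211 (by decide) okz3211 oks3211 okc3211) okv3211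

end Pool.Agent.Lib.MP_b4a71d_al.Eng
end

section

/-!
# MP_b4a71d_al: the certificate of the type 32111 in degree 8
-/

set_option autoImplicit false

namespace Pool.Agent.Lib.MP_b4a71d_al.Eng

open Tr

/-- The type 32111. -/
def cx32111 : Cx := ⟨7, 5, [(2, 6, true)], (0, 0, false), [([2, 3, 4, 5], [1], true)]⟩

def tl32111 : Tb :=
  (.n (.n (.n (.n (.n .e ⟨2098405, 26, [-24, 12, 18, -6, -18, -12, 6, -12, 12, 12], .low 0 1 [0,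
      0, 0, 2, 3, 4, 5]⟩ .e) ⟨2105573, 27, [3, 0, 0, 3, -3, 6, -3, 9, -3, 3], .lam 2 1 [0, 0,
      3, 0, 4, 5, 0]⟩ .e) ⟨2106917, 24, [-15, 6, 12, -3, -15, -9, 6, -12, 9, 9], .low 0 1 [0,
      0, 2, 3, 0, 4, 5]⟩ (.n .e ⟨2107141, 28, [6, 0, 0, 3, 0, 12, -3, 12, -6, 3], .lam 2 1 [0,
      0, 3, 4, 5, 0, 0]⟩ .e)) ⟨2107176, 23, [-6, 0, 3, -3, 3, -6, 6, -12, 6, -3], .low 0 1 [0,
      0, 2, 3, 4, 5, 0]⟩ (.n (.n .e ⟨2162917, 33, [8, -2, -3, 5, 1, 8, -3, 6, -6, 0], .lam 1 2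
      [0, 0, 0, 0, 3, 4, 5]⟩ .e) ⟨2164261, 31, [-6, 3, 3, -3, -3, -3, 0, 0, 3, 3], .lam 2 1 [0,
      0, 0, 3, 0, 4, 5]⟩ (.n .e ⟨2164485, 34, [5, 1, -1, 5, -5, 5, -4, 5, -3, 4], .lam 1 2 [0,
      3, 4, 0, 0, 0, 5]⟩ .e))) ⟨2164520, 32, [-15, 12, 15, 0, -21, -3, 0, 0, 6, 15], .lam 2 1
      [0, 0, 0, 3, 4, 5, 0]⟩ (.n (.n (.n (.n .e ⟨2175013, 25, [-6, 0, 3, -3, -9, -6, 3, -6, 6,
      6], .low 0 1 [0, 2, 3, 0, 0, 4, 5]⟩ .e) ⟨2175237, 18, [3, 0, 0, -3, 3, 6, 3, 6, -3, 0],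
      .lam 2 1 [0, 3, 4, 0, 5, 0, 0]⟩ .e) ⟨2175272, 17, [-3, 0, 3, 0, 0, 0, 3, -6, 3, 0], .low
      0 1 [0, 2, 3, 0, 4, 5, 0]⟩ (.n .e ⟨2177029, 30, [3, 0, -6, 3, 3, 0, -3, 0, -3, -3], .lam
      2 1 [0, 3, 4, 0, 0, 0, 5]⟩ .e)) ⟨2177064, 29, [-9, 6, 9, 0, -21, -3, 0, 0, 3, 12], .lam 2
      1 [0, 0, 3, 4, 0, 5, 0]⟩ (.n (.n .e ⟨2177344, 11, [0, 0, 3, -3, 3, 6, 3, 0, 0, 0], .low 0
      1 [0, 2, 3, 4, 5, 0, 0]⟩ .e) ⟨2621669, 15, [3, 0, 0, 3, 0, 3, 0, -3, -3, 0], .lam 2 1 [3,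
      0, 0, 0, 4, 5, 0]⟩ (.n .e ⟨2623013, 3, [-3, 3, 3, 0, 0, 0, 0, 0, 0, 0], .lam 2 1 [3, 0,
      0, 4, 0, 0, 5]⟩ .e))))

def tr32111 : Tb :=
  (.n (.n (.n (.n (.n .e ⟨2623272, 8, [-3, 0, 0, -3, 0, -3, 0, 0, 0, 0], .lam 2 1 [3, 0, 0, 4, 5,
      0, 0]⟩ .e) ⟨2633765, 20, [0, 0, 0, 0, 3, 0, 0, 3, 0, -3], .lam 2 1 [3, 0, 4, 0, 0, 5, 0]⟩
      .e) ⟨2633989, 13, [0, 0, 0, 3, 0, 0, -3, -3, 0, 0], .lam 2 1 [3, 0, 4, 0, 5, 0, 0]⟩ (.n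
      .e ⟨2634024, 12, [0, 0, 0, 0, 0, 0, 0, 3, 0, 0], .bas 7⟩ .e)) ⟨2635781, 2, [0, 0, 3, 0,
      0, 0, 0, 0, 0, 0], .bas 2⟩ (.n (.n .e ⟨2635816, 5, [0, 0, 0, 0, 3, 0, 0, 0, 0, 0], .bas
      4⟩ .e) ⟨2636096, 4, [0, 0, 0, 3, 0, 0, 0, 0, 0, 0], .bas 3⟩ (.n .e ⟨2719781, 21, [0, -3,
      -3, -3, -3, -3, 0, 0, 3, 3], .lam 2 1 [3, 4, 0, 0, 0, 5, 0]⟩ .e))) ⟨2720005, 16, [0, 0,
      0, 0, 0, 3, 3, 0, -3, 0], .lam 2 1 [3, 4, 0, 0, 5, 0, 0]⟩ (.n (.n (.n (.n .e ⟨2720040,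
      14, [0, 0, 0, 0, 0, 0, 0, 0, 3, 0], .bas 8⟩ .e) ⟨2721797, 1, [0, 3, 0, 0, 0, 0, 0, 0, 0,
      0], .bas 1⟩ .e) ⟨2721832, 9, [0, -3, -3, -3, -3, -3, 0, 0, 0, 0], .lam 2 1 [3, 4, 0, 5,
      0, 0, 0]⟩ (.n .e ⟨2722112, 7, [0, 0, 0, 0, 0, 3, 0, 0, 0, 0], .bas 5⟩ .e)) ⟨2736133, 22,
      [0, 0, 3, 3, 3, 0, -3, 0, 0, -3], .lam 2 1 [3, 4, 5, 0, 0, 0, 0]⟩ (.n (.n .e ⟨2736168,
      19, [0, 0, 0, 0, 0, 0, 0, 0, 0, 3], .bas 9⟩ .e) ⟨2736448, 10, [0, 0, 0, 0, 0, 0, 3, 0, 0,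
      0], .bas 6⟩ (.n .e ⟨2738688, 6, [0, 0, -3, -3, -3, 0, 0, 0, 0, 0], .lam 2 1 [3, 0, 4, 5,
      0, 0, 0]⟩ .e))))

def tb32111 : Tb := .n tl32111 ⟨2623237, 0, [3, 0, 0, 0, 0, 0, 0, 0, 0, 0], .bas 0⟩ tr32111

def ce32111 : Cert where
  cx := cx32111
  D := 3
  bk := [2623237, 2721797, 2635781, 2636096, 2635816, 2722112, 2736448, 2634024, 2720040, 2736168]
  tb := tb32111
  pl := [.lam 1 2 [0, 0, 3, 0, 0, 4, 5], .lam 2 1 [0, 3, 0, 0, 4, 0, 5]]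
  fams := [(FB, [⟨[], [(l 1), (l 2), (l 3)], [(l 4), (l 5)]⟩, ⟨[], [(l 1), (l 2), (b (l 3) (l 4))], [(l
      5)]⟩, ⟨[], [(b (l 1) (l 2)), (l 3), (l 4)], [(l 5)]⟩, ⟨[], [(b (l 2) (l 3)), (l 1), (l
      4)], [(l 5)]⟩, ⟨[], [(b (l 1) (l 2)), (l 3), (b (l 4) (l 5))], []⟩, ⟨[], [(b (l 2) (l
      3)), (l 1), (b (l 4) (l 5))], []⟩, ⟨[], [(b (b (l 3) (l 2)) (l 1)), (l 4), (l 5)], []⟩,
      ⟨[(b (l 2) (l 3))], [(l 1), (l 4), (l 5)], [(l 0)]⟩]),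
    (FA, [⟨[(b (l 1) (l 2))], [(l 3), (l 4)], [(l 5)]⟩]),
    (FC, [⟨[], [(l 2), (l 3), (l 1), (l 4)], [(l 5), (l 0)]⟩])]
  cases := [([([], [0, 2]), ([], []), ([], [])], [], [.cm 0 0 [0, 8, 4, 16, 14, 41, -10, 8] 1, .cm 0 0 [0,
      8, 4, 16, 14, 41, -10, 8] 2, .cm 0 2 [44, -11, 66, 44, 4, -44, 12] 0, .cm 0 2 [44, -11,
      66, 44, 4, -44, 12] 1, .cm 0 0 [-1134, 265, -1304, -1171, 0, 0, 0, 27] 1, .cm 0 0 [-1134,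
      265, -1304, -1171, 0, 0, 0, 27] 2, .cm 0 0 [-40098402, 8295167, -46286914, -42038681, 0,
      0, 423036] 1, .cm 0 0 [-40098402, 8295167, -46286914, -42038681, 0, 0, 423036] 2]),
    ([([0], [2]), ([], []), ([], [])], [], [.zr 0 0 [1], .zr 0 0 [0, 1], .zr 0 0 [0, 0, 1], .zr
      0 0 [0, 0, 0, 1], .zr 0 0 [0, 0, 0, 0, 1], .zr 0 0 [0, 0, 0, 0, 0, 1], .zr 0 0 [0, 0, 0,
      0, 0, 0, 1], .cm 0 2 [1] 1]),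
    ([([2], [0, 1]), ([], []), ([], [])], [], [.zr 0 2 [1], .zr 0 2 [0, 1], .zr 0 2 [0, 0, 1],
      .zr 0 2 [0, 0, 0, 1], .zr 0 2 [0, 0, 0, 0, 1], .zr 0 2 [0, 0, 0, 0, 0, 1], .zr 0 2 [0, 0,
      0, 0, 0, 0, 0, 1], .cm 0 0 [1] 1]),
    ([([1, 2], [0]), ([], []), ([], [])], [], [.zr 0 1 [1], .zr 0 1 [0, 1], .zr 0 1 [0, 0, 1],
      .zr 0 1 [0, 0, 0, 1], .zr 0 1 [0, 0, 0, 0, 1], .zr 0 1 [0, 0, 0, 0, 0, 1], .zr 0 1 [0, 0,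
      0, 0, 0, 0, 1], .zr 0 1 [0, 0, 0, 0, 0, 0, 0, 1]]),
    ([([0, 2], [1]), ([], [1]), ([], [])], [], [.zr 0 0 [1], .zr 0 0 [0, 1], .zr 0 0 [0, 0, 1],
      .zr 0 0 [0, 0, 0, 1], .zr 0 0 [0, 0, 0, 0, 1], .zr 0 0 [0, 0, 0, 0, 0, 1], .zr 0 0 [0, 0,
      0, 0, 0, 0, 1], .cm 1 1 [1] 0]),
    ([([0, 2], [1]), ([], []), ([], [0])], [], [.zr 0 0 [1], .zr 0 0 [0, 1], .zr 0 0 [0, 0, 1],
      .zr 0 0 [0, 0, 0, 1], .zr 0 0 [0, 0, 0, 0, 1], .zr 0 0 [0, 0, 0, 0, 0, 1], .zr 0 0 [0, 0,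
      0, 0, 0, 0, 1], .cm 2 0 [1] 1])]

def z032111 : Zs :=
  [(0, [4, -4, -6, -2, 8, -2, 0, 0, 0, -6]), (1, [0, -3, -2, 3, 3, 0, 1, -5, -3, -4])]

def sv32111 : List (List (List (List ℤ))) :=
  [[[[12, -3, -18, -6, 24, 12, -18, 45, -9, -9], [84, -39, -36, 48, 33, 48, 0, 0, -45, -36], [-81,
      45, 54, -27, -27, -45, 18, -45, 36, 18]], [[36, -18, -32, 24, -6, 18, -38, 40, -12, 8],
      [8, -20, 8, -4, 76, 32, 44, -10, -42, -62], [-76, 46, 66, -10, -80, -52, 6, -60, 54,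
      54]], [[-18, 9, 9, 9, -9, 0, -9, -18, 0, 9], [15, 0, -15, -30, 15, -15, 15, 45, 15, -15],
      [18, -9, -18, 18, 0, 9, -9, -18, -9, 0]], [[0, 0, 10, -12, 30, 18, 22, -8, -12, -16],
      [-16, -2, -22, 32, -68, -70, -34, -40, 42, 22], [20, 4, 0, -22, 40, 44, -6, 72, -18,
      -6]], [[-24, 6, 18, -6, -18, -6, 0, 0, 0, 6], [18, 6, -24, 0, 24, 6, -12, 0, 6, 0], [24,
      -18, -18, 0, -6, 6, 0, 6, -12, -6]], [[24, -24, -36, -12, 36, -12, 0, 0, 0, -24], [-36,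
      48, 60, 0, -96, -24, 12, 0, 36, 48], [-24, 0, 0, 0, 24, 12, 0, -24, -24, -12]], [[0, -36,
      -18, -18, -18, 0, 18, 0, -36, 0], [0, 90, 60, 60, 60, 30, 0, 0, 30, -30], [0, -36, -36,
      -36, -36, -72, -18, 0, 36, 18]], [[0, -18, -18, -18, -18, -36, 18, 0, 0, -18], [-6, 54,
      24, 48, -132, 24, -96, 90, -42, 114], [-36, 54, 72, 36, 36, 18, 18, 0, 36, 18]]], [[[-12,
      0, -24, -12, -48, -60, -48, -36, 60, 48], [0, 0, 18, 0, 18, 36, 36, 18, -36, -18], [-12,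
      0, 12, -12, -12, 12, 24, 0, -12, 12]]], [[[6, -24, -24, -18, -18, -18, 0, 0, -12, -12],
      [-66, 54, 54, -12, -252, -36, -36, 90, -18, 132]]]]

theorem okt32111 : chkTb ce32111.cx ce32111.tb ce32111.D ce32111.bk = true :=
  chkTb_node (by decide +kernel) (by decide +kernel) (by decide +kernel)

theorem okz32111 : plainZ ce32111.cx ce32111.tb ce32111.pl [] = some z032111 := by decide +kernel

theorem oks32111 : famsV ce32111.cx ce32111.tb ce32111.fams = some sv32111 := by decide +kernel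

theorem okc32111 : chkCases ce32111 z032111 sv32111 ce32111.cases = true := by decide +kernel

theorem okv32111 : ce32111.cov 3 = true := by decide +kernel

theorem ok32111 : (ce32111.chk && ce32111.cov 3) = true :=
  Cert.ok_of (Cert.chk_of okt32111 (by decide) okz32111 oks32111 okc32111) okv32111

end Pool.Agent.Lib.MP_b4a71d_al.Eng
end

section

/-!
# MP_b4a71d_al: the certificate of the type 331b in degree 7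
-/

set_option autoImplicit false

namespace Pool.Agent.Lib.MP_b4a71d_al.Eng

open Tr

/-- The type 331b. -/
def cx331b : Cx := ⟨6, 4, [(2, 3, true), (3, 5, false)], (2, 3, true), [([1, 2], [3, 4], true)]⟩

def tl331b : Tb :=
  (.n (.n (.n (.n (.n .e ⟨262300, 21, [12, 4, 6, 2, 0, 0, 0], .lam 2 1 [0, 0, 0, 0, 3, 4]⟩ .e)
      ⟨262356, 17, [0, 0, -6, -2, 0, 0, 0], .lam 2 1 [0, 0, 0, 3, 0, 4]⟩ (.n .e ⟨262370, 37,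
      [0, 0, 6, 2, 12, 4, 0], .lam 2 1 [0, 0, 0, 3, 4, 0]⟩ .e)) ⟨263196, 18, [-6, 2, 0, -2, 0,
      0, 0], .lam 3 1 [0, 0, 2, 0, 0, 4]⟩ (.n (.n .e ⟨263364, 16, [0, 0, 0, 2, 0, 0, 0], .bas
      3⟩ .e) ⟨263392, 36, [0, 0, 0, -2, -6, 2, 0], .lam 3 1 [0, 0, 2, 4, 0, 0]⟩ (.n .e ⟨263700,
      22, [-10, 2, 2, -2, 0, 0, 0], .lam 2 1 [0, 0, 3, 0, 0, 4]⟩ .e))) ⟨263714, 53, [-32, 8, 1,
      -7, 0, 6, 2], .sym 2 [0, 0, 3, 0, 4, 2]⟩ (.n (.n (.n .e ⟨263812, 19, [4, -2, -2, 2, 0, 0,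
      0], .sym 2 [0, 0, 3, 2, 0, 4]⟩ .e) ⟨263840, 50, [-4, 2, 2, -2, -8, 6, -2], .lam 3 1 [0,
      0, 4, 2, 0, 0]⟩ (.n .e ⟨263938, 56, [8, -2, -4, 2, 4, -4, 4], .lam 2 1 [0, 0, 3, 4, 0,
      0]⟩ .e)) ⟨263952, 54, [-8, 2, 4, -2, -10, 4, -4], .sym 2 [0, 0, 3, 4, 2, 0]⟩ (.n (.n .e
      ⟨270364, 13, [-2, -2, -2, 0, 0, 0, 0], .low 0 3 [0, 3, 0, 0, 2, 4]⟩ .e) ⟨270532, 10, [0,
      0, 2, 0, 0, 0, 0], .low 0 3 [0, 3, 0, 2, 0, 4]⟩ (.n .e ⟨270560, 30, [0, 0, -2, 0, -2, -2,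
      0], .lam 3 1 [0, 2, 0, 4, 0, 0]⟩ .e)))) ⟨271876, 1, [2, 0, 0, 0, 0, 0, 0], .low 0 3 [0,
      3, 4, 0, 0, 2]⟩ (.n (.n (.n (.n .e ⟨271904, 48, [-2, 0, 0, 0, -2, 0, -2], .low 0 3 [0, 3,
      2, 0, 4, 0]⟩ .e) ⟨272128, 25, [0, 0, 0, 0, 2, 0, 0], .low 0 3 [0, 3, 4, 2, 0, 0]⟩ (.n .e
      ⟨274452, 23, [-8, 0, 1, -1, 0, 0, 0], .lam 2 1 [0, 3, 0, 0, 0, 4]⟩ .e)) ⟨274466, 52,
      [-30, 6, 0, -6, 0, 6, 2], .sym 2 [0, 3, 0, 0, 4, 2]⟩ (.n (.n .e ⟨274564, 20, [4, -2, -1,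
      1, 0, 0, 0], .sym 2 [0, 3, 0, 2, 0, 4]⟩ .e) ⟨274592, 51, [-4, 2, 1, -1, -6, 4, -2], .lam
      3 1 [0, 4, 0, 2, 0, 0]⟩ (.n .e ⟨274690, 58, [4, -6, -7, 1, 0, -8, 0], .lam 2 1 [0, 3, 0,
      4, 0, 0]⟩ .e))) ⟨274704, 55, [-4, 6, 7, -1, -4, 6, 0], .low 0 4 [0, 0, 3, 2, 4, 0]⟩ (.n
      (.n (.n .e ⟨275460, 5, [4, -2, 0, 0, 0, 0, 0], .sym 2 [0, 3, 2, 0, 0, 4]⟩ .e) ⟨275488,
      40, [-4, 2, 0, 0, -4, 2, -2], .lam 3 1 [0, 4, 2, 0, 0, 0]⟩ (.n .e ⟨275712, 31, [0, 0, 0,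
      0, 4, -2, 0], .sym 2 [0, 3, 2, 4, 0, 0]⟩ .e)) ⟨276482, 59, [22, -6, 3, 5, -4, -2, -6],
      .lam 3 1 [0, 0, 4, 0, 0, 2]⟩ (.n (.n .e ⟨276496, 57, [16, -8, -10, 4, 8, -8, 2], .lam 3 1
      [0, 0, 4, 0, 2, 0]⟩ .e) ⟨276608, 42, [0, 0, 0, 0, 6, -6, 2], .sym 2 [0, 3, 4, 2, 0, 0]⟩
      .e))))

def tr331b : Tb :=
  (.n (.n (.n (.n (.n .e ⟨327876, 11, [0, 0, 4, 0, 0, 0, 0], .low 0 3 [3, 0, 0, 2, 0, 4]⟩ .e)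
      ⟨327904, 34, [0, 0, -4, 0, -4, -4, 0], .low 0 3 [3, 0, 0, 4, 2, 0]⟩ (.n .e ⟨329220, 2,
      [4, 0, 0, 0, 0, 0, 0], .low 0 3 [3, 0, 4, 0, 0, 2]⟩ .e)) ⟨329248, 49, [-4, 0, 0, 0, -4,
      0, -4], .low 0 3 [3, 0, 2, 0, 4, 0]⟩ (.n (.n .e ⟨329472, 26, [0, 0, 0, 0, 4, 0, 0], .low
      0 3 [3, 0, 4, 2, 0, 0]⟩ .e) ⟨339972, 6, [0, 4, 0, 0, 0, 0, 0], .sym 2 [3, 2, 0, 0, 0, 4]⟩
      (.n .e ⟨340000, 46, [0, -4, 0, 0, 0, -4, -4], .low 0 3 [3, 4, 0, 0, 2, 0]⟩ .e))) ⟨340224,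
      32, [0, 0, 0, 0, 0, 4, 0], .sym 2 [3, 2, 0, 4, 0, 0]⟩ (.n (.n (.n .e ⟨342016, 44, [0, 0,
      0, 0, 0, 0, 4], .low 0 3 [3, 4, 2, 0, 0, 0]⟩ .e) ⟨360468, 9, [-2, -2, -2, 0, 0, 0, 0],
      .lam 2 1 [3, 0, 0, 0, 0, 4]⟩ (.n .e ⟨360482, 15, [-2, -2, -2, 0, 0, 0, 0], .low 0 4 [3,
      0, 0, 0, 2, 4]⟩ .e)) ⟨360580, 8, [0, 0, 2, 0, 0, 0, 0], .bas 2⟩ (.n (.n .e ⟨360608, 35,
      [0, 0, -2, 0, -2, -2, 0], .low 0 4 [3, 0, 0, 2, 4, 0]⟩ .e) ⟨360706, 12, [0, 0, 2, 0, 0,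
      0, 0], .low 0 4 [3, 0, 0, 2, 0, 4]⟩ .e))) ⟨360720, 29, [0, 0, -2, 0, -2, -2, 0], .lam 2 1
      [3, 0, 0, 4, 0, 0]⟩ (.n (.n (.n (.n .e ⟨361476, 3, [2, 0, 0, 0, 0, 0, 0], .low 0 4 [3, 0,
      2, 0, 0, 4]⟩ .e) ⟨361504, 41, [-2, 0, 0, 0, -2, 0, -2], .lam 3 1 [4, 0, 2, 0, 0, 0]⟩ (.n
      .e ⟨361728, 27, [0, 0, 0, 0, 2, 0, 0], .low 0 4 [3, 0, 2, 4, 0, 0]⟩ .e)) ⟨362498, 0, [2,
      0, 0, 0, 0, 0, 0], .bas 0⟩ (.n (.n .e ⟨362512, 45, [2, 4, 4, 0, 2, 4, 2], .lam 3 1 [4, 0,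
      0, 0, 2, 0]⟩ .e) ⟨362624, 24, [0, 0, 0, 0, 2, 0, 0], .bas 4⟩ (.n .e ⟨368644, 4, [0, 2, 0,
      0, 0, 0, 0], .bas 1⟩ .e))) ⟨368672, 47, [0, -2, 0, 0, 0, -2, -2], .low 0 4 [3, 2, 0, 0,
      4, 0]⟩ (.n (.n (.n .e ⟨368896, 28, [0, 0, 0, 0, 0, 2, 0], .bas 5⟩ .e) ⟨370688, 43, [-16,
      0, -4, -4, 0, 0, 2], .sym 2 [3, 0, 0, 0, 4, 2]⟩ (.n .e ⟨376834, 7, [0, 2, 0, 0, 0, 0, 0],
      .low 0 4 [3, 2, 0, 0, 0, 4]⟩ .e)) ⟨376848, 39, [0, -2, 0, 0, 0, -2, -2], .lam 2 1 [3, 4,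
      0, 0, 0, 0]⟩ (.n (.n .e ⟨376960, 33, [0, 0, 0, 0, 0, 2, 0], .low 0 4 [3, 2, 0, 4, 0, 0]⟩
      .e) ⟨377856, 38, [0, 0, 0, 0, 0, 0, 2], .bas 6⟩ .e))))

def tb331b : Tb := .n tl331b ⟨327708, 14, [-4, -4, -4, 0, 0, 0, 0], .low 0 3 [3, 0, 0, 0, 2, 4]⟩ tr331b

def ce331b : Cert where
  cx := cx331b
  D := 2
  bk := [362498, 368644, 360580, 263364, 362624, 368896, 377856]
  tb := tb331b
  pl := [.low 0 3 [0, 0, 2, 0, 3, 4], .lam 2 1 [3, 0, 0, 0, 4, 0], .lam 3 1 [0, 4, 0, 0, 2, 0], .sym 2 [3, 4, 0, 0, 0, 2]]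
  fams := [(FB, [⟨[], [(l 1), (l 3), (l 2)], [(l 4)]⟩, ⟨[], [(l 1), (l 3), (b (l 2) (l 4))], []⟩])]
  cases := [([([], [2])], [[(1, (b (b (b (l 1) (b (l 3) (l 0))) (b (b (l 2) (l 0)) (l 0))) (l 4))), (-1, (b
      (b (b (b (l 1) (l 0)) (l 3)) (b (b (l 2) (l 0)) (l 0))) (l 4))), (-1, (b (b (b (b (b (l
      1) (l 0)) (l 0)) (l 3)) (b (l 2) (l 0))) (l 4))), (-2, (b (b (b (b (b (l 1) (l 0)) (l 0))
      (b (l 3) (l 0))) (l 2)) (l 4))), (1, (b (b (b (l 1) (b (l 2) (l 0))) (b (b (l 3) (l 0))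
      (l 0))) (l 4))), (2, (b (b (b (b (l 1) (l 0)) (l 2)) (b (b (l 3) (l 0)) (l 0))) (l 4))),
      (1, (b (b (b (b (b (l 1) (l 0)) (l 0)) (b (l 2) (l 0))) (l 3)) (l 4))), (2, (b (b (b (b
      (b (l 1) (l 0)) (l 0)) (l 2)) (b (l 3) (l 0))) (l 4))), (-1, (b (b (b (b (l 1) (l 0)) (b
      (l 3) (l 0))) (b (l 2) (l 0))) (l 4))), (2, (b (b (b (b (l 1) (l 0)) (b (l 2) (l 0))) (b
      (l 3) (l 0))) (l 4)))]], [.cm 0 2 [1] 0, .cm 0 2 [1] 1]),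
    ([([2], [0])], [[(1, (b (b (b (b (l 1) (l 0)) (b (l 3) (l 0))) (b (l 2) (l 0))) (l 4))),
      (-2, (b (b (b (b (l 1) (l 0)) (b (l 2) (l 0))) (b (l 3) (l 0))) (l 4)))]], [.zr 0 2 [1],
      .zr 0 2 [0, 1]]),
    ([([0, 2], [1])], [[(1, (b (b (b (l 1) (b (b (l 3) (l 0)) (l 0))) (b (l 2) (l 0))) (l 4))),
      (-1, (b (b (b (b (l 1) (l 0)) (b (b (l 3) (l 0)) (l 0))) (l 2)) (l 4))), (-1, (b (b (b (b
      (b (l 1) (l 0)) (l 0)) (l 3)) (b (l 2) (l 0))) (l 4))), (-1, (b (b (b (b (b (b (l 1) (l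
      0)) (l 0)) (l 0)) (l 3)) (l 2)) (l 4))), (1, (b (b (b (l 1) (l 2)) (b (b (b (l 3) (l 0))
      (l 0)) (l 0))) (l 4))), (1, (b (b (b (b (l 1) (l 0)) (l 2)) (b (b (l 3) (l 0)) (l 0))) (l
      4))), (1, (b (b (b (b (b (l 1) (l 0)) (l 0)) (l 2)) (b (l 3) (l 0))) (l 4))), (1, (b (b
      (b (b (b (b (l 1) (l 0)) (l 0)) (l 0)) (l 2)) (l 3)) (l 4))), (-2, (b (b (b (b (l 1) (l
      0)) (b (l 3) (l 0))) (b (l 2) (l 0))) (l 4))), (4, (b (b (b (b (l 1) (l 0)) (b (l 2) (l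
      0))) (b (l 3) (l 0))) (l 4)))]], [.zr 0 0 [1], .zr 0 0 [0, 1]]),
    ([([1, 2], [0])], [], [.zr 0 1 [1], .zr 0 1 [0, 1], .zr 0 2 [1]])]

def z0331b : Zs :=
  [(0, [-4, 0, -1, -1, 0, 0, 0]), (1, [0, 4, 3, -1, 4, 4, 4]), (4, [0, 0, 0, 0, -2, 0, -1]), (2,
      [0, 0, -3, -2, 0, -1, 2])]

def sv331b : List (List (List (List ℤ))) :=
  [[[[6, -6, -6, 6, 0, 0, 0], [-36, 30, 51, -9, 0, 0, 0], [18, -12, -42, 0, 0, 0, 0]], [[4, -4,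
      -12, 0, -4, -8, 0], [88, -4, 75, 31, 32, 0, -4], [-80, 8, -55, -27, -28, 4, 8]]]]

theorem okt331b : chkTb ce331b.cx ce331b.tb ce331b.D ce331b.bk = true :=
  chkTb_node (by decide +kernel) (by decide +kernel) (by decide +kernel)

theorem okz331b : plainZ ce331b.cx ce331b.tb ce331b.pl [] = some z0331b := by decide +kernel

theorem oks331b : famsV ce331b.cx ce331b.tb ce331b.fams = some sv331b := by decide +kernel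

theorem okc331b : chkCases ce331b z0331b sv331b ce331b.cases = true := by decide +kernel

theorem okv331b : ce331b.cov 3 = true := by decide +kernel

theorem ok331b : (ce331b.chk && ce331b.cov 3) = true :=
  Cert.ok_of (Cert.chk_of okt331b (by decide) okz331b oks331b okc331b) okv331b

end Pool.Agent.Lib.MP_b4a71d_al.Eng
end

section

/-!
# MP_b4a71d_al: the certificate of the type 41111 in degree 8
-/

set_option autoImplicit false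

namespace Pool.Agent.Lib.MP_b4a71d_al.Eng

open Tr

/-- The type 41111. -/
def cx41111 : Cx := ⟨7, 4, [(2, 5, true)], (2, 5, true), []⟩

def tl41111 : Tb :=
  (.n (.n (.n (.n (.n .e ⟨2097308, 32, [13, 20, -6, 20, 20, -10], .lam 2 1 [0, 0, 0, 0, 3, 4, 0]⟩
      .e) ⟨2098204, 23, [6, 12, 0, 12, 4, 2], .lam 2 1 [0, 0, 0, 3, 0, 4, 0]⟩ .e) ⟨2098372, 24,
      [0, -4, -4, 0, 0, -2], .lam 2 1 [0, 0, 0, 3, 4, 0, 0]⟩ (.n .e ⟨2098400, 22, [0, 0, 0, 0,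
      0, 2], .bas 5⟩ .e)) ⟨2105372, 33, [-1, 4, 6, 4, 0, 2], .lam 2 1 [0, 0, 3, 0, 0, 4, 0]⟩
      (.n (.n .e ⟨2105540, 34, [4, 0, -8, 2, 2, -2], .lam 2 1 [0, 0, 3, 0, 4, 0, 0]⟩ .e)
      ⟨2105568, 27, [-4, -2, 6, -2, -2, 2], .sym 4 [0, 2, 3, 0, 0, 4, 0]⟩ (.n .e ⟨2106884, 17,
      [-3, -4, 2, 0, -2, 0], .lam 2 1 [0, 0, 3, 4, 0, 0, 0]⟩ .e))) ⟨2106912, 16, [0, 0, 0, 0,
      2, 0], .bas 4⟩ (.n (.n (.n (.n .e ⟨2107136, 11, [0, 4, -2, 0, 0, 0], .sym 3 [0, 2, 0, 3,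
      4, 0, 0]⟩ .e) ⟨2162716, 30, [-6, -12, 0, -12, -8, 2], .lam 2 1 [0, 3, 0, 0, 0, 4, 0]⟩ .e)
      ⟨2162884, 28, [9, 8, -10, 6, 6, -2], .sym 3 [0, 2, 0, 0, 3, 0, 4]⟩ (.n .e ⟨2162912, 25,
      [-3, -6, 0, -6, -6, 2], .sym 3 [0, 2, 0, 0, 3, 4, 0]⟩ .e)) ⟨2164228, 20, [3, 4, -2, 4, 2,
      0], .sym 3 [0, 2, 0, 3, 0, 0, 4]⟩ (.n (.n .e ⟨2164256, 18, [-2, -4, 0, -4, -2, 0], .sym 3
      [0, 2, 0, 3, 0, 4, 0]⟩ .e) ⟨2164480, 9, [0, 0, 2, 0, 0, 0], .bas 2⟩ (.n .e ⟨2174980, 12,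
      [0, 0, 0, 2, 0, 0], .bas 3⟩ .e))))

def tr41111 : Tb :=
  (.n (.n (.n (.n (.n .e ⟨2175232, 7, [0, 2, 0, 0, 0, 0], .bas 1⟩ .e) ⟨2177024, 6, [1, 0, 0, 0,
      0, 0], .sym 2 [0, 2, 3, 4, 0, 0, 0]⟩ .e) ⟨2621468, 31, [-12, -24, 0, -24, -16, 4], .lam 2
      1 [3, 0, 0, 0, 0, 4, 0]⟩ (.n .e ⟨2621636, 29, [18, 16, -20, 12, 12, -4], .sym 3 [2, 0, 0,
      0, 3, 0, 4]⟩ .e)) ⟨2621664, 26, [-6, -12, 0, -12, -12, 4], .sym 3 [2, 0, 0, 0, 3, 4, 0]⟩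
      (.n (.n .e ⟨2622980, 21, [6, 8, -4, 8, 4, 0], .sym 3 [2, 0, 0, 3, 0, 0, 4]⟩ .e) ⟨2623008,
      19, [-4, -8, 0, -8, -4, 0], .sym 3 [2, 0, 0, 3, 0, 4, 0]⟩ (.n .e ⟨2623232, 10, [0, 0, 4,
      0, 0, 0], .sym 2 [0, 0, 2, 3, 4, 0, 0]⟩ .e))) ⟨2633732, 14, [0, 0, 0, 4, 0, 0], .sym 2
      [0, 2, 3, 0, 0, 0, 4]⟩ (.n (.n (.n (.n .e ⟨2633760, 15, [-2, -4, 0, -4, 0, 0], .sym 2 [0,
      2, 3, 0, 0, 4, 0]⟩ .e) ⟨2633984, 8, [0, 4, 0, 0, 0, 0], .sym 2 [0, 2, 3, 0, 4, 0, 0]⟩ .e)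
      ⟨2635776, 5, [2, 0, 0, 0, 0, 0], .bas 0⟩ (.n .e ⟨2719748, 0, [0, 0, 0, 0, 0, 0], .sym 3
      [0, 2, 3, 0, 0, 0, 4]⟩ .e)) ⟨2719776, 1, [0, 0, 0, 0, 0, 0], .sym 3 [0, 2, 3, 0, 0, 4,
      0]⟩ (.n (.n .e ⟨2720000, 2, [0, 0, 0, 0, 0, 0], .sym 3 [0, 2, 3, 0, 4, 0, 0]⟩ .e)
      ⟨2721792, 3, [0, 0, 0, 0, 0, 0], .sym 3 [0, 2, 3, 4, 0, 0, 0]⟩ (.n .e ⟨2736128, 4, [0, 0,
      0, 0, 0, 0], .sym 3 [2, 3, 4, 0, 0, 0, 0]⟩ .e))))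

def tb41111 : Tb := .n tl41111 ⟨2175008, 13, [-1, -2, 0, -2, 0, 0], .lam 2 1 [0, 3, 4, 0, 0, 0, 0]⟩ tr41111

def ce41111 : Cert where
  cx := cx41111
  D := 2
  bk := [2635776, 2175232, 2164480, 2174980, 2106912, 2098400]
  tb := tb41111
  pl := [.sym 4 [0, 0, 2, 0, 3, 4, 0], .sym 4 [0, 2, 0, 3, 0, 0, 4]]
  fams := [(FB, [⟨[], [(b (l 0) (l 1)), (l 2), (l 3)], [(l 4)]⟩, ⟨[], [(b (l 1) (l 2)), (l 3), (l 4)], [(l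
      0)]⟩, ⟨[], [(b (l 0) (l 1)), (l 2), (b (l 3) (l 4))], []⟩, ⟨[], [(b (l 1) (l 2)), (l 3),
      (b (l 0) (l 4))], []⟩]),
    (FA, [⟨[], [(l 1), (l 2)], [(l 3), (l 4)]⟩]),
    (FC, [⟨[], [(l 1), (l 2), (l 3), (b (l 0) (l 4))], [(l 0)]⟩])]
  cases := [([([], [0, 2]), ([], []), ([], [])], [], [.cm 0 0 [2, 1, -3, 3] 1, .cm 0 0 [2, 1, -3, 3] 2, .cm
      0 2 [-10, -5, 12] 0, .cm 0 2 [-10, -5, 12] 1]),
    ([([0], [2]), ([], []), ([], [])], [], [.zr 0 0 [1], .zr 0 0 [0, 1], .zr 0 0 [0, 0, 1], .cm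
      0 2 [1] 1]),
    ([([2], [0, 1]), ([], []), ([], [])], [], [.zr 0 2 [1], .zr 0 2 [0, 1], .zr 0 2 [0, 0, 1],
      .cm 0 0 [1] 1]),
    ([([1, 2], [0]), ([], []), ([], [])], [], [.zr 0 1 [1], .zr 0 1 [0, 1], .zr 0 1 [0, 0, 1],
      .zr 0 1 [0, 0, 0, 1]]),
    ([([0, 2], [1]), ([], [1]), ([], [])], [], [.zr 0 0 [1], .zr 0 0 [0, 1], .zr 0 0 [0, 0, 1],
      .cm 1 1 [1] 0]),
    ([([0, 2], [1]), ([], []), ([], [0])], [], [.zr 0 0 [1], .zr 0 0 [0, 1], .zr 0 0 [0, 0, 1],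
      .cm 2 0 [1] 1])]

def z041111 : Zs :=
  [(0, [1, 0, -2, 0, 0, 0]), (2, [0, 0, -1, 0, -2, 1])]

def sv41111 : List (List (List (List ℤ))) :=
  [[[[-33, -36, 30, -30, -18, 0], [93, 92, -94, 86, 88, -42], [-42, -36, 48, -30, -60, 42]], [[-6,
      0, -12, -12, -12, 0], [16, 12, 20, 36, 48, -12], [-12, 0, 0, -12, -24, 12]], [[6, -12,
      -24, -12, 12, -16], [-20, 4, 40, 4, 0, 0], [10, 24, -8, 16, -24, 28]], [[22, 12, -24, 12,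
      28, -16], [-28, 36, 44, 24, -56, 32], [-16, -60, -4, -52, 0, -4]]], [[[-5, -16, -6, -16,
      -32, 24], [0, 0, 0, 0, 12, -12], [-5, -16, -6, -16, -8, 0]]], [[[2, 36, -52, -12, -24,
      0], [50, 84, -232, -48, -96, 0]]]]

theorem okt41111 : chkTb ce41111.cx ce41111.tb ce41111.D ce41111.bk = true :=
  chkTb_node (by decide +kernel) (by decide +kernel) (by decide +kernel)

theorem okz41111 : plainZ ce41111.cx ce41111.tb ce41111.pl [] = some z041111 := by decide +kernel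

theorem oks41111 : famsV ce41111.cx ce41111.tb ce41111.fams = some sv41111 := by decide +kernel

theorem okc41111 : chkCases ce41111 z041111 sv41111 ce41111.cases = true := by decide +kernel

theorem okv41111 : ce41111.cov 4 = true := by decide +kernel

theorem ok41111 : (ce41111.chk && ce41111.cov 4) = true :=
  Cert.ok_of (Cert.chk_of okt41111 (by decide) okz41111 oks41111 okc41111) okv41111

end Pool.Agent.Lib.MP_b4a71d_al.Eng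
end

section

/-!
# MP_b4a71d_al: the certificate of the type 4211 in degree 8
-/

set_option autoImplicit false

namespace Pool.Agent.Lib.MP_b4a71d_al.Eng

open Tr

/-- The type 4211. -/
def cx4211 : Cx := ⟨7, 4, [(2, 5, true)], (0, 0, false), [([2, 3, 4], [1], true)]⟩

def tl4211 : Tb :=
  (.n (.n (.n (.n (.n .e ⟨2097308, 6, [0, 0, 0, 0, 30, 0, 0, 0, 0, 0, 0, 0, 0], .bas 4⟩ .e)
      ⟨2098204, 22, [60, 120, 120, 90, 48, 60, 0, -60, -120, 90, 180, 0, 120], .lam 1 2 [0, 3,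
      4, 0, 0, 0, 0]⟩ .e) ⟨2098372, 8, [0, 0, 0, 0, 0, 30, 0, 0, 0, 0, 0, 0, 0], .bas 5⟩ (.n .e
      ⟨2098400, 5, [0, 0, 0, 30, 0, 0, 0, 0, 0, 0, 0, 0, 0], .bas 3⟩ .e)) ⟨2105372, 21, [75,
      -30, -30, 0, -42, 30, 0, -30, -60, 90, 90, 90, 60], .lam 1 2 [0, 3, 0, 4, 0, 0, 0]⟩ (.n
      (.n .e ⟨2105540, 31, [-5, -20, -30, -30, 3, -45, -60, 0, -30, 15, 30, -30, 30], .lam 2 1
      [0, 0, 3, 0, 4, 0, 0]⟩ .e) ⟨2105568, 4, [0, 0, 30, 0, 0, 0, 0, 0, 0, 0, 0, 0, 0], .bas 2⟩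
      (.n .e ⟨2106884, 11, [0, 0, 0, 0, 0, 0, 0, 30, 0, 0, 0, 0, 0], .bas 7⟩ .e))) ⟨2106912,
      12, [0, 0, 0, 0, 0, 0, 0, 0, 30, 0, 0, 0, 0], .bas 8⟩ (.n (.n (.n (.n .e ⟨2107136, 10,
      [-5, -20, 0, -30, 0, -30, -30, 0, 0, 0, 0, 0, 0], .lam 2 1 [0, 0, 0, 3, 4, 0, 0]⟩ .e)
      ⟨2162716, 28, [-15, -90, -90, -60, -54, -30, 0, 30, 60, -30, -90, 30, -60], .lam 1 2 [0,
      0, 0, 3, 4, 0, 0]⟩ .e) ⟨2162884, 19, [-20, 10, 30, 0, 27, -15, 0, 0, 30, -15, -30, -30,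
      0], .lam 2 1 [0, 3, 0, 0, 4, 0, 0]⟩ (.n .e ⟨2162912, 7, [0, -30, -30, -30, -30, 0, 0, 0,
      0, 0, 0, 0, 0], .lam 2 1 [0, 0, 0, 0, 3, 4, 0]⟩ .e)) ⟨2164228, 33, [0, 150, 150, 90, 72,
      60, 0, -60, -60, 30, 90, -60, 60], .lam 2 1 [0, 0, 0, 3, 0, 0, 4]⟩ (.n (.n .e ⟨2164256,
      34, [-45, -60, -60, -30, -24, -30, 0, 30, 60, -60, -120, 0, -90], .lam 2 1 [0, 3, 0, 0,
      0, 4, 0]⟩ .e) ⟨2164480, 9, [0, 0, 0, 0, 0, 0, 30, 0, 0, 0, 0, 0, 0], .bas 6⟩ (.n .e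
      ⟨2174980, 15, [0, 0, 0, 0, 3, -15, 0, 30, 0, 15, 0, 0, 0], .lam 1 2 [0, 3, 0, 0, 0, 0,
      4]⟩ .e))))

def tr4211 : Tb :=
  (.n (.n (.n (.n (.n .e ⟨2175232, 17, [-20, -20, 0, -30, -3, -15, -30, 0, 30, -15, -30, 0, 0],
      .lam 2 1 [0, 3, 4, 0, 0, 0, 0]⟩ .e) ⟨2177024, 13, [-10, 20, 0, 30, 0, 30, 30, -30, -30,
      0, 0, 0, 0], .lam 2 1 [0, 0, 3, 4, 0, 0, 0]⟩ .e) ⟨2621468, 29, [-120, 0, 0, -30, 18, -60,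
      0, 60, 120, -150, -180, -120, -120], .lam 1 2 [0, 3, 0, 0, 0, 4, 0]⟩ (.n .e ⟨2621636, 32,
      [25, 10, 0, 30, 0, 30, 60, 0, 0, 0, 0, 60, -30], .lam 2 1 [3, 0, 0, 0, 4, 0, 0]⟩ .e))
      ⟨2621664, 2, [0, 30, 0, 0, 0, 0, 0, 0, 0, 0, 0, 0, 0], .bas 1⟩ (.n (.n .e ⟨2622980, 26,
      [60, -30, -30, 0, -24, 30, 0, -30, -60, 60, 90, 60, 60], .low 0 1 [0, 2, 0, 3, 0, 0, 4]⟩
      .e) ⟨2623008, 30, [-50, 10, 30, 0, 24, -30, 0, 30, 60, -60, -90, -60, -30], .low 0 1 [0,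
      2, 0, 3, 0, 4, 0]⟩ (.n .e ⟨2623232, 3, [5, 20, 0, 0, 0, 0, 0, 0, 0, 0, 0, 0, 0], .low 0 1
      [0, 2, 0, 0, 0, 3, 4]⟩ .e))) ⟨2633732, 27, [35, 20, 30, 0, 6, 0, -60, -30, -60, 60, 90,
      0, 90], .low 0 1 [0, 2, 3, 0, 0, 0, 4]⟩ (.n (.n (.n (.n .e ⟨2633760, 25, [-75, 30, 60, 0,
      42, -30, 0, 30, 90, -90, -120, -90, -60], .lam 2 1 [0, 0, 3, 0, 0, 4, 0]⟩ .e) ⟨2633984,
      24, [20, 20, 0, 30, 0, 30, 60, 0, 0, 0, 0, 30, -30], .low 0 1 [0, 0, 2, 3, 4, 0, 0]⟩ .e)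
      ⟨2635776, 1, [15, 0, 0, 0, 0, 0, 0, 0, 0, 0, 0, 0, 0], .low 0 1 [0, 2, 0, 3, 4, 0, 0]⟩
      (.n .e ⟨2719748, 14, [0, 0, 0, 0, 0, 0, 0, 0, 0, 30, 0, 0, 0], .bas 9⟩ .e)) ⟨2719776, 23,
      [-30, 0, 0, 0, 0, 0, 0, 0, 0, -30, 0, -30, -30], .lam 2 1 [3, 4, 0, 0, 0, 0, 0]⟩ (.n (.n
      .e ⟨2720000, 18, [0, 0, 0, 0, 0, 0, 0, 0, 0, 0, 0, 30, 0], .bas 11⟩ .e) ⟨2721792, 20, [0,
      0, 0, 0, 0, 0, 0, 0, 0, 0, 0, 0, 30], .bas 12⟩ (.n .e ⟨2736128, 0, [30, 0, 0, 0, 0, 0, 0,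
      0, 0, 0, 0, 0, 0], .bas 0⟩ .e))))

def tb4211 : Tb := .n tl4211 ⟨2175008, 16, [0, 0, 0, 0, 0, 0, 0, 0, 0, 0, 30, 0, 0], .bas 10⟩ tr4211

def ce4211 : Cert where
  cx := cx4211
  D := 30
  bk := [2736128, 2621664, 2105568, 2098400, 2097308, 2098372, 2164480, 2106884, 2106912, 2719748, 2175008, 2720000, 2721792]
  tb := tb4211
  pl := [.lam 2 1 [0, 0, 0, 3, 0, 4, 0]]
  fams := [(FB, [⟨[], [(l 1), (l 2), (l 3)], [(l 0), (l 4)]⟩, ⟨[], [(l 1), (l 2), (l 3)], [(l 4), (l 0)]⟩,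
      ⟨[], [(l 1), (l 2), (b (l 0) (l 3))], [(l 4)]⟩, ⟨[], [(l 1), (l 2), (b (l 3) (l 4))], [(l
      0)]⟩, ⟨[], [(b (l 1) (l 2)), (l 3), (l 4)], [(l 0)]⟩, ⟨[], [(l 1), (l 2), (b (b (l 4) (l
      3)) (l 0))], []⟩, ⟨[], [(b (l 0) (l 1)), (l 2), (b (l 3) (l 4))], []⟩, ⟨[], [(b (l 1) (l
      2)), (l 3), (b (l 0) (l 4))], []⟩, ⟨[], [(b (l 2) (l 3)), (l 1), (b (l 0) (l 4))], []⟩,
      ⟨[], [(b (b (l 2) (l 0)) (l 1)), (l 3), (l 4)], []⟩]),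
    (FA, [⟨[], [(l 2), (l 1)], [(l 3), (l 4)]⟩]),
    (FC, [⟨[], [(l 2), (l 3), (l 1), (l 4)], [(l 0), (l 0)]⟩])]
  cases := [([([], [0, 2]), ([], []), ([], [])], [], [.cm 0 0 [8, -12, -12, -5, 6, -2, -10, 16, -12, 4] 1,
      .cm 0 0 [8, -12, -12, -5, 6, -2, -10, 16, -12, 4] 2, .cm 0 0 [0, 2, 15, 7, 4, 1, 7, -12,
      13] 1, .cm 0 0 [0, 2, 15, 7, 4, 1, 7, -12, 13] 2, .cm 0 2 [-1482, 4522, 4053, 323, -220,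
      1805, 5963, 0, 4397] 0, .cm 0 2 [-1482, 4522, 4053, 323, -220, 1805, 5963, 0, 4397] 1,
      .cm 0 0 [19305169, 7095492, 47164038, -20229861, 20611136, -11920377, 0, 0, 25416804] 1,
      .cm 0 0 [19305169, 7095492, 47164038, -20229861, 20611136, -11920377, 0, 0, 25416804] 2,
      .cm 0 2 [1024235664481922487, -107046905307598374, 561445030841760978,
      -1139124860645199030, 1358224420531211396] 0, .cm 0 2 [1024235664481922487,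
      -107046905307598374, 561445030841760978, -1139124860645199030, 1358224420531211396] 1,
      .cm 0 2 [-4307694512014511689, 6446966069767977790, 13162984764586896624,
      21021990373881695226, 0, 0, 0, 0, 0, 16298693046374536752] 0, .cm 0 2
      [-4307694512014511689, 6446966069767977790, 13162984764586896624, 21021990373881695226,
      0, 0, 0, 0, 0, 16298693046374536752] 1]),
    ([([0], [2]), ([], []), ([], [])], [], [.zr 0 0 [1], .zr 0 0 [0, 1], .zr 0 0 [0, 0, 1], .zr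
      0 0 [0, 0, 0, 1], .zr 0 0 [0, 0, 0, 0, 1], .zr 0 0 [0, 0, 0, 0, 0, 1], .zr 0 0 [0, 0, 0,
      0, 0, 0, 1], .zr 0 0 [0, 0, 0, 0, 0, 0, 0, 1], .zr 0 0 [0, 0, 0, 0, 0, 0, 0, 0, 1], .cm 0
      2 [-1, 1] 1, .cm 0 2 [1, 0, -1, 0, 0, 1] 1, .cm 0 2 [-1, 0, -1, 0, 0, 0, 0, 2] 1]),
    ([([2], [0, 1]), ([], []), ([], [])], [], [.zr 0 2 [1], .zr 0 2 [0, 1], .zr 0 2 [0, 0, 1],
      .zr 0 2 [0, 0, 0, 1], .zr 0 2 [0, 0, 0, 0, 1], .zr 0 2 [0, 0, 0, 0, 0, 1], .zr 0 2 [0, 0,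
      0, 0, 0, 0, 1], .zr 0 2 [0, 0, 0, 0, 0, 0, 0, 1], .zr 0 2 [0, 0, 0, 0, 0, 0, 0, 0, 1],
      .zr 0 2 [0, 0, 0, 0, 0, 0, 0, 0, 0, 1], .cm 0 0 [0, 0, 0, 0, 0, 0, 0, 0, 0, 1] 1, .cm 0 0
      [-2, 0, 0, 0, 1] 1]),
    ([([1, 2], [0]), ([], []), ([], [])], [], [.zr 0 1 [1], .zr 0 1 [0, 1], .zr 0 1 [0, 0, 1],
      .zr 0 1 [0, 0, 0, 1], .zr 0 1 [0, 0, 0, 0, 1], .zr 0 1 [0, 0, 0, 0, 0, 1], .zr 0 1 [0, 0,
      0, 0, 0, 0, 1], .zr 0 1 [0, 0, 0, 0, 0, 0, 0, 1], .zr 0 1 [0, 0, 0, 0, 0, 0, 0, 0, 1],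
      .zr 0 1 [0, 0, 0, 0, 0, 0, 0, 0, 0, 1], .zr 0 2 [1], .zr 0 2 [0, 1]]),
    ([([0, 2], [1]), ([], [1]), ([], [])], [], [.zr 0 0 [1], .zr 0 0 [0, 1], .zr 0 0 [0, 0, 1],
      .zr 0 0 [0, 0, 0, 1], .zr 0 0 [0, 0, 0, 0, 1], .zr 0 0 [0, 0, 0, 0, 0, 1], .zr 0 0 [0, 0,
      0, 0, 0, 0, 1], .zr 0 0 [0, 0, 0, 0, 0, 0, 0, 1], .zr 0 0 [0, 0, 0, 0, 0, 0, 0, 0, 1],
      .zr 0 2 [1], .zr 0 2 [0, 0, 1], .cm 1 1 [1] 0]),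
    ([([0, 2], [1]), ([], []), ([], [0])], [], [.zr 0 0 [1], .zr 0 0 [0, 1], .zr 0 0 [0, 0, 1],
      .zr 0 0 [0, 0, 0, 1], .zr 0 0 [0, 0, 0, 0, 1], .zr 0 0 [0, 0, 0, 0, 0, 1], .zr 0 0 [0, 0,
      0, 0, 0, 0, 1], .zr 0 0 [0, 0, 0, 0, 0, 0, 0, 1], .zr 0 0 [0, 0, 0, 0, 0, 0, 0, 0, 1],
      .zr 0 2 [1], .zr 0 2 [0, 0, 1], .cm 2 0 [1] 1])]

def z04211 : Zs :=
  [(0, [-35, 70, 90, 30, 48, 0, 0, 0, 30, -30, -30, -60, 0])]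

def sv4211 : List (List (List (List ℤ))) :=
  [[[[45, 360, 270, 180, 144, 90, -180, -270, -360, 180, 450, -180, 270], [-120, -660, -480, -450,
      -216, -450, 0, 450, 570, -300, -720, 150, -300], [15, 510, 540, 360, 198, 450, 180, -270,
      -90, 0, 180, -90, 90]], [[-135, -90, 0, 0, 18, -90, 0, 90, 90, -180, -360, 0, -270],
      [175, 250, 210, -90, 42, 150, 0, -150, -60, 240, 510, -120, 450], [-135, -180, -270, 0,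
      -72, -90, 0, 90, 180, -180, -450, 0, -270]], [[-130, 50, 30, -30, 102, -210, -120, 90, 0,
      -120, -30, -240, 0], [530, 620, 450, 600, -114, 960, 420, -540, -510, 570, 690, 720,
      150], [-245, -650, -510, -540, -60, -630, -360, 270, 300, -210, -390, -330, 0]], [[70,
      100, 120, 120, 72, 0, 120, 0, -240, 60, 240, 0, 0], [40, -200, -180, -240, -192, 60,
      -240, -60, 240, 0, -300, 240, -120], [-30, 0, -60, 60, 60, -60, 120, 60, 120, -60, -60,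
      -180, 0]], [[120, -60, -90, 90, -54, 90, 180, 0, -90, 90, 90, 180, 0], [-440, 40, 270,
      -180, 180, -270, -360, 90, 360, -360, -450, -600, 0], [165, 120, -90, 90, -72, 180, 180,
      -90, -180, 180, 270, 270, 0]], [[170, -40, -120, 60, -108, 0, -120, 0, -480, 180, 480,
      120, 240], [230, -280, -480, 60, -36, 0, 600, 0, 600, 180, -600, 780, -480], [-440, 520,
      660, 120, 216, 180, -240, -180, -240, -360, 60, -840, 0]], [[30, -300, -360, -240, -180,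
      60, 0, -60, 240, 0, -180, 180, -120], [-570, -60, 300, -180, 252, -540, -180, 540, 600,
      -660, -1080, -480, -480], [450, 480, 300, 360, 36, 300, -60, -360, -780, 600, 1260, 120,
      720]], [[-210, 90, 180, 30, 126, -120, 0, 120, 240, -240, -360, -210, -180], [1145, -220,
      -720, 150, -564, 690, 180, -600, -1440, 1260, 2040, 1110, 900], [-700, -40, 330, -180,
      300, -450, -120, 390, 960, -780, -1350, -660, -540]], [[450, -480, -720, -120, -432, 120,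
      0, -120, -420, 480, 540, 600, 240], [-1250, 280, 720, -180, 510, -570, -360, 480, 1020,
      -1350, -1740, -1380, -840], [440, 680, 360, 540, 192, 480, 360, -420, -540, 540, 900,
      360, 360]], [[60, -570, -630, -360, -261, -225, -180, 90, 90, 45, -180, 270, -90], [-810,
      1410, 1770, 540, 924, 0, -150, 0, 390, -720, -390, -1530, 60], [480, -420, -630, -90,
      -441, 225, 90, -90, -270, 405, 270, 900, -90]]], [[[0, -480, -480, -300, -204, -120, 0,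
      120, 240, -60, -360, 240, -240], [45, 270, 270, 180, 108, 90, 0, -90, -180, 90, 270, -90,
      180], [90, 60, 60, 60, 12, 60, 0, -60, -120, 120, 180, 60, 120]]], [[[-100, 80, 0, 60, 0,
      60, 0, -60, -60, 0, 0, -60, 120], [120, 480, 0, 720, 24, 600, 960, -240, -480, 120, 240,
      0, 0]]]]

theorem okt4211 : chkTb ce4211.cx ce4211.tb ce4211.D ce4211.bk = true :=
  chkTb_node (by decide +kernel) (by decide +kernel) (by decide +kernel)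

theorem okz4211 : plainZ ce4211.cx ce4211.tb ce4211.pl [] = some z04211 := by decide +kernel

theorem oks4211 : famsV ce4211.cx ce4211.tb ce4211.fams = some sv4211 := by decide +kernel

theorem okc4211 : chkCases ce4211 z04211 sv4211 ce4211.cases = true := by decide +kernel

theorem okv4211 : ce4211.cov 4 = true := by decide +kernel

theorem ok4211 : (ce4211.chk && ce4211.cov 4) = true :=
  Cert.ok_of (Cert.chk_of okt4211 (by decide) okz4211 oks4211 okc4211) okv4211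

end Pool.Agent.Lib.MP_b4a71d_al.Eng
end

section

/-!
# MP_b4a71d_al: the certificate of the type 431 in degree 8
-/

set_option autoImplicit false

namespace Pool.Agent.Lib.MP_b4a71d_al.Eng

open Tr

/-- The type 431. -/
def cx431 : Cx := ⟨7, 4, [(2, 5, false)], (0, 0, false), [([2, 3, 4], [1], false)]⟩

def tl431 : Tb :=
  (.n (.n (.n (.n (.n .e ⟨2097308, 24, [-36, -90, -201, -180, 144, 48, -324, 48, 36, -180, 36,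
      -60, -36, 36], .lam 1 2 [0, 3, 4, 0, 0, 0, 0]⟩ .e) ⟨2098204, 23, [0, 0, 0, 0, 0, 0, 0, 0,
      0, 0, 0, 0, 0, 12], .bas 13⟩ .e) ⟨2098372, 21, [0, 0, 0, 0, 0, 0, 0, 0, 0, 0, 0, 0, 12,
      0], .bas 12⟩ (.n .e ⟨2098400, 20, [12, 18, -39, -36, 72, 48, -108, 24, 36, -36, 36, -12,
      0, 0], .low 0 1 [0, 2, 3, 0, 0, 4, 0]⟩ .e)) ⟨2105372, 16, [12, 0, 12, 12, 24, 12, 12, 0,
      12, -12, -12, 0, 0, 0], .lam 2 1 [0, 0, 3, 0, 0, 0, 4]⟩ (.n (.n .e ⟨2105540, 12, [0, 0,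
      0, 0, -12, -12, -12, 0, -12, 0, 0, 0, 0, 0], .lam 2 1 [0, 0, 3, 0, 4, 0, 0]⟩ .e)
      ⟨2105568, 11, [0, 0, 0, 0, 0, 0, 0, 0, 12, 0, 0, 0, 0, 0], .bas 8⟩ (.n .e ⟨2106884, 15,
      [0, 0, 0, 0, 0, 0, 0, 0, 0, 0, 12, 0, 0, 0], .bas 10⟩ .e))) ⟨2106912, 17, [-12, -12, 0,
      0, 0, -12, 0, 0, 0, 0, -12, 0, 0, 0], .lam 2 1 [0, 0, 3, 4, 0, 0, 0]⟩ (.n (.n (.n (.n .e
      ⟨2107136, 7, [0, 0, 0, 0, 0, 12, 0, 0, 0, 0, 0, 0, 0, 0], .bas 5⟩ .e) ⟨2162716, 31, [-24,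
      1, -121, -149, 58, 28, -207, 23, -9, -91, 45, -42, -30, 9], .lam 2 1 [0, 3, 0, 0, 0, 4,
      0]⟩ .e) ⟨2162884, 32, [-24, -2, -111, -120, 44, 24, -196, 12, -4, -84, 40, -28, -24, 8],
      .lam 2 1 [0, 3, 0, 0, 4, 0, 0]⟩ (.n .e ⟨2162912, 29, [20, 8, 110, 120, -56, -28, 184,
      -20, 4, 84, -40, 28, 24, -8], .lam 1 2 [0, 0, 3, 4, 0, 0, 0]⟩ .e)) ⟨2164228, 25, [-8, -3,
      -15, -17, 2, -4, -35, 7, -5, -7, 5, -2, -6, 1], .lam 1 2 [0, 0, 3, 0, 0, 0, 4]⟩ (.n (.n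
      .e ⟨2164256, 27, [4, -9, 11, 17, -2, 0, 23, -3, 5, 7, -5, 2, 6, -1], .lam 2 1 [0, 3, 0,
      4, 0, 0, 0]⟩ .e) ⟨2164480, 10, [4, -6, 1, 0, 0, 4, 12, -4, 0, 0, 0, 0, 0, 0], .low 0 1
      [0, 0, 2, 3, 4, 0, 0]⟩ (.n .e ⟨2174980, 6, [-12, 0, -12, -12, -12, 0, 0, 0, 0, 0, 0, 0,
      0, 0], .lam 2 1 [0, 3, 4, 0, 0, 0, 0]⟩ .e))))

def tr431 : Tb :=
  (.n (.n (.n (.n (.n .e ⟨2175232, 5, [0, 0, 0, 0, 12, 0, 0, 0, 0, 0, 0, 0, 0, 0], .bas 4⟩ .e)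
      ⟨2177024, 0, [12, 0, 0, 0, 0, 0, 0, 0, 0, 0, 0, 0, 0, 0], .bas 0⟩ .e) ⟨2621468, 33, [-24,
      -31, -62, -43, 86, 8, -105, 25, 57, -77, -21, -42, -30, 15], .lam 2 1 [3, 0, 0, 0, 0, 4,
      0]⟩ (.n .e ⟨2621636, 34, [12, -52, -168, -132, 232, 132, -356, 60, 124, -168, 68, -56, 0,
      28], .lam 2 1 [3, 0, 0, 0, 4, 0, 0]⟩ .e)) ⟨2621664, 30, [4, 64, 130, 96, -160, -68, 248,
      -52, -88, 132, -32, 44, 12, -28], .lam 2 1 [0, 0, 0, 0, 3, 4, 0]⟩ (.n (.n .e ⟨2622980,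
      26, [8, 3, 15, 17, -2, 4, 35, -7, 5, 7, -17, 2, -6, -13], .lam 2 1 [0, 0, 0, 3, 0, 0, 4]⟩
      .e) ⟨2623008, 28, [20, -21, -56, -53, 74, 60, -131, 27, 31, -43, 53, -14, 18, 13], .lam 2
      1 [3, 0, 0, 4, 0, 0, 0]⟩ (.n .e ⟨2623232, 22, [-16, -12, 38, 36, -72, -64, 96, -20, -36,
      36, -36, 12, -12, 0], .lam 2 1 [0, 0, 0, 3, 4, 0, 0]⟩ .e))) ⟨2633732, 13, [0, 0, 0, 0, 0,
      0, 0, 0, 0, 12, 0, 0, 0, 0], .bas 9⟩ (.n (.n (.n (.n .e ⟨2633760, 14, [0, -12, -12, 0, 0,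
      0, -12, 0, 0, -12, 0, 0, 0, 0], .lam 2 1 [3, 0, 4, 0, 0, 0, 0]⟩ .e) ⟨2633984, 8, [0, 0,
      0, 0, 0, 0, 12, 0, 0, 0, 0, 0, 0, 0], .bas 6⟩ .e) ⟨2635776, 1, [0, 12, 0, 0, 0, 0, 0, 0,
      0, 0, 0, 0, 0, 0], .bas 1⟩ (.n .e ⟨2719748, 19, [12, -18, -15, 0, 0, 0, 0, -12, 0, 0, 0,
      -12, 0, 0], .lam 2 1 [3, 4, 0, 0, 0, 0, 0]⟩ .e)) ⟨2719776, 18, [0, 0, 0, 0, 0, 0, 0, 0,
      0, 0, 0, 12, 0, 0], .bas 11⟩ (.n (.n .e ⟨2720000, 9, [0, 0, 0, 0, 0, 0, 0, 12, 0, 0, 0,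
      0, 0, 0], .bas 7⟩ .e) ⟨2721792, 3, [-12, 18, 3, 0, 0, 0, 0, 0, 0, 0, 0, 0, 0, 0], .low 0
      1 [0, 2, 3, 4, 0, 0, 0]⟩ (.n .e ⟨2736128, 2, [0, 0, 12, 0, 0, 0, 0, 0, 0, 0, 0, 0, 0, 0],
      .bas 2⟩ .e))))

def tb431 : Tb := .n tl431 ⟨2175008, 4, [0, 0, 0, 12, 0, 0, 0, 0, 0, 0, 0, 0, 0, 0], .bas 3⟩ tr431

def ce431 : Cert where
  cx := cx431
  D := 12
  bk := [2177024, 2635776, 2736128, 2175008, 2175232, 2107136, 2633984, 2720000, 2105568, 2633732, 2106884, 2719776, 2098372, 2098204]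
  tb := tb431
  pl := [.lam 2 1 [0, 0, 3, 0, 0, 4, 0], .low 0 1 [0, 0, 2, 3, 0, 0, 4], .lam 2 1 [0, 0, 0, 3, 0, 4, 0], .low 0 1 [0, 0, 2, 0, 3, 0, 4], .low 0 1 [0, 0, 2, 0, 3, 4, 0]]
  fams := [(FB, [⟨[], [(l 1), (l 2), (l 3)], [(l 0), (l 4)]⟩, ⟨[], [(l 1), (l 2), (l 3)], [(l 4), (l 0)]⟩,
      ⟨[], [(l 1), (l 2), (b (l 0) (l 3))], [(l 4)]⟩, ⟨[], [(l 2), (l 3), (b (l 0) (l 1))], [(l
      4)]⟩, ⟨[], [(l 2), (l 3), (b (l 1) (l 4))], [(l 0)]⟩, ⟨[], [(l 1), (l 2), (b (b (l 4) (l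
      0)) (l 3))], []⟩, ⟨[], [(l 2), (l 3), (b (b (l 4) (l 1)) (l 0))], []⟩, ⟨[], [(b (l 1) (l
      2)), (l 3), (b (l 0) (l 4))], []⟩]),
    (FA, [⟨[], [(l 2), (l 1)], [(l 3), (l 4)]⟩]),
    (FC, [])]
  cases := [([([], [0, 2]), ([], []), ([], [])], [], [.cm 0 0 [1, -1, 0, 0, 0, 1, 1] 1, .cm 0 0 [1, -1, 0,
      0, 0, 1, 1] 2, .cm 0 2 [-6, 4, 8, 8, -5, 6, 0, 6] 0, .cm 0 2 [-6, 4, 8, 8, -5, 6, 0, 6]
      1, .cm 0 0 [-11, 9, 10, 14, -9, 9] 1, .cm 0 0 [-11, 9, 10, 14, -9, 9] 2, .cm 0 2 [-4, -3,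
      7, 2] 0, .cm 0 2 [-4, -3, 7, 2] 1, .cm 0 2 [-7, -10, 14, 0, 2] 0]),
    ([([0], [2]), ([], []), ([], [])], [], [.zr 0 0 [1], .zr 0 0 [0, 1], .zr 0 0 [0, 0, 1], .zr
      0 0 [0, 0, 0, 1], .zr 0 0 [0, 0, 0, 0, 1], .zr 0 0 [0, 0, 0, 0, 0, 1], .zr 0 0 [0, 0, 0,
      0, 0, 0, 0, 1], .cm 0 2 [0, 0, 1, 0, 1] 1, .cm 0 2 [4, 0, 3, 0, 0, 9] 1]),
    ([([2], [0, 1]), ([], []), ([], [])], [], [.zr 0 2 [1], .zr 0 2 [0, 1], .zr 0 2 [0, 0, 1],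
      .zr 0 2 [0, 0, 0, 1], .zr 0 2 [0, 0, 0, 0, 1], .zr 0 2 [0, 0, 0, 0, 0, 1], .zr 0 2 [0, 0,
      0, 0, 0, 0, 1], .zr 0 2 [0, 0, 0, 0, 0, 0, 0, 1], .cm 0 1 [1] 0]),
    ([([1, 2], [0]), ([], [2]), ([], [])], [], [.zr 0 1 [1], .zr 0 1 [0, 1], .zr 0 1 [0, 0, 1],
      .zr 0 1 [0, 0, 0, 1], .zr 0 1 [0, 0, 0, 0, 1], .zr 0 1 [0, 0, 0, 0, 0, 1], .zr 0 1 [0, 0,
      0, 0, 0, 0, 1], .zr 0 1 [0, 0, 0, 0, 0, 0, 0, 1], .cm 1 2 [1] 0]),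
    ([([0, 2], [1]), ([], [1]), ([], [])], [], [.zr 0 0 [1], .zr 0 0 [0, 1], .zr 0 0 [0, 0, 1],
      .zr 0 0 [0, 0, 0, 1], .zr 0 0 [0, 0, 0, 0, 1], .zr 0 0 [0, 0, 0, 0, 0, 1], .zr 0 0 [0, 0,
      0, 0, 0, 0, 0, 1], .zr 0 2 [1], .zr 0 2 [0, 0, 1]]),
    ([([0, 2], [1]), ([], []), ([], [0])], [], [.zr 0 0 [1], .zr 0 0 [0, 1], .zr 0 0 [0, 0, 1],
      .zr 0 0 [0, 0, 0, 1], .zr 0 0 [0, 0, 0, 0, 1], .zr 0 0 [0, 0, 0, 0, 0, 1], .zr 0 0 [0, 0,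
      0, 0, 0, 0, 0, 1], .zr 0 2 [1], .zr 0 2 [0, 0, 1]])]

def z0431 : Zs :=
  [(1, [0, -24, 0, 24, 24, 0, 0, 0, 24, -24, -24, 0, 0, 0]), (0, [-4, 0, 53, 64, -51, -40, 119,
      -23, -12, 32, -48, 14, -6, -13]), (2, [0, 0, 39, 48, -31, -24, 83, -15, -4, 24, -32, 10,
      -2, -9]), (3, [0, 0, 0, -24, 22, 12, -35, 27, -11, -12, 29, 8, 14, 24]), (4, [0, 0, 0, 0,
      -1, 0, -1, 0, -1, 0, 1, 1, 1, 0])]

def sv431 : List (List (List (List ℤ))) :=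
  [[[[-16, 1, -96, -103, 54, 40, -149, 5, 13, -77, 47, -26, -18, 7], [24, 104, 399, 354, -524,
      -276, 886, -174, -254, 342, -226, 112, -24, -110], [28, -121, -207, -131, 414, 200, -553,
      145, 233, -193, 139, -70, 66, 95]], [[4, 5, 99, 103, -54, -40, 161, -17, -13, 77, -47,
      26, 18, -7], [64, -164, -431, -390, 548, 340, -922, 194, 290, -378, 262, -124, 36, 110],
      [-88, 163, 234, 167, -438, -272, 589, -157, -269, 229, -175, 82, -78, -95]], [[44, -8,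
      -6, 44, 192, 148, 4, -28, 148, -116, -28, 16, 24, -20], [-92, -15, -26, -123, -306, -236,
      87, 17, -255, 111, -21, -42, -66, -21], [-64, 160, 59, -30, -388, -148, 254, -110, -214,
      174, 22, 32, -48, -22]], [[24, 0, 24, 24, 72, 48, 48, 0, 48, -24, -24, 0, 24, -24], [0,
      178, 64, 74, -156, 56, 166, -134, 10, 94, 62, 76, 12, 22], [-56, -172, -106, -112, 8,
      -120, -168, 120, -72, -32, -24, -72, -24, 24]], [[72, 6, -164, -178, 292, 248, -406, 94,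
      134, -134, 178, -52, 60, 26], [-216, 314, 666, 582, -908, -624, 1522, -402, -434, 594,
      -454, 244, -108, -134], [80, -266, -432, -298, 468, 256, -878, 254, 238, -398, 170, -164,
      12, 82]], [[-8, 5, 108, 97, -138, -88, 215, -11, -43, 119, -41, 26, 6, -1], [12, 90,
      -149, -148, -8, 32, -364, 4, -100, -92, 124, -28, -60, 8], [-40, -74, 60, 50, -84, -80,
      334, -82, 10, -14, -178, 16, -12, -50]], [[-40, 280, 738, 596, -936, -512, 1540, -292,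
      -476, 700, -340, 232, -24, -164], [0, -390, -940, -614, 1100, 544, -1874, 266, 610,
      -1018, 230, -260, -60, 142], [48, 24, -164, -280, 304, 224, -472, 160, 104, -32, 280,
      -88, 96, 104]], [[-112, 313, 997, 895, -1310, -804, 2205, -441, -621, 845, -639, 306,
      -126, -255], [92, -182, -643, -648, 848, 536, -1504, 352, 368, -456, 520, -220, 132,
      212], [68, -389, -1031, -815, 1246, 696, -2205, 405, 621, -949, 495, -306, 54, 231]]],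
      [[[-12, -181, -245, -175, 302, 104, -405, 73, 117, -305, -9, -78, -42, 15], [24, 90, 189,
      168, -168, -60, 312, -48, -48, 192, -24, 60, 36, -12], [36, -1, 133, 161, -34, -16, 219,
      -23, 21, 79, -57, 42, 30, -9]]], []]

theorem okt431 : chkTb ce431.cx ce431.tb ce431.D ce431.bk = true :=
  chkTb_node (by decide +kernel) (by decide +kernel) (by decide +kernel)

theorem okz431 : plainZ ce431.cx ce431.tb ce431.pl [] = some z0431 := by decide +kernel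

theorem oks431 : famsV ce431.cx ce431.tb ce431.fams = some sv431 := by decide +kernel

theorem okc431 : chkCases ce431 z0431 sv431 ce431.cases = true := by decide +kernel

theorem okv431 : ce431.cov 4 = true := by decide +kernel

theorem ok431 : (ce431.chk && ce431.cov 4) = true :=
  Cert.ok_of (Cert.chk_of okt431 (by decide) okz431 oks431 okc431) okv431

end Pool.Agent.Lib.MP_b4a71d_al.Eng
end

section

/-!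
# MP_b4a71d_al: the certificate of the type 44 in degree 8
-/

set_option autoImplicit false

namespace Pool.Agent.Lib.MP_b4a71d_al.Eng

open Tr

/-- The type 44. -/
def cx44 : Cx := ⟨7, 4, [(2, 5, false)], (2, 5, false), []⟩

def tl44 : Tb :=
  (.n (.n (.n (.n (.n .e ⟨2097308, 33, [0, -5, 0, 3, -1], .lam 2 1 [0, 0, 0, 0, 3, 4, 0]⟩ .e)
      ⟨2098204, 34, [0, -3, 0, 1, -1], .lam 2 1 [0, 0, 0, 3, 0, 4, 0]⟩ .e) ⟨2098372, 32, [-2,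
      -3, 0, 3, -1], .sym 3 [0, 0, 2, 0, 3, 0, 4]⟩ (.n .e ⟨2098400, 31, [0, 3, 0, -3, 1], .sym
      3 [0, 0, 2, 0, 3, 4, 0]⟩ .e)) ⟨2105372, 28, [0, -1, 0, -1, -1], .lam 2 1 [0, 0, 3, 0, 0,
      4, 0]⟩ (.n (.n .e ⟨2105540, 21, [0, 0, 1, 0, 0], .sym 2 [0, 0, 0, 2, 3, 0, 4]⟩ .e)
      ⟨2105568, 18, [0, 1, 0, 0, 0], .sym 2 [0, 0, 0, 2, 3, 4, 0]⟩ (.n .e ⟨2106884, 24, [2, 2,
      2, -1, 0], .lam 2 1 [0, 0, 3, 4, 0, 0, 0]⟩ .e))) ⟨2106912, 23, [0, 0, 0, 1, 0], .bas 3⟩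
      (.n (.n (.n (.n .e ⟨2107136, 15, [1, 0, 0, 0, 0], .bas 0⟩ .e) ⟨2162716, 29, [0, -1, 0,
      -1, -1], .lam 2 1 [0, 3, 0, 0, 0, 4, 0]⟩ .e) ⟨2162884, 19, [0, 0, 1, 0, 0], .bas 2⟩ (.n
      .e ⟨2162912, 17, [0, 1, 0, 0, 0], .bas 1⟩ .e)) ⟨2164228, 26, [2, 2, 2, -1, 0], .sym 2 [0,
      0, 2, 3, 0, 0, 4]⟩ (.n (.n .e ⟨2164256, 25, [0, 0, 0, 1, 0], .sym 2 [0, 0, 2, 3, 0, 4,
      0]⟩ .e) ⟨2164480, 16, [1, 0, 0, 0, 0], .sym 2 [0, 0, 2, 3, 4, 0, 0]⟩ (.n .e ⟨2174980, 30,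
      [4, 3, 3, 0, -1], .lam 2 1 [0, 3, 4, 0, 0, 0, 0]⟩ .e))))

def tr44 : Tb :=
  (.n (.n (.n (.n (.n .e ⟨2175232, 20, [-1, -1, -1, 0, 0], .lam 2 1 [0, 3, 0, 0, 4, 0, 0]⟩ .e)
      ⟨2177024, 22, [-3, -2, -2, 0, 0], .sym 4 [0, 2, 3, 0, 4, 0, 0]⟩ .e) ⟨2621468, 0, [0, 0,
      0, 0, 0], .sym 2 [0, 2, 0, 0, 0, 3, 4]⟩ (.n .e ⟨2621636, 1, [0, 0, 0, 0, 0], .sym 2 [0,
      2, 0, 0, 3, 0, 4]⟩ .e)) ⟨2621664, 2, [0, 0, 0, 0, 0], .sym 2 [0, 2, 0, 0, 3, 4, 0]⟩ (.n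
      (.n .e ⟨2622980, 3, [0, 0, 0, 0, 0], .sym 2 [0, 2, 0, 3, 0, 0, 4]⟩ .e) ⟨2623008, 4, [0,
      0, 0, 0, 0], .sym 2 [0, 2, 0, 3, 0, 4, 0]⟩ (.n .e ⟨2623232, 5, [0, 0, 0, 0, 0], .sym 2
      [0, 2, 0, 3, 4, 0, 0]⟩ .e))) ⟨2633732, 6, [0, 0, 0, 0, 0], .sym 2 [0, 2, 3, 0, 0, 0, 4]⟩
      (.n (.n (.n (.n .e ⟨2633760, 7, [0, 0, 0, 0, 0], .sym 2 [0, 2, 3, 0, 0, 4, 0]⟩ .e)
      ⟨2633984, 8, [0, 0, 0, 0, 0], .sym 2 [0, 2, 3, 0, 4, 0, 0]⟩ .e) ⟨2635776, 9, [0, 0, 0, 0,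
      0], .sym 2 [0, 2, 3, 4, 0, 0, 0]⟩ (.n .e ⟨2719748, 10, [0, 0, 0, 0, 0], .sym 2 [2, 3, 0,
      0, 0, 0, 4]⟩ .e)) ⟨2719776, 11, [0, 0, 0, 0, 0], .sym 2 [2, 3, 0, 0, 0, 4, 0]⟩ (.n (.n .e
      ⟨2720000, 12, [0, 0, 0, 0, 0], .sym 2 [2, 3, 0, 0, 4, 0, 0]⟩ .e) ⟨2721792, 13, [0, 0, 0,
      0, 0], .sym 2 [2, 3, 0, 4, 0, 0, 0]⟩ (.n .e ⟨2736128, 14, [0, 0, 0, 0, 0], .sym 2 [2, 3,
      4, 0, 0, 0, 0]⟩ .e))))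

def tb44 : Tb := .n tl44 ⟨2175008, 27, [0, 0, 0, 0, 1], .bas 4⟩ tr44

def ce44 : Cert where
  cx := cx44
  D := 1
  bk := [2107136, 2162912, 2162884, 2106912, 2175008]
  tb := tb44
  pl := [.lam 2 1 [0, 0, 0, 0, 0, 3, 4], .lam 2 1 [0, 0, 0, 3, 0, 0, 4], .sym 4 [0, 0, 2, 0, 3, 0, 4], .lam 2 1 [0, 0, 3, 0, 0, 0, 4]]
  fams := [(FB, [⟨[], [(l 1), (l 2), (b (l 0) (l 3))], [(l 4)]⟩, ⟨[], [(l 1), (l 2), (b (b (l 4) (l 0)) (l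
      3))], []⟩]),
    (FA, []),
    (FC, [])]
  cases := [([([], [0, 2]), ([], []), ([], [])], [], [.cm 0 0 [0, 1] 1]),
    ([([0], [2]), ([], []), ([], [])], [], [.zr 0 0 [1]]),
    ([([2], [0, 1]), ([], []), ([], [])], [], [.zr 0 2 [1]]),
    ([([1, 2], [0]), ([], []), ([], [])], [], [.zr 0 1 [1]]),
    ([([0, 2], [1]), ([], [1]), ([], [])], [], [.zr 0 0 [1]]),
    ([([0, 2], [1]), ([], []), ([], [0])], [], [.zr 0 0 [1]])]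

def z044 : Zs :=
  [(1, [0, -10, 0, 2, -4]), (0, [-5, 0, -10, -4, 3]), (3, [0, 0, 0, 4, -3]), (2, [0, 0, -4, 0, -3])]

def sv44 : List (List (List (List ℤ))) :=
  [[[[-4, -2, -2, 2, -2], [4, 0, 2, 2, 0], [4, 0, 2, 2, 0]], [[-4, -6, -2, 4, 0], [24, 28, 12,
      -28, 4], [-12, -16, -6, 22, -4]]], [], []]

theorem okt44 : chkTb ce44.cx ce44.tb ce44.D ce44.bk = true :=
  chkTb_node (by decide +kernel) (by decide +kernel) (by decide +kernel)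

theorem okz44 : plainZ ce44.cx ce44.tb ce44.pl [] = some z044 := by decide +kernel

theorem oks44 : famsV ce44.cx ce44.tb ce44.fams = some sv44 := by decide +kernel

theorem okc44 : chkCases ce44 z044 sv44 ce44.cases = true := by decide +kernel

theorem okv44 : ce44.cov 4 = true := by decide +kernel

theorem ok44 : (ce44.chk && ce44.cov 4) = true :=
  Cert.ok_of (Cert.chk_of okt44 (by decide) okz44 oks44 okc44) okv44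

end Pool.Agent.Lib.MP_b4a71d_al.Eng
end

section

/-!
# MP_b4a71d_al: the two vectors of type (2, 2) of the level (4, 3) as combinations of trees
-/

set_option autoImplicit false

namespace Pool.Agent.Lib.MP_b4a71d_al.Eng

open Tr

/-- `[y_a, x, x]` etc. -/
def yxT (a : ℕ) : ℕ → Tr
  | 0 => l a
  | n + 1 => b (yxT a n) (l 0)

def g3C (a b' c : ℕ) : Cb :=
  [(1, b (b (yxT a 2) (l b')) (l c)), (1, b (b (yxT a 1) (l b')) (yxT c 1)),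
    (-1, b (b (yxT a 2) (l c)) (l b')), (-1, b (b (yxT a 1) (l c)) (yxT b' 1))]

def gqC (d a b' c : ℕ) : Cb := (g3C a b' c).map (fun x => (x.1, b x.2 (b (l d) (l 0))))

def gbC (a b' c : ℕ) : Cb := gqC 4 a b' c ++ (gqC a 4 c b' ++ (gqC b' c 4 a ++ gqC c b' a 4))

def negC : Cb → Cb
  | [] => []
  | a :: p => (-a.1, a.2) :: negC p

/-- `xv 0` -/
def xvC0 : Cb := gbC 1 2 3 ++ negC (gbC 2 3 1)

/-- `xv 1` -/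
def xvC1 : Cb := gbC 2 3 1 ++ negC (gbC 3 1 2)

end Pool.Agent.Lib.MP_b4a71d_al.Eng
end
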