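import Pool.Agent.Lib.MP_b4a71d_al.TIdeal
import Pool.Agent.Lib.MP_b4a71d_al.Eng.Xv
import Pool.Agent.Lib.MP_b4a71d_al.Eng.Glue
import Pool.Agent.Lib.MP_b4a71d_al.Eng.C22211
import Pool.Agent.Lib.MP_b4a71d_al.Eng.C332

section

/-!
# MP_b4a71d_al: the certificate of the type 211111 in degree 7
-/

set_option autoImplicit false

namespace Pool.Agent.Lib.MP_b4a71d_al.Eng

open Tr

/-- The type 211111. -/
def cx211111 : Cx := ⟨6, 5, [(2, 6, true)], (2, 6, true), []⟩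

def tl211111 : Tb :=
  (.n (.n (.n .e ⟨263397, 13, [3], .sym 3 [0, 2, 0, 3, 4, 5]⟩ .e) ⟨270565, 7, [-1], .lam 2 1 [0,
      3, 0, 4, 5, 0]⟩ (.n .e ⟨271909, 8, [1], .lam 2 1 [0, 3, 4, 0, 5, 0]⟩ .e)) ⟨272133, 9,
      [-1], .lam 2 1 [0, 3, 4, 5, 0, 0]⟩ (.n (.n .e ⟨272168, 6, [1], .bas 0⟩ .e) ⟨327909, 11,
      [-2], .sym 2 [0, 0, 2, 3, 4, 5]⟩ (.n .e ⟨329253, 12, [2], .sym 2 [0, 2, 3, 0, 4, 5]⟩ .e)))

def tr211111 : Tb :=
  (.n (.n (.n .e ⟨329512, 10, [2], .sym 2 [0, 2, 3, 4, 5, 0]⟩ .e) ⟨340005, 0, [0], .sym 3 [0, 2,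
      3, 0, 4, 5]⟩ (.n .e ⟨340229, 1, [0], .sym 3 [0, 2, 3, 4, 0, 5]⟩ .e)) ⟨340264, 2, [0],
      .sym 3 [0, 2, 3, 4, 5, 0]⟩ (.n (.n .e ⟨342021, 3, [0], .sym 3 [2, 3, 4, 0, 0, 5]⟩ .e)
      ⟨342056, 4, [0], .sym 3 [2, 3, 4, 0, 5, 0]⟩ (.n .e ⟨342336, 5, [0], .sym 3 [2, 3, 4, 5,
      0, 0]⟩ .e)))

def tb211111 : Tb := .n tl211111 ⟨329477, 14, [-2], .sym 2 [0, 2, 3, 4, 0, 5]⟩ tr211111

def ce211111 : Cert where
  cx := cx211111
  D := 1
  bk := [272168]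
  tb := tb211111
  pl := []
  fams := [(FB, [])]
  cases := [([([], [])], [[(1, (b (b (b (b (b (b (l 1) (l 2)) (l 0)) (l 3)) (l 4)) (l 5)) (l 0)))]], [])]

def z0211111 : Zs :=
  []

def sv211111 : List (List (List (List ℤ))) :=
  [[]]

theorem okt211111 : chkTb ce211111.cx ce211111.tb ce211111.D ce211111.bk = true :=
  chkTb_node (by decide +kernel) (by decide +kernel) (by decide +kernel)

theorem okz211111 : plainZ ce211111.cx ce211111.tb ce211111.pl [] = some z0211111 := by decide +kernel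

theorem oks211111 : famsV ce211111.cx ce211111.tb ce211111.fams = some sv211111 := by decide +kernel

theorem okc211111 : chkCases ce211111 z0211111 sv211111 ce211111.cases = true := by decide +kernel

theorem okv211111 : ce211111.cov 2 = true := by decide +kernel

theorem ok211111 : (ce211111.chk && ce211111.cov 2) = true :=
  Cert.ok_of (Cert.chk_of okt211111 (by decide) okz211111 oks211111 okc211111) okv211111

end Pool.Agent.Lib.MP_b4a71d_al.Eng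
end

section

/-!
# MP_b4a71d_al: the certificate of the type 22111 in degree 7
-/

set_option autoImplicit false

namespace Pool.Agent.Lib.MP_b4a71d_al.Eng

open Tr

/-- The type 22111. -/
def cx22111 : Cx := ⟨6, 5, [(2, 6, true)], (0, 0, false), [([2, 3, 4, 5], [1], true)]⟩

def tl22111 : Tb :=
  (.n (.n (.n .e ⟨263397, 0, [3, 0, 0], .bas 0⟩ .e) ⟨270565, 4, [-1, 0, 0], .lam 2 1 [0, 3, 0, 0,
      4, 5]⟩ (.n .e ⟨271909, 1, [0, 3, 0], .bas 1⟩ .e)) ⟨272133, 11, [-1, 0, -6], .lam 2 1 [0,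
      3, 4, 5, 0, 0]⟩ (.n (.n .e ⟨272168, 7, [0, 3, -3], .lam 2 1 [0, 3, 4, 0, 5, 0]⟩ .e)
      ⟨327909, 5, [-2, 0, 0], .lam 2 1 [3, 0, 0, 0, 4, 5]⟩ (.n .e ⟨329253, 3, [3, -3, 0], .lam
      2 1 [0, 0, 3, 0, 4, 5]⟩ .e)))

def tr22111 : Tb :=
  (.n (.n (.n .e ⟨329512, 8, [3, -3, 3], .lam 2 1 [3, 0, 4, 0, 5, 0]⟩ .e) ⟨340005, 2, [-1, 3, 0],
      .lam 1 2 [0, 3, 0, 0, 4, 5]⟩ (.n .e ⟨340229, 13, [0, 0, -6], .lam 2 1 [3, 4, 0, 5, 0, 0]⟩
      .e)) ⟨340264, 9, [-1, 3, -3], .lam 2 1 [3, 4, 0, 0, 5, 0]⟩ (.n (.n .e ⟨342021, 14, [1,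
      -3, 6], .lam 2 1 [3, 4, 5, 0, 0, 0]⟩ .e) ⟨342056, 6, [0, 0, 3], .bas 2⟩ (.n .e ⟨342336,
      10, [-1, 3, -9], .lam 1 2 [0, 3, 0, 4, 5, 0]⟩ .e)))

def tb22111 : Tb := .n tl22111 ⟨329477, 12, [-2, 0, 6], .lam 2 1 [3, 0, 4, 5, 0, 0]⟩ tr22111

def ce22111 : Cert where
  cx := cx22111
  D := 3
  bk := [263397, 271909, 342056]
  tb := tb22111
  pl := [.low 0 1 [0, 2, 0, 3, 4, 5]]
  fams := [(FB, [⟨[(b (l 2) (l 3))], [(l 1), (l 4), (l 5)], []⟩])]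
  cases := [([([], [2])], [[(1, (b (b (l 1) (b (l 4) (b (l 2) (l 3)))) (b (b (l 5) (l 0)) (l 0)))), (1, (b
      (b (l 1) (b (l 4) (l 0))) (b (b (l 5) (b (l 2) (l 3))) (l 0)))), (1, (b (b (l 1) (b (l 4)
      (l 0))) (b (b (l 5) (l 0)) (b (l 2) (l 3))))), (-1, (b (b (b (l 1) (b (l 2) (l 3))) (l
      4)) (b (b (l 5) (l 0)) (l 0)))), (-1, (b (b (b (l 1) (l 0)) (l 4)) (b (b (l 5) (b (l 2)
      (l 3))) (l 0)))), (-1, (b (b (b (l 1) (l 0)) (l 4)) (b (b (l 5) (l 0)) (b (l 2) (l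
      3))))), (-1, (b (b (b (b (l 1) (b (l 2) (l 3))) (l 0)) (l 4)) (b (l 5) (l 0)))), (-1, (b
      (b (b (b (l 1) (l 0)) (b (l 2) (l 3))) (l 4)) (b (l 5) (l 0)))), (-1, (b (b (b (b (l 1)
      (l 0)) (l 0)) (l 4)) (b (l 5) (b (l 2) (l 3))))), (-2, (b (b (b (b (l 1) (b (l 2) (l 3)))
      (l 0)) (b (l 4) (l 0))) (l 5))), (-2, (b (b (b (b (l 1) (l 0)) (b (l 2) (l 3))) (b (l 4)
      (l 0))) (l 5))), (-2, (b (b (b (b (l 1) (l 0)) (l 0)) (b (l 4) (b (l 2) (l 3)))) (l 5))),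
      (1, (b (b (l 1) (b (l 5) (b (l 2) (l 3)))) (b (b (l 4) (l 0)) (l 0)))), (1, (b (b (l 1)
      (b (l 5) (l 0))) (b (b (l 4) (b (l 2) (l 3))) (l 0)))), (1, (b (b (l 1) (b (l 5) (l 0)))
      (b (b (l 4) (l 0)) (b (l 2) (l 3))))), (2, (b (b (b (l 1) (b (l 2) (l 3))) (l 5)) (b (b
      (l 4) (l 0)) (l 0)))), (2, (b (b (b (l 1) (l 0)) (l 5)) (b (b (l 4) (b (l 2) (l 3))) (l
      0)))), (2, (b (b (b (l 1) (l 0)) (l 5)) (b (b (l 4) (l 0)) (b (l 2) (l 3))))), (1, (b (b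
      (b (b (l 1) (b (l 2) (l 3))) (l 0)) (b (l 5) (l 0))) (l 4))), (1, (b (b (b (b (l 1) (l
      0)) (b (l 2) (l 3))) (b (l 5) (l 0))) (l 4))), (1, (b (b (b (b (l 1) (l 0)) (l 0)) (b (l
      5) (b (l 2) (l 3)))) (l 4))), (2, (b (b (b (b (l 1) (b (l 2) (l 3))) (l 0)) (l 5)) (b (l
      4) (l 0)))), (2, (b (b (b (b (l 1) (l 0)) (b (l 2) (l 3))) (l 5)) (b (l 4) (l 0)))), (2,
      (b (b (b (b (l 1) (l 0)) (l 0)) (l 5)) (b (l 4) (b (l 2) (l 3))))), (-1, (b (b (b (l 1)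
      (b (l 2) (l 3))) (b (l 4) (l 0))) (b (l 5) (l 0)))), (-1, (b (b (b (l 1) (l 0)) (b (l 4)
      (b (l 2) (l 3)))) (b (l 5) (l 0)))), (-1, (b (b (b (l 1) (l 0)) (b (l 4) (l 0))) (b (l 5)
      (b (l 2) (l 3))))), (2, (b (b (b (l 1) (b (l 2) (l 3))) (b (l 5) (l 0))) (b (l 4) (l
      0)))), (2, (b (b (b (l 1) (l 0)) (b (l 5) (b (l 2) (l 3)))) (b (l 4) (l 0)))), (2, (b (b
      (b (l 1) (l 0)) (b (l 5) (l 0))) (b (l 4) (b (l 2) (l 3)))))]], [.cm 0 2 [1] 1]),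
    ([([2], [0])], [[(1, (b (b (b (l 1) (b (l 2) (l 3))) (b (l 4) (l 0))) (b (l 5) (l 0)))),
      (1, (b (b (b (l 1) (l 0)) (b (l 4) (b (l 2) (l 3)))) (b (l 5) (l 0)))), (1, (b (b (b (l
      1) (l 0)) (b (l 4) (l 0))) (b (l 5) (b (l 2) (l 3))))), (-2, (b (b (b (l 1) (b (l 2) (l
      3))) (b (l 5) (l 0))) (b (l 4) (l 0)))), (-2, (b (b (b (l 1) (l 0)) (b (l 5) (b (l 2) (l
      3)))) (b (l 4) (l 0)))), (-2, (b (b (b (l 1) (l 0)) (b (l 5) (l 0))) (b (l 4) (b (l 2) (l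
      3)))))]], [.cm 0 0 [1] 1]),
    ([([0, 2], [1])], [[(1, (b (b (l 1) (b (b (l 4) (b (l 2) (l 3))) (l 0))) (b (l 5) (l 0)))),
      (1, (b (b (l 1) (b (b (l 4) (l 0)) (b (l 2) (l 3)))) (b (l 5) (l 0)))), (1, (b (b (l 1)
      (b (b (l 4) (l 0)) (l 0))) (b (l 5) (b (l 2) (l 3))))), (-1, (b (b (b (l 1) (b (l 2) (l
      3))) (b (b (l 4) (l 0)) (l 0))) (l 5))), (-1, (b (b (b (l 1) (l 0)) (b (b (l 4) (b (l 2)
      (l 3))) (l 0))) (l 5))), (-1, (b (b (b (l 1) (l 0)) (b (b (l 4) (l 0)) (b (l 2) (l 3))))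
      (l 5))), (-1, (b (b (b (b (l 1) (b (l 2) (l 3))) (l 0)) (l 4)) (b (l 5) (l 0)))), (-1, (b
      (b (b (b (l 1) (l 0)) (b (l 2) (l 3))) (l 4)) (b (l 5) (l 0)))), (-1, (b (b (b (b (l 1)
      (l 0)) (l 0)) (l 4)) (b (l 5) (b (l 2) (l 3))))), (-1, (b (b (b (b (b (l 1) (b (l 2) (l
      3))) (l 0)) (l 0)) (l 4)) (l 5))), (-1, (b (b (b (b (b (l 1) (l 0)) (b (l 2) (l 3))) (l
      0)) (l 4)) (l 5))), (-1, (b (b (b (b (b (l 1) (l 0)) (l 0)) (b (l 2) (l 3))) (l 4)) (l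
      5))), (1, (b (b (l 1) (l 5)) (b (b (b (l 4) (b (l 2) (l 3))) (l 0)) (l 0)))), (1, (b (b
      (l 1) (l 5)) (b (b (b (l 4) (l 0)) (b (l 2) (l 3))) (l 0)))), (1, (b (b (l 1) (l 5)) (b
      (b (b (l 4) (l 0)) (l 0)) (b (l 2) (l 3))))), (1, (b (b (b (l 1) (b (l 2) (l 3))) (l 5))
      (b (b (l 4) (l 0)) (l 0)))), (1, (b (b (b (l 1) (l 0)) (l 5)) (b (b (l 4) (b (l 2) (l
      3))) (l 0)))), (1, (b (b (b (l 1) (l 0)) (l 5)) (b (b (l 4) (l 0)) (b (l 2) (l 3))))),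
      (1, (b (b (b (b (l 1) (b (l 2) (l 3))) (l 0)) (l 5)) (b (l 4) (l 0)))), (1, (b (b (b (b
      (l 1) (l 0)) (b (l 2) (l 3))) (l 5)) (b (l 4) (l 0)))), (1, (b (b (b (b (l 1) (l 0)) (l
      0)) (l 5)) (b (l 4) (b (l 2) (l 3))))), (1, (b (b (b (b (b (l 1) (b (l 2) (l 3))) (l 0))
      (l 0)) (l 5)) (l 4))), (1, (b (b (b (b (b (l 1) (l 0)) (b (l 2) (l 3))) (l 0)) (l 5)) (l
      4))), (1, (b (b (b (b (b (l 1) (l 0)) (l 0)) (b (l 2) (l 3))) (l 5)) (l 4))), (-2, (b (b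
      (b (l 1) (b (l 2) (l 3))) (b (l 4) (l 0))) (b (l 5) (l 0)))), (-2, (b (b (b (l 1) (l 0))
      (b (l 4) (b (l 2) (l 3)))) (b (l 5) (l 0)))), (-2, (b (b (b (l 1) (l 0)) (b (l 4) (l 0)))
      (b (l 5) (b (l 2) (l 3))))), (4, (b (b (b (l 1) (b (l 2) (l 3))) (b (l 5) (l 0))) (b (l
      4) (l 0)))), (4, (b (b (b (l 1) (l 0)) (b (l 5) (b (l 2) (l 3)))) (b (l 4) (l 0)))), (4,
      (b (b (b (l 1) (l 0)) (b (l 5) (l 0))) (b (l 4) (b (l 2) (l 3)))))]], [.zr 0 0 [1]]),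
    ([([1, 2], [0])], [], [.zr 0 1 [1], .zr 0 2 [1]])]

def z022111 : Zs :=
  [(0, [-7, 6, 3])]

def sv22111 : List (List (List (List ℤ))) :=
  [[[[0, 0, -36], [30, -90, 0], [0, 0, 144]]]]

theorem okt22111 : chkTb ce22111.cx ce22111.tb ce22111.D ce22111.bk = true :=
  chkTb_node (by decide +kernel) (by decide +kernel) (by decide +kernel)

theorem okz22111 : plainZ ce22111.cx ce22111.tb ce22111.pl [] = some z022111 := by decide +kernel

theorem oks22111 : famsV ce22111.cx ce22111.tb ce22111.fams = some sv22111 := by decide +kernel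

theorem okc22111 : chkCases ce22111 z022111 sv22111 ce22111.cases = true := by decide +kernel

theorem okv22111 : ce22111.cov 2 = true := by decide +kernel

theorem ok22111 : (ce22111.chk && ce22111.cov 2) = true :=
  Cert.ok_of (Cert.chk_of okt22111 (by decide) okz22111 oks22111 okc22111) okv22111

end Pool.Agent.Lib.MP_b4a71d_al.Eng
end

section

/-!
# MP_b4a71d_al: the certificate of the type 2221 in degree 7
-/

set_option autoImplicit false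

namespace Pool.Agent.Lib.MP_b4a71d_al.Eng

open Tr

/-- The type 2221. -/
def cx2221 : Cx := ⟨6, 5, [(2, 3, true), (3, 6, true)], (2, 3, true), [([3, 4, 5], [1, 2], true)]⟩

def tl2221 : Tb :=
  (.n (.n (.n (.n (.n .e ⟨263397, 53, [-3, 3, 9], .lam 2 1 [0, 0, 0, 3, 4, 5]⟩ .e) ⟨263845, 48,
      [3, 0, -3], .lam 2 1 [0, 0, 3, 0, 4, 5]⟩ (.n .e ⟨263957, 50, [0, 3, 3], .lam 2 1 [0, 0,
      3, 4, 0, 5]⟩ .e)) ⟨263978, 44, [3, -3, -3], .lam 2 1 [0, 0, 3, 4, 5, 0]⟩ (.n (.n .e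
      ⟨270565, 43, [1, -1, -3], .sym 2 [0, 0, 2, 3, 4, 5]⟩ .e) ⟨271909, 41, [-1, 0, 1], .sym 2
      [0, 2, 3, 0, 4, 5]⟩ (.n .e ⟨272133, 42, [0, -1, -1], .sym 2 [0, 2, 3, 4, 0, 5]⟩ .e)))
      ⟨272168, 36, [-1, 1, 1], .sym 2 [0, 2, 3, 4, 5, 0]⟩ (.n (.n (.n .e ⟨274597, 57, [-1, 0,
      1], .lam 3 1 [0, 4, 0, 2, 5, 0]⟩ .e) ⟨274709, 58, [3, -4, -7], .lam 3 1 [0, 4, 0, 5, 2,
      0]⟩ (.n .e ⟨274730, 54, [-4, 4, 7], .lam 3 1 [0, 0, 0, 4, 5, 2]⟩ .e)) ⟨275493, 49, [-2,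
      1, 1], .sym 2 [0, 3, 2, 0, 4, 5]⟩ (.n (.n .e ⟨275717, 51, [1, -2, -1], .sym 2 [0, 3, 2,
      4, 0, 5]⟩ .e) ⟨275752, 45, [-2, 2, 1], .sym 2 [0, 3, 2, 4, 5, 0]⟩ (.n .e ⟨276501, 59, [0,
      2, 3], .lam 3 1 [0, 4, 5, 0, 2, 0]⟩ .e)))) ⟨276522, 55, [4, -2, -3], .lam 3 1 [0, 0, 4,
      0, 5, 2]⟩ (.n (.n (.n (.n .e ⟨276613, 52, [2, 0, -3], .sym 2 [0, 3, 4, 2, 0, 5]⟩ .e)
      ⟨276648, 46, [-1, -3, -3], .sym 2 [0, 3, 4, 2, 5, 0]⟩ (.n .e ⟨276802, 56, [-2, 4, 3],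
      .lam 3 1 [0, 0, 4, 5, 0, 2]⟩ .e)) ⟨276816, 47, [0, -4, -3], .sym 2 [0, 3, 4, 5, 2, 0]⟩
      (.n (.n .e ⟨327909, 35, [2, -2, -6], .lam 3 1 [2, 0, 0, 4, 5, 0]⟩ .e) ⟨329253, 32, [-2,
      0, 2], .low 0 2 [2, 0, 3, 0, 4, 5]⟩ (.n .e ⟨329477, 34, [0, -2, -2], .low 0 2 [2, 0, 3,
      4, 0, 5]⟩ .e))) ⟨329512, 28, [-2, 2, 2], .low 0 2 [2, 0, 3, 4, 5, 0]⟩ (.n (.n (.n .e
      ⟨340005, 23, [0, 2, 4], .sym 2 [3, 2, 0, 0, 4, 5]⟩ .e) ⟨340229, 24, [2, 0, -4], .sym 2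
      [3, 2, 0, 4, 0, 5]⟩ (.n .e ⟨340264, 21, [0, 0, 4], .sym 2 [3, 2, 0, 4, 5, 0]⟩ .e))
      ⟨342021, 5, [-2, -2, 0], .lam 3 1 [2, 4, 5, 0, 0, 0]⟩ (.n (.n .e ⟨342056, 4, [0, 2, 0],
      .bas 1⟩ .e) ⟨342336, 0, [2, 0, 0], .bas 0⟩ .e))))

def tr2221 : Tb :=
  (.n (.n (.n (.n (.n .e ⟨360725, 33, [-3, 1, 4], .lam 2 1 [3, 0, 0, 4, 0, 5]⟩ .e) ⟨360746, 25,
      [1, -1, -4], .lam 2 1 [3, 0, 0, 4, 5, 0]⟩ (.n .e ⟨361509, 26, [-1, 2, 2], .lam 3 1 [4, 0,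
      2, 0, 5, 0]⟩ .e)) ⟨361733, 27, [2, -1, -2], .lam 3 1 [4, 0, 2, 5, 0, 0]⟩ (.n (.n .e
      ⟨361768, 22, [-1, 1, 2], .low 0 1 [0, 3, 2, 4, 5, 0]⟩ .e) ⟨362517, 14, [0, 1, 0], .lam 3
      1 [4, 0, 5, 0, 2, 0]⟩ (.n .e ⟨362538, 15, [-1, -1, 0], .lam 3 1 [4, 0, 5, 0, 0, 2]⟩ .e)))
      ⟨362629, 16, [1, 0, 0], .lam 2 1 [3, 0, 4, 0, 0, 5]⟩ (.n (.n (.n .e ⟨362664, 17, [1, 0,
      0], .lam 2 1 [3, 0, 4, 0, 5, 0]⟩ .e) ⟨362818, 13, [-1, -1, 0], .low 0 1 [0, 3, 0, 4, 5,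
      2]⟩ (.n .e ⟨362832, 12, [0, 1, 0], .low 0 1 [0, 3, 4, 5, 2, 0]⟩ .e)) ⟨368677, 19, [0, 1,
      2], .lam 3 1 [4, 2, 0, 0, 5, 0]⟩ (.n (.n .e ⟨368901, 20, [1, 0, -2], .lam 3 1 [4, 2, 0,
      5, 0, 0]⟩ .e) ⟨368936, 18, [0, 0, 2], .bas 2⟩ .e))) ⟨370693, 8, [-1, -1, 0], .sym 2 [3,
      2, 4, 0, 0, 5]⟩ (.n (.n (.n (.n .e ⟨370728, 6, [0, 1, 0], .sym 2 [3, 2, 4, 0, 5, 0]⟩ .e)
      ⟨371008, 1, [1, 0, 0], .sym 2 [3, 2, 4, 5, 0, 0]⟩ (.n .e ⟨376853, 38, [0, 1, 2], .low 0 2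
      [2, 3, 0, 0, 4, 5]⟩ .e)) ⟨376874, 29, [0, 2, 4], .lam 3 1 [4, 0, 0, 0, 5, 2]⟩ (.n (.n .e
      ⟨376965, 40, [1, 0, -2], .low 0 2 [2, 3, 0, 4, 0, 5]⟩ .e) ⟨377000, 37, [0, -3, -4], .lam
      2 1 [3, 4, 0, 0, 5, 0]⟩ (.n .e ⟨377154, 30, [2, 0, -4], .lam 3 1 [4, 0, 0, 5, 0, 2]⟩
      .e))) ⟨377168, 39, [-3, 0, 4], .lam 2 1 [3, 4, 0, 5, 0, 0]⟩ (.n (.n (.n .e ⟨377861, 9,
      [-1, -1, 0], .sym 2 [3, 4, 2, 0, 0, 5]⟩ .e) ⟨377896, 7, [0, 1, 0], .sym 2 [3, 4, 2, 0, 5,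
      0]⟩ (.n .e ⟨378176, 2, [1, 0, 0], .sym 2 [3, 4, 2, 5, 0, 0]⟩ .e)) ⟨379394, 11, [-2, -2,
      0], .low 0 2 [2, 3, 4, 0, 0, 5]⟩ (.n (.n .e ⟨379408, 10, [0, 2, 0], .low 0 2 [2, 3, 4, 0,
      5, 0]⟩ .e) ⟨379520, 3, [2, 0, 0], .low 0 1 [2, 3, 4, 5, 0, 0]⟩ .e))))

def tb2221 : Tb := .n tl2221 ⟨360613, 31, [0, -2, -2], .low 0 1 [0, 3, 0, 2, 4, 5]⟩ tr2221

def ce2221 : Cert where
  cx := cx2221
  D := 2
  bk := [342336, 342056, 368936]
  tb := tb2221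
  pl := [.lam 2 1 [3, 0, 0, 0, 4, 5]]
  fams := [(FB, [⟨[(b (l 1) (l 3))], [(l 2), (l 4), (l 5)], []⟩])]
  cases := [([([], [2])], [[(1, (b (b (l 2) (b (l 4) (b (l 1) (l 3)))) (b (b (l 5) (l 0)) (l 0)))), (1, (b
      (b (l 2) (b (l 4) (l 0))) (b (b (l 5) (b (l 1) (l 3))) (l 0)))), (1, (b (b (l 2) (b (l 4)
      (l 0))) (b (b (l 5) (l 0)) (b (l 1) (l 3))))), (-1, (b (b (b (l 2) (b (l 1) (l 3))) (l
      4)) (b (b (l 5) (l 0)) (l 0)))), (-1, (b (b (b (l 2) (l 0)) (l 4)) (b (b (l 5) (b (l 1)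
      (l 3))) (l 0)))), (-1, (b (b (b (l 2) (l 0)) (l 4)) (b (b (l 5) (l 0)) (b (l 1) (l
      3))))), (-1, (b (b (b (b (l 2) (b (l 1) (l 3))) (l 0)) (l 4)) (b (l 5) (l 0)))), (-1, (b
      (b (b (b (l 2) (l 0)) (b (l 1) (l 3))) (l 4)) (b (l 5) (l 0)))), (-1, (b (b (b (b (l 2)
      (l 0)) (l 0)) (l 4)) (b (l 5) (b (l 1) (l 3))))), (-2, (b (b (b (b (l 2) (b (l 1) (l 3)))
      (l 0)) (b (l 4) (l 0))) (l 5))), (-2, (b (b (b (b (l 2) (l 0)) (b (l 1) (l 3))) (b (l 4)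
      (l 0))) (l 5))), (-2, (b (b (b (b (l 2) (l 0)) (l 0)) (b (l 4) (b (l 1) (l 3)))) (l 5))),
      (1, (b (b (l 2) (b (l 5) (b (l 1) (l 3)))) (b (b (l 4) (l 0)) (l 0)))), (1, (b (b (l 2)
      (b (l 5) (l 0))) (b (b (l 4) (b (l 1) (l 3))) (l 0)))), (1, (b (b (l 2) (b (l 5) (l 0)))
      (b (b (l 4) (l 0)) (b (l 1) (l 3))))), (2, (b (b (b (l 2) (b (l 1) (l 3))) (l 5)) (b (b
      (l 4) (l 0)) (l 0)))), (2, (b (b (b (l 2) (l 0)) (l 5)) (b (b (l 4) (b (l 1) (l 3))) (l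
      0)))), (2, (b (b (b (l 2) (l 0)) (l 5)) (b (b (l 4) (l 0)) (b (l 1) (l 3))))), (1, (b (b
      (b (b (l 2) (b (l 1) (l 3))) (l 0)) (b (l 5) (l 0))) (l 4))), (1, (b (b (b (b (l 2) (l
      0)) (b (l 1) (l 3))) (b (l 5) (l 0))) (l 4))), (1, (b (b (b (b (l 2) (l 0)) (l 0)) (b (l
      5) (b (l 1) (l 3)))) (l 4))), (2, (b (b (b (b (l 2) (b (l 1) (l 3))) (l 0)) (l 5)) (b (l
      4) (l 0)))), (2, (b (b (b (b (l 2) (l 0)) (b (l 1) (l 3))) (l 5)) (b (l 4) (l 0)))), (2,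
      (b (b (b (b (l 2) (l 0)) (l 0)) (l 5)) (b (l 4) (b (l 1) (l 3))))), (-1, (b (b (b (l 2)
      (b (l 1) (l 3))) (b (l 4) (l 0))) (b (l 5) (l 0)))), (-1, (b (b (b (l 2) (l 0)) (b (l 4)
      (b (l 1) (l 3)))) (b (l 5) (l 0)))), (-1, (b (b (b (l 2) (l 0)) (b (l 4) (l 0))) (b (l 5)
      (b (l 1) (l 3))))), (2, (b (b (b (l 2) (b (l 1) (l 3))) (b (l 5) (l 0))) (b (l 4) (l
      0)))), (2, (b (b (b (l 2) (l 0)) (b (l 5) (b (l 1) (l 3)))) (b (l 4) (l 0)))), (2, (b (b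
      (b (l 2) (l 0)) (b (l 5) (l 0))) (b (l 4) (b (l 1) (l 3)))))]], [.cm 0 2 [1] 0]),
    ([([2], [0])], [[(1, (b (b (b (l 2) (b (l 1) (l 3))) (b (l 4) (l 0))) (b (l 5) (l 0)))),
      (1, (b (b (b (l 2) (l 0)) (b (l 4) (b (l 1) (l 3)))) (b (l 5) (l 0)))), (1, (b (b (b (l
      2) (l 0)) (b (l 4) (l 0))) (b (l 5) (b (l 1) (l 3))))), (-2, (b (b (b (l 2) (b (l 1) (l
      3))) (b (l 5) (l 0))) (b (l 4) (l 0)))), (-2, (b (b (b (l 2) (l 0)) (b (l 5) (b (l 1) (l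
      3)))) (b (l 4) (l 0)))), (-2, (b (b (b (l 2) (l 0)) (b (l 5) (l 0))) (b (l 4) (b (l 1) (l
      3)))))]], [.zr 0 2 [1]]),
    ([([0, 2], [1])], [[(1, (b (b (l 2) (b (b (l 4) (b (l 1) (l 3))) (l 0))) (b (l 5) (l 0)))),
      (1, (b (b (l 2) (b (b (l 4) (l 0)) (b (l 1) (l 3)))) (b (l 5) (l 0)))), (1, (b (b (l 2)
      (b (b (l 4) (l 0)) (l 0))) (b (l 5) (b (l 1) (l 3))))), (-1, (b (b (b (l 2) (b (l 1) (l
      3))) (b (b (l 4) (l 0)) (l 0))) (l 5))), (-1, (b (b (b (l 2) (l 0)) (b (b (l 4) (b (l 1)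
      (l 3))) (l 0))) (l 5))), (-1, (b (b (b (l 2) (l 0)) (b (b (l 4) (l 0)) (b (l 1) (l 3))))
      (l 5))), (-1, (b (b (b (b (l 2) (b (l 1) (l 3))) (l 0)) (l 4)) (b (l 5) (l 0)))), (-1, (b
      (b (b (b (l 2) (l 0)) (b (l 1) (l 3))) (l 4)) (b (l 5) (l 0)))), (-1, (b (b (b (b (l 2)
      (l 0)) (l 0)) (l 4)) (b (l 5) (b (l 1) (l 3))))), (-1, (b (b (b (b (b (l 2) (b (l 1) (l
      3))) (l 0)) (l 0)) (l 4)) (l 5))), (-1, (b (b (b (b (b (l 2) (l 0)) (b (l 1) (l 3))) (l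
      0)) (l 4)) (l 5))), (-1, (b (b (b (b (b (l 2) (l 0)) (l 0)) (b (l 1) (l 3))) (l 4)) (l
      5))), (1, (b (b (l 2) (l 5)) (b (b (b (l 4) (b (l 1) (l 3))) (l 0)) (l 0)))), (1, (b (b
      (l 2) (l 5)) (b (b (b (l 4) (l 0)) (b (l 1) (l 3))) (l 0)))), (1, (b (b (l 2) (l 5)) (b
      (b (b (l 4) (l 0)) (l 0)) (b (l 1) (l 3))))), (1, (b (b (b (l 2) (b (l 1) (l 3))) (l 5))
      (b (b (l 4) (l 0)) (l 0)))), (1, (b (b (b (l 2) (l 0)) (l 5)) (b (b (l 4) (b (l 1) (l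
      3))) (l 0)))), (1, (b (b (b (l 2) (l 0)) (l 5)) (b (b (l 4) (l 0)) (b (l 1) (l 3))))),
      (1, (b (b (b (b (l 2) (b (l 1) (l 3))) (l 0)) (l 5)) (b (l 4) (l 0)))), (1, (b (b (b (b
      (l 2) (l 0)) (b (l 1) (l 3))) (l 5)) (b (l 4) (l 0)))), (1, (b (b (b (b (l 2) (l 0)) (l
      0)) (l 5)) (b (l 4) (b (l 1) (l 3))))), (1, (b (b (b (b (b (l 2) (b (l 1) (l 3))) (l 0))
      (l 0)) (l 5)) (l 4))), (1, (b (b (b (b (b (l 2) (l 0)) (b (l 1) (l 3))) (l 0)) (l 5)) (l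
      4))), (1, (b (b (b (b (b (l 2) (l 0)) (l 0)) (b (l 1) (l 3))) (l 5)) (l 4))), (-2, (b (b
      (b (l 2) (b (l 1) (l 3))) (b (l 4) (l 0))) (b (l 5) (l 0)))), (-2, (b (b (b (l 2) (l 0))
      (b (l 4) (b (l 1) (l 3)))) (b (l 5) (l 0)))), (-2, (b (b (b (l 2) (l 0)) (b (l 4) (l 0)))
      (b (l 5) (b (l 1) (l 3))))), (4, (b (b (b (l 2) (b (l 1) (l 3))) (b (l 5) (l 0))) (b (l
      4) (l 0)))), (4, (b (b (b (l 2) (l 0)) (b (l 5) (b (l 1) (l 3)))) (b (l 4) (l 0)))), (4,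
      (b (b (b (l 2) (l 0)) (b (l 5) (l 0))) (b (l 4) (b (l 1) (l 3)))))]], [.zr 0 0 [1]]),
    ([([1, 2], [0])], [], [.zr 0 1 [1], .zr 0 2 [1]])]

def z02221 : Zs :=
  [(0, [-1, 1, 2])]

def sv2221 : List (List (List (List ℤ))) :=
  [[[[15, 6, -12], [-35, -25, 40], [21, 3, -60]]]]

theorem okt2221 : chkTb ce2221.cx ce2221.tb ce2221.D ce2221.bk = true :=
  chkTb_node (by decide +kernel) (by decide +kernel) (by decide +kernel)

theorem okz2221 : plainZ ce2221.cx ce2221.tb ce2221.pl [] = some z02221 := by decide +kernel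

theorem oks2221 : famsV ce2221.cx ce2221.tb ce2221.fams = some sv2221 := by decide +kernel

theorem okc2221 : chkCases ce2221 z02221 sv2221 ce2221.cases = true := by decide +kernel

theorem okv2221 : ce2221.cov 2 = true := by decide +kernel

theorem ok2221 : (ce2221.chk && ce2221.cov 2) = true :=
  Cert.ok_of (Cert.chk_of okt2221 (by decide) okz2221 oks2221 okc2221) okv2221

end Pool.Agent.Lib.MP_b4a71d_al.Eng
end

section

/-!
# MP_b4a71d_al: the certificate of the type 322 in degree 7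
-/

set_option autoImplicit false

namespace Pool.Agent.Lib.MP_b4a71d_al.Eng

open Tr

/-- The type 322. -/
def cx322 : Cx := ⟨6, 4, [(2, 3, true), (3, 5, true)], (2, 3, true), [([1, 2], [3, 4], true)]⟩

def tl322 : Tb :=
  (.n (.n (.n (.n (.n .e ⟨262300, 40, [6, -12, 8, -2], .lam 2 1 [0, 0, 0, 0, 3, 4]⟩ .e) ⟨262356,
      51, [-15, 8, -12, 1], .lam 3 1 [0, 0, 0, 4, 2, 0]⟩ (.n .e ⟨262370, 33, [-6, 0, 0, -2],
      .lam 2 1 [0, 0, 0, 3, 4, 0]⟩ .e)) ⟨263196, 34, [-6, 6, -8, 2], .lam 3 1 [0, 0, 2, 0, 4,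
      0]⟩ (.n (.n .e ⟨263364, 58, [3, 2, -4, -3], .lam 3 1 [0, 0, 2, 4, 0, 0]⟩ .e) ⟨263392, 32,
      [0, 0, 0, 2], .bas 3⟩ (.n .e ⟨263700, 21, [6, -4, 4, 0], .lam 3 1 [0, 0, 4, 0, 2, 0]⟩
      .e))) ⟨263714, 42, [12, -10, 12, -2], .lam 2 1 [0, 0, 3, 0, 4, 0]⟩ (.n (.n (.n .e
      ⟨263812, 31, [-6, 10, -10, 0], .lam 2 1 [0, 0, 3, 0, 0, 4]⟩ .e) ⟨263840, 35, [-6, 4, -6,
      2], .sym 2 [0, 0, 3, 2, 4, 0]⟩ (.n .e ⟨263938, 30, [0, -4, 6, 0], .lam 2 1 [0, 0, 3, 4,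
      0, 0]⟩ .e)) ⟨263952, 20, [-6, 4, -6, 0], .low 0 4 [3, 0, 0, 4, 2, 0]⟩ (.n (.n .e ⟨270364,
      7, [0, 2, 0, 0], .bas 1⟩ .e) ⟨270532, 55, [3, -2, 4, 1], .low 0 3 [0, 3, 0, 2, 0, 4]⟩ (.n
      .e ⟨270560, 3, [2, 0, 0, 0], .bas 0⟩ .e)))) ⟨271876, 27, [0, -2, 2, 0], .sym 2 [0, 2, 3,
      0, 0, 4]⟩ (.n (.n (.n (.n .e ⟨271904, 13, [-2, 2, -2, 0], .lam 3 1 [0, 2, 0, 0, 4, 0]⟩
      .e) ⟨272128, 24, [2, 0, 0, 0], .sym 2 [0, 2, 3, 4, 0, 0]⟩ (.n .e ⟨274452, 41, [9, -6, 8,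
      -1], .low 0 3 [0, 0, 3, 0, 2, 4]⟩ .e)) ⟨274466, 48, [9, -8, 8, -1], .lam 2 1 [0, 3, 0, 0,
      4, 0]⟩ (.n (.n .e ⟨274564, 50, [3, -4, 6, -1], .lam 3 1 [0, 4, 0, 2, 0, 0]⟩ .e) ⟨274592,
      37, [-5, 4, -6, 1], .sym 2 [0, 3, 0, 2, 4, 0]⟩ (.n .e ⟨274690, 57, [0, -2, 2, -2], .lam 2
      1 [0, 3, 0, 4, 0, 0]⟩ .e))) ⟨274704, 39, [-7, 4, -6, 1], .low 0 3 [0, 0, 3, 4, 2, 0]⟩ (.n
      (.n (.n .e ⟨275460, 59, [3, -6, 10, 1], .lam 3 1 [0, 4, 2, 0, 0, 0]⟩ .e) ⟨275488, 18,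
      [-4, 4, -6, 0], .sym 2 [3, 0, 2, 0, 4, 0]⟩ (.n .e ⟨275712, 46, [1, 2, -4, -1], .low 0 4
      [0, 3, 2, 4, 0, 0]⟩ .e)) ⟨276482, 49, [3, -4, 8, 1], .lam 2 1 [0, 3, 4, 0, 0, 0]⟩ (.n (.n
      .e ⟨276496, 19, [-2, 2, -4, 0], .low 0 4 [3, 0, 4, 0, 2, 0]⟩ .e) ⟨276608, 38, [-1, 2, -4,
      -1], .sym 2 [3, 4, 0, 0, 2, 0]⟩ .e))))

def tr322 : Tb :=
  (.n (.n (.n (.n (.n .e ⟨327876, 56, [6, -4, 8, 2], .low 0 3 [3, 0, 0, 2, 0, 4]⟩ .e) ⟨327904, 4,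
      [4, 0, 0, 0], .sym 2 [0, 0, 2, 3, 4, 0]⟩ (.n .e ⟨329220, 23, [0, -4, 4, 0], .lam 3 1 [2,
      0, 4, 0, 0, 0]⟩ .e)) ⟨329248, 16, [-4, 4, -4, 0], .low 0 3 [3, 0, 2, 0, 4, 0]⟩ (.n (.n .e
      ⟨329472, 22, [4, 0, 0, 0], .low 0 4 [3, 0, 0, 2, 4, 0]⟩ .e) ⟨339972, 53, [-6, 4, -12,
      -2], .low 0 3 [3, 4, 0, 0, 0, 2]⟩ (.n .e ⟨340000, 14, [0, 0, 4, 0], .sym 2 [3, 2, 0, 0,
      4, 0]⟩ .e))) ⟨340224, 45, [6, -4, 8, 2], .low 0 3 [3, 4, 0, 2, 0, 0]⟩ (.n (.n (.n .e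
      ⟨342016, 0, [0, 0, 0, 0], .low 0 4 [2, 3, 4, 0, 0, 0]⟩ .e) ⟨360468, 9, [0, 2, 0, 0], .low
      0 3 [0, 3, 0, 0, 2, 4]⟩ (.n .e ⟨360482, 10, [0, -2, 0, 0], .low 0 3 [0, 3, 0, 0, 4, 2]⟩
      .e)) ⟨360580, 44, [3, -2, 4, 1], .lam 3 1 [4, 0, 0, 2, 0, 0]⟩ (.n (.n .e ⟨360608, 5, [2,
      0, 0, 0], .low 0 3 [0, 3, 0, 2, 4, 0]⟩ .e) ⟨360706, 52, [-3, 2, -4, -1], .lam 3 1 [4, 0,
      0, 0, 0, 2]⟩ .e))) ⟨360720, 6, [-2, 0, 0, 0], .low 0 3 [0, 3, 0, 4, 2, 0]⟩ (.n (.n (.n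
      (.n .e ⟨361476, 28, [0, -2, 2, 0], .low 0 3 [3, 0, 2, 0, 0, 4]⟩ .e) ⟨361504, 12, [-2, 2,
      -2, 0], .lam 2 1 [3, 0, 0, 0, 4, 0]⟩ (.n .e ⟨361728, 25, [2, 0, 0, 0], .low 0 3 [3, 0, 2,
      4, 0, 0]⟩ .e)) ⟨362498, 29, [0, 2, -2, 0], .low 0 3 [3, 0, 4, 0, 0, 2]⟩ (.n (.n .e
      ⟨362512, 17, [2, -2, 2, 0], .low 0 3 [0, 3, 4, 0, 2, 0]⟩ .e) ⟨362624, 26, [-2, 0, 0, 0],
      .low 0 3 [3, 0, 4, 2, 0, 0]⟩ (.n .e ⟨368644, 54, [9, -14, 10, -5], .low 0 4 [3, 2, 0, 0,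
      0, 4]⟩ .e))) ⟨368672, 11, [0, 0, 2, 0], .bas 2⟩ (.n (.n (.n .e ⟨368896, 47, [3, -2, 4,
      1], .low 0 4 [3, 4, 0, 2, 0, 0]⟩ .e) ⟨370688, 1, [0, 0, 0, 0], .sym 2 [3, 2, 4, 0, 0, 0]⟩
      (.n .e ⟨376834, 43, [3, -2, 6, 1], .lam 2 1 [3, 4, 0, 0, 0, 0]⟩ .e)) ⟨376848, 15, [0, 0,
      -2, 0], .low 0 4 [3, 4, 0, 0, 2, 0]⟩ (.n (.n .e ⟨376960, 36, [-3, 2, -4, -1], .sym 2 [0,
      0, 3, 4, 2, 0]⟩ .e) ⟨377856, 2, [0, 0, 0, 0], .sym 2 [3, 4, 2, 0, 0, 0]⟩ .e))))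

def tb322 : Tb := .n tl322 ⟨327708, 8, [0, 4, 0, 0], .sym 2 [0, 0, 2, 0, 3, 4]⟩ tr322

def ce322 : Cert where
  cx := cx322
  D := 2
  bk := [270560, 270364, 368672, 263392]
  tb := tb322
  pl := [.lam 2 1 [0, 0, 0, 3, 0, 4]]
  fams := [(FB, [⟨[], [(l 1), (l 3), (l 2)], [(l 4)]⟩, ⟨[], [(b (l 1) (l 2)), (l 3), (l 4)], []⟩])]
  cases := [([([], [2])], [[(1, (b (b (b (l 1) (b (l 3) (l 0))) (b (b (l 2) (l 0)) (l 0))) (l 4))), (-1, (b
      (b (b (b (l 1) (l 0)) (l 3)) (b (b (l 2) (l 0)) (l 0))) (l 4))), (-1, (b (b (b (b (b (l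
      1) (l 0)) (l 0)) (l 3)) (b (l 2) (l 0))) (l 4))), (-2, (b (b (b (b (b (l 1) (l 0)) (l 0))
      (b (l 3) (l 0))) (l 2)) (l 4))), (1, (b (b (b (l 1) (b (l 2) (l 0))) (b (b (l 3) (l 0))
      (l 0))) (l 4))), (2, (b (b (b (b (l 1) (l 0)) (l 2)) (b (b (l 3) (l 0)) (l 0))) (l 4))),
      (1, (b (b (b (b (b (l 1) (l 0)) (l 0)) (b (l 2) (l 0))) (l 3)) (l 4))), (2, (b (b (b (b
      (b (l 1) (l 0)) (l 0)) (l 2)) (b (l 3) (l 0))) (l 4))), (-1, (b (b (b (b (l 1) (l 0)) (b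
      (l 3) (l 0))) (b (l 2) (l 0))) (l 4))), (2, (b (b (b (b (l 1) (l 0)) (b (l 2) (l 0))) (b
      (l 3) (l 0))) (l 4)))]], [.cm 0 2 [1] 0, .cm 0 2 [1] 1]),
    ([([2], [0])], [[(1, (b (b (b (b (l 1) (l 0)) (b (l 3) (l 0))) (b (l 2) (l 0))) (l 4))),
      (-2, (b (b (b (b (l 1) (l 0)) (b (l 2) (l 0))) (b (l 3) (l 0))) (l 4)))]], [.zr 0 2 [1],
      .zr 0 2 [0, 1]]),
    ([([0, 2], [1])], [[(1, (b (b (b (l 1) (b (b (l 3) (l 0)) (l 0))) (b (l 2) (l 0))) (l 4))),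
      (-1, (b (b (b (b (l 1) (l 0)) (b (b (l 3) (l 0)) (l 0))) (l 2)) (l 4))), (-1, (b (b (b (b
      (b (l 1) (l 0)) (l 0)) (l 3)) (b (l 2) (l 0))) (l 4))), (-1, (b (b (b (b (b (b (l 1) (l
      0)) (l 0)) (l 0)) (l 3)) (l 2)) (l 4))), (1, (b (b (b (l 1) (l 2)) (b (b (b (l 3) (l 0))
      (l 0)) (l 0))) (l 4))), (1, (b (b (b (b (l 1) (l 0)) (l 2)) (b (b (l 3) (l 0)) (l 0))) (l
      4))), (1, (b (b (b (b (b (l 1) (l 0)) (l 0)) (l 2)) (b (l 3) (l 0))) (l 4))), (1, (b (b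
      (b (b (b (b (l 1) (l 0)) (l 0)) (l 0)) (l 2)) (l 3)) (l 4))), (-2, (b (b (b (b (l 1) (l
      0)) (b (l 3) (l 0))) (b (l 2) (l 0))) (l 4))), (4, (b (b (b (b (l 1) (l 0)) (b (l 2) (l
      0))) (b (l 3) (l 0))) (l 4)))]], [.zr 0 0 [1], .zr 0 0 [0, 1]]),
    ([([1, 2], [0])], [xvC0, xvC1], [.zr 0 1 [1], .zr 0 1 [0, 1]])]

def z0322 : Zs :=
  [(0, [-3, 4, -4, 1])]

def sv322 : List (List (List (List ℤ))) :=
  [[[[18, -12, 12, -12], [33, -14, 14, 19], [-78, 56, -74, -4]], [[-6, 12, 0, 6], [40, -60, 40,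
      0], [-42, 36, -36, -6]]]]

theorem okt322 : chkTb ce322.cx ce322.tb ce322.D ce322.bk = true :=
  chkTb_node (by decide +kernel) (by decide +kernel) (by decide +kernel)

theorem okz322 : plainZ ce322.cx ce322.tb ce322.pl [] = some z0322 := by decide +kernel

theorem oks322 : famsV ce322.cx ce322.tb ce322.fams = some sv322 := by decide +kernel

theorem okc322 : chkCases ce322 z0322 sv322 ce322.cases = true := by decide +kernel

theorem okv322 : ce322.cov 3 = true := by decide +kernel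

theorem ok322 : (ce322.chk && ce322.cov 3) = true :=
  Cert.ok_of (Cert.chk_of okt322 (by decide) okz322 oks322 okc322) okv322

end Pool.Agent.Lib.MP_b4a71d_al.Eng
end

section

/-!
# MP_b4a71d_al, finite check engine: the conditions of the types
-/

set_option autoImplicit false
set_option linter.unusedSectionVars false

namespace Pool.Agent.Lib.MP_b4a71d_al.Eng

universe u

noncomputable section

variable {F : Type u} [Field F] [CharZero F] {φ : FL F →ₗ[F] F}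

theorem grp44 (h1 : EqS 4 4 φ false {1, 2, 3, 4}) :
    GrpOK cx44 4 φ := by
  refine ⟨?_, ?_, ?_⟩
  · intro g hg
    change g ∈ ([(2, 5, false)] : List Grp) at hg
    simp only [List.mem_cons, List.not_mem_nil, or_false] at hg
    subst hg
    · exact ⟨by decide, by decide, h1.range (by intro a h8 h9; interval_cases a <;> decide)⟩
  · intro j hj1 hj2
    change 2 ≤ j at hj1
    change j < 5 at hj2
    have hj : j ∈ ({1, 2, 3, 4} : Finset ℕ) := by interval_cases j <;> decide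
    exact ⟨by omega, (by omega : j ≤ 4), h1 1 (by decide) j hj (by omega)⟩
  · intro l hl
    change l ∈ ([] : List (List ℕ × List ℕ × Bool)) at hl
    simp at hl

theorem grp431 (h1 : EqS 4 4 φ false {2, 3, 4})
    (g1 : VanW 4 4 (gar φ false {2, 3, 4} 1)) :
    GrpOK cx431 4 φ := by
  refine ⟨?_, ?_, ?_⟩
  · intro g hg
    change g ∈ ([(2, 5, false)] : List Grp) at hg
    simp only [List.mem_cons, List.not_mem_nil, or_false] at hg
    subst hg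
    · exact ⟨by decide, by decide, h1.range (by intro a h8 h9; interval_cases a <;> decide)⟩
  · intro j hj1 hj2
    exact absurd hj2 (Nat.not_lt_zero j)
  · intro l hl
    change l ∈ ([([2, 3, 4], [1], false)] : List (List ℕ × List ℕ × Bool)) at hl
    rw [List.mem_singleton] at hl
    subst hl
    refine ⟨fun m hm => ?_, fun j hj => ?_⟩
    · change m ∈ ([2, 3, 4] : List ℕ) at hm
      change 1 ≤ m ∧ m ≤ 4
      simp only [List.mem_cons, List.not_mem_nil, or_false] at hm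
      omega
    · change j ∈ ([1] : List ℕ) at hj
      simp only [List.mem_cons, List.not_mem_nil, or_false] at hj
      subst hj
      · exact ⟨by decide, gar_list (L := [2, 3, 4]) (by decide) (by
          have h9 : ([2, 3, 4] : List ℕ).toFinset = {2, 3, 4} := by decide
          rw [h9]
          exact g1)⟩

theorem grp422 (h1 : EqS 4 4 φ true {1, 2})
    (h2 : EqS 4 4 φ true {3, 4})
    (g1 : VanW 4 4 (gar φ true {1, 2} 3))
    (g2 : VanW 4 4 (gar φ true {1, 2} 4)) :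
    GrpOK cx422 4 φ := by
  refine ⟨?_, ?_, ?_⟩
  · intro g hg
    change g ∈ ([(2, 3, true), (3, 5, true)] : List Grp) at hg
    simp only [List.mem_cons, List.not_mem_nil, or_false] at hg
    rcases hg with rfl | rfl
    · exact ⟨by decide, by decide, h1.range (by intro a h8 h9; interval_cases a <;> decide)⟩
    · exact ⟨by decide, by decide, h2.range (by intro a h8 h9; interval_cases a <;> decide)⟩
  · intro j hj1 hj2
    change 2 ≤ j at hj1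
    change j < 3 at hj2
    have hj : j ∈ ({1, 2} : Finset ℕ) := by interval_cases j <;> decide
    exact ⟨by omega, (by omega : j ≤ 4), h1 1 (by decide) j hj (by omega)⟩
  · intro l hl
    change l ∈ ([([1, 2], [3, 4], true)] : List (List ℕ × List ℕ × Bool)) at hl
    rw [List.mem_singleton] at hl
    subst hl
    refine ⟨fun m hm => ?_, fun j hj => ?_⟩
    · change m ∈ ([1, 2] : List ℕ) at hm
      change 1 ≤ m ∧ m ≤ 4
      simp only [List.mem_cons, List.not_mem_nil, or_false] at hm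
      omega
    · change j ∈ ([3, 4] : List ℕ) at hj
      simp only [List.mem_cons, List.not_mem_nil, or_false] at hj
      rcases hj with rfl | rfl
      · exact ⟨by decide, gar_list (L := [1, 2]) (by decide) (by
          have h9 : ([1, 2] : List ℕ).toFinset = {1, 2} := by decide
          rw [h9]
          exact g1)⟩
      · exact ⟨by decide, gar_list (L := [1, 2]) (by decide) (by
          have h9 : ([1, 2] : List ℕ).toFinset = {1, 2} := by decide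
          rw [h9]
          exact g2)⟩

theorem grp4211 (h1 : EqS 4 4 φ true {2, 3, 4})
    (g1 : VanW 4 4 (gar φ true {2, 3, 4} 1)) :
    GrpOK cx4211 4 φ := by
  refine ⟨?_, ?_, ?_⟩
  · intro g hg
    change g ∈ ([(2, 5, true)] : List Grp) at hg
    simp only [List.mem_cons, List.not_mem_nil, or_false] at hg
    subst hg
    · exact ⟨by decide, by decide, h1.range (by intro a h8 h9; interval_cases a <;> decide)⟩
  · intro j hj1 hj2
    exact absurd hj2 (Nat.not_lt_zero j)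
  · intro l hl
    change l ∈ ([([2, 3, 4], [1], true)] : List (List ℕ × List ℕ × Bool)) at hl
    rw [List.mem_singleton] at hl
    subst hl
    refine ⟨fun m hm => ?_, fun j hj => ?_⟩
    · change m ∈ ([2, 3, 4] : List ℕ) at hm
      change 1 ≤ m ∧ m ≤ 4
      simp only [List.mem_cons, List.not_mem_nil, or_false] at hm
      omega
    · change j ∈ ([1] : List ℕ) at hj
      simp only [List.mem_cons, List.not_mem_nil, or_false] at hj
      subst hj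
      · exact ⟨by decide, gar_list (L := [2, 3, 4]) (by decide) (by
          have h9 : ([2, 3, 4] : List ℕ).toFinset = {2, 3, 4} := by decide
          rw [h9]
          exact g1)⟩

theorem grp41111 (h1 : EqS 4 4 φ true {1, 2, 3, 4}) :
    GrpOK cx41111 4 φ := by
  refine ⟨?_, ?_, ?_⟩
  · intro g hg
    change g ∈ ([(2, 5, true)] : List Grp) at hg
    simp only [List.mem_cons, List.not_mem_nil, or_false] at hg
    subst hg
    · exact ⟨by decide, by decide, h1.range (by intro a h8 h9; interval_cases a <;> decide)⟩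
  · intro j hj1 hj2
    change 2 ≤ j at hj1
    change j < 5 at hj2
    have hj : j ∈ ({1, 2, 3, 4} : Finset ℕ) := by interval_cases j <;> decide
    exact ⟨by omega, (by omega : j ≤ 4), h1 1 (by decide) j hj (by omega)⟩
  · intro l hl
    change l ∈ ([] : List (List ℕ × List ℕ × Bool)) at hl
    simp at hl

theorem grp311111 (h1 : EqS 5 3 φ true {1, 2, 3, 4, 5}) :
    GrpOK cx311111 3 φ := by
  refine ⟨?_, ?_, ?_⟩
  · intro g hg
    change g ∈ ([(2, 6, true)] : List Grp) at hg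
    simp only [List.mem_cons, List.not_mem_nil, or_false] at hg
    subst hg
    · exact ⟨by decide, by decide, h1.range (by intro a h8 h9; interval_cases a <;> decide)⟩
  · intro j hj1 hj2
    change 2 ≤ j at hj1
    change j < 6 at hj2
    have hj : j ∈ ({1, 2, 3, 4, 5} : Finset ℕ) := by interval_cases j <;> decide
    exact ⟨by omega, (by omega : j ≤ 5), h1 1 (by decide) j hj (by omega)⟩
  · intro l hl
    change l ∈ ([] : List (List ℕ × List ℕ × Bool)) at hl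
    simp at hl

theorem grp32111 (h1 : EqS 5 3 φ true {2, 3, 4, 5})
    (g1 : VanW 5 3 (gar φ true {2, 3, 4, 5} 1)) :
    GrpOK cx32111 3 φ := by
  refine ⟨?_, ?_, ?_⟩
  · intro g hg
    change g ∈ ([(2, 6, true)] : List Grp) at hg
    simp only [List.mem_cons, List.not_mem_nil, or_false] at hg
    subst hg
    · exact ⟨by decide, by decide, h1.range (by intro a h8 h9; interval_cases a <;> decide)⟩
  · intro j hj1 hj2
    exact absurd hj2 (Nat.not_lt_zero j)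
  · intro l hl
    change l ∈ ([([2, 3, 4, 5], [1], true)] : List (List ℕ × List ℕ × Bool)) at hl
    rw [List.mem_singleton] at hl
    subst hl
    refine ⟨fun m hm => ?_, fun j hj => ?_⟩
    · change m ∈ ([2, 3, 4, 5] : List ℕ) at hm
      change 1 ≤ m ∧ m ≤ 5
      simp only [List.mem_cons, List.not_mem_nil, or_false] at hm
      omega
    · change j ∈ ([1] : List ℕ) at hj
      simp only [List.mem_cons, List.not_mem_nil, or_false] at hj
      subst hj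
      · exact ⟨by decide, gar_list (L := [2, 3, 4, 5]) (by decide) (by
          have h9 : ([2, 3, 4, 5] : List ℕ).toFinset = {2, 3, 4, 5} := by decide
          rw [h9]
          exact g1)⟩

theorem grp3221 (h1 : EqS 5 3 φ true {1, 2})
    (h2 : EqS 5 3 φ true {3, 4, 5})
    (g1 : VanW 5 3 (gar φ true {3, 4, 5} 1))
    (g2 : VanW 5 3 (gar φ true {3, 4, 5} 2)) :
    GrpOK cx3221 3 φ := by
  refine ⟨?_, ?_, ?_⟩
  · intro g hg
    change g ∈ ([(2, 3, true), (3, 6, true)] : List Grp) at hg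
    simp only [List.mem_cons, List.not_mem_nil, or_false] at hg
    rcases hg with rfl | rfl
    · exact ⟨by decide, by decide, h1.range (by intro a h8 h9; interval_cases a <;> decide)⟩
    · exact ⟨by decide, by decide, h2.range (by intro a h8 h9; interval_cases a <;> decide)⟩
  · intro j hj1 hj2
    change 2 ≤ j at hj1
    change j < 3 at hj2
    have hj : j ∈ ({1, 2} : Finset ℕ) := by interval_cases j <;> decide
    exact ⟨by omega, (by omega : j ≤ 5), h1 1 (by decide) j hj (by omega)⟩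
  · intro l hl
    change l ∈ ([([3, 4, 5], [1, 2], true)] : List (List ℕ × List ℕ × Bool)) at hl
    rw [List.mem_singleton] at hl
    subst hl
    refine ⟨fun m hm => ?_, fun j hj => ?_⟩
    · change m ∈ ([3, 4, 5] : List ℕ) at hm
      change 1 ≤ m ∧ m ≤ 5
      simp only [List.mem_cons, List.not_mem_nil, or_false] at hm
      omega
    · change j ∈ ([1, 2] : List ℕ) at hj
      simp only [List.mem_cons, List.not_mem_nil, or_false] at hj
      rcases hj with rfl | rfl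
      · exact ⟨by decide, gar_list (L := [3, 4, 5]) (by decide) (by
          have h9 : ([3, 4, 5] : List ℕ).toFinset = {3, 4, 5} := by decide
          rw [h9]
          exact g1)⟩
      · exact ⟨by decide, gar_list (L := [3, 4, 5]) (by decide) (by
          have h9 : ([3, 4, 5] : List ℕ).toFinset = {3, 4, 5} := by decide
          rw [h9]
          exact g2)⟩

theorem grp3311 (h1 : EqS 5 3 φ true {1, 2})
    (h2 : EqS 5 3 φ false {3, 4, 5}) :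
    GrpOK cx3311 3 φ := by
  refine ⟨?_, ?_, ?_⟩
  · intro g hg
    change g ∈ ([(2, 3, true), (3, 6, false)] : List Grp) at hg
    simp only [List.mem_cons, List.not_mem_nil, or_false] at hg
    rcases hg with rfl | rfl
    · exact ⟨by decide, by decide, h1.range (by intro a h8 h9; interval_cases a <;> decide)⟩
    · exact ⟨by decide, by decide, h2.range (by intro a h8 h9; interval_cases a <;> decide)⟩
  · intro j hj1 hj2
    change 2 ≤ j at hj1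
    change j < 3 at hj2
    have hj : j ∈ ({1, 2} : Finset ℕ) := by interval_cases j <;> decide
    exact ⟨by omega, (by omega : j ≤ 5), h1 1 (by decide) j hj (by omega)⟩
  · intro l hl
    change l ∈ ([] : List (List ℕ × List ℕ × Bool)) at hl
    simp at hl

theorem grp332 (h1 : EqS 5 3 φ false {1, 2})
    (h2 : EqS 5 3 φ false {3, 4, 5}) :
    GrpOK cx332 3 φ := by
  refine ⟨?_, ?_, ?_⟩
  · intro g hg
    change g ∈ ([(2, 3, false), (3, 6, false)] : List Grp) at hg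
    simp only [List.mem_cons, List.not_mem_nil, or_false] at hg
    rcases hg with rfl | rfl
    · exact ⟨by decide, by decide, h1.range (by intro a h8 h9; interval_cases a <;> decide)⟩
    · exact ⟨by decide, by decide, h2.range (by intro a h8 h9; interval_cases a <;> decide)⟩
  · intro j hj1 hj2
    change 2 ≤ j at hj1
    change j < 3 at hj2
    have hj : j ∈ ({1, 2} : Finset ℕ) := by interval_cases j <;> decide
    exact ⟨by omega, (by omega : j ≤ 5), h1 1 (by decide) j hj (by omega)⟩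
  · intro l hl
    change l ∈ ([] : List (List ℕ × List ℕ × Bool)) at hl
    simp at hl

theorem grp2111111 (h1 : EqS 6 2 φ true {1, 2, 3, 4, 5, 6}) :
    GrpOK cx2111111 2 φ := by
  refine ⟨?_, ?_, ?_⟩
  · intro g hg
    change g ∈ ([(2, 7, true)] : List Grp) at hg
    simp only [List.mem_cons, List.not_mem_nil, or_false] at hg
    subst hg
    · exact ⟨by decide, by decide, h1.range (by intro a h8 h9; interval_cases a <;> decide)⟩
  · intro j hj1 hj2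
    change 2 ≤ j at hj1
    change j < 7 at hj2
    have hj : j ∈ ({1, 2, 3, 4, 5, 6} : Finset ℕ) := by interval_cases j <;> decide
    exact ⟨by omega, (by omega : j ≤ 6), h1 1 (by decide) j hj (by omega)⟩
  · intro l hl
    change l ∈ ([] : List (List ℕ × List ℕ × Bool)) at hl
    simp at hl

theorem grp221111 (h1 : EqS 6 2 φ true {2, 3, 4, 5, 6})
    (g1 : VanW 6 2 (gar φ true {2, 3, 4, 5, 6} 1)) :
    GrpOK cx221111 2 φ := by
  refine ⟨?_, ?_, ?_⟩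
  · intro g hg
    change g ∈ ([(2, 7, true)] : List Grp) at hg
    simp only [List.mem_cons, List.not_mem_nil, or_false] at hg
    subst hg
    · exact ⟨by decide, by decide, h1.range (by intro a h8 h9; interval_cases a <;> decide)⟩
  · intro j hj1 hj2
    exact absurd hj2 (Nat.not_lt_zero j)
  · intro l hl
    change l ∈ ([([2, 3, 4, 5, 6], [1], true)] : List (List ℕ × List ℕ × Bool)) at hl
    rw [List.mem_singleton] at hl
    subst hl
    refine ⟨fun m hm => ?_, fun j hj => ?_⟩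
    · change m ∈ ([2, 3, 4, 5, 6] : List ℕ) at hm
      change 1 ≤ m ∧ m ≤ 6
      simp only [List.mem_cons, List.not_mem_nil, or_false] at hm
      omega
    · change j ∈ ([1] : List ℕ) at hj
      simp only [List.mem_cons, List.not_mem_nil, or_false] at hj
      subst hj
      · exact ⟨by decide, gar_list (L := [2, 3, 4, 5, 6]) (by decide) (by
          have h9 : ([2, 3, 4, 5, 6] : List ℕ).toFinset = {2, 3, 4, 5, 6} := by decide
          rw [h9]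
          exact g1)⟩

theorem grp22211 (h1 : EqS 6 2 φ true {1, 2})
    (h2 : EqS 6 2 φ true {3, 4, 5, 6})
    (g1 : VanW 6 2 (gar φ true {3, 4, 5, 6} 1))
    (g2 : VanW 6 2 (gar φ true {3, 4, 5, 6} 2)) :
    GrpOK cx22211 2 φ := by
  refine ⟨?_, ?_, ?_⟩
  · intro g hg
    change g ∈ ([(2, 3, true), (3, 7, true)] : List Grp) at hg
    simp only [List.mem_cons, List.not_mem_nil, or_false] at hg
    rcases hg with rfl | rfl
    · exact ⟨by decide, by decide, h1.range (by intro a h8 h9; interval_cases a <;> decide)⟩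
    · exact ⟨by decide, by decide, h2.range (by intro a h8 h9; interval_cases a <;> decide)⟩
  · intro j hj1 hj2
    change 2 ≤ j at hj1
    change j < 3 at hj2
    have hj : j ∈ ({1, 2} : Finset ℕ) := by interval_cases j <;> decide
    exact ⟨by omega, (by omega : j ≤ 6), h1 1 (by decide) j hj (by omega)⟩
  · intro l hl
    change l ∈ ([([3, 4, 5, 6], [1, 2], true)] : List (List ℕ × List ℕ × Bool)) at hl
    rw [List.mem_singleton] at hl
    subst hl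
    refine ⟨fun m hm => ?_, fun j hj => ?_⟩
    · change m ∈ ([3, 4, 5, 6] : List ℕ) at hm
      change 1 ≤ m ∧ m ≤ 6
      simp only [List.mem_cons, List.not_mem_nil, or_false] at hm
      omega
    · change j ∈ ([1, 2] : List ℕ) at hj
      simp only [List.mem_cons, List.not_mem_nil, or_false] at hj
      rcases hj with rfl | rfl
      · exact ⟨by decide, gar_list (L := [3, 4, 5, 6]) (by decide) (by
          have h9 : ([3, 4, 5, 6] : List ℕ).toFinset = {3, 4, 5, 6} := by decide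
          rw [h9]
          exact g1)⟩
      · exact ⟨by decide, gar_list (L := [3, 4, 5, 6]) (by decide) (by
          have h9 : ([3, 4, 5, 6] : List ℕ).toFinset = {3, 4, 5, 6} := by decide
          rw [h9]
          exact g2)⟩

theorem grp2222 (h1 : EqS 6 2 φ true {1, 2, 3})
    (h2 : EqS 6 2 φ true {4, 5, 6})
    (g1 : VanW 6 2 (gar φ true {4, 5, 6} 1))
    (g2 : VanW 6 2 (gar φ true {4, 5, 6} 2))
    (g3 : VanW 6 2 (gar φ true {4, 5, 6} 3)) :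
    GrpOK cx2222 2 φ := by
  refine ⟨?_, ?_, ?_⟩
  · intro g hg
    change g ∈ ([(2, 4, true), (4, 7, true)] : List Grp) at hg
    simp only [List.mem_cons, List.not_mem_nil, or_false] at hg
    rcases hg with rfl | rfl
    · exact ⟨by decide, by decide, h1.range (by intro a h8 h9; interval_cases a <;> decide)⟩
    · exact ⟨by decide, by decide, h2.range (by intro a h8 h9; interval_cases a <;> decide)⟩
  · intro j hj1 hj2
    change 2 ≤ j at hj1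
    change j < 4 at hj2
    have hj : j ∈ ({1, 2, 3} : Finset ℕ) := by interval_cases j <;> decide
    exact ⟨by omega, (by omega : j ≤ 6), h1 1 (by decide) j hj (by omega)⟩
  · intro l hl
    change l ∈ ([([4, 5, 6], [1, 2, 3], true)] : List (List ℕ × List ℕ × Bool)) at hl
    rw [List.mem_singleton] at hl
    subst hl
    refine ⟨fun m hm => ?_, fun j hj => ?_⟩
    · change m ∈ ([4, 5, 6] : List ℕ) at hm
      change 1 ≤ m ∧ m ≤ 6
      simp only [List.mem_cons, List.not_mem_nil, or_false] at hm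
      omega
    · change j ∈ ([1, 2, 3] : List ℕ) at hj
      simp only [List.mem_cons, List.not_mem_nil, or_false] at hj
      rcases hj with rfl | rfl | rfl
      · exact ⟨by decide, gar_list (L := [4, 5, 6]) (by decide) (by
          have h9 : ([4, 5, 6] : List ℕ).toFinset = {4, 5, 6} := by decide
          rw [h9]
          exact g1)⟩
      · exact ⟨by decide, gar_list (L := [4, 5, 6]) (by decide) (by
          have h9 : ([4, 5, 6] : List ℕ).toFinset = {4, 5, 6} := by decide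
          rw [h9]
          exact g2)⟩
      · exact ⟨by decide, gar_list (L := [4, 5, 6]) (by decide) (by
          have h9 : ([4, 5, 6] : List ℕ).toFinset = {4, 5, 6} := by decide
          rw [h9]
          exact g3)⟩

theorem grp31111 (h1 : EqS 4 3 φ true {1, 2, 3, 4}) :
    GrpOK cx31111 3 φ := by
  refine ⟨?_, ?_, ?_⟩
  · intro g hg
    change g ∈ ([(2, 5, true)] : List Grp) at hg
    simp only [List.mem_cons, List.not_mem_nil, or_false] at hg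
    subst hg
    · exact ⟨by decide, by decide, h1.range (by intro a h8 h9; interval_cases a <;> decide)⟩
  · intro j hj1 hj2
    change 2 ≤ j at hj1
    change j < 5 at hj2
    have hj : j ∈ ({1, 2, 3, 4} : Finset ℕ) := by interval_cases j <;> decide
    exact ⟨by omega, (by omega : j ≤ 4), h1 1 (by decide) j hj (by omega)⟩
  · intro l hl
    change l ∈ ([] : List (List ℕ × List ℕ × Bool)) at hl
    simp at hl

theorem grp3211 (h1 : EqS 4 3 φ true {2, 3, 4})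
    (g1 : VanW 4 3 (gar φ true {2, 3, 4} 1)) :
    GrpOK cx3211 3 φ := by
  refine ⟨?_, ?_, ?_⟩
  · intro g hg
    change g ∈ ([(2, 5, true)] : List Grp) at hg
    simp only [List.mem_cons, List.not_mem_nil, or_false] at hg
    subst hg
    · exact ⟨by decide, by decide, h1.range (by intro a h8 h9; interval_cases a <;> decide)⟩
  · intro j hj1 hj2
    exact absurd hj2 (Nat.not_lt_zero j)
  · intro l hl
    change l ∈ ([([2, 3, 4], [1], true)] : List (List ℕ × List ℕ × Bool)) at hl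
    rw [List.mem_singleton] at hl
    subst hl
    refine ⟨fun m hm => ?_, fun j hj => ?_⟩
    · change m ∈ ([2, 3, 4] : List ℕ) at hm
      change 1 ≤ m ∧ m ≤ 4
      simp only [List.mem_cons, List.not_mem_nil, or_false] at hm
      omega
    · change j ∈ ([1] : List ℕ) at hj
      simp only [List.mem_cons, List.not_mem_nil, or_false] at hj
      subst hj
      · exact ⟨by decide, gar_list (L := [2, 3, 4]) (by decide) (by
          have h9 : ([2, 3, 4] : List ℕ).toFinset = {2, 3, 4} := by decide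
          rw [h9]
          exact g1)⟩

theorem grp322 (h1 : EqS 4 3 φ true {1, 2})
    (h2 : EqS 4 3 φ true {3, 4})
    (g1 : VanW 4 3 (gar φ true {1, 2} 3))
    (g2 : VanW 4 3 (gar φ true {1, 2} 4)) :
    GrpOK cx322 3 φ := by
  refine ⟨?_, ?_, ?_⟩
  · intro g hg
    change g ∈ ([(2, 3, true), (3, 5, true)] : List Grp) at hg
    simp only [List.mem_cons, List.not_mem_nil, or_false] at hg
    rcases hg with rfl | rfl
    · exact ⟨by decide, by decide, h1.range (by intro a h8 h9; interval_cases a <;> decide)⟩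
    · exact ⟨by decide, by decide, h2.range (by intro a h8 h9; interval_cases a <;> decide)⟩
  · intro j hj1 hj2
    change 2 ≤ j at hj1
    change j < 3 at hj2
    have hj : j ∈ ({1, 2} : Finset ℕ) := by interval_cases j <;> decide
    exact ⟨by omega, (by omega : j ≤ 4), h1 1 (by decide) j hj (by omega)⟩
  · intro l hl
    change l ∈ ([([1, 2], [3, 4], true)] : List (List ℕ × List ℕ × Bool)) at hl
    rw [List.mem_singleton] at hl
    subst hl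
    refine ⟨fun m hm => ?_, fun j hj => ?_⟩
    · change m ∈ ([1, 2] : List ℕ) at hm
      change 1 ≤ m ∧ m ≤ 4
      simp only [List.mem_cons, List.not_mem_nil, or_false] at hm
      omega
    · change j ∈ ([3, 4] : List ℕ) at hj
      simp only [List.mem_cons, List.not_mem_nil, or_false] at hj
      rcases hj with rfl | rfl
      · exact ⟨by decide, gar_list (L := [1, 2]) (by decide) (by
          have h9 : ([1, 2] : List ℕ).toFinset = {1, 2} := by decide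
          rw [h9]
          exact g1)⟩
      · exact ⟨by decide, gar_list (L := [1, 2]) (by decide) (by
          have h9 : ([1, 2] : List ℕ).toFinset = {1, 2} := by decide
          rw [h9]
          exact g2)⟩

theorem grp331b (h1 : EqS 4 3 φ true {1, 2})
    (h2 : EqS 4 3 φ false {3, 4})
    (g1 : VanW 4 3 (gar φ true {1, 2} 3))
    (g2 : VanW 4 3 (gar φ true {1, 2} 4)) :
    GrpOK cx331b 3 φ := by
  refine ⟨?_, ?_, ?_⟩
  · intro g hg
    change g ∈ ([(2, 3, true), (3, 5, false)] : List Grp) at hg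
    simp only [List.mem_cons, List.not_mem_nil, or_false] at hg
    rcases hg with rfl | rfl
    · exact ⟨by decide, by decide, h1.range (by intro a h8 h9; interval_cases a <;> decide)⟩
    · exact ⟨by decide, by decide, h2.range (by intro a h8 h9; interval_cases a <;> decide)⟩
  · intro j hj1 hj2
    change 2 ≤ j at hj1
    change j < 3 at hj2
    have hj : j ∈ ({1, 2} : Finset ℕ) := by interval_cases j <;> decide
    exact ⟨by omega, (by omega : j ≤ 4), h1 1 (by decide) j hj (by omega)⟩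
  · intro l hl
    change l ∈ ([([1, 2], [3, 4], true)] : List (List ℕ × List ℕ × Bool)) at hl
    rw [List.mem_singleton] at hl
    subst hl
    refine ⟨fun m hm => ?_, fun j hj => ?_⟩
    · change m ∈ ([1, 2] : List ℕ) at hm
      change 1 ≤ m ∧ m ≤ 4
      simp only [List.mem_cons, List.not_mem_nil, or_false] at hm
      omega
    · change j ∈ ([3, 4] : List ℕ) at hj
      simp only [List.mem_cons, List.not_mem_nil, or_false] at hj
      rcases hj with rfl | rfl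
      · exact ⟨by decide, gar_list (L := [1, 2]) (by decide) (by
          have h9 : ([1, 2] : List ℕ).toFinset = {1, 2} := by decide
          rw [h9]
          exact g1)⟩
      · exact ⟨by decide, gar_list (L := [1, 2]) (by decide) (by
          have h9 : ([1, 2] : List ℕ).toFinset = {1, 2} := by decide
          rw [h9]
          exact g2)⟩

theorem grp211111 (h1 : EqS 5 2 φ true {1, 2, 3, 4, 5}) :
    GrpOK cx211111 2 φ := by
  refine ⟨?_, ?_, ?_⟩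
  · intro g hg
    change g ∈ ([(2, 6, true)] : List Grp) at hg
    simp only [List.mem_cons, List.not_mem_nil, or_false] at hg
    subst hg
    · exact ⟨by decide, by decide, h1.range (by intro a h8 h9; interval_cases a <;> decide)⟩
  · intro j hj1 hj2
    change 2 ≤ j at hj1
    change j < 6 at hj2
    have hj : j ∈ ({1, 2, 3, 4, 5} : Finset ℕ) := by interval_cases j <;> decide
    exact ⟨by omega, (by omega : j ≤ 5), h1 1 (by decide) j hj (by omega)⟩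
  · intro l hl
    change l ∈ ([] : List (List ℕ × List ℕ × Bool)) at hl
    simp at hl

theorem grp22111 (h1 : EqS 5 2 φ true {2, 3, 4, 5})
    (g1 : VanW 5 2 (gar φ true {2, 3, 4, 5} 1)) :
    GrpOK cx22111 2 φ := by
  refine ⟨?_, ?_, ?_⟩
  · intro g hg
    change g ∈ ([(2, 6, true)] : List Grp) at hg
    simp only [List.mem_cons, List.not_mem_nil, or_false] at hg
    subst hg
    · exact ⟨by decide, by decide, h1.range (by intro a h8 h9; interval_cases a <;> decide)⟩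
  · intro j hj1 hj2
    exact absurd hj2 (Nat.not_lt_zero j)
  · intro l hl
    change l ∈ ([([2, 3, 4, 5], [1], true)] : List (List ℕ × List ℕ × Bool)) at hl
    rw [List.mem_singleton] at hl
    subst hl
    refine ⟨fun m hm => ?_, fun j hj => ?_⟩
    · change m ∈ ([2, 3, 4, 5] : List ℕ) at hm
      change 1 ≤ m ∧ m ≤ 5
      simp only [List.mem_cons, List.not_mem_nil, or_false] at hm
      omega
    · change j ∈ ([1] : List ℕ) at hj
      simp only [List.mem_cons, List.not_mem_nil, or_false] at hj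
      subst hj
      · exact ⟨by decide, gar_list (L := [2, 3, 4, 5]) (by decide) (by
          have h9 : ([2, 3, 4, 5] : List ℕ).toFinset = {2, 3, 4, 5} := by decide
          rw [h9]
          exact g1)⟩

theorem grp2221 (h1 : EqS 5 2 φ true {1, 2})
    (h2 : EqS 5 2 φ true {3, 4, 5})
    (g1 : VanW 5 2 (gar φ true {3, 4, 5} 1))
    (g2 : VanW 5 2 (gar φ true {3, 4, 5} 2)) :
    GrpOK cx2221 2 φ := by
  refine ⟨?_, ?_, ?_⟩
  · intro g hg
    change g ∈ ([(2, 3, true), (3, 6, true)] : List Grp) at hg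
    simp only [List.mem_cons, List.not_mem_nil, or_false] at hg
    rcases hg with rfl | rfl
    · exact ⟨by decide, by decide, h1.range (by intro a h8 h9; interval_cases a <;> decide)⟩
    · exact ⟨by decide, by decide, h2.range (by intro a h8 h9; interval_cases a <;> decide)⟩
  · intro j hj1 hj2
    change 2 ≤ j at hj1
    change j < 3 at hj2
    have hj : j ∈ ({1, 2} : Finset ℕ) := by interval_cases j <;> decide
    exact ⟨by omega, (by omega : j ≤ 5), h1 1 (by decide) j hj (by omega)⟩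
  · intro l hl
    change l ∈ ([([3, 4, 5], [1, 2], true)] : List (List ℕ × List ℕ × Bool)) at hl
    rw [List.mem_singleton] at hl
    subst hl
    refine ⟨fun m hm => ?_, fun j hj => ?_⟩
    · change m ∈ ([3, 4, 5] : List ℕ) at hm
      change 1 ≤ m ∧ m ≤ 5
      simp only [List.mem_cons, List.not_mem_nil, or_false] at hm
      omega
    · change j ∈ ([1, 2] : List ℕ) at hj
      simp only [List.mem_cons, List.not_mem_nil, or_false] at hj
      rcases hj with rfl | rfl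
      · exact ⟨by decide, gar_list (L := [3, 4, 5]) (by decide) (by
          have h9 : ([3, 4, 5] : List ℕ).toFinset = {3, 4, 5} := by decide
          rw [h9]
          exact g1)⟩
      · exact ⟨by decide, gar_list (L := [3, 4, 5]) (by decide) (by
          have h9 : ([3, 4, 5] : List ℕ).toFinset = {3, 4, 5} := by decide
          rw [h9]
          exact g2)⟩

end

end Pool.Agent.Lib.MP_b4a71d_al.Eng
end

section

/-!
# MP_b4a71d_al: the levels of degree 8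
-/

set_option autoImplicit false
set_option linter.unusedSectionVars false

namespace Pool.Agent.Lib.MP_b4a71d_al.Eng

universe u

noncomputable section

variable {F : Type u} [Field F] [CharZero F]

/-- The relations in degree 6 of the T-ideal `T`: `β`, `α`, `γ` are the values of the functionals
vanishing on the relations of the levels `(3, 3)`, `(2, 4)`, `(4, 2)`. -/
structure Fam3 (T : Submodule F (FL F)) (β α γ : ℕ → F) : Prop where
  b : FamT T FB β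
  a : FamT T FA α
  c : FamT T FC γ

/-- `T` is not one of the two exceptional T-ideals. -/
def NE (β α γ : ℕ → F) : Prop :=
  ¬ ((β 1 = 0 ∧ β 2 = 0 ∧ α 2 = 0) ∨ (β 0 = 0 ∧ β 2 = 0 ∧ α 1 = 0 ∧ γ 0 = 0))

/-- the six cases -/
def kn8 : List Kn := [[([], [0, 2]), ([], []), ([], [])], [([0], [2]), ([], []), ([], [])],
  [([2], [0, 1]), ([], []), ([], [])], [([1, 2], [0]), ([], [2]), ([], [])],
  [([0, 2], [1]), ([], [1]), ([], [])], [([0, 2], [1]), ([], []), ([], [0])]]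

/-- the six cases, the fourth one without a condition on the second family -/
def kn8w : List Kn := [[([], [0, 2]), ([], []), ([], [])], [([0], [2]), ([], []), ([], [])],
  [([2], [0, 1]), ([], []), ([], [])], [([1, 2], [0]), ([], []), ([], [])],
  [([0, 2], [1]), ([], [1]), ([], [])], [([0, 2], [1]), ([], []), ([], [0])]]

def KO (β : ℕ → F) (x : List ℕ × List ℕ) : Prop := (∀ c ∈ x.1, β c = 0) ∧ ∀ c ∈ x.2, β c ≠ 0

theorem knOK3 {β α γ : ℕ → F} {x y z : List ℕ × List ℕ} (hx : KO β x) (hy : KO α y)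
    (hz : KO γ z) : KnOK [β, α, γ] [x, y, z] := by
  intro f u hf β' hβ'
  rcases f with _ | _ | _ | f
  · rw [getL, Option.some.injEq] at hf hβ'
    subst hf hβ'
    exact hx
  · rw [getL, getL, Option.some.injEq] at hf hβ'
    subst hf hβ'
    exact hy
  · rw [getL, getL, getL, Option.some.injEq] at hf hβ'
    subst hf hβ'
    exact hz
  · simp [getL] at hf

theorem FamT.ne3 {T : Submodule F (FL F)} {a b c : Cb} {β : ℕ → F} (h : FamT T [a, b, c] β) :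
    β 0 ≠ 0 ∨ β 1 ≠ 0 ∨ β 2 ≠ 0 := by
  obtain ⟨⟨i, hi, h0⟩, _⟩ := h
  rcases i with _ | _ | _ | i
  · exact Or.inl h0
  · exact Or.inr (Or.inl h0)
  · exact Or.inr (Or.inr h0)
  · simp [getL] at hi

theorem ne_kn {T : Submodule F (FL F)} {β α γ : ℕ → F} (h : Fam3 T β α γ) (hn : NE β α γ) :
    (∃ kn ∈ kn8, KnOK [β, α, γ] kn) ∧ ∃ kn ∈ kn8w, KnOK [β, α, γ] kn := by
  have h0 := FamT.ne3 h.b
  rw [NE, not_or] at hn
  obtain ⟨hS, hH⟩ := hn
  by_cases h2 : β 2 = 0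
  · by_cases h3 : β 0 = 0
    · have h1 : β 1 ≠ 0 := by tauto
      by_cases h4 : α 1 = 0
      · have h5 : γ 0 ≠ 0 := by tauto
        have key : KnOK [β, α, γ] [([0, 2], [1]), ([], []), ([], [0])] :=
          knOK3 ⟨by simp [h2, h3], by simp [h1]⟩ ⟨by simp, by simp⟩ ⟨by simp, by simp [h5]⟩
        exact ⟨⟨_, by simp [kn8], key⟩, ⟨_, by simp [kn8w], key⟩⟩
      · have key : KnOK [β, α, γ] [([0, 2], [1]), ([], [1]), ([], [])] :=
          knOK3 ⟨by simp [h2, h3], by simp [h1]⟩ ⟨by simp, by simp [h4]⟩ ⟨by simp, by simp⟩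
        exact ⟨⟨_, by simp [kn8], key⟩, ⟨_, by simp [kn8w], key⟩⟩
    · by_cases h4 : β 1 = 0
      · have h5 : α 2 ≠ 0 := by tauto
        have key : KnOK [β, α, γ] [([1, 2], [0]), ([], [2]), ([], [])] :=
          knOK3 ⟨by simp [h2, h4], by simp [h3]⟩ ⟨by simp, by simp [h5]⟩ ⟨by simp, by simp⟩
        have key2 : KnOK [β, α, γ] [([1, 2], [0]), ([], []), ([], [])] :=
          knOK3 ⟨by simp [h2, h4], by simp [h3]⟩ ⟨by simp, by simp⟩ ⟨by simp, by simp⟩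
        exact ⟨⟨_, by simp [kn8], key⟩, ⟨_, by simp [kn8w], key2⟩⟩
      · have key : KnOK [β, α, γ] [([2], [0, 1]), ([], []), ([], [])] :=
          knOK3 ⟨by simp [h2], by simp [h3, h4]⟩ ⟨by simp, by simp⟩ ⟨by simp, by simp⟩
        exact ⟨⟨_, by simp [kn8], key⟩, ⟨_, by simp [kn8w], key⟩⟩
  · by_cases h3 : β 0 = 0
    · have key : KnOK [β, α, γ] [([0], [2]), ([], []), ([], [])] :=
        knOK3 ⟨by simp [h3], by simp [h2]⟩ ⟨by simp, by simp⟩ ⟨by simp, by simp⟩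
      exact ⟨⟨_, by simp [kn8], key⟩, ⟨_, by simp [kn8w], key⟩⟩
    · have key : KnOK [β, α, γ] [([], [0, 2]), ([], []), ([], [])] :=
        knOK3 ⟨by simp, by simp [h2, h3]⟩ ⟨by simp, by simp⟩ ⟨by simp, by simp⟩
      exact ⟨⟨_, by simp [kn8], key⟩, ⟨_, by simp [kn8w], key⟩⟩

theorem Cert.zero8 {c : Cert} {d : ℕ} (hok : (c.chk && c.cov d) = true) (hk : 1 ≤ c.cx.k)
    {kns : List Kn}
    (hhd : c.cases.map (fun x => (x.1, x.2.1)) = kns.map (fun k => (k, ([] : List Cb))))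
    {T : Submodule F (FL F)} (hT : IsTIdeal F T) {φ : FL F →ₗ[F] F} (hφ : LF T c.cx.k d φ)
    (hg : GrpOK c.cx d φ) {B : List (ℕ → F)}
    (hkn : ∃ kn ∈ kns, KnOK B kn ∧ FamsW T kn c.fams B) : VanW c.cx.k d φ := by
  obtain ⟨kn, hkn, hk2, hB⟩ := hkn
  have h1 : (kn, ([] : List Cb)) ∈ c.cases.map (fun x => (x.1, x.2.1)) := by
    rw [hhd]
    exact List.mem_map.2 ⟨kn, hkn, rfl⟩
  obtain ⟨x, hx, hx2⟩ := List.mem_map.1 h1
  rw [Prod.mk.injEq] at hx2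
  refine Cert.zero hok hk hT hφ hg (by rw [hx2.1]; exact hB) hx (by rw [hx2.1]; exact hk2) ?_
  rw [hx2.2]
  intro cb hcb
  simp at hcb

variable {T : Submodule F (FL F)} {β α γ : ℕ → F}

theorem Fam3.fams (hf : Fam3 T β α γ) (ob oa oc : List Op) :
    FamsT T [(FB, ob), (FA, oa), (FC, oc)] [β, α, γ] := ⟨hf.b, hf.a, hf.c, trivial⟩

theorem Fam3.kns (hf : Fam3 T β α γ) (ob oa oc : List Op) {kns : List Kn}
    (h : ∃ kn ∈ kns, KnOK [β, α, γ] kn) : ∃ kn ∈ kns, KnOK [β, α, γ] kn ∧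
      FamsW T kn [(FB, ob), (FA, oa), (FC, oc)] [β, α, γ] := by
  obtain ⟨kn, h1, h2⟩ := h
  exact ⟨kn, h1, h2, (hf.fams ob oa oc).weak kn⟩

/-- The knowledge at the point S. -/
theorem s_kns (hB : FamT T FB β) (h1 : β 1 = 0) (h2 : β 2 = 0) (ob oa oc : List Op) :
    ∃ kn ∈ kn8w, KnOK [β, 0, 0] kn ∧
      FamsW T kn [(FB, ob), (FA, oa), (FC, oc)] [β, 0, 0] := by
  have h0 := FamT.ne3 hB
  have h3 : β 0 ≠ 0 := by tauto
  refine ⟨[([1, 2], [0]), ([], []), ([], [])], by simp [kn8w],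
    knOK3 ⟨by simp [h1, h2], by simp [h3]⟩ ⟨by simp, by simp⟩ ⟨by simp, by simp⟩, ?_⟩
  intro f x fm hx hne hfm
  rcases f with _ | _ | _ | f
  · rw [getL, Option.some.injEq] at hfm
    subst hfm
    exact ⟨β, rfl, hB⟩
  · rw [getL, getL, Option.some.injEq] at hx
    exact absurd hx.symm hne
  · rw [getL, getL, getL, Option.some.injEq] at hx
    exact absurd hx.symm hne
  · simp [getL] at hfm

theorem van44 (hT : IsTIdeal F T) (hf : Fam3 T β α γ) (hn : NE β α γ) :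
    ∀ φ ∈ PAdm T 4 4 ∅, EqS 4 4 φ false {1, 2, 3, 4} →
      VanW 4 4 φ :=
  fun _ hφ h1 => Cert.zero8 ok44 (by decide) rfl hT (PAdm.lf hφ) (grp44 h1)
    (hf.kns _ _ _ (ne_kn hf hn).2)

theorem van431 (hT : IsTIdeal F T) (hf : Fam3 T β α γ) (hn : NE β α γ) :
    ∀ φ ∈ PAdm T 4 4 ∅, EqS 4 4 φ false {2, 3, 4} →
      VanW 4 4 (gar φ false {2, 3, 4} 1) →
      VanW 4 4 φ :=
  fun _ hφ h1 g1 => Cert.zero8 ok431 (by decide) rfl hT (PAdm.lf hφ) (grp431 h1 g1)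
    (hf.kns _ _ _ (ne_kn hf hn).1)

theorem van422 (hT : IsTIdeal F T) (hf : Fam3 T β α γ) (hn : NE β α γ) :
    ∀ φ ∈ PAdm T 4 4 ∅, EqS 4 4 φ true {1, 2} →
      EqS 4 4 φ true {3, 4} →
      VanW 4 4 (gar φ true {1, 2} 3) →
      VanW 4 4 (gar φ true {1, 2} 4) →
      VanW 4 4 φ :=
  fun _ hφ h1 h2 g1 g2 => Cert.zero8 ok422 (by decide) rfl hT (PAdm.lf hφ) (grp422 h1 h2 g1 g2)
    (hf.kns _ _ _ (ne_kn hf hn).2)

theorem van4211 (hT : IsTIdeal F T) (hf : Fam3 T β α γ) (hn : NE β α γ) :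
    ∀ φ ∈ PAdm T 4 4 ∅, EqS 4 4 φ true {2, 3, 4} →
      VanW 4 4 (gar φ true {2, 3, 4} 1) →
      VanW 4 4 φ :=
  fun _ hφ h1 g1 => Cert.zero8 ok4211 (by decide) rfl hT (PAdm.lf hφ) (grp4211 h1 g1)
    (hf.kns _ _ _ (ne_kn hf hn).2)

theorem van41111 (hT : IsTIdeal F T) (hf : Fam3 T β α γ) (hn : NE β α γ) :
    ∀ φ ∈ PAdm T 4 4 ∅, EqS 4 4 φ true {1, 2, 3, 4} →
      VanW 4 4 φ :=
  fun _ hφ h1 => Cert.zero8 ok41111 (by decide) rfl hT (PAdm.lf hφ) (grp41111 h1)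
    (hf.kns _ _ _ (ne_kn hf hn).2)

theorem van311111 (hT : IsTIdeal F T) (hf : Fam3 T β α γ) (hn : NE β α γ) :
    ∀ φ ∈ PAdm T 5 3 ∅, EqS 5 3 φ true {1, 2, 3, 4, 5} →
      VanW 5 3 φ :=
  fun _ hφ h1 => Cert.zero8 ok311111 (by decide) rfl hT (PAdm.lf hφ) (grp311111 h1)
    (hf.kns _ _ _ (ne_kn hf hn).2)

theorem van32111 (hT : IsTIdeal F T) (hf : Fam3 T β α γ) (hn : NE β α γ) :
    ∀ φ ∈ PAdm T 5 3 ∅, EqS 5 3 φ true {2, 3, 4, 5} →
      VanW 5 3 (gar φ true {2, 3, 4, 5} 1) →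
      VanW 5 3 φ :=
  fun _ hφ h1 g1 => Cert.zero8 ok32111 (by decide) rfl hT (PAdm.lf hφ) (grp32111 h1 g1)
    (hf.kns _ _ _ (ne_kn hf hn).2)

theorem van3221 (hT : IsTIdeal F T) (hf : Fam3 T β α γ) (hn : NE β α γ) :
    ∀ φ ∈ PAdm T 5 3 ∅, EqS 5 3 φ true {1, 2} →
      EqS 5 3 φ true {3, 4, 5} →
      VanW 5 3 (gar φ true {3, 4, 5} 1) →
      VanW 5 3 (gar φ true {3, 4, 5} 2) →
      VanW 5 3 φ :=
  fun _ hφ h1 h2 g1 g2 => Cert.zero8 ok3221 (by decide) rfl hT (PAdm.lf hφ) (grp3221 h1 h2 g1 g2)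
    (hf.kns _ _ _ (ne_kn hf hn).2)

theorem van3311 (hT : IsTIdeal F T) (hf : Fam3 T β α γ) (hn : NE β α γ) :
    ∀ φ ∈ PAdm T 5 3 ∅, EqS 5 3 φ true {1, 2} →
      EqS 5 3 φ false {3, 4, 5} →
      VanW 5 3 φ :=
  fun _ hφ h1 h2 => Cert.zero8 ok3311 (by decide) rfl hT (PAdm.lf hφ) (grp3311 h1 h2)
    (hf.kns _ _ _ (ne_kn hf hn).2)

theorem van332 (hT : IsTIdeal F T) (hf : Fam3 T β α γ) (hn : NE β α γ) :
    ∀ φ ∈ PAdm T 5 3 ∅, EqS 5 3 φ false {1, 2} →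
      EqS 5 3 φ false {3, 4, 5} →
      VanW 5 3 φ :=
  fun _ hφ h1 h2 => Cert.zero8 ok332 (by decide) rfl hT (PAdm.lf hφ) (grp332 h1 h2)
    (hf.kns _ _ _ (ne_kn hf hn).1)

theorem van2111111 (hT : IsTIdeal F T) (hf : Fam3 T β α γ) (hn : NE β α γ) :
    ∀ φ ∈ PAdm T 6 2 ∅, EqS 6 2 φ true {1, 2, 3, 4, 5, 6} →
      VanW 6 2 φ :=
  fun _ hφ h1 => Cert.zero8 ok2111111 (by decide) rfl hT (PAdm.lf hφ) (grp2111111 h1)
    (hf.kns _ _ _ (ne_kn hf hn).2)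

theorem van221111 (hT : IsTIdeal F T) (hf : Fam3 T β α γ) (hn : NE β α γ) :
    ∀ φ ∈ PAdm T 6 2 ∅, EqS 6 2 φ true {2, 3, 4, 5, 6} →
      VanW 6 2 (gar φ true {2, 3, 4, 5, 6} 1) →
      VanW 6 2 φ :=
  fun _ hφ h1 g1 => Cert.zero8 ok221111 (by decide) rfl hT (PAdm.lf hφ) (grp221111 h1 g1)
    (hf.kns _ _ _ (ne_kn hf hn).2)

theorem van22211 (hT : IsTIdeal F T) (hf : Fam3 T β α γ) (hn : NE β α γ) :
    ∀ φ ∈ PAdm T 6 2 ∅, EqS 6 2 φ true {1, 2} →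
      EqS 6 2 φ true {3, 4, 5, 6} →
      VanW 6 2 (gar φ true {3, 4, 5, 6} 1) →
      VanW 6 2 (gar φ true {3, 4, 5, 6} 2) →
      VanW 6 2 φ :=
  fun _ hφ h1 h2 g1 g2 => Cert.zero8 ok22211 (by decide) rfl hT (PAdm.lf hφ) (grp22211 h1 h2 g1 g2)
    (hf.kns _ _ _ (ne_kn hf hn).2)

theorem van2222 (hT : IsTIdeal F T) (hf : Fam3 T β α γ) (hn : NE β α γ) :
    ∀ φ ∈ PAdm T 6 2 ∅, EqS 6 2 φ true {1, 2, 3} →
      EqS 6 2 φ true {4, 5, 6} →
      VanW 6 2 (gar φ true {4, 5, 6} 1) →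
      VanW 6 2 (gar φ true {4, 5, 6} 2) →
      VanW 6 2 (gar φ true {4, 5, 6} 3) →
      VanW 6 2 φ :=
  fun _ hφ h1 h2 g1 g2 g3 => Cert.zero8 ok2222 (by decide) rfl hT (PAdm.lf hφ) (grp2222 h1 h2 g1 g2 g3)
    (hf.kns _ _ _ (ne_kn hf hn).2)

theorem LZ44 (hT : IsTIdeal F T) (hf : Fam3 T β α γ) (hn : NE β α γ) : LZ T 4 4 :=
  LZ_of_van hT (chain4 (PAdm.stab hT 4 4 ∅) (van44 hT hf hn) (van41111 hT hf hn)
    (van4211 hT hf hn) (van431 hT hf hn) (van422 hT hf hn))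

theorem LZ53 (hT : IsTIdeal F T) (hf : Fam3 T β α γ) (hn : NE β α γ) : LZ T 5 3 :=
  LZ_of_van hT (chain5 (PAdm.stab hT 5 3 ∅) (van311111 hT hf hn) (van32111 hT hf hn)
    (van3221 hT hf hn) (van3311 hT hf hn) (van332 hT hf hn))

theorem LZ62 (hT : IsTIdeal F T) (hf : Fam3 T β α γ) (hn : NE β α γ) : LZ T 6 2 :=
  LZ_of_van hT (chain6 (PAdm.stab hT 6 2 ∅)
    (fun _ hφ h => PAdm.sym hφ (by decide) (by decide) h) (van2111111 hT hf hn)
    (van221111 hT hf hn) (van22211 hT hf hn) (van2222 hT hf hn))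


/-! ### The point S -/

theorem vanS311111 (hT : IsTIdeal F T) (hB : FamT T FB β) (hb1 : β 1 = 0) (hb2 : β 2 = 0) :
    ∀ φ ∈ PAdm T 5 3 ∅, EqS 5 3 φ true {1, 2, 3, 4, 5} →
      VanW 5 3 φ :=
  fun _ hφ h1 => Cert.zero8 ok311111 (by decide) rfl hT (PAdm.lf hφ) (grp311111 h1)
    (s_kns hB hb1 hb2 _ _ _)

theorem vanS32111 (hT : IsTIdeal F T) (hB : FamT T FB β) (hb1 : β 1 = 0) (hb2 : β 2 = 0) :
    ∀ φ ∈ PAdm T 5 3 ∅, EqS 5 3 φ true {2, 3, 4, 5} →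
      VanW 5 3 (gar φ true {2, 3, 4, 5} 1) →
      VanW 5 3 φ :=
  fun _ hφ h1 g1 => Cert.zero8 ok32111 (by decide) rfl hT (PAdm.lf hφ) (grp32111 h1 g1)
    (s_kns hB hb1 hb2 _ _ _)

theorem vanS3221 (hT : IsTIdeal F T) (hB : FamT T FB β) (hb1 : β 1 = 0) (hb2 : β 2 = 0) :
    ∀ φ ∈ PAdm T 5 3 ∅, EqS 5 3 φ true {1, 2} →
      EqS 5 3 φ true {3, 4, 5} →
      VanW 5 3 (gar φ true {3, 4, 5} 1) →
      VanW 5 3 (gar φ true {3, 4, 5} 2) →
      VanW 5 3 φ :=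
  fun _ hφ h1 h2 g1 g2 => Cert.zero8 ok3221 (by decide) rfl hT (PAdm.lf hφ) (grp3221 h1 h2 g1 g2)
    (s_kns hB hb1 hb2 _ _ _)

theorem vanS3311 (hT : IsTIdeal F T) (hB : FamT T FB β) (hb1 : β 1 = 0) (hb2 : β 2 = 0) :
    ∀ φ ∈ PAdm T 5 3 ∅, EqS 5 3 φ true {1, 2} →
      EqS 5 3 φ false {3, 4, 5} →
      VanW 5 3 φ :=
  fun _ hφ h1 h2 => Cert.zero8 ok3311 (by decide) rfl hT (PAdm.lf hφ) (grp3311 h1 h2)
    (s_kns hB hb1 hb2 _ _ _)

theorem vanS2111111 (hT : IsTIdeal F T) (hB : FamT T FB β) (hb1 : β 1 = 0) (hb2 : β 2 = 0) :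
    ∀ φ ∈ PAdm T 6 2 ∅, EqS 6 2 φ true {1, 2, 3, 4, 5, 6} →
      VanW 6 2 φ :=
  fun _ hφ h1 => Cert.zero8 ok2111111 (by decide) rfl hT (PAdm.lf hφ) (grp2111111 h1)
    (s_kns hB hb1 hb2 _ _ _)

theorem vanS221111 (hT : IsTIdeal F T) (hB : FamT T FB β) (hb1 : β 1 = 0) (hb2 : β 2 = 0) :
    ∀ φ ∈ PAdm T 6 2 ∅, EqS 6 2 φ true {2, 3, 4, 5, 6} →
      VanW 6 2 (gar φ true {2, 3, 4, 5, 6} 1) →
      VanW 6 2 φ :=
  fun _ hφ h1 g1 => Cert.zero8 ok221111 (by decide) rfl hT (PAdm.lf hφ) (grp221111 h1 g1)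
    (s_kns hB hb1 hb2 _ _ _)

theorem vanS22211 (hT : IsTIdeal F T) (hB : FamT T FB β) (hb1 : β 1 = 0) (hb2 : β 2 = 0) :
    ∀ φ ∈ PAdm T 6 2 ∅, EqS 6 2 φ true {1, 2} →
      EqS 6 2 φ true {3, 4, 5, 6} →
      VanW 6 2 (gar φ true {3, 4, 5, 6} 1) →
      VanW 6 2 (gar φ true {3, 4, 5, 6} 2) →
      VanW 6 2 φ :=
  fun _ hφ h1 h2 g1 g2 => Cert.zero8 ok22211 (by decide) rfl hT (PAdm.lf hφ) (grp22211 h1 h2 g1 g2)
    (s_kns hB hb1 hb2 _ _ _)

theorem vanS2222 (hT : IsTIdeal F T) (hB : FamT T FB β) (hb1 : β 1 = 0) (hb2 : β 2 = 0) :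
    ∀ φ ∈ PAdm T 6 2 ∅, EqS 6 2 φ true {1, 2, 3} →
      EqS 6 2 φ true {4, 5, 6} →
      VanW 6 2 (gar φ true {4, 5, 6} 1) →
      VanW 6 2 (gar φ true {4, 5, 6} 2) →
      VanW 6 2 (gar φ true {4, 5, 6} 3) →
      VanW 6 2 φ :=
  fun _ hφ h1 h2 g1 g2 g3 => Cert.zero8 ok2222 (by decide) rfl hT (PAdm.lf hφ) (grp2222 h1 h2 g1 g2 g3)
    (s_kns hB hb1 hb2 _ _ _)

/-- At S: functionals on `W 5 3` which are antisymmetric in three letters vanish. -/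
theorem S53_van (hT : IsTIdeal F T) (hB : FamT T FB β) (hb1 : β 1 = 0) (hb2 : β 2 = 0) :
    ∀ A ⊆ Finset.Icc 1 5, A.card = 3 → ∀ φ ∈ PAdm T 5 3 ∅, EqS 5 3 φ true A → VanW 5 3 φ :=
  chain5a (PAdm.stab hT 5 3 ∅) (vanS311111 hT hB hb1 hb2) (vanS32111 hT hB hb1 hb2)
    (vanS3221 hT hB hb1 hb2) (vanS3311 hT hB hb1 hb2)

/-- At S: the functionals of the level `(6, 2)` vanish. -/
theorem S62_van (hT : IsTIdeal F T) (hB : FamT T FB β) (hb1 : β 1 = 0) (hb2 : β 2 = 0) :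
    ∀ φ ∈ PAdm T 6 2 ∅, VanW 6 2 φ :=
  chain6 (PAdm.stab hT 6 2 ∅)
    (fun _ hφ h => PAdm.sym hφ (by decide) (by decide) h) (vanS2111111 hT hB hb1 hb2)
    (vanS221111 hT hB hb1 hb2) (vanS22211 hT hB hb1 hb2) (vanS2222 hT hB hb1 hb2)

/-- At S: the level `(6, 2)` is zero. -/
theorem S62_LZ (hT : IsTIdeal F T) (hB : FamT T FB β) (hb1 : β 1 = 0) (hb2 : β 2 = 0) :
    LZ T 6 2 :=
  LZ_of_van hT (S62_van hT hB hb1 hb2)

end

end Pool.Agent.Lib.MP_b4a71d_al.Eng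
end
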